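import Mathlib

/-!
PROJECT TAM (problem MP_d2aba3_al): `SL_2(ℤ[T;T⁻¹])` is generated by elementary matrices.
Basic definitions. Paper proof: /team-store/tam_paper.txt
-/

namespace Pool.Agent.TAM

open LaurentPolynomial

/-- Rational Laurent polynomials. -/
abbrev RQ := LaurentPolynomial ℚ

/-- Vectors. -/
abbrev W := RQ × RQ

/-- Coefficients, as an additive map. -/
noncomputable def cf (n : ℤ) : RQ →+ ℚ where
  toFun f := f.coeff n
  map_zero' := by simp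
  map_add' f g := by simp

theorem cf_apply (n : ℤ) (f : RQ) : cf n f = f.coeff n := rfl

/-- The determinant of two vectors. -/
noncomputable def wd (x y : W) : RQ := x.1 * y.2 - x.2 * y.1

/-- Integral coefficients. -/
def IsZ (f : RQ) : Prop := ∀ n : ℤ, ∃ k : ℤ, f.coeff n = k

/-- The integral vectors. -/
noncomputable def R2 : AddSubgroup W where
  carrier := {w | IsZ w.1 ∧ IsZ w.2}
  zero_mem' := ⟨fun n => ⟨0, by simp⟩, fun n => ⟨0, by simp⟩⟩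
  add_mem' := by
    rintro a b ⟨h1, h2⟩ ⟨h3, h4⟩
    refine ⟨fun n => ?_, fun n => ?_⟩
    · obtain ⟨k, hk⟩ := h1 n
      obtain ⟨l, hl⟩ := h3 n
      exact ⟨k + l, by simp [hk, hl]⟩
    · obtain ⟨k, hk⟩ := h2 n
      obtain ⟨l, hl⟩ := h4 n
      exact ⟨k + l, by simp [hk, hl]⟩
  neg_mem' := by
    rintro a ⟨h1, h2⟩
    refine ⟨fun n => ?_, fun n => ?_⟩
    · obtain ⟨k, hk⟩ := h1 n
      exact ⟨-k, by simp [hk]⟩
    · obtain ⟨k, hk⟩ := h2 n
      exact ⟨-k, by simp [hk]⟩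

theorem mem_R2 {w : W} : w ∈ R2 ↔ IsZ w.1 ∧ IsZ w.2 := Iff.rfl

/-- The coordinates `z` (with respect to `F = (X, Y)`) of the integral vectors. -/
noncomputable def lat (F : W × W) : AddSubgroup W where
  carrier := {z | z.1 • F.1 + z.2 • F.2 ∈ R2}
  zero_mem' := by
    show (0 : RQ) • F.1 + (0 : RQ) • F.2 ∈ R2
    rw [zero_smul, zero_smul, add_zero]
    exact R2.zero_mem
  add_mem' := by
    intro a b ha hb
    have h := R2.add_mem ha hb
    show (a.1 + b.1) • F.1 + (a.2 + b.2) • F.2 ∈ R2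
    rw [add_smul, add_smul]
    convert h using 1
    abel
  neg_mem' := by
    intro a ha
    have h := R2.neg_mem ha
    show (-a.1) • F.1 + (-a.2) • F.2 ∈ R2
    rw [neg_smul, neg_smul]
    convert h using 1
    abel

theorem mem_lat {F : W × W} {z : W} : z ∈ lat F ↔ z.1 • F.1 + z.2 • F.2 ∈ R2 := Iff.rfl

/-- Polynomials in `T`. -/
def Pt (f : RQ) : Prop := ∀ n : ℤ, n < 0 → f.coeff n = 0

/-- Polynomials in `T⁻¹`. -/
def Ps (f : RQ) : Prop := ∀ n : ℤ, 0 < n → f.coeff n = 0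

/-- Polynomials in `T⁻¹` without constant term. -/
def Ps' (f : RQ) : Prop := ∀ n : ℤ, 0 ≤ n → f.coeff n = 0

/-- The part of `L` in `ℚ[T]²`. -/
noncomputable def E0 (L : AddSubgroup W) : AddSubgroup W where
  carrier := {z | z ∈ L ∧ Pt z.1 ∧ Pt z.2}
  zero_mem' := ⟨L.zero_mem, fun n _ => by simp, fun n _ => by simp⟩
  add_mem' := by
    rintro a b ⟨h, h1, h2⟩ ⟨h', h3, h4⟩
    exact ⟨L.add_mem h h', fun n hn => by simp [h1 n hn, h3 n hn],
      fun n hn => by simp [h2 n hn, h4 n hn]⟩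
  neg_mem' := by
    rintro a ⟨h, h1, h2⟩
    exact ⟨L.neg_mem h, fun n hn => by simp [h1 n hn], fun n hn => by simp [h2 n hn]⟩

/-- The part of `L` in `ℚ[T⁻¹]²`. -/
noncomputable def E1 (L : AddSubgroup W) : AddSubgroup W where
  carrier := {z | z ∈ L ∧ Ps z.1 ∧ Ps z.2}
  zero_mem' := ⟨L.zero_mem, fun n _ => by simp, fun n _ => by simp⟩
  add_mem' := by
    rintro a b ⟨h, h1, h2⟩ ⟨h', h3, h4⟩
    exact ⟨L.add_mem h h', fun n hn => by simp [h1 n hn, h3 n hn],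
      fun n hn => by simp [h2 n hn, h4 n hn]⟩
  neg_mem' := by
    rintro a ⟨h, h1, h2⟩
    exact ⟨L.neg_mem h, fun n hn => by simp [h1 n hn], fun n hn => by simp [h2 n hn]⟩

/-- The part of `L` in `(T⁻¹ℚ[T⁻¹])²`. -/
noncomputable def E1' (L : AddSubgroup W) : AddSubgroup W where
  carrier := {z | z ∈ L ∧ Ps' z.1 ∧ Ps' z.2}
  zero_mem' := ⟨L.zero_mem, fun n _ => by simp, fun n _ => by simp⟩
  add_mem' := by
    rintro a b ⟨h, h1, h2⟩ ⟨h', h3, h4⟩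
    exact ⟨L.add_mem h h', fun n hn => by simp [h1 n hn, h3 n hn],
      fun n hn => by simp [h2 n hn, h4 n hn]⟩
  neg_mem' := by
    rintro a ⟨h, h1, h2⟩
    exact ⟨L.neg_mem h, fun n hn => by simp [h1 n hn], fun n hn => by simp [h2 n hn]⟩

/-- Constant terms. -/
noncomputable def c0 : W →+ ℚ × ℚ where
  toFun z := (z.1.coeff 0, z.2.coeff 0)
  map_zero' := by simp
  map_add' a b := by simp

theorem c0_apply (z : W) : c0 z = (z.1.coeff 0, z.2.coeff 0) := rfl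

/-- The lattice of leading terms at `T = 0`. -/
noncomputable def L0 (L : AddSubgroup W) : AddSubgroup (ℚ × ℚ) := (E0 L).map c0

/-- The lattice of leading terms at `T = ∞`. -/
noncomputable def L1 (L : AddSubgroup W) : AddSubgroup (ℚ × ℚ) := (E1 L).map c0

theorem mem_L0 {L : AddSubgroup W} {p : ℚ × ℚ} :
    p ∈ L0 L ↔ ∃ z ∈ L, Pt z.1 ∧ Pt z.2 ∧ z.1.coeff 0 = p.1 ∧ z.2.coeff 0 = p.2 := by
  constructor
  · rintro ⟨z, ⟨h, h1, h2⟩, rfl⟩
    exact ⟨z, h, h1, h2, rfl, rfl⟩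
  · rintro ⟨z, h, h1, h2, h3, h4⟩
    exact ⟨z, ⟨h, h1, h2⟩, Prod.ext h3 h4⟩

theorem mem_L1 {L : AddSubgroup W} {p : ℚ × ℚ} :
    p ∈ L1 L ↔ ∃ z ∈ L, Ps z.1 ∧ Ps z.2 ∧ z.1.coeff 0 = p.1 ∧ z.2.coeff 0 = p.2 := by
  constructor
  · rintro ⟨z, ⟨h, h1, h2⟩, rfl⟩
    exact ⟨z, h, h1, h2, rfl, rfl⟩
  · rintro ⟨z, h, h1, h2, h3, h4⟩
    exact ⟨z, ⟨h, h1, h2⟩, Prod.ext h3 h4⟩

/-- The index `N`. -/
noncomputable def NN (L : AddSubgroup W) : ℕ := (E0 L ⊔ E1' L).relIndex L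

/-- The determinant on `ℚ²`. -/
def dt (u v : ℚ × ℚ) : ℚ := u.1 * v.2 - u.2 * v.1

/-- `G` has a `ℤ`-basis of determinant `1`. -/
def Uni (G : AddSubgroup (ℚ × ℚ)) : Prop :=
  ∃ u ∈ G, ∃ v ∈ G, dt u v = 1 ∧ ∀ w ∈ G, ∃ m n : ℤ, w = m • u + n • v

/-- Stable under integral Laurent polynomials. -/
def Stb (L : AddSubgroup W) : Prop := ∀ r : RQ, IsZ r → ∀ z ∈ L, r • z ∈ L

/-- Good coordinate lattices. -/
structure Gd (L : AddSubgroup W) : Prop where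
  stb : Stb L
  u0 : Uni (L0 L)
  u1 : Uni (L1 L)
  nz : NN L ≠ 0

/-- Frames: `X ∧ Y` is a power of `T`. -/
def IsFr (F : W × W) : Prop := ∃ m : ℤ, wd F.1 F.2 = T m

/-- Base change. -/
noncomputable def bas (a b c d : ℚ) (F : W × W) : W × W := (a • F.1 + c • F.2, b • F.1 + d • F.2)

/-- Multiplication of the frame by `T`. -/
noncomputable def hm (F : W × W) : W × W := ((T 1 : RQ) • F.1, (T 1 : RQ) • F.2)

/-- The shift `(X, Y) ↦ (X, TY)`. -/
noncomputable def shf (F : W × W) : W × W := (F.1, (T 1 : RQ) • F.2)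

/-- The index of a frame. -/
noncomputable def NF (F : W × W) : ℕ := NN (lat F)

/-- Connectivity of frames by base change, multiplication by `T`, and shifts between frames of
index `< D`. -/
inductive Cn (D : ℕ) : W × W → W × W → Prop
  | refl (F : W × W) : Cn D F F
  | symm {F G : W × W} : Cn D F G → Cn D G F
  | trans {F G H : W × W} : Cn D F G → Cn D G H → Cn D F H
  | base (F : W × W) (a b c d : ℚ) (h : a * d - b * c = 1) : Cn D F (bas a b c d F)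
  | hom (F : W × W) : Cn D F (hm F)
  | shift (F : W × W) (h : NF F < D) (h' : NF (shf F) < D) : Cn D F (shf F)

/-- `v` lies in the plane of a frame of index `< D`. -/
def Al (D : ℕ) (v : W) : Prop := ∃ Y, IsFr (v, Y) ∧ NF (v, Y) < D

/-- `v` and `v'` lie in planes of connected frames of index `< D`. -/
def Sm (D : ℕ) (v v' : W) : Prop :=
  ∃ Y Y', IsFr (v, Y) ∧ IsFr (v', Y') ∧ NF (v, Y) < D ∧ NF (v', Y') < D ∧ Cn D (v, Y) (v', Y')

/-- The vector of the plane of `F` with coordinates `p`. -/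
noncomputable def vec (F : W × W) (p : ℚ × ℚ) : W := p.1 • F.1 + p.2 • F.2

/-- All leading terms on the line of `F.1` are integral vectors. -/
def Triv (F : W × W) : Prop :=
  ∀ c : ℚ, ((c, 0) ∈ L0 (lat F) ∨ (c, 0) ∈ L1 (lat F)) → c • F.1 ∈ R2

/-- The chain of groups: `z ∈ L`, `z.1 ∈ ℚ[T]` with constant term `c`, `z.2 ∈ T^(i+1) ℚ[T]`. -/
def CC (i : ℕ) (L : AddSubgroup W) (c : ℚ) : Prop :=
  ∃ z ∈ L, Pt z.1 ∧ z.1.coeff 0 = c ∧ ∀ n : ℤ, n ≤ i → z.2.coeff n = 0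

/-- `p` spans a line on which the two lattices differ. -/
def ND (G0 G1 : AddSubgroup (ℚ × ℚ)) (p : ℚ × ℚ) : Prop :=
  p ≠ 0 ∧ ¬ ∀ c : ℚ, c • p ∈ G0 ↔ c • p ∈ G1

/-- Bad frames. -/
structure Bd (D : ℕ) (F : W × W) : Prop where
  fr : IsFr F
  nf : NF F = D
  l1 : ∀ p : ℚ × ℚ, p ∈ L1 (lat F) ↔ ∃ m n : ℤ, p = ((m : ℚ), (n : ℚ))
  l0 : ∀ c : ℚ, (c, 0) ∈ L0 (lat F) ↔ ∃ k : ℤ, c = k
  ni : F.1 ∉ R2
  a1 : Al D F.1
  a2 : Al D F.2
  ns : ¬ Sm D F.1 F.2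

/-- Type I frames. -/
def TI (D : ℕ) (F : W × W) : Prop := Bd D F ∧ L0 (lat F) ≠ L1 (lat F)

end Pool.Agent.TAM
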