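import Mathlib
import Pool.Agent.TAM.Defs

/-!
PROJECT TAM: basic API (integral Laurent polynomials, coordinate lattices, frames).
-/

namespace Pool.Agent.TAM

open LaurentPolynomial

/-- The inclusion of integral into rational Laurent polynomials. -/
noncomputable def toQ : LaurentPolynomial ℤ →+* RQ :=
  AddMonoidAlgebra.mapRingHom ℤ (Int.castRingHom ℚ)

theorem toQ_coeff (g : LaurentPolynomial ℤ) (n : ℤ) : (toQ g).coeff n = (g.coeff n : ℚ) := by
  simp [toQ]

theorem toQ_injective : Function.Injective toQ := by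
  intro a b h
  ext n
  have := congrArg (fun f : RQ => f.coeff n) h
  simpa [toQ_coeff] using this

theorem toQ_T (n : ℤ) : toQ (T n) = T n := by
  ext m
  rw [toQ_coeff]
  simp

theorem toQ_C (k : ℤ) : toQ (C k) = C (k : ℚ) := by
  ext m
  rw [toQ_coeff]
  simp only [C_apply]
  split_ifs <;> simp

theorem isZ_toQ (g : LaurentPolynomial ℤ) : IsZ (toQ g) := fun n => ⟨g.coeff n, toQ_coeff g n⟩

theorem isZ_iff {f : RQ} : IsZ f ↔ ∃ g : LaurentPolynomial ℤ, toQ g = f := by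
  constructor
  · intro h
    choose k hk using h
    refine ⟨⟨Finsupp.onFinset f.coeff.support k ?_⟩, ?_⟩
    · intro n hn
      rw [Finsupp.mem_support_iff, hk n]
      exact_mod_cast hn
    · ext n
      rw [toQ_coeff]
      exact (hk n).symm
  · rintro ⟨g, rfl⟩
    exact isZ_toQ g

theorem isZ_zero : IsZ 0 := isZ_iff.2 ⟨0, map_zero _⟩

theorem isZ_one : IsZ 1 := isZ_iff.2 ⟨1, map_one _⟩

theorem isZ_T (n : ℤ) : IsZ (T n) := isZ_iff.2 ⟨T n, toQ_T n⟩

theorem isZ_int (k : ℤ) : IsZ (C (k : ℚ)) := isZ_iff.2 ⟨C k, toQ_C k⟩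

theorem IsZ.add {f g : RQ} (hf : IsZ f) (hg : IsZ g) : IsZ (f + g) := by
  obtain ⟨a, rfl⟩ := isZ_iff.1 hf
  obtain ⟨b, rfl⟩ := isZ_iff.1 hg
  exact isZ_iff.2 ⟨a + b, map_add _ _ _⟩

theorem IsZ.sub {f g : RQ} (hf : IsZ f) (hg : IsZ g) : IsZ (f - g) := by
  obtain ⟨a, rfl⟩ := isZ_iff.1 hf
  obtain ⟨b, rfl⟩ := isZ_iff.1 hg
  exact isZ_iff.2 ⟨a - b, map_sub _ _ _⟩

theorem IsZ.neg {f : RQ} (hf : IsZ f) : IsZ (-f) := by
  obtain ⟨a, rfl⟩ := isZ_iff.1 hf
  exact isZ_iff.2 ⟨-a, map_neg _ _⟩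

theorem IsZ.mul {f g : RQ} (hf : IsZ f) (hg : IsZ g) : IsZ (f * g) := by
  obtain ⟨a, rfl⟩ := isZ_iff.1 hf
  obtain ⟨b, rfl⟩ := isZ_iff.1 hg
  exact isZ_iff.2 ⟨a * b, map_mul _ _ _⟩

theorem IsZ.pow {f : RQ} (hf : IsZ f) (n : ℕ) : IsZ (f ^ n) := by
  obtain ⟨a, rfl⟩ := isZ_iff.1 hf
  exact isZ_iff.2 ⟨a ^ n, map_pow _ _ _⟩

theorem IsZ.int_smul {f : RQ} (hf : IsZ f) (k : ℤ) : IsZ ((k : ℚ) • f) := by
  rw [smul_eq_C_mul]
  exact (isZ_int k).mul hf

/-- Coefficients of a product with `T n`. -/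
theorem coeff_T_mul (n m : ℤ) (f : RQ) : (T n * f).coeff m = f.coeff (m - n) := by
  show ((AddMonoidAlgebra.single n (1 : ℚ)) * f).coeff m = _
  rw [AddMonoidAlgebra.coeff_single_mul_apply, one_mul]
  congr 1
  ring

theorem T_smul_coeff (n m : ℤ) (f : RQ) : ((T n : RQ) • f).coeff m = f.coeff (m - n) :=
  coeff_T_mul n m f

theorem T_neg_smul_T_smul (n : ℤ) (w : W) : (T (-n) : RQ) • ((T n : RQ) • w) = w := by
  rw [smul_smul, ← T_add, neg_add_cancel, T_zero, one_smul]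

theorem T_smul_T_neg_smul (n : ℤ) (w : W) : (T n : RQ) • ((T (-n) : RQ) • w) = w := by
  rw [smul_smul, ← T_add, add_neg_cancel, T_zero, one_smul]

/-- `R2` is stable under integral Laurent polynomials. -/
theorem R2_smul {r : RQ} (hr : IsZ r) {w : W} (hw : w ∈ R2) : r • w ∈ R2 :=
  ⟨hr.mul hw.1, hr.mul hw.2⟩

theorem R2_int_smul (k : ℤ) {w : W} (hw : w ∈ R2) : (k : ℚ) • w ∈ R2 :=
  ⟨hw.1.int_smul k, hw.2.int_smul k⟩

theorem T_smul_mem_R2 {n : ℤ} {w : W} : (T n : RQ) • w ∈ R2 ↔ w ∈ R2 := by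
  constructor
  · intro h
    have := R2_smul (isZ_T (-n)) h
    rwa [T_neg_smul_T_smul] at this
  · exact R2_smul (isZ_T n)

/-- A rational scalar acts as the constant. -/
theorem rat_smul_eq (c : ℚ) (w : W) : c • w = (C c : RQ) • w := by
  refine Prod.ext ?_ ?_
  · show c • w.1 = C c * w.1
    rw [smul_eq_C_mul]
  · show c • w.2 = C c * w.2
    rw [smul_eq_C_mul]

theorem lat_stb (F : W × W) : Stb (lat F) := by
  intro r hr z hz
  show (r • z).1 • F.1 + (r • z).2 • F.2 ∈ R2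
  have h := R2_smul hr (mem_lat.1 hz)
  rw [smul_add, smul_smul, smul_smul] at h
  exact h

theorem wd_add_left (x y z : W) : wd (x + y) z = wd x z + wd y z := by
  simp only [wd, Prod.fst_add, Prod.snd_add]; ring

theorem wd_add_right (x y z : W) : wd x (y + z) = wd x y + wd x z := by
  simp only [wd, Prod.fst_add, Prod.snd_add]; ring

theorem wd_smul_left (f : RQ) (x y : W) : wd (f • x) y = f * wd x y := by
  simp only [wd, Prod.smul_fst, Prod.smul_snd, smul_eq_mul]; ring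

theorem wd_smul_right (f : RQ) (x y : W) : wd x (f • y) = f * wd x y := by
  simp only [wd, Prod.smul_fst, Prod.smul_snd, smul_eq_mul]; ring

theorem wd_rat_smul_left (c : ℚ) (x y : W) : wd (c • x) y = C c * wd x y := by
  rw [rat_smul_eq, wd_smul_left]

theorem wd_rat_smul_right (c : ℚ) (x y : W) : wd x (c • y) = C c * wd x y := by
  rw [rat_smul_eq, wd_smul_right]

theorem wd_self (x : W) : wd x x = 0 := by
  simp only [wd]; ring

theorem wd_swap (x y : W) : wd y x = - wd x y := by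
  simp only [wd]; ring

theorem wd_isZ {x y : W} (hx : x ∈ R2) (hy : y ∈ R2) : IsZ (wd x y) :=
  (hx.1.mul hy.2).sub (hx.2.mul hy.1)

/-- Membership in the lattice of a changed frame. -/
theorem mem_lat_bas {a b c d : ℚ} {F : W × W} {z : W} :
    z ∈ lat (bas a b c d F) ↔ (a • z.1 + b • z.2, c • z.1 + d • z.2) ∈ lat F := by
  rw [mem_lat, mem_lat]
  have : z.1 • (bas a b c d F).1 + z.2 • (bas a b c d F).2 =
      (a • z.1 + b • z.2, c • z.1 + d • z.2).1 • F.1 +
      (a • z.1 + b • z.2, c • z.1 + d • z.2).2 • F.2 := by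
    simp only [bas]
    refine Prod.ext ?_ ?_ <;>
    · simp only [Prod.fst_add, Prod.snd_add, Prod.smul_fst, Prod.smul_snd, smul_eq_mul,
        smul_eq_C_mul]
      ring
  rw [this]

theorem mem_lat_shf {F : W × W} {z : W} : z ∈ lat (shf F) ↔ (z.1, T 1 * z.2) ∈ lat F := by
  rw [mem_lat, mem_lat]
  have : z.1 • (shf F).1 + z.2 • (shf F).2 = z.1 • F.1 + (T 1 * z.2) • F.2 := by
    simp only [shf]
    rw [smul_smul, mul_comm z.2]
  rw [this]

theorem lat_hm (F : W × W) : lat (hm F) = lat F := by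
  ext z
  rw [mem_lat, mem_lat]
  have : z.1 • (hm F).1 + z.2 • (hm F).2 = (T 1 : RQ) • (z.1 • F.1 + z.2 • F.2) := by
    simp only [hm]
    rw [smul_add, smul_smul, smul_smul, smul_smul, smul_smul, mul_comm z.1, mul_comm z.2]
  rw [this, T_smul_mem_R2]

theorem isFr_bas {a b c d : ℚ} (h : a * d - b * c = 1) {F : W × W} (hF : IsFr F) :
    IsFr (bas a b c d F) := by
  obtain ⟨m, hm⟩ := hF
  refine ⟨m, ?_⟩
  rw [← hm]
  have h1 : (C a * C d - C b * C c : RQ) = 1 := by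
    rw [← map_mul, ← map_mul, ← map_sub, h, map_one]
  have : wd (bas a b c d F).1 (bas a b c d F).2 = (C a * C d - C b * C c) * wd F.1 F.2 := by
    simp only [bas, wd, Prod.fst_add, Prod.snd_add, Prod.smul_fst, Prod.smul_snd, smul_eq_C_mul]
    ring
  rw [this, h1, one_mul]

theorem isFr_shf {F : W × W} (hF : IsFr F) : IsFr (shf F) := by
  obtain ⟨m, hm⟩ := hF
  refine ⟨1 + m, ?_⟩
  rw [T_add, ← hm]
  exact wd_smul_right _ _ _

theorem isFr_hm {F : W × W} (hF : IsFr F) : IsFr (hm F) := by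
  obtain ⟨m, h⟩ := hF
  refine ⟨1 + (1 + m), ?_⟩
  rw [T_add, T_add, ← h]
  show wd ((T 1 : RQ) • F.1) ((T 1 : RQ) • F.2) = _
  rw [wd_smul_left, wd_smul_right]

theorem isFr_of_shf {F : W × W} (hF : IsFr (shf F)) : IsFr F := by
  obtain ⟨m, h⟩ := hF
  refine ⟨-1 + m, ?_⟩
  rw [T_add, ← h]
  show _ = T (-1) * wd F.1 ((T 1 : RQ) • F.2)
  rw [wd_smul_right, ← mul_assoc, ← T_add, neg_add_cancel, T_zero, one_mul]

theorem isFr_of_hm {F : W × W} (hF : IsFr (hm F)) : IsFr F := by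
  obtain ⟨m, h⟩ := hF
  refine ⟨-2 + m, ?_⟩
  rw [T_add, ← h]
  show _ = T (-2) * wd ((T 1 : RQ) • F.1) ((T 1 : RQ) • F.2)
  rw [wd_smul_left, wd_smul_right, ← mul_assoc, ← mul_assoc, ← T_add, ← T_add]
  norm_num

/-- Coordinates with respect to a frame. -/
theorem frame_coord {F : W × W} {m : ℤ} (hm : wd F.1 F.2 = T m) (w : W) :
    w = (T (-m) * wd w F.2) • F.1 + (T (-m) * wd F.1 w) • F.2 := by
  have h1 : (T (-m) * T m : RQ) = 1 := by rw [← T_add, neg_add_cancel, T_zero]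
  rw [← hm] at h1
  have e1 : w.1 = T (-m) * wd F.1 F.2 * w.1 := by rw [h1, one_mul]
  have e2 : w.2 = T (-m) * wd F.1 F.2 * w.2 := by rw [h1, one_mul]
  refine Prod.ext ?_ ?_
  · simp only [Prod.fst_add, Prod.smul_fst, smul_eq_mul]
    rw [e1]
    simp only [wd]
    ring
  · simp only [Prod.snd_add, Prod.smul_snd, smul_eq_mul]
    rw [e2]
    simp only [wd]
    ring

theorem frame_coord_unique {F : W × W} (hF : IsFr F) {a b c d : RQ}
    (h : a • F.1 + b • F.2 = c • F.1 + d • F.2) : a = c ∧ b = d := by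
  obtain ⟨m, hm⟩ := hF
  have hT : IsUnit (wd F.1 F.2) := by rw [hm]; exact isUnit_T m
  have h1 := congrArg (fun v => wd v F.2) h
  have h2 := congrArg (fun v => wd F.1 v) h
  simp only [wd_add_left, wd_add_right, wd_smul_left, wd_smul_right, wd_self, mul_zero, add_zero,
    zero_add] at h1 h2
  exact ⟨hT.mul_right_cancel h1, hT.mul_right_cancel h2⟩

theorem bas_fst (a b c d : ℚ) (F : W × W) : (bas a b c d F).1 = vec F (a, c) := rfl

theorem bas_snd (a b c d : ℚ) (F : W × W) : (bas a b c d F).2 = vec F (b, d) := rfl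

theorem bas_bas (a b c d a' b' c' d' : ℚ) (F : W × W) :
    bas a' b' c' d' (bas a b c d F) =
      bas (a * a' + b * c') (a * b' + b * d') (c * a' + d * c') (c * b' + d * d') F := by
  simp only [bas]
  refine Prod.ext ?_ ?_ <;>
  · simp only [smul_add, smul_smul, add_smul]
    refine Prod.ext ?_ ?_ <;>
    · simp only [Prod.fst_add, Prod.snd_add, Prod.smul_fst, Prod.smul_snd, smul_eq_C_mul, map_mul]
      ring

theorem bas_one (F : W × W) : bas 1 0 0 1 F = F := by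
  simp [bas]

theorem vec_bas (a b c d : ℚ) (F : W × W) (p : ℚ × ℚ) :
    vec (bas a b c d F) p = vec F (a * p.1 + b * p.2, c * p.1 + d * p.2) := by
  simp only [vec, bas]
  refine Prod.ext ?_ ?_ <;>
  · simp only [Prod.fst_add, Prod.snd_add, Prod.smul_fst, Prod.smul_snd, smul_eq_C_mul, map_mul,
      map_add]
    ring

theorem vec_smul (F : W × W) (c : ℚ) (p : ℚ × ℚ) : vec F (c • p) = c • vec F p := by
  simp only [vec, Prod.smul_fst, Prod.smul_snd, smul_eq_mul, smul_add, smul_smul]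

/-- The constant vector `p` lies in `lat F` iff `vec F p` is integral. -/
theorem const_mem_lat {F : W × W} {p : ℚ × ℚ} :
    ((C p.1 : RQ), (C p.2 : RQ)) ∈ lat F ↔ vec F p ∈ R2 := by
  rw [mem_lat]
  simp only [vec, rat_smul_eq]

end Pool.Agent.TAM
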