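import Mathlib
import Pool.Agent.TAM.Basic

/-!
PROJECT TAM, module Euc: every frame is obtained from the standard frame by bas, hm, shf, and their inverses (Euclid in ℚ[T;T⁻¹]).
PLAN.
1. Rch (bas g F) → Rch F (inverse matrix, bas_bas, bas_one).  Swap: `bas 0 (-1) 1 0 F = (F.2, -F.1)`.
2. Rch (X, Y) → Rch (X, T⁻¹ Y) and Rch (X, TY) → Rch (X, Y): `(X, T⁻¹ Y)`: swap (Y, -X), shf (Y, -TX), swap back (TX, Y) = hm (X, T⁻¹ Y), so hm'.
   Conversely from Rch (shf F) get Rch F by this applied to shf F.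
3. Column operations: Rch (X, Y) ↔ Rch (X, Y + (C c * T n) • X): via `(X, T^(-n) Y)`, bas 1 c 0 1, `(X, T^n ..)`; hence Rch (X, Y) ↔ Rch (X, Y + f • X) for all
   f (induction on f, LaurentPolynomial.induction_on' ), and by swapping Rch (X, Y) ↔ Rch (X + f • Y, Y).
4. Euclid on the first components `X.1, Y.1`: for `f, g` in ℚ[T;T⁻¹], measure = width (for f ≠ 0: natDegree of the polynomial `T^k f` not divisible by X), or use
   `f = T^a p`, `g = T^b p'` with p, p' polynomials with nonzero constant term, `p % p'` for natDegree p ≥ natDegree p'. Strong induction on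
   the sum of the widths: reach `X.1 = 0` or `Y.1 = 0`; by swapping `Y.1 = 0`. Then `X.1 * Y.2 = T m`, so `X.1, Y.2` are units of
   ℚ[T;T⁻¹], `X.1 = C c * T k`, `Y.2 = C c⁻¹ * T (m - k)` with c ≠ 0 (units: from `X.1 * Y.2 = T m`, compare top and bottom degrees, or
   `LaurentPolynomial` unit lemma). Clear `X.2` by adding a multiple of Y to X: `X = (C c * T k, 0)`, `Y = (0, C c⁻¹ T (m-k))`: this is
   bas c 0 0 c⁻¹ of `(T k • e1, T (m - k) • e2)`, which is reached from the standard frame by hm, shf and inverses.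
-/

namespace Pool.Agent.TAM

open LaurentPolynomial

/-- The standard frame. -/
noncomputable def e12 : W × W := ((1, 0), (0, 1))

/-- Frames reached from the standard frame. -/
inductive Rch : W × W → Prop
  | one : Rch e12
  | bas (F : W × W) (a b c d : ℚ) (h : a * d - b * c = 1) : Rch F → Rch (bas a b c d F)
  | shf (F : W × W) : Rch F → Rch (shf F)
  | hm (F : W × W) : Rch F → Rch (hm F)
  | hm' (F : W × W) : Rch (hm F) → Rch F

private theorem rch_bas_iff {a b c d : ℚ} (h : a * d - b * c = 1) (F : W × W) :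
    Rch (bas a b c d F) ↔ Rch F := by
  constructor
  · intro hF
    have h1 := Rch.bas _ d (-b) (-c) a (by linarith) hF
    rw [bas_bas] at h1
    have e1 : a * d + b * -c = 1 := by linarith
    have e2 : a * -b + b * a = 0 := by ring
    have e3 : c * d + d * -c = 0 := by ring
    have e4 : c * -b + d * a = 1 := by linarith
    rw [e1, e2, e3, e4, bas_one] at h1
    exact h1
  · exact Rch.bas F a b c d h

private theorem rch_swap_iff (X Y : W) : Rch (Y, -X) ↔ Rch (X, Y) := by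
  have h := rch_bas_iff (a := 0) (b := -1) (c := 1) (d := 0) (by norm_num) (X, Y)
  have e : bas 0 (-1) 1 0 (X, Y) = (Y, -X) := by simp [bas]
  rwa [e] at h

private theorem rch_neg_iff (X Y : W) : Rch (-X, -Y) ↔ Rch (X, Y) := by
  have h := rch_bas_iff (a := -1) (b := 0) (c := 0) (d := -1) (by norm_num) (X, Y)
  have e : bas (-1) 0 0 (-1) (X, Y) = (-X, -Y) := by simp [bas]
  rwa [e] at h

private theorem rch_add_iff (c : ℚ) (X Y : W) : Rch (X, c • X + Y) ↔ Rch (X, Y) := by
  have h := rch_bas_iff (a := 1) (b := c) (c := 0) (d := 1) (by norm_num) (X, Y)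
  have e : bas 1 c 0 1 (X, Y) = (X, c • X + Y) := by simp [bas]
  rwa [e] at h

private theorem rch_diag_iff {c : ℚ} (hc : c ≠ 0) (X Y : W) :
    Rch (c • X, c⁻¹ • Y) ↔ Rch (X, Y) := by
  have h := rch_bas_iff (a := c) (b := 0) (c := 0) (d := c⁻¹) (by field_simp; simp) (X, Y)
  have e : bas c 0 0 c⁻¹ (X, Y) = (c • X, c⁻¹ • Y) := by simp [bas]
  rwa [e] at h

private theorem rch_T_one (X Y : W) (h : Rch (X, Y)) : Rch (X, (T 1 : RQ) • Y) :=
  Rch.shf (X, Y) h

private theorem rch_T_neg_one (X Y : W) (h : Rch (X, Y)) : Rch (X, (T (-1) : RQ) • Y) := by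
  have h1 := rch_T_one _ _ ((rch_swap_iff X Y).2 h)
  have h2 := (rch_swap_iff _ _).2 h1
  have h3 := (rch_neg_iff _ _).2 h2
  apply Rch.hm'
  have e : hm (X, (T (-1) : RQ) • Y) = (-((T 1 : RQ) • -X), - -Y) := by
    simp only [hm]
    rw [T_smul_T_neg_smul, smul_neg, neg_neg, neg_neg]
  rw [e]
  exact h3

private theorem rch_T_iff (n : ℤ) (X Y : W) : Rch (X, (T n : RQ) • Y) ↔ Rch (X, Y) := by
  have hone : ∀ X Y : W, Rch (X, (T 1 : RQ) • Y) ↔ Rch (X, Y) := by
    intro X Y
    constructor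
    · intro h
      have := rch_T_neg_one _ _ h
      rwa [T_neg_smul_T_smul] at this
    · exact rch_T_one X Y
  have hneg : ∀ X Y : W, Rch (X, (T (-1) : RQ) • Y) ↔ Rch (X, Y) := by
    intro X Y
    constructor
    · intro h
      have := rch_T_one _ _ h
      rwa [T_smul_T_neg_smul] at this
    · exact rch_T_neg_one X Y
  induction n using Int.induction_on with
  | zero => rw [T_zero, one_smul]
  | succ n ih =>
    rw [T_add, mul_comm, mul_smul, hone]
    exact ih
  | pred n ih =>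
    rw [T_sub, mul_comm, mul_smul, hneg]
    exact ih

private theorem rch_T_iff' (n : ℤ) (X Y : W) : Rch ((T n : RQ) • X, Y) ↔ Rch (X, Y) := by
  rw [← rch_swap_iff, ← smul_neg, rch_T_iff, rch_swap_iff]

private theorem rch_mono_iff (c : ℚ) (n : ℤ) (X Y : W) :
    Rch (X, Y + (C c * T n : RQ) • X) ↔ Rch (X, Y) := by
  rw [← rch_T_iff (-n) X (Y + (C c * T n : RQ) • X)]
  have e : (T (-n) : RQ) • (Y + (C c * T n : RQ) • X) = c • X + (T (-n) : RQ) • Y := by
    rw [smul_add, smul_smul, rat_smul_eq, add_comm]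
    congr 2
    rw [mul_comm, mul_assoc, ← T_add, add_neg_cancel, T_zero, mul_one]
  rw [e, rch_add_iff, rch_T_iff]

private theorem rch_elem_iff (f : RQ) (X Y : W) : Rch (X, Y + f • X) ↔ Rch (X, Y) := by
  induction f using LaurentPolynomial.induction_on' generalizing Y with
  | add p q hp hq =>
    rw [add_smul, ← add_assoc, hq, hp]
  | C_mul_T n a => exact rch_mono_iff a n X Y

private theorem unit_form {f g : RQ} {c : ℚ} {m : ℤ} (hc : c ≠ 0) (h : f * g = C c * T m) :
    ∃ (u : ℚ) (k : ℤ), u ≠ 0 ∧ f = C u * T k := by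
  obtain ⟨n, f', hf⟩ := exists_T_pow f
  obtain ⟨n', g', hg⟩ := exists_T_pow g
  have hN : ∃ N : ℕ, m + n + n' + m.natAbs = (N : ℤ) := by
    refine ⟨(m + n + n' + m.natAbs).toNat, ?_⟩
    rw [Int.toNat_of_nonneg]
    omega
  obtain ⟨N, hN⟩ := hN
  have h1 : Polynomial.toLaurent (f' * (g' * Polynomial.X ^ m.natAbs)) =
      Polynomial.toLaurent (Polynomial.C c * Polynomial.X ^ N) := by
    rw [map_mul, map_mul, Polynomial.toLaurent_X_pow, hf, hg, Polynomial.toLaurent_C_mul_X_pow,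
      ← hN]
    have : f * T (n : ℤ) * (g * T (n' : ℤ) * T (m.natAbs : ℤ)) =
        (f * g) * (T (n : ℤ) * T (n' : ℤ) * T (m.natAbs : ℤ)) := by ring
    rw [this, h, T_add, T_add, T_add]
    ring
  have h2 := Polynomial.toLaurent_injective h1
  have h3 : f' ∣ Polynomial.X ^ N := by
    refine ⟨g' * Polynomial.X ^ m.natAbs * Polynomial.C c⁻¹, ?_⟩
    have : f' * (g' * Polynomial.X ^ m.natAbs * Polynomial.C c⁻¹) =
        (f' * (g' * Polynomial.X ^ m.natAbs)) * Polynomial.C c⁻¹ := by ring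
    rw [this, h2]
    have hcc : (Polynomial.C c * Polynomial.C c⁻¹ : Polynomial ℚ) = 1 := by
      rw [← Polynomial.C_mul, mul_inv_cancel₀ hc, Polynomial.C_1]
    calc (Polynomial.X ^ N : Polynomial ℚ) = 1 * Polynomial.X ^ N := (one_mul _).symm
      _ = _ := by rw [← hcc]; ring
  obtain ⟨i, _, hi⟩ := (dvd_prime_pow Polynomial.prime_X N).1 h3
  obtain ⟨v, hv⟩ := hi.symm
  obtain ⟨a, ha, hav⟩ := Polynomial.isUnit_iff.1 v.isUnit
  refine ⟨a, (i : ℤ) - n, ha.ne_zero, ?_⟩
  have h4 : f = Polynomial.toLaurent f' * T (-(n : ℤ)) := by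
    rw [hf, mul_assoc, ← T_add, add_neg_cancel, T_zero, mul_one]
  rw [h4, ← hv, ← hav, mul_comm (Polynomial.X ^ i) _, Polynomial.toLaurent_C_mul_X_pow, T_sub]
  ring

private theorem rch_base {X Y : W} {c : ℚ} {m : ℤ} (hc : c ≠ 0) (hX : X.1 = 0)
    (h : wd X Y = C c * T m) : Rch (X, c⁻¹ • Y) := by
  have h1 : Y.1 * (-X.2) = C c * T m := by
    rw [← h]
    simp only [wd, hX]
    ring
  obtain ⟨u, k, hu, hk⟩ := unit_form hc h1
  have huu : (C u * C u⁻¹ : RQ) = 1 := by rw [← map_mul, mul_inv_cancel₀ hu, map_one]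
  have hX2 : X.2 = C (-(c / u)) * T (m - k) := by
    have h2 : C u⁻¹ * T (-k) * (Y.1 * (-X.2)) = C u⁻¹ * T (-k) * (C c * T m) := by rw [h1]
    have h3 : C u⁻¹ * T (-k) * (Y.1 * (-X.2)) = -X.2 := by
      rw [hk]
      have h5 : (T (-k) * T k : RQ) = 1 := by rw [← T_add, neg_add_cancel, T_zero]
      calc C u⁻¹ * T (-k) * (C u * T k * -X.2) = (C u * C u⁻¹) * (T (-k) * T k) * -X.2 := by ring
        _ = -X.2 := by rw [huu, h5]; ring
    rw [h3] at h2
    have h4 : X.2 = -(C u⁻¹ * T (-k) * (C c * T m)) := by rw [← h2, neg_neg]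
    rw [h4, T_sub, map_neg, div_eq_mul_inv, map_mul]
    ring
  set a : ℚ := -(c / u) with ha
  have ha0 : a ≠ 0 := by rw [ha]; simp [hc, hu]
  have haa : (C a * C a⁻¹ : RQ) = 1 := by rw [← map_mul, mul_inv_cancel₀ ha0, map_one]
  -- clear the second component of `Y`
  rw [← rch_elem_iff (-(C c⁻¹ * Y.2) * (C a⁻¹ * T (-(m - k)))) X (c⁻¹ • Y)]
  have e1 : X = (T (m - k) : RQ) • (a • ((0, 1) : W)) := by
    refine Prod.ext ?_ ?_
    · simp [hX]
    · rw [hX2]
      simp only [Prod.smul_snd, smul_eq_C_mul, smul_eq_mul]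
      ring
  have e2 : c⁻¹ • Y + (-(C c⁻¹ * Y.2) * (C a⁻¹ * T (-(m - k)))) • X =
      (T k : RQ) • (a⁻¹ • ((-1, 0) : W)) := by
    refine Prod.ext ?_ ?_
    · simp only [Prod.fst_add, Prod.smul_fst, smul_eq_C_mul, smul_eq_mul, hX, hk]
      have : (C a⁻¹ : RQ) = -(C c⁻¹ * C u) := by
        rw [← map_mul, ← map_neg, ha]
        congr 1
        field_simp
      rw [this]
      ring
    · simp only [Prod.snd_add, Prod.smul_snd, smul_eq_C_mul, smul_eq_mul, hX2]
      have h5 : (T (-(m - k)) * T (m - k) : RQ) = 1 := by rw [← T_add, neg_add_cancel, T_zero]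
      calc C c⁻¹ * Y.2 + -(C c⁻¹ * Y.2) * (C a⁻¹ * T (-(m - k))) * (C a * T (m - k))
          = C c⁻¹ * Y.2 - C c⁻¹ * Y.2 * ((C a * C a⁻¹) * (T (-(m - k)) * T (m - k))) := by ring
        _ = 0 := by rw [haa, h5]; ring
        _ = _ := by ring
  rw [e2]
  rw [e1]
  rw [rch_T_iff, rch_T_iff', rch_diag_iff ha0]
  have e3 : ((-1, 0) : W) = -((1, 0) : W) := by simp
  rw [e3, rch_swap_iff]
  exact Rch.one

private theorem rch_poly (p q : Polynomial ℚ) : ∀ (X Y : W) (c : ℚ) (m : ℤ), c ≠ 0 →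
    X.1 = Polynomial.toLaurent p → Y.1 = Polynomial.toLaurent q → wd X Y = C c * T m →
    Rch (X, c⁻¹ • Y) := by
  induction p, q using EuclideanDomain.GCD.induction with
  | H0 q =>
    intro X Y c m hc hX _ h
    exact rch_base hc (by rw [hX, map_zero]) h
  | H1 p q hp ih =>
    intro X Y c m hc hX hY h
    set f : RQ := Polynomial.toLaurent (q / p) with hf
    have hY' : (Y + (-f) • X).1 = Polynomial.toLaurent (q % p) := by
      simp only [Prod.fst_add, Prod.smul_fst, smul_eq_mul, hX, hY, hf]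
      have h1 : Polynomial.toLaurent (p * (q / p) + q % p) = Polynomial.toLaurent q := by
        rw [EuclideanDomain.div_add_mod]
      rw [← h1, map_add, map_mul]
      ring
    have hwd : wd (Y + (-f) • X) X = C (-c) * T m := by
      rw [wd_add_left, wd_smul_left, wd_self, mul_zero, add_zero, wd_swap, h, map_neg]
      ring
    have h2 := ih (Y + (-f) • X) X (-c) m (neg_ne_zero.2 hc) hY' hX hwd
    rw [← rch_elem_iff (-(C c⁻¹ * f)) X (c⁻¹ • Y)]
    have e : c⁻¹ • Y + (-(C c⁻¹ * f)) • X = c⁻¹ • (Y + (-f) • X) := by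
      rw [rat_smul_eq, rat_smul_eq, smul_add, smul_smul]
      congr 2
      ring
    rw [e]
    set Y' : W := Y + (-f) • X
    have h3 := (rch_bas_iff (a := 0) (b := c⁻¹) (c := -c) (d := 0) (by field_simp; norm_num)
      (Y', (-c)⁻¹ • X)).2 h2
    have e2 : bas 0 c⁻¹ (-c) 0 (Y', (-c)⁻¹ • X) = (X, c⁻¹ • Y') := by
      simp only [bas]
      rw [zero_smul, zero_add, smul_smul, zero_smul, add_zero]
      rw [mul_inv_cancel₀ (neg_ne_zero.2 hc), one_smul]
    rwa [e2] at h3

theorem rch_of_isFr {F : W × W} (hF : IsFr F) : Rch F := by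
  obtain ⟨m, hm⟩ := hF
  obtain ⟨X, Y⟩ := F
  obtain ⟨n, p, hp⟩ := exists_T_pow X.1
  obtain ⟨n', q, hq⟩ := exists_T_pow Y.1
  have h := rch_poly p q ((T (n : ℤ) : RQ) • X) ((T (n' : ℤ) : RQ) • Y) 1 (n + n' + m) one_ne_zero
    (by rw [hp, Prod.smul_fst, smul_eq_mul, mul_comm])
    (by rw [hq, Prod.smul_fst, smul_eq_mul, mul_comm])
    (by
      rw [wd_smul_left, wd_smul_right, map_one, one_mul, T_add, T_add, ← hm]
      ring)
  rw [inv_one, one_smul, rch_T_iff, rch_T_iff'] at h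
  exact h

end Pool.Agent.TAM
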