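import Mathlib
import Pool.Agent.TAM.Basic
import Pool.Agent.TAM.Euc

/-!
PROJECT TAM, module ZM: the frames of the matrices `e * diag (T^i, T^j)`, `e ∈ E_2(ℤ[T;T⁻¹])`.
-/

namespace Pool.Agent.TAM

open LaurentPolynomial Matrix

/-- The subgroup `E_2(A)` of `SL_2(A)` generated by the elementary matrices. -/
def E2 (A : Type*) [CommRing A] : Subgroup (SpecialLinearGroup (Fin 2) A) :=
  Subgroup.closure {g | ∃ r : A, (g : Matrix (Fin 2) (Fin 2) A) = !![1, r; 0, 1] ∨
    (g : Matrix (Fin 2) (Fin 2) A) = !![1, 0; r, 1]}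

/-- The columns of a matrix, as a frame. -/
noncomputable def col (e : SpecialLinearGroup (Fin 2) (LaurentPolynomial ℤ)) : W × W :=
  ((toQ (e 0 0), toQ (e 1 0)), (toQ (e 0 1), toQ (e 1 1)))

/-- Frames of matrices `e * diag (T^i, T^j)` with `e ∈ E_2`. -/
def ZM (F : W × W) : Prop :=
  ∃ e ∈ E2 (LaurentPolynomial ℤ), ∃ i j : ℤ,
    F = ((T i : RQ) • (col e).1, (T j : RQ) • (col e).2)

/-- Upper elementary matrix. -/
private def eU {A : Type*} [CommRing A] (r : A) : SpecialLinearGroup (Fin 2) A :=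
  ⟨!![1, r; 0, 1], by simp [Matrix.det_fin_two]⟩

/-- Lower elementary matrix. -/
private def eL {A : Type*} [CommRing A] (r : A) : SpecialLinearGroup (Fin 2) A :=
  ⟨!![1, 0; r, 1], by simp [Matrix.det_fin_two]⟩

private theorem eU_mem {A : Type*} [CommRing A] (r : A) : eU r ∈ E2 A :=
  Subgroup.subset_closure ⟨r, Or.inl rfl⟩

private theorem eL_mem {A : Type*} [CommRing A] (r : A) : eL r ∈ E2 A :=
  Subgroup.subset_closure ⟨r, Or.inr rfl⟩

private theorem mul_ij {A : Type*} [CommRing A] (g h : SpecialLinearGroup (Fin 2) A)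
    (i j : Fin 2) : (g * h : SpecialLinearGroup (Fin 2) A) i j = g i 0 * h 0 j + g i 1 * h 1 j := by
  rw [Matrix.SpecialLinearGroup.coe_mul, Matrix.mul_apply, Fin.sum_univ_two]

private theorem sl_ext {A : Type*} [CommRing A] {g h : SpecialLinearGroup (Fin 2) A}
    (h00 : g 0 0 = h 0 0) (h01 : g 0 1 = h 0 1) (h10 : g 1 0 = h 1 0) (h11 : g 1 1 = h 1 1) :
    g = h := by
  refine Matrix.SpecialLinearGroup.ext _ _ ?_
  intro i j
  fin_cases i <;> fin_cases j <;> assumption

private theorem eU00 {A : Type*} [CommRing A] (r : A) : (eU r) 0 0 = 1 := rfl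
private theorem eU01 {A : Type*} [CommRing A] (r : A) : (eU r) 0 1 = r := rfl
private theorem eU10 {A : Type*} [CommRing A] (r : A) : (eU r) 1 0 = 0 := rfl
private theorem eU11 {A : Type*} [CommRing A] (r : A) : (eU r) 1 1 = 1 := rfl
private theorem eL00 {A : Type*} [CommRing A] (r : A) : (eL r) 0 0 = 1 := rfl
private theorem eL01 {A : Type*} [CommRing A] (r : A) : (eL r) 0 1 = 0 := rfl
private theorem eL10 {A : Type*} [CommRing A] (r : A) : (eL r) 1 0 = r := rfl
private theorem eL11 {A : Type*} [CommRing A] (r : A) : (eL r) 1 1 = 1 := rfl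

/-- The Weyl element. -/
private theorem weyl_mem {A : Type*} [CommRing A] (u v : A) (huv : u * v = 1)
    (w : SpecialLinearGroup (Fin 2) A) (w00 : w 0 0 = 0) (w01 : w 0 1 = u) (w10 : w 1 0 = -v)
    (w11 : w 1 1 = 0) : w ∈ E2 A := by
  have h : w = eU u * eL (-v) * eU u := by
    apply sl_ext <;>
    simp only [mul_ij, eU00, eU01, eU10, eU11, eL00, eL01, eL10, eL11, w00, w01, w10, w11]
    · linear_combination (1 : A) * huv
    · linear_combination u * huv
    · ring
    · linear_combination (1 : A) * huv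
  rw [h]
  exact (E2 A).mul_mem ((E2 A).mul_mem (eU_mem _) (eL_mem _)) (eU_mem _)

/-- Diagonal matrices. -/
private theorem diag_mem {A : Type*} [CommRing A] (u v : A) (huv : u * v = 1)
    (w : SpecialLinearGroup (Fin 2) A) (w00 : w 0 0 = u) (w01 : w 0 1 = 0) (w10 : w 1 0 = 0)
    (w11 : w 1 1 = v) : w ∈ E2 A := by
  have h1 : (⟨!![0, u; -v, 0], by rw [Matrix.det_fin_two_of]; linear_combination huv⟩ :
      SpecialLinearGroup (Fin 2) A) ∈ E2 A := weyl_mem u v huv _ rfl rfl rfl rfl
  have h2 : (⟨!![0, -1; - -1, 0], by rw [Matrix.det_fin_two_of]; ring⟩ :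
      SpecialLinearGroup (Fin 2) A) ∈ E2 A := weyl_mem (-1) (-1) (by ring) _ rfl rfl rfl rfl
  have h := (E2 A).mul_mem h1 h2
  convert h using 1
  apply sl_ext
  · rw [mul_ij, w00]
    show u = 0 * 0 + u * - -1
    ring
  · rw [mul_ij, w01]
    show 0 = 0 * -1 + u * 0
    ring
  · rw [mul_ij, w10]
    show 0 = -v * 0 + 0 * - -1
    ring
  · rw [mul_ij, w11]
    show v = -v * -1 + 0 * 0
    ring

private theorem det_eq {A : Type*} [CommRing A] (e : SpecialLinearGroup (Fin 2) A) :
    e 0 0 * e 1 1 - e 0 1 * e 1 0 = 1 := by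
  have h := e.det_coe
  rw [Matrix.det_fin_two] at h
  exact h

private theorem wd_col (e : SpecialLinearGroup (Fin 2) (LaurentPolynomial ℤ)) :
    wd (col e).1 (col e).2 = 1 := by
  have h := congrArg toQ (det_eq e)
  rw [map_sub, map_mul, map_mul, map_one] at h
  rw [← h]
  simp only [wd, col]
  ring

theorem zm_one : ZM e12 := by
  refine ⟨1, (E2 _).one_mem, 0, 0, ?_⟩
  rw [T_zero, one_smul, one_smul]
  simp [col, e12]

theorem zm_fr {F : W × W} (h : ZM F) : IsFr F ∧ F.1 ∈ R2 ∧ F.2 ∈ R2 := by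
  obtain ⟨e, _, i, j, rfl⟩ := h
  refine ⟨⟨i + j, ?_⟩, ?_, ?_⟩
  · show wd ((T i : RQ) • (col e).1) ((T j : RQ) • (col e).2) = T (i + j)
    rw [wd_smul_left, wd_smul_right, wd_col, mul_one, T_add]
  · exact R2_smul (isZ_T i) ⟨isZ_toQ _, isZ_toQ _⟩
  · exact R2_smul (isZ_T j) ⟨isZ_toQ _, isZ_toQ _⟩

theorem zm_shf {F : W × W} : ZM (shf F) ↔ ZM F := by
  constructor
  · rintro ⟨e, he, i, j, h⟩
    refine ⟨e, he, i, -1 + j, ?_⟩
    have h1 := congrArg Prod.fst h
    have h2 := congrArg Prod.snd h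
    simp only [shf] at h1 h2
    refine Prod.ext h1 ?_
    show F.2 = (T (-1 + j) : RQ) • (col e).2
    rw [T_add, mul_smul, ← h2, T_neg_smul_T_smul]
  · rintro ⟨e, he, i, j, rfl⟩
    refine ⟨e, he, i, 1 + j, ?_⟩
    refine Prod.ext rfl ?_
    show (T 1 : RQ) • ((T j : RQ) • (col e).2) = (T (1 + j) : RQ) • (col e).2
    rw [T_add, mul_smul]

theorem zm_hm {F : W × W} : ZM (hm F) ↔ ZM F := by
  constructor
  · rintro ⟨e, he, i, j, h⟩
    refine ⟨e, he, -1 + i, -1 + j, ?_⟩
    have h1 := congrArg Prod.fst h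
    have h2 := congrArg Prod.snd h
    simp only [hm] at h1 h2
    refine Prod.ext ?_ ?_
    · show F.1 = (T (-1 + i) : RQ) • (col e).1
      rw [T_add, mul_smul, ← h1, T_neg_smul_T_smul]
    · show F.2 = (T (-1 + j) : RQ) • (col e).2
      rw [T_add, mul_smul, ← h2, T_neg_smul_T_smul]
  · rintro ⟨e, he, i, j, rfl⟩
    refine ⟨e, he, 1 + i, 1 + j, ?_⟩
    refine Prod.ext ?_ ?_
    · show (T 1 : RQ) • ((T i : RQ) • (col e).1) = (T (1 + i) : RQ) • (col e).1
      rw [T_add, mul_smul]
    · show (T 1 : RQ) • ((T j : RQ) • (col e).2) = (T (1 + j) : RQ) • (col e).2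
      rw [T_add, mul_smul]

private theorem int_smul_T (k : ℤ) (i j : ℤ) (w : W) :
    (k : ℚ) • ((T i : RQ) • w) = (T j : RQ) • (toQ (C k * T (i - j)) • w) := by
  rw [rat_smul_eq, smul_smul, smul_smul, map_mul, toQ_C, toQ_T]
  congr 1
  have : (T i : RQ) = T j * T (i - j) := by
    rw [← T_add]
    congr 1
    ring
  rw [this]
  ring

private theorem zm_up {F : W × W} (h : ZM F) (k : ℤ) : ZM (bas 1 k 0 1 F) := by
  obtain ⟨e, he, i, j, rfl⟩ := h
  refine ⟨e * eU (C k * T (i - j)), (E2 _).mul_mem he (eU_mem _), i, j, ?_⟩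
  have h1 : (col (e * eU (C k * T (i - j)))).1 = (col e).1 := by
    refine Prod.ext ?_ ?_ <;>
    simp only [col, mul_ij, eU00, eU10, mul_one, mul_zero, add_zero]
  have h2 : (col (e * eU (C k * T (i - j)))).2 =
      toQ (C k * T (i - j)) • (col e).1 + (col e).2 := by
    refine Prod.ext ?_ ?_
    · simp only [col, mul_ij, eU01, eU11, Prod.fst_add, Prod.smul_fst, smul_eq_mul, mul_one,
        map_add, map_mul]
      ring
    · simp only [col, mul_ij, eU01, eU11, Prod.snd_add, Prod.smul_snd, smul_eq_mul, mul_one,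
        map_add, map_mul]
      ring
  rw [h1, h2]
  refine Prod.ext ?_ ?_
  · simp [bas]
  · show (k : ℚ) • ((T i : RQ) • (col e).1) + (1 : ℚ) • ((T j : RQ) • (col e).2) = _
    rw [int_smul_T k i j, one_smul, ← smul_add]

private theorem zm_lo {F : W × W} (h : ZM F) (k : ℤ) : ZM (bas 1 0 k 1 F) := by
  obtain ⟨e, he, i, j, rfl⟩ := h
  refine ⟨e * eL (C k * T (j - i)), (E2 _).mul_mem he (eL_mem _), i, j, ?_⟩
  have h2 : (col (e * eL (C k * T (j - i)))).2 = (col e).2 := by
    refine Prod.ext ?_ ?_ <;>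
    simp only [col, mul_ij, eL01, eL11, mul_one, mul_zero, zero_add]
  have h1 : (col (e * eL (C k * T (j - i)))).1 =
      (col e).1 + toQ (C k * T (j - i)) • (col e).2 := by
    refine Prod.ext ?_ ?_
    · simp only [col, mul_ij, eL00, eL10, Prod.fst_add, Prod.smul_fst, smul_eq_mul, mul_one,
        map_add, map_mul]
      ring
    · simp only [col, mul_ij, eL00, eL10, Prod.snd_add, Prod.smul_snd, smul_eq_mul, mul_one,
        map_add, map_mul]
      ring
  rw [h1, h2]
  refine Prod.ext ?_ ?_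
  · show (1 : ℚ) • ((T i : RQ) • (col e).1) + (k : ℚ) • ((T j : RQ) • (col e).2) = _
    rw [int_smul_T k j i, one_smul, ← smul_add]
  · simp [bas]

/-- Base change by an integral matrix. -/
private noncomputable def basZ (g : SpecialLinearGroup (Fin 2) ℤ) (F : W × W) : W × W :=
  bas (g 0 0) (g 0 1) (g 1 0) (g 1 1) F

private theorem basZ_mul (g h : SpecialLinearGroup (Fin 2) ℤ) (F : W × W) :
    basZ (g * h) F = basZ h (basZ g F) := by
  simp only [basZ]
  rw [bas_bas, mul_ij, mul_ij, mul_ij, mul_ij]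
  push_cast
  rfl

private theorem basZ_one (F : W × W) : basZ 1 F = F := by
  simp [basZ, bas_one]

private theorem zm_basZ (g : SpecialLinearGroup (Fin 2) ℤ) :
    ∀ F : W × W, ZM (basZ g F) ↔ ZM F := by
  have hg : g ∈ Subgroup.closure {ModularGroup.S, ModularGroup.T} := by
    rw [SpecialLinearGroup.SL2Z_generators]
    exact Subgroup.mem_top g
  induction hg using Subgroup.closure_induction with
  | mem x hx =>
    have key : ∀ y z : SpecialLinearGroup (Fin 2) ℤ, z * y = 1 →
        (∀ F : W × W, ZM F → ZM (basZ y F)) → (∀ F : W × W, ZM F → ZM (basZ z F)) →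
        ∀ F : W × W, ZM (basZ z F) ↔ ZM F := by
      intro y z hyz hy hz F
      refine ⟨fun h => ?_, hz F⟩
      have h1 := hy _ h
      rwa [← basZ_mul, hyz, basZ_one] at h1
    have hup : ∀ k : ℤ, ∀ F : W × W, ZM F → ZM (basZ (eU k) F) := by
      intro k F hF
      have h1 := zm_up hF k
      have h2 : basZ (eU k) F = bas 1 k 0 1 F := by
        simp [basZ, eU]
      rw [h2]
      exact h1
    have hlo : ∀ k : ℤ, ∀ F : W × W, ZM F → ZM (basZ (eL k) F) := by
      intro k F hF
      have h1 := zm_lo hF k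
      have h2 : basZ (eL k) F = bas 1 0 k 1 F := by
        simp [basZ, eL]
      rw [h2]
      exact h1
    rcases hx with rfl | hx
    · have hS : ModularGroup.S = eU (-1) * eL 1 * eU (-1) := by decide
      have hS' : eU 1 * eL (-1) * eU 1 * ModularGroup.S = 1 := by decide
      have hS'' : ModularGroup.S * (eU 1 * eL (-1) * eU 1) = 1 := mul_eq_one_comm.1 hS'
      refine key _ _ hS'' ?_ ?_
      · intro F hF
        rw [basZ_mul, basZ_mul]
        exact hup 1 _ (hlo (-1) _ (hup 1 _ hF))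
      · intro F hF
        rw [hS, basZ_mul, basZ_mul]
        exact hup (-1) _ (hlo 1 _ (hup (-1) _ hF))
    · rw [Set.mem_singleton_iff] at hx
      subst hx
      have hT : ModularGroup.T = eU 1 := by decide
      have hT' : ModularGroup.T * eU (-1) = 1 := by decide
      refine key _ _ hT' (hup (-1)) ?_
      rw [hT]
      exact hup 1
  | one =>
    intro F
    rw [basZ_one]
  | mul x y _ _ hx hy =>
    intro F
    rw [basZ_mul, hy, hx]
  | inv x _ hx =>
    intro F
    rw [← hx (basZ x⁻¹ F), ← basZ_mul, inv_mul_cancel, basZ_one]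

theorem zm_SL2Z {F : W × W} (h : ZM F) (a b c d : ℤ) (hd : a * d - b * c = 1) :
    ZM (bas a b c d F) := by
  have h1 := (zm_basZ ⟨!![a, b; c, d], by rw [Matrix.det_fin_two_of]; exact hd⟩ F).2 h
  exact h1

/-- The image of `SL_2(ℤ)` is contained in `E_2`. -/
private theorem int_mem (g : SpecialLinearGroup (Fin 2) ℤ) :
    SpecialLinearGroup.map (C : ℤ →+* LaurentPolynomial ℤ) g ∈ E2 (LaurentPolynomial ℤ) := by
  have hg : g ∈ Subgroup.closure {ModularGroup.S, ModularGroup.T} := by
    rw [SpecialLinearGroup.SL2Z_generators]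
    exact Subgroup.mem_top g
  have hle : Subgroup.closure {ModularGroup.S, ModularGroup.T} ≤
      (E2 (LaurentPolynomial ℤ)).comap
        (SpecialLinearGroup.map (C : ℤ →+* LaurentPolynomial ℤ)) := by
    rw [Subgroup.closure_le]
    rintro x (rfl | hx)
    · refine weyl_mem (-1) (-1) (by ring) _ ?_ ?_ ?_ ?_ <;>
      simp [ModularGroup.coe_S]
    · rw [Set.mem_singleton_iff] at hx
      subst hx
      refine Subgroup.subset_closure ⟨1, Or.inl ?_⟩
      ext i j
      fin_cases i <;> fin_cases j <;> simp [ModularGroup.coe_T]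
  exact hle hg

/-- If the frame of `g ∈ SL_2(ℤ[T;T⁻¹])` is a rational base change of a frame in `ZM` then `g ∈ E_2`. -/
theorem zm_final {g : SpecialLinearGroup (Fin 2) (LaurentPolynomial ℤ)} {F : W × W} (h : ZM F)
    {a b c d : ℚ} (hd : a * d - b * c = 1) (hg : col g = bas a b c d F) :
    g ∈ E2 (LaurentPolynomial ℤ) := by
  obtain ⟨e, he, i, j, rfl⟩ := h
  -- `j = -i`
  have hij : i + j = 0 := by
    have h1 := wd_col g
    rw [hg] at h1
    have h2 : wd (bas a b c d ((T i : RQ) • (col e).1, (T j : RQ) • (col e).2)).1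
        (bas a b c d ((T i : RQ) • (col e).1, (T j : RQ) • (col e).2)).2 =
        (C a * C d - C b * C c) * (T i * T j * wd (col e).1 (col e).2) := by
      simp only [bas, wd, Prod.fst_add, Prod.snd_add, Prod.smul_fst, Prod.smul_snd, smul_eq_C_mul,
        smul_eq_mul]
      ring
    rw [h2, wd_col, mul_one, ← T_add] at h1
    have h3 : (C a * C d - C b * C c : RQ) = 1 := by
      rw [← map_mul, ← map_mul, ← map_sub, hd, map_one]
    rw [h3, one_mul, ← T_zero] at h1
    have h4 := congrArg (fun f : RQ => f.coeff (i + j)) h1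
    simp only [T_apply] at h4
    by_contra hne
    rw [if_pos trivial, if_neg (fun h => hne h.symm)] at h4
    exact one_ne_zero h4
  obtain rfl : j = -i := by omega
  -- the diagonal matrix
  have hTT : (T i * T (-i) : LaurentPolynomial ℤ) = 1 := by
    rw [← T_add, add_neg_cancel, T_zero]
  set D : SpecialLinearGroup (Fin 2) (LaurentPolynomial ℤ) := ⟨!![T i, 0; 0, T (-i)], by
    rw [Matrix.det_fin_two_of, hTT]; ring⟩ with hD
  have hDm : D ∈ E2 (LaurentPolynomial ℤ) := diag_mem (T i) (T (-i)) hTT D rfl rfl rfl rfl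
  set M := e * D with hM
  have hMm : M ∈ E2 (LaurentPolynomial ℤ) := (E2 _).mul_mem he hDm
  have hcM : col M = ((T i : RQ) • (col e).1, (T (-i) : RQ) • (col e).2) := by
    have hM00 : M 0 0 = T i * e 0 0 := by
      rw [hM, mul_ij]
      show e 0 0 * T i + e 0 1 * 0 = _
      ring
    have hM10 : M 1 0 = T i * e 1 0 := by
      rw [hM, mul_ij]
      show e 1 0 * T i + e 1 1 * 0 = _
      ring
    have hM01 : M 0 1 = T (-i) * e 0 1 := by
      rw [hM, mul_ij]
      show e 0 0 * 0 + e 0 1 * T (-i) = _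
      ring
    have hM11 : M 1 1 = T (-i) * e 1 1 := by
      rw [hM, mul_ij]
      show e 1 0 * 0 + e 1 1 * T (-i) = _
      ring
    simp only [col, hM00, hM10, hM01, hM11, map_mul, toQ_T]
    rfl
  rw [← hcM] at hg
  have g00 : toQ (g 0 0) = C a * toQ (M 0 0) + C c * toQ (M 0 1) := by
    have := congrArg (fun F : W × W => F.1.1) hg
    simpa [bas, col, smul_eq_C_mul] using this
  have g10 : toQ (g 1 0) = C a * toQ (M 1 0) + C c * toQ (M 1 1) := by
    have := congrArg (fun F : W × W => F.1.2) hg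
    simpa [bas, col, smul_eq_C_mul] using this
  have g01 : toQ (g 0 1) = C b * toQ (M 0 0) + C d * toQ (M 0 1) := by
    have := congrArg (fun F : W × W => F.2.1) hg
    simpa [bas, col, smul_eq_C_mul] using this
  have g11 : toQ (g 1 1) = C b * toQ (M 1 0) + C d * toQ (M 1 1) := by
    have := congrArg (fun F : W × W => F.2.2) hg
    simpa [bas, col, smul_eq_C_mul] using this
  have hMd : toQ (M 0 0) * toQ (M 1 1) - toQ (M 0 1) * toQ (M 1 0) = 1 := by
    rw [← map_mul, ← map_mul, ← map_sub, det_eq, map_one]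
  -- the quotient
  have hconst : ∀ (f : LaurentPolynomial ℤ) (x : ℚ), toQ f = C x → ∃ k : ℤ, f = C k ∧ x = k := by
    intro f x hf
    refine ⟨f.coeff 0, ?_, ?_⟩
    · ext n
      have h1 := congrArg (fun f : RQ => f.coeff n) hf
      simp only [toQ_coeff, C_apply] at h1
      rw [C_apply]
      split_ifs with hn
      · rw [hn]
      · rw [if_neg hn] at h1
        exact_mod_cast h1
    · have h1 := congrArg (fun f : RQ => f.coeff 0) hf
      simp only [toQ_coeff, C_apply, if_true] at h1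
      exact h1.symm
  obtain ⟨k00, e00, f00⟩ := hconst (M 1 1 * g 0 0 - M 0 1 * g 1 0) a (by
    rw [map_sub, map_mul, map_mul, g00, g10]
    linear_combination C a * hMd)
  obtain ⟨k01, e01, f01⟩ := hconst (M 1 1 * g 0 1 - M 0 1 * g 1 1) b (by
    rw [map_sub, map_mul, map_mul, g01, g11]
    linear_combination C b * hMd)
  obtain ⟨k10, e10, f10⟩ := hconst (M 0 0 * g 1 0 - M 1 0 * g 0 0) c (by
    rw [map_sub, map_mul, map_mul, g00, g10]
    linear_combination C c * hMd)
  obtain ⟨k11, e11, f11⟩ := hconst (M 0 0 * g 1 1 - M 1 0 * g 0 1) d (by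
    rw [map_sub, map_mul, map_mul, g01, g11]
    linear_combination C d * hMd)
  have hkd : k00 * k11 - k01 * k10 = 1 := by
    have : (k00 : ℚ) * k11 - k01 * k10 = 1 := by
      rw [← f00, ← f01, ← f10, ← f11]
      exact hd
    exact_mod_cast this
  set K : SpecialLinearGroup (Fin 2) ℤ := ⟨!![k00, k01; k10, k11], by
    rw [Matrix.det_fin_two_of]; exact hkd⟩ with hK
  have hMz := det_eq M
  have hgM : g = M * SpecialLinearGroup.map (C : ℤ →+* LaurentPolynomial ℤ) K := by
    have K00 : SpecialLinearGroup.map (C : ℤ →+* LaurentPolynomial ℤ) K 0 0 = C k00 := rfl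
    have K01 : SpecialLinearGroup.map (C : ℤ →+* LaurentPolynomial ℤ) K 0 1 = C k01 := rfl
    have K10 : SpecialLinearGroup.map (C : ℤ →+* LaurentPolynomial ℤ) K 1 0 = C k10 := rfl
    have K11 : SpecialLinearGroup.map (C : ℤ →+* LaurentPolynomial ℤ) K 1 1 = C k11 := rfl
    apply sl_ext
    · rw [mul_ij, K00, K10, ← e00, ← e10]
      linear_combination (-g 0 0) * hMz
    · rw [mul_ij, K01, K11, ← e01, ← e11]
      linear_combination (-g 0 1) * hMz
    · rw [mul_ij, K00, K10, ← e00, ← e10]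
      linear_combination (-g 1 0) * hMz
    · rw [mul_ij, K01, K11, ← e01, ← e11]
      linear_combination (-g 1 1) * hMz
  rw [hgM]
  exact (E2 _).mul_mem hMm (int_mem K)

end Pool.Agent.TAM
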