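import Mathlib
import Pool.Agent.TAM.ZM

/-!
PROJECT TAM, module FG2: `E_2(ℤ[T;T⁻¹])` is finitely generated.
-/

namespace Pool.Agent.TAM

open LaurentPolynomial Matrix

/-- Upper elementary matrix. -/
private def fU {A : Type*} [CommRing A] (r : A) : SpecialLinearGroup (Fin 2) A :=
  ⟨!![1, r; 0, 1], by simp [Matrix.det_fin_two]⟩

/-- Lower elementary matrix. -/
private def fL {A : Type*} [CommRing A] (r : A) : SpecialLinearGroup (Fin 2) A :=
  ⟨!![1, 0; r, 1], by simp [Matrix.det_fin_two]⟩

private theorem mul_ij' {A : Type*} [CommRing A] (g h : SpecialLinearGroup (Fin 2) A)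
    (i j : Fin 2) : (g * h : SpecialLinearGroup (Fin 2) A) i j = g i 0 * h 0 j + g i 1 * h 1 j := by
  rw [Matrix.SpecialLinearGroup.coe_mul, Matrix.mul_apply, Fin.sum_univ_two]

private theorem sl_ext' {A : Type*} [CommRing A] {g h : SpecialLinearGroup (Fin 2) A}
    (h00 : g 0 0 = h 0 0) (h01 : g 0 1 = h 0 1) (h10 : g 1 0 = h 1 0) (h11 : g 1 1 = h 1 1) :
    g = h := by
  refine Matrix.SpecialLinearGroup.ext _ _ ?_
  intro i j
  fin_cases i <;> fin_cases j <;> assumption

private theorem fU00 {A : Type*} [CommRing A] (r : A) : (fU r) 0 0 = 1 := rfl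
private theorem fU01 {A : Type*} [CommRing A] (r : A) : (fU r) 0 1 = r := rfl
private theorem fU10 {A : Type*} [CommRing A] (r : A) : (fU r) 1 0 = 0 := rfl
private theorem fU11 {A : Type*} [CommRing A] (r : A) : (fU r) 1 1 = 1 := rfl
private theorem fL00 {A : Type*} [CommRing A] (r : A) : (fL r) 0 0 = 1 := rfl
private theorem fL01 {A : Type*} [CommRing A] (r : A) : (fL r) 0 1 = 0 := rfl
private theorem fL10 {A : Type*} [CommRing A] (r : A) : (fL r) 1 0 = r := rfl
private theorem fL11 {A : Type*} [CommRing A] (r : A) : (fL r) 1 1 = 1 := rfl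

private theorem fU_add {A : Type*} [CommRing A] (r s : A) : fU (r + s) = fU r * fU s := by
  apply sl_ext' <;> simp only [mul_ij', fU00, fU01, fU10, fU11] <;> ring

private theorem fL_add {A : Type*} [CommRing A] (r s : A) : fL (r + s) = fL r * fL s := by
  apply sl_ext' <;> simp only [mul_ij', fL00, fL01, fL10, fL11] <;> ring

private theorem fU_zero {A : Type*} [CommRing A] : fU (0 : A) = 1 := by
  have h := fU_add (0 : A) 0
  rw [add_zero] at h
  exact left_eq_mul.1 h

private theorem fL_zero {A : Type*} [CommRing A] : fL (0 : A) = 1 := by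
  have h := fL_add (0 : A) 0
  rw [add_zero] at h
  exact left_eq_mul.1 h

private theorem fU_neg {A : Type*} [CommRing A] (r : A) : fU (-r) = (fU r)⁻¹ := by
  rw [eq_inv_iff_mul_eq_one, ← fU_add, neg_add_cancel, fU_zero]

private theorem fL_neg {A : Type*} [CommRing A] (r : A) : fL (-r) = (fL r)⁻¹ := by
  rw [eq_inv_iff_mul_eq_one, ← fL_add, neg_add_cancel, fL_zero]

/-- The diagonal matrix `diag (T, T⁻¹)`. -/
private noncomputable def fD : SpecialLinearGroup (Fin 2) (LaurentPolynomial ℤ) :=
  ⟨!![T 1, 0; 0, T (-1)], by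
    rw [Matrix.det_fin_two_of, ← T_add, add_neg_cancel, T_zero]; ring⟩

private theorem hTT : (T 1 * T (-1) : LaurentPolynomial ℤ) = 1 := by
  rw [← T_add, add_neg_cancel, T_zero]

private theorem fD_eq : fD = fU (T 1) * fL (-T (-1)) * fU (T 1) * (fU (-1) * fL 1 * fU (-1)) := by
  have h := hTT
  apply sl_ext'
  · simp only [mul_ij', fU00, fU01, fU10, fU11, fL00, fL01, fL10, fL11]
    show (T 1 : LaurentPolynomial ℤ) = _
    linear_combination (T 1 : LaurentPolynomial ℤ) * h
  · simp only [mul_ij', fU00, fU01, fU10, fU11, fL00, fL01, fL10, fL11]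
    show (0 : LaurentPolynomial ℤ) = _
    linear_combination (-1 : LaurentPolynomial ℤ) * h
  · simp only [mul_ij', fU00, fU01, fU10, fU11, fL00, fL01, fL10, fL11]
    show (0 : LaurentPolynomial ℤ) = _
    linear_combination (1 : LaurentPolynomial ℤ) * h
  · simp only [mul_ij', fU00, fU01, fU10, fU11, fL00, fL01, fL10, fL11]
    show (T (-1) : LaurentPolynomial ℤ) = _
    ring

private theorem fD_U (r : LaurentPolynomial ℤ) : fD * fU r = fU (T 1 * T 1 * r) * fD := by
  have h := hTT
  apply sl_ext'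
  · simp only [mul_ij', fU00, fU01, fU10, fU11]
    show (T 1 : LaurentPolynomial ℤ) * 1 + 0 * 0 = 1 * T 1 + T 1 * T 1 * r * 0
    ring
  · simp only [mul_ij', fU00, fU01, fU10, fU11]
    show (T 1 : LaurentPolynomial ℤ) * r + 0 * 1 = 1 * 0 + T 1 * T 1 * r * T (-1)
    linear_combination (-T 1 * r : LaurentPolynomial ℤ) * h
  · simp only [mul_ij', fU00, fU01, fU10, fU11]
    show (0 : LaurentPolynomial ℤ) * 1 + T (-1) * 0 = 0 * T 1 + 1 * 0
    ring
  · simp only [mul_ij', fU00, fU01, fU10, fU11]
    show (0 : LaurentPolynomial ℤ) * r + T (-1) * 1 = 0 * 0 + 1 * T (-1)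
    ring

private theorem fD_L (r : LaurentPolynomial ℤ) : fD * fL r = fL (T (-1) * T (-1) * r) * fD := by
  have h := hTT
  apply sl_ext'
  · simp only [mul_ij', fL00, fL01, fL10, fL11]
    show (T 1 : LaurentPolynomial ℤ) * 1 + 0 * r = 1 * T 1 + 0 * 0
    ring
  · simp only [mul_ij', fL00, fL01, fL10, fL11]
    show (T 1 : LaurentPolynomial ℤ) * 0 + 0 * 1 = 1 * 0 + 0 * T (-1)
    ring
  · simp only [mul_ij', fL00, fL01, fL10, fL11]
    show (0 : LaurentPolynomial ℤ) * 1 + T (-1) * r = T (-1) * T (-1) * r * T 1 + 1 * 0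
    linear_combination (-T (-1) * r : LaurentPolynomial ℤ) * h
  · simp only [mul_ij', fL00, fL01, fL10, fL11]
    show (0 : LaurentPolynomial ℤ) * 0 + T (-1) * 1 = T (-1) * T (-1) * r * 0 + 1 * T (-1)
    ring

/-- The six generators. -/
private noncomputable def gens : Set (SpecialLinearGroup (Fin 2) (LaurentPolynomial ℤ)) :=
  {fU 1, fU (T 1), fU (T (-1)), fL 1, fL (T 1), fL (T (-1))}

private noncomputable def HH : Subgroup (SpecialLinearGroup (Fin 2) (LaurentPolynomial ℤ)) :=
  Subgroup.closure gens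

private theorem fD_mem : fD ∈ HH := by
  have hg : ∀ x ∈ gens, x ∈ HH := fun x hx => Subgroup.subset_closure hx
  rw [fD_eq, fL_neg, fU_neg]
  have h1 := hg (fU 1) (by simp [gens])
  have h2 := hg (fU (T 1)) (by simp [gens])
  have h3 := hg (fL 1) (by simp [gens])
  have h4 := hg (fL (T (-1))) (by simp [gens])
  exact HH.mul_mem (HH.mul_mem (HH.mul_mem h2 (HH.inv_mem h4)) h2)
    (HH.mul_mem (HH.mul_mem (HH.inv_mem h1) h3) (HH.inv_mem h1))

/-- Powers of `T` reached by steps of two. -/
private theorem steps {P : LaurentPolynomial ℤ → Prop} (h0 : P 1) (h1 : P (T 1))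
    (hup : ∀ r, P r → P (T 1 * T 1 * r)) (hdown : ∀ r, P r → P (T (-1) * T (-1) * r)) (n : ℤ) :
    P (T n) := by
  have key : ∀ n : ℕ, (P (T n) ∧ P (T (n + 1))) ∧ (P (T (-n)) ∧ P (T (-n + 1))) := by
    intro n
    induction n with
    | zero =>
      refine ⟨⟨?_, ?_⟩, ?_, ?_⟩ <;> simp [h0, h1, T_zero]
    | succ n ih =>
      obtain ⟨⟨a1, a2⟩, a3, a4⟩ := ih
      refine ⟨⟨?_, ?_⟩, ?_, ?_⟩
      · exact_mod_cast a2
      · have := hup _ a1
        rw [← T_add, ← T_add] at this
        convert this using 2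
        push_cast
        ring
      · have := hdown _ a4
        rw [← T_add, ← T_add] at this
        convert this using 2
        push_cast
        ring
      · convert a3 using 2
        push_cast
        ring
  rcases Int.eq_nat_or_neg n with ⟨k, rfl | rfl⟩
  · exact (key k).1.1
  · exact (key k).2.1

private theorem all_U (r : LaurentPolynomial ℤ) : fU r ∈ HH := by
  have hg : ∀ x ∈ gens, x ∈ HH := fun x hx => Subgroup.subset_closure hx
  have hT : ∀ n : ℤ, fU (T n) ∈ HH := by
    refine steps (P := fun r => fU r ∈ HH) (hg _ (by simp [gens])) (hg _ (by simp [gens])) ?_ ?_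
    · intro r hr
      have h1 : fU (T 1 * T 1 * r) = fD * fU r * fD⁻¹ := by
        rw [fD_U, mul_inv_cancel_right]
      show fU (T 1 * T 1 * r) ∈ HH
      rw [h1]
      exact HH.mul_mem (HH.mul_mem fD_mem hr) (HH.inv_mem fD_mem)
    · intro r hr
      have h2 := fD_U (T (-1) * T (-1) * r)
      have h3 : (T 1 * T 1 * (T (-1) * T (-1) * r) : LaurentPolynomial ℤ) = r := by
        linear_combination (1 + T 1 * T (-1)) * r * hTT
      rw [h3] at h2
      have h1 : fU (T (-1) * T (-1) * r) = fD⁻¹ * (fU r * fD) := by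
        rw [← h2, inv_mul_cancel_left]
      show fU (T (-1) * T (-1) * r) ∈ HH
      rw [h1]
      exact HH.mul_mem (HH.inv_mem fD_mem) (HH.mul_mem hr fD_mem)
  have hz : ∀ (k : ℤ) (n : ℤ), fU (C k * T n) ∈ HH := by
    intro k n
    induction k using Int.induction_on with
    | zero => rw [map_zero, zero_mul, fU_zero]; exact HH.one_mem
    | succ k ih =>
      rw [map_add, map_one, add_mul, one_mul, fU_add]
      exact HH.mul_mem ih (hT n)
    | pred k ih =>
      rw [map_sub, map_one, sub_mul, one_mul, sub_eq_add_neg, fU_add, fU_neg (T n)]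
      exact HH.mul_mem ih (HH.inv_mem (hT n))
  induction r using LaurentPolynomial.induction_on' with
  | add p q hp hq => rw [fU_add]; exact HH.mul_mem hp hq
  | C_mul_T n a => exact hz a n

private theorem all_L (r : LaurentPolynomial ℤ) : fL r ∈ HH := by
  have hg : ∀ x ∈ gens, x ∈ HH := fun x hx => Subgroup.subset_closure hx
  have hT : ∀ n : ℤ, fL (T n) ∈ HH := by
    refine steps (P := fun r => fL r ∈ HH) (hg _ (by simp [gens])) (hg _ (by simp [gens])) ?_ ?_
    · intro r hr
      have h2 := fD_L (T 1 * T 1 * r)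
      have h3 : (T (-1) * T (-1) * (T 1 * T 1 * r) : LaurentPolynomial ℤ) = r := by
        linear_combination (1 + T 1 * T (-1)) * r * hTT
      rw [h3] at h2
      have h1 : fL (T 1 * T 1 * r) = fD⁻¹ * (fL r * fD) := by
        rw [← h2, inv_mul_cancel_left]
      show fL (T 1 * T 1 * r) ∈ HH
      rw [h1]
      exact HH.mul_mem (HH.inv_mem fD_mem) (HH.mul_mem hr fD_mem)
    · intro r hr
      have h1 : fL (T (-1) * T (-1) * r) = fD * fL r * fD⁻¹ := by
        rw [fD_L, mul_inv_cancel_right]
      show fL (T (-1) * T (-1) * r) ∈ HH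
      rw [h1]
      exact HH.mul_mem (HH.mul_mem fD_mem hr) (HH.inv_mem fD_mem)
  have hz : ∀ (k : ℤ) (n : ℤ), fL (C k * T n) ∈ HH := by
    intro k n
    induction k using Int.induction_on with
    | zero => rw [map_zero, zero_mul, fL_zero]; exact HH.one_mem
    | succ k ih =>
      rw [map_add, map_one, add_mul, one_mul, fL_add]
      exact HH.mul_mem ih (hT n)
    | pred k ih =>
      rw [map_sub, map_one, sub_mul, one_mul, sub_eq_add_neg, fL_add, fL_neg (T n)]
      exact HH.mul_mem ih (HH.inv_mem (hT n))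
  induction r using LaurentPolynomial.induction_on' with
  | add p q hp hq => rw [fL_add]; exact HH.mul_mem hp hq
  | C_mul_T n a => exact hz a n

theorem e2_fg : (E2 (LaurentPolynomial ℤ)).FG := by
  rw [Subgroup.fg_iff]
  refine ⟨gens, ?_, ?_⟩
  · refine le_antisymm ?_ ?_
    · rw [Subgroup.closure_le]
      intro x hx
      simp only [gens, Set.mem_insert_iff, Set.mem_singleton_iff] at hx
      rcases hx with rfl | rfl | rfl | rfl | rfl | rfl
      · exact Subgroup.subset_closure ⟨_, Or.inl rfl⟩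
      · exact Subgroup.subset_closure ⟨_, Or.inl rfl⟩
      · exact Subgroup.subset_closure ⟨_, Or.inl rfl⟩
      · exact Subgroup.subset_closure ⟨_, Or.inr rfl⟩
      · exact Subgroup.subset_closure ⟨_, Or.inr rfl⟩
      · exact Subgroup.subset_closure ⟨_, Or.inr rfl⟩
    · unfold E2
      rw [Subgroup.closure_le]
      rintro x ⟨r, hr | hr⟩
      · have : x = fU r := Subtype.ext hr
        rw [this]
        exact all_U r
      · have : x = fL r := Subtype.ext hr
        rw [this]
        exact all_L r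
  · unfold gens
    exact Set.toFinite _

end Pool.Agent.TAM
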