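import Mathlib
import Pool.Agent.TAM.Defs

/-!
PROJECT TAM, module UniA: lattices of determinant 1 in `ℚ²`.
PLAN. `Uni G`: basis `u, v` with `dt u v = 1`; every `w` is `(dt w v) • u + (dt u w) • v`.
uni_int: dt is bilinear, integral on the basis.
uni_line: for `v0 ≠ 0` write `v0 = α u + β v` (α = dt v0 v, β = dt u v0 rational, not both 0); `c • v0 ∈ G`
iff `c α, c β ∈ ℤ`; with `α = p/n, β = q/n` (common denominator `n ≥ 1`) this is `c ∈ ℤ (n / gcd(p,q))`.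
uni_compl: `v = m u + n v'` with `m, n` coprime (else `(1/d) • v ∈ G`), Bezout.
uni_basis: `w = (dt w v) • u + (dt u w) • v` with integral coefficients.
uni_eq: immediate from uni_basis. uni_of_iff: transport the basis by the inverse matrix.
uni_snd: `(a,0) ∈ G` is primitive, uni_compl gives `w` with `a * w.2 = 1`; `dt (a,0) p = a * p.2` is an integer.
-/

namespace Pool.Agent.TAM

private theorem zs (k : ℤ) (u : ℚ × ℚ) : k • u = (k : ℚ) • u := by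
  refine Prod.ext ?_ ?_
  · show k • u.1 = (k : ℚ) * u.1
    rw [zsmul_eq_mul]
  · show k • u.2 = (k : ℚ) * u.2
    rw [zsmul_eq_mul]

private theorem dt_lin (m n m' n' : ℚ) (e f : ℚ × ℚ) :
    dt (m • e + n • f) (m' • e + n' • f) = (m * n' - n * m') * dt e f := by
  simp only [dt, Prod.smul_fst, Prod.smul_snd, smul_eq_mul, Prod.fst_add, Prod.snd_add]
  ring

private theorem expand {u v : ℚ × ℚ} (h : dt u v = 1) (w : ℚ × ℚ) :
    w = dt w v • u + dt u w • v := by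
  have h' : u.1 * v.2 - u.2 * v.1 = 1 := h
  refine Prod.ext ?_ ?_
  · show w.1 = (w.1 * v.2 - w.2 * v.1) * u.1 + (u.1 * w.2 - u.2 * w.1) * v.1
    linear_combination (-w.1) * h'
  · show w.2 = (w.1 * v.2 - w.2 * v.1) * u.2 + (u.1 * w.2 - u.2 * w.1) * v.2
    linear_combination (-w.2) * h'

theorem uni_int {G : AddSubgroup (ℚ × ℚ)} (hG : Uni G) {u v : ℚ × ℚ} (hu : u ∈ G) (hv : v ∈ G) :
    ∃ k : ℤ, dt u v = k := by
  obtain ⟨e, _, f, _, hef, hb⟩ := hG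
  obtain ⟨m, n, rfl⟩ := hb u hu
  obtain ⟨m', n', rfl⟩ := hb v hv
  refine ⟨m * n' - n * m', ?_⟩
  rw [zs, zs, zs, zs, dt_lin, hef]
  push_cast
  ring

private theorem dt_sl (c : ℚ) (u v : ℚ × ℚ) : dt (c • u) v = c * dt u v := by
  simp only [dt, Prod.smul_fst, Prod.smul_snd, smul_eq_mul]
  ring

private theorem dt_sr (c : ℚ) (u v : ℚ × ℚ) : dt u (c • v) = c * dt u v := by
  simp only [dt, Prod.smul_fst, Prod.smul_snd, smul_eq_mul]
  ring

private theorem line_aux (α β : ℚ) (h : ¬ (α = 0 ∧ β = 0)) :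
    ∃ a : ℚ, 0 < a ∧ ∀ c : ℚ, ((∃ m : ℤ, c * α = m) ∧ ∃ n : ℤ, c * β = n) ↔ ∃ k : ℤ, c = k * a := by
  obtain ⟨N, hN, p, q, hp, hq⟩ : ∃ N : ℚ, 0 < N ∧ ∃ p q : ℤ, N * α = p ∧ N * β = q := by
    have hα : (0 : ℚ) < α.den := by exact_mod_cast α.den_pos
    have hβ : (0 : ℚ) < β.den := by exact_mod_cast β.den_pos
    have e1 : (α.den : ℚ) * α = α.num := by rw [mul_comm]; exact Rat.mul_den_eq_num α
    have e2 : (β.den : ℚ) * β = β.num := by rw [mul_comm]; exact Rat.mul_den_eq_num β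
    refine ⟨α.den * β.den, by positivity, β.den * α.num, α.den * β.num, ?_, ?_⟩
    · push_cast
      rw [← e1]
      ring
    · push_cast
      rw [← e2]
      ring
  have hg : Int.gcd p q ≠ 0 := by
    intro h0
    rw [Int.gcd_eq_zero_iff] at h0
    apply h
    constructor
    · rw [h0.1, Int.cast_zero] at hp
      exact (mul_eq_zero.mp hp).resolve_left hN.ne'
    · rw [h0.2, Int.cast_zero] at hq
      exact (mul_eq_zero.mp hq).resolve_left hN.ne'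
  obtain ⟨g, hgd⟩ : ∃ g : ℤ, g = (Int.gcd p q : ℤ) := ⟨_, rfl⟩
  have hg0 : (0 : ℚ) < g := by
    rw [hgd]
    have : 0 < Int.gcd p q := Nat.pos_of_ne_zero hg
    exact_mod_cast this
  obtain ⟨p', hp'⟩ : g ∣ p := hgd ▸ Int.gcd_dvd_left p q
  obtain ⟨q', hq'⟩ : g ∣ q := hgd ▸ Int.gcd_dvd_right p q
  have hbez : g = p * Int.gcdA p q + q * Int.gcdB p q := by
    rw [hgd]
    exact Int.gcd_eq_gcd_ab p q
  refine ⟨N / g, by positivity, fun c => ⟨?_, ?_⟩⟩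
  · rintro ⟨⟨m, hm⟩, n, hn⟩
    refine ⟨m * Int.gcdA p q + n * Int.gcdB p q, ?_⟩
    have h1 : (g : ℚ) = p * Int.gcdA p q + q * Int.gcdB p q := by exact_mod_cast hbez
    have h2 : c * g = N * ((m * Int.gcdA p q + n * Int.gcdB p q : ℤ) : ℚ) := by
      rw [h1, ← hp, ← hq]
      push_cast
      rw [← hm, ← hn]
      ring
    rw [mul_div_assoc', eq_div_iff hg0.ne', h2]
    ring
  · rintro ⟨k, rfl⟩
    have e1 : N * α = g * p' := by rw [hp, hp']; push_cast; ring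
    have e2 : N * β = g * q' := by rw [hq, hq']; push_cast; ring
    refine ⟨⟨k * p', ?_⟩, k * q', ?_⟩
    · push_cast
      field_simp
      linear_combination (k : ℚ) * e1
    · push_cast
      field_simp
      linear_combination (k : ℚ) * e2

theorem uni_line {G : AddSubgroup (ℚ × ℚ)} (hG : Uni G) {v : ℚ × ℚ} (hv : v ≠ 0) :
    ∃ a : ℚ, 0 < a ∧ ∀ c : ℚ, c • v ∈ G ↔ ∃ k : ℤ, c = k * a := by
  obtain ⟨e, he, f, hf, hef, hb⟩ := id hG
  obtain ⟨a, ha, hal⟩ := line_aux (dt v f) (dt e v) (by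
    rintro ⟨h1, h2⟩
    apply hv
    rw [expand hef v, h1, h2, zero_smul, zero_smul, add_zero])
  refine ⟨a, ha, fun c => ?_⟩
  rw [← hal c]
  constructor
  · intro h
    obtain ⟨m, hm⟩ := uni_int hG h hf
    obtain ⟨n, hn⟩ := uni_int hG he h
    rw [dt_sl] at hm
    rw [dt_sr] at hn
    exact ⟨⟨m, hm⟩, n, hn⟩
  · rintro ⟨⟨m, hm⟩, n, hn⟩
    have h1 : c • v = m • e + n • f := by
      have h2 := expand hef (c • v)
      rw [dt_sl, dt_sr, hm, hn] at h2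
      rw [zs, zs]
      exact h2
    rw [h1]
    exact G.add_mem (G.zsmul_mem he m) (G.zsmul_mem hf n)

theorem uni_compl {G : AddSubgroup (ℚ × ℚ)} (hG : Uni G) {v : ℚ × ℚ} (hv : v ∈ G)
    (hp : ∀ c : ℚ, c • v ∈ G → ∃ k : ℤ, c = k) : ∃ w ∈ G, dt v w = 1 := by
  obtain ⟨e, he, f, hf, hef, hb⟩ := id hG
  obtain ⟨m, n, hmn⟩ := hb v hv
  have hv0 : v ≠ 0 := by
    rintro rfl
    obtain ⟨k, hk⟩ := hp (1 / 2) (by rw [smul_zero]; exact G.zero_mem)
    have h1 : (1 : ℚ) = ((2 * k : ℤ) : ℚ) := by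
      push_cast
      linarith
    have h2 : (1 : ℤ) = 2 * k := by exact_mod_cast h1
    omega
  have hg : Int.gcd m n ≠ 0 := by
    intro h0
    rw [Int.gcd_eq_zero_iff] at h0
    apply hv0
    rw [hmn, h0.1, h0.2, zero_smul, zero_smul, add_zero]
  obtain ⟨g, hgd⟩ : ∃ g : ℤ, g = (Int.gcd m n : ℤ) := ⟨_, rfl⟩
  have hg0 : 0 < g := by
    rw [hgd]
    have : 0 < Int.gcd m n := Nat.pos_of_ne_zero hg
    exact_mod_cast this
  have hg0' : (0 : ℚ) < g := by exact_mod_cast hg0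
  obtain ⟨m', hm'⟩ : g ∣ m := hgd ▸ Int.gcd_dvd_left m n
  obtain ⟨n', hn'⟩ : g ∣ n := hgd ▸ Int.gcd_dvd_right m n
  have hbez : g = m * Int.gcdA m n + n * Int.gcdB m n := by
    rw [hgd]
    exact Int.gcd_eq_gcd_ab m n
  obtain ⟨k, hk⟩ := hp (1 / g) (by
    have h1 : (1 / (g : ℚ)) • v = m' • e + n' • f := by
      rw [hmn, hm', hn', zs, zs, zs, zs, smul_add, smul_smul, smul_smul]
      congr 2
      · push_cast
        field_simp
      · push_cast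
        field_simp
    rw [h1]
    exact G.add_mem (G.zsmul_mem he m') (G.zsmul_mem hf n'))
  have hg1 : g = 1 := by
    have h1 : (g : ℚ) * k = 1 := by
      rw [← hk]
      field_simp
    have h2 : g * k = 1 := by exact_mod_cast h1
    rcases Int.eq_one_or_neg_one_of_mul_eq_one h2 with h3 | h3
    · exact h3
    · omega
  refine ⟨(-Int.gcdB m n) • e + (Int.gcdA m n) • f,
    G.add_mem (G.zsmul_mem he _) (G.zsmul_mem hf _), ?_⟩
  rw [hmn, zs, zs, zs, zs, dt_lin, hef]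
  have h1 : (g : ℚ) = m * Int.gcdA m n + n * Int.gcdB m n := by exact_mod_cast hbez
  rw [hg1] at h1
  push_cast
  push_cast at h1
  linarith

theorem uni_basis {G : AddSubgroup (ℚ × ℚ)} (hG : Uni G) {u v : ℚ × ℚ} (hu : u ∈ G) (hv : v ∈ G)
    (h : dt u v = 1) : ∀ w ∈ G, ∃ m n : ℤ, w = m • u + n • v := by
  intro w hw
  obtain ⟨m, hm⟩ := uni_int hG hw hv
  obtain ⟨n, hn⟩ := uni_int hG hu hw
  refine ⟨m, n, ?_⟩
  rw [zs, zs, ← hm, ← hn]
  exact expand h w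

/-- Both members of a basis of determinant `1` are primitive. -/
theorem uni_prim {G : AddSubgroup (ℚ × ℚ)} (hG : Uni G) {u v : ℚ × ℚ} (hu : u ∈ G) (hv : v ∈ G)
    (h : dt u v = 1) : (∀ c : ℚ, c • u ∈ G → ∃ k : ℤ, c = k) ∧ ∀ c : ℚ, c • v ∈ G → ∃ k : ℤ, c = k := by
  constructor
  · intro c hc
    obtain ⟨k, hk⟩ := uni_int hG hc hv
    rw [dt_sl, h, mul_one] at hk
    exact ⟨k, hk⟩
  · intro c hc
    obtain ⟨k, hk⟩ := uni_int hG hu hc
    rw [dt_sr, h, mul_one] at hk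
    exact ⟨k, hk⟩

theorem uni_eq {G G' : AddSubgroup (ℚ × ℚ)} (hG : Uni G) (hG' : Uni G') {u v : ℚ × ℚ}
    (hu : u ∈ G) (hv : v ∈ G) (hu' : u ∈ G') (hv' : v ∈ G') (h : dt u v = 1) : G = G' := by
  apply le_antisymm
  · intro w hw
    obtain ⟨m, n, rfl⟩ := uni_basis hG hu hv h w hw
    exact G'.add_mem (G'.zsmul_mem hu' m) (G'.zsmul_mem hv' n)
  · intro w hw
    obtain ⟨m, n, rfl⟩ := uni_basis hG' hu' hv' h w hw
    exact G.add_mem (G.zsmul_mem hu m) (G.zsmul_mem hv n)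

theorem uni_of_iff {G G' : AddSubgroup (ℚ × ℚ)} {a b c d : ℚ} (h : a * d - b * c = 1) (hG : Uni G)
    (hG' : ∀ p : ℚ × ℚ, p ∈ G' ↔ (a * p.1 + b * p.2, c * p.1 + d * p.2) ∈ G) : Uni G' := by
  obtain ⟨e, he, f, hf, hef, hb⟩ := hG
  have hef' : e.1 * f.2 - e.2 * f.1 = 1 := hef
  have key : ∀ e : ℚ × ℚ, (a * (d * e.1 - b * e.2) + b * (-c * e.1 + a * e.2),
      c * (d * e.1 - b * e.2) + d * (-c * e.1 + a * e.2)) = e := by
    intro e
    refine Prod.ext ?_ ?_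
    · show a * (d * e.1 - b * e.2) + b * (-c * e.1 + a * e.2) = e.1
      linear_combination e.1 * h
    · show c * (d * e.1 - b * e.2) + d * (-c * e.1 + a * e.2) = e.2
      linear_combination e.2 * h
  refine ⟨(d * e.1 - b * e.2, -c * e.1 + a * e.2), ?_, (d * f.1 - b * f.2, -c * f.1 + a * f.2), ?_,
    ?_, ?_⟩
  · rw [hG']
    show (a * (d * e.1 - b * e.2) + b * (-c * e.1 + a * e.2),
      c * (d * e.1 - b * e.2) + d * (-c * e.1 + a * e.2)) ∈ G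
    rw [key]
    exact he
  · rw [hG']
    show (a * (d * f.1 - b * f.2) + b * (-c * f.1 + a * f.2),
      c * (d * f.1 - b * f.2) + d * (-c * f.1 + a * f.2)) ∈ G
    rw [key]
    exact hf
  · show (d * e.1 - b * e.2) * (-c * f.1 + a * f.2) - (-c * e.1 + a * e.2) * (d * f.1 - b * f.2) = 1
    linear_combination (a * d - b * c) * hef' + h
  · intro w hw
    rw [hG'] at hw
    obtain ⟨m, n, hmn⟩ := hb _ hw
    refine ⟨m, n, ?_⟩
    rw [zs, zs] at hmn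
    have h1 : a * w.1 + b * w.2 = m * e.1 + n * f.1 := congrArg Prod.fst hmn
    have h2 : c * w.1 + d * w.2 = m * e.2 + n * f.2 := congrArg Prod.snd hmn
    rw [zs, zs]
    refine Prod.ext ?_ ?_
    · show w.1 = (m : ℚ) * (d * e.1 - b * e.2) + (n : ℚ) * (d * f.1 - b * f.2)
      linear_combination d * h1 - b * h2 - w.1 * h
    · show w.2 = (m : ℚ) * (-c * e.1 + a * e.2) + (n : ℚ) * (-c * f.1 + a * f.2)
      linear_combination a * h2 - c * h1 - w.2 * h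

theorem uni_Z2 {G : AddSubgroup (ℚ × ℚ)}
    (h : ∀ p : ℚ × ℚ, p ∈ G ↔ ∃ m n : ℤ, p = ((m : ℚ), (n : ℚ))) : Uni G := by
  refine ⟨(1, 0), (h _).2 ⟨1, 0, by simp⟩, (0, 1), (h _).2 ⟨0, 1, by simp⟩, by simp [dt], ?_⟩
  intro w hw
  obtain ⟨m, n, rfl⟩ := (h w).1 hw
  refine ⟨m, n, ?_⟩
  rw [zs, zs]
  refine Prod.ext ?_ ?_
  · show (m : ℚ) = m * 1 + n * 0
    ring
  · show (n : ℚ) = m * 0 + n * 1
    ring

theorem uni_snd {G : AddSubgroup (ℚ × ℚ)} (hG : Uni G) {a : ℚ} (ha : 0 < a)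
    (h : ∀ c : ℚ, (c, 0) ∈ G ↔ ∃ k : ℤ, c = k * a) :
    (∀ p ∈ G, ∃ k : ℤ, p.2 = k * a⁻¹) ∧ ∃ p ∈ G, p.2 = a⁻¹ := by
  have hmem : ((a, 0) : ℚ × ℚ) ∈ G := (h a).2 ⟨1, by push_cast; ring⟩
  constructor
  · intro p hp
    obtain ⟨k, hk⟩ := uni_int hG hmem hp
    refine ⟨k, ?_⟩
    have h1 : a * p.2 - 0 * p.1 = k := hk
    rw [← h1]
    field_simp
    ring
  · obtain ⟨w, hw, hd⟩ := uni_compl hG hmem (by
      intro c hc
      have h1 : c • ((a, 0) : ℚ × ℚ) = (c * a, 0) := by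
        refine Prod.ext rfl ?_
        show c * 0 = 0
        ring
      rw [h1, h] at hc
      obtain ⟨k, hk⟩ := hc
      exact ⟨k, mul_right_cancel₀ ha.ne' hk⟩)
    refine ⟨w, hw, ?_⟩
    have h1 : a * w.2 - 0 * w.1 = 1 := hd
    field_simp
    linarith

theorem uni_fst {G : AddSubgroup (ℚ × ℚ)} (hG : Uni G) {b : ℚ} (hb : 0 < b)
    (h : ∀ c : ℚ, (0, c) ∈ G ↔ ∃ k : ℤ, c = k * b) :
    (∀ p ∈ G, ∃ k : ℤ, p.1 = k * b⁻¹) ∧ ∃ p ∈ G, p.1 = b⁻¹ := by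
  have hmem : ((0, b) : ℚ × ℚ) ∈ G := (h b).2 ⟨1, by push_cast; ring⟩
  constructor
  · intro p hp
    obtain ⟨k, hk⟩ := uni_int hG hp hmem
    refine ⟨k, ?_⟩
    have h1 : p.1 * b - p.2 * 0 = k := hk
    rw [← h1]
    field_simp
    ring
  · obtain ⟨w, hw, hd⟩ := uni_compl hG hmem (by
      intro c hc
      have h1 : c • ((0, b) : ℚ × ℚ) = (0, c * b) := by
        refine Prod.ext ?_ rfl
        show c * 0 = 0
        ring
      rw [h1, h] at hc
      obtain ⟨k, hk⟩ := hc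
      exact ⟨k, mul_right_cancel₀ hb.ne' hk⟩)
    refine ⟨-w, G.neg_mem hw, ?_⟩
    have h1 : 0 * w.2 - b * w.1 = 1 := hd
    show - w.1 = b⁻¹
    field_simp
    linarith

/-- Integral points with two coprime integral coordinates are primitive in `ℤ²`; every nonzero
vector is a positive multiple of a primitive vector of `G`. -/
theorem uni_primitive_multiple {G : AddSubgroup (ℚ × ℚ)} (hG : Uni G) {v : ℚ × ℚ} (hv : v ≠ 0) :
    ∃ a : ℚ, 0 < a ∧ a • v ∈ G ∧ ∀ c : ℚ, c • (a • v) ∈ G → ∃ k : ℤ, c = k := by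
  obtain ⟨a, ha, hal⟩ := uni_line hG hv
  refine ⟨a, ha, (hal a).2 ⟨1, by push_cast; ring⟩, ?_⟩
  intro c hc
  rw [smul_smul, hal] at hc
  obtain ⟨k, hk⟩ := hc
  exact ⟨k, mul_right_cancel₀ ha.ne' hk⟩

end Pool.Agent.TAM
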