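import Mathlib
import Pool.Agent.TAM.Basic
import Pool.Agent.TAM.UniA

/-!
PROJECT TAM, module Base0: integral frames.
A frame of integral vectors has the coordinate lattice `R2` (`frame_coord`, `frame_coord_unique`).  The leading
terms of `R2` at both ends are the constant integral vectors; `R2` is the sum of its parts of degrees `≥ 0` and
`< 0`, so the index is one.
-/

namespace Pool.Agent.TAM

open LaurentPolynomial

theorem unit_frame {F : W × W} (hF : IsFr F) (h1 : F.1 ∈ R2) (h2 : F.2 ∈ R2) : lat F = R2 := by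
  ext z
  constructor
  · intro hz
    obtain ⟨m, hm⟩ := hF
    have hw := mem_lat.1 hz
    have h3 := frame_coord hm (z.1 • F.1 + z.2 • F.2)
    obtain ⟨h4, h5⟩ := frame_coord_unique ⟨m, hm⟩ h3
    refine ⟨?_, ?_⟩
    · rw [h4]
      exact (isZ_T _).mul (wd_isZ hw h2)
    · rw [h5]
      exact (isZ_T _).mul (wd_isZ h1 hw)
  · intro hz
    exact mem_lat.2 (R2.add_mem (R2_smul hz.1 h1) (R2_smul hz.2 h2))

private theorem C_coeff_ne (a : ℚ) {n : ℤ} (hn : n ≠ 0) : (C a : RQ).coeff n = 0 := by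
  rw [C_apply]
  split_ifs with h
  · exact absurd h hn
  · rfl

private theorem C_coeff_zero (a : ℚ) : (C a : RQ).coeff 0 = a := by
  rw [C_apply, if_pos rfl]

private theorem const_R2 (m n : ℤ) : ((C (m : ℚ), C (n : ℚ)) : W) ∈ R2 :=
  ⟨isZ_int m, isZ_int n⟩

theorem mem_L0_R2 (p : ℚ × ℚ) : p ∈ L0 R2 ↔ ∃ m n : ℤ, p = ((m : ℚ), (n : ℚ)) := by
  rw [mem_L0]
  constructor
  · rintro ⟨z, hz, -, -, h1, h2⟩
    obtain ⟨k, hk⟩ := hz.1 0
    obtain ⟨l, hl⟩ := hz.2 0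
    exact ⟨k, l, Prod.ext (h1.symm.trans hk) (h2.symm.trans hl)⟩
  · rintro ⟨m, n, rfl⟩
    exact ⟨(C (m : ℚ), C (n : ℚ)), const_R2 m n, fun i hi => C_coeff_ne _ hi.ne,
      fun i hi => C_coeff_ne _ hi.ne, C_coeff_zero _, C_coeff_zero _⟩

theorem mem_L1_R2 (p : ℚ × ℚ) : p ∈ L1 R2 ↔ ∃ m n : ℤ, p = ((m : ℚ), (n : ℚ)) := by
  rw [mem_L1]
  constructor
  · rintro ⟨z, hz, -, -, h1, h2⟩
    obtain ⟨k, hk⟩ := hz.1 0
    obtain ⟨l, hl⟩ := hz.2 0
    exact ⟨k, l, Prod.ext (h1.symm.trans hk) (h2.symm.trans hl)⟩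
  · rintro ⟨m, n, rfl⟩
    exact ⟨(C (m : ℚ), C (n : ℚ)), const_R2 m n, fun i hi => C_coeff_ne _ hi.ne',
      fun i hi => C_coeff_ne _ hi.ne', C_coeff_zero _, C_coeff_zero _⟩

/-- The part of degrees `≥ 0`. -/
private noncomputable def pos (f : RQ) : RQ := ⟨f.coeff.filter fun n : ℤ => 0 ≤ n⟩

private theorem pos_coeff (f : RQ) (n : ℤ) : (pos f).coeff n = if 0 ≤ n then f.coeff n else 0 :=
  Finsupp.filter_apply _ _ _

private theorem pos_pt (f : RQ) : Pt (pos f) := by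
  intro n hn
  rw [pos_coeff, if_neg (not_le.2 hn)]

private theorem pos_ps (f : RQ) : Ps' (f - pos f) := by
  intro n hn
  have h1 : (f - pos f).coeff n = f.coeff n - (pos f).coeff n := by simp
  rw [h1, pos_coeff, if_pos hn, sub_self]

private theorem pos_isZ {f : RQ} (h : IsZ f) : IsZ (pos f) := by
  intro n
  rw [pos_coeff]
  split_ifs
  · exact h n
  · exact ⟨0, by simp⟩

theorem NN_R2 : NN R2 = 1 := by
  unfold NN
  rw [AddSubgroup.relIndex_eq_one]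
  intro w hw
  rw [AddSubgroup.mem_sup]
  refine ⟨(pos w.1, pos w.2), ⟨⟨pos_isZ hw.1, pos_isZ hw.2⟩, pos_pt _, pos_pt _⟩,
    (w.1 - pos w.1, w.2 - pos w.2), ⟨⟨hw.1.sub (pos_isZ hw.1), hw.2.sub (pos_isZ hw.2)⟩, pos_ps _, pos_ps _⟩, ?_⟩
  exact Prod.ext (add_sub_cancel _ _) (add_sub_cancel _ _)

private theorem uni_of_int {G : AddSubgroup (ℚ × ℚ)} (h : ∀ p, p ∈ G ↔ ∃ m n : ℤ, p = ((m : ℚ), (n : ℚ))) :
    Uni G := by
  refine ⟨(1, 0), (h _).2 ⟨1, 0, by simp⟩, (0, 1), (h _).2 ⟨0, 1, by simp⟩, by simp [dt], ?_⟩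
  intro w hw
  obtain ⟨m, n, rfl⟩ := (h w).1 hw
  exact ⟨m, n, by simp⟩

theorem gd_R2 : Gd R2 where
  stb := fun r hr z hz => R2_smul hr hz
  u0 := uni_of_int mem_L0_R2
  u1 := uni_of_int mem_L1_R2
  nz := by
    rw [NN_R2]
    exact one_ne_zero

end Pool.Agent.TAM
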