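import Mathlib
import Pool.Agent.TAM.Basic

/-!
PROJECT TAM, module Prim: primitive multiples of a vector, Gauss lemma.
PLAN. `x ≠ 0`: its finitely many coefficients (of `x.1` and `x.2`) are rational, not all zero. Multiply by a common
denominator and divide by the gcd of the resulting integers: `e > 0` with `e • x ∈ R2` and no prime divides all
coefficients. Gauss: let `V = e • x`, `f • V ∈ R2`. If `f` is not integral let `M > 1` be minimal with `(M : ℚ) • f` integral,
`q ∣ M` a prime, `g = (M/q) • f`: `q • g` integral, `g` not integral. `(q • g) * V.i = q * (g * V.i)` is divisible by `q` for `i = 1, 2`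
in ℤ[T;T⁻¹] (`g • V ∈ R2`). Reduce mod `q` (AddMonoidAlgebra.mapRingHom to `LaurentPolynomial (ZMod q)`, a domain):
`q • g` or both `V.1, V.2` reduce to `0`; the latter is excluded, so `q • g` is divisible by `q`, `g` integral, contradiction.
-/

namespace Pool.Agent.TAM

open LaurentPolynomial

private lemma qsmul_coeff (c : ℚ) (f : RQ) (n : ℤ) : (c • f).coeff n = c * f.coeff n := by
  simp

private lemma exists_den (f : RQ) : ∃ M : ℕ, 0 < M ∧ IsZ ((M : ℚ) • f) := by
  refine ⟨∏ n ∈ f.coeff.support, (f.coeff n).den,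
    Finset.prod_pos fun n _ => (f.coeff n).den_pos, fun n => ?_⟩
  rw [qsmul_coeff]
  by_cases hn : n ∈ f.coeff.support
  · rw [← Finset.mul_prod_erase _ _ hn]
    refine ⟨(∏ x ∈ f.coeff.support.erase n, ((f.coeff x).den : ℤ)) * (f.coeff n).num, ?_⟩
    push_cast
    have h := Rat.den_mul_eq_num (f.coeff n)
    have h' : ((f.coeff n).den : ℚ) * f.coeff n = (f.coeff n).num := by
      rw [h]
    rw [mul_assoc, mul_comm _ (f.coeff n), ← mul_assoc, h', mul_comm]
  · rw [Finsupp.notMem_support_iff] at hn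
    exact ⟨0, by rw [hn]; simp⟩

private lemma R2_nat_smul (k : ℕ) {w : W} (hw : w ∈ R2) : (k : ℚ) • w ∈ R2 := by
  have := R2_int_smul (k : ℤ) hw
  simpa using this

private lemma isZ_nat_smul (k : ℕ) {f : RQ} (hf : IsZ f) : IsZ ((k : ℚ) • f) := by
  have := hf.int_smul (k : ℤ)
  simpa using this

/-- Reduction modulo `q`. -/
private noncomputable def red (q : ℕ) : LaurentPolynomial ℤ →+* LaurentPolynomial (ZMod q) :=
  AddMonoidAlgebra.mapRingHom ℤ (Int.castRingHom (ZMod q))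

private lemma red_coeff (q : ℕ) (g : LaurentPolynomial ℤ) (n : ℤ) :
    (red q g).coeff n = (g.coeff n : ZMod q) := by
  simp [red]

private lemma div_of_red {q : ℕ} (hq : q.Prime) {g : LaurentPolynomial ℤ} (h : red q g = 0) :
    IsZ ((q : ℚ)⁻¹ • toQ g) := by
  intro n
  have h1 : (g.coeff n : ZMod q) = 0 := by
    rw [← red_coeff, h]
    simp
  rw [ZMod.intCast_zmod_eq_zero_iff_dvd] at h1
  obtain ⟨k, hk⟩ := h1
  refine ⟨k, ?_⟩
  rw [qsmul_coeff, toQ_coeff, hk]
  push_cast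
  have : (q : ℚ) ≠ 0 := by exact_mod_cast hq.ne_zero
  field_simp

private lemma gauss {V : W} (hV : V ∈ R2) (hp : ∀ q : ℕ, q.Prime → (q : ℚ)⁻¹ • V ∉ R2) :
    ∀ M : ℕ, 0 < M → ∀ f : RQ, f • V ∈ R2 → IsZ ((M : ℚ) • f) → IsZ f := by
  intro M
  induction M using Nat.strong_induction_on with
  | _ M ih =>
  intro hM f hf hMf
  rcases Nat.lt_or_ge 1 M with h1 | h1
  · obtain ⟨q, hq, M', rfl⟩ := Nat.exists_prime_and_dvd (n := M) (by omega)
    have hq0 : (q : ℚ) ≠ 0 := by exact_mod_cast hq.ne_zero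
    have hM' : 0 < M' := Nat.pos_of_mul_pos_left hM
    set g : RQ := (M' : ℚ) • f with hg
    have hgV : g • V ∈ R2 := by
      rw [hg, smul_assoc]
      exact R2_nat_smul M' hf
    have hqg : IsZ ((q : ℚ) • g) := by
      rw [hg, smul_smul]
      have : ((q * M' : ℕ) : ℚ) = (q : ℚ) * M' := by push_cast; ring
      rwa [this] at hMf
    obtain ⟨G, hG⟩ := isZ_iff.1 hqg
    obtain ⟨A, hA⟩ := isZ_iff.1 hV.1
    obtain ⟨B, hB⟩ := isZ_iff.1 hV.2
    obtain ⟨A', hA'⟩ := isZ_iff.1 hgV.1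
    obtain ⟨B', hB'⟩ := isZ_iff.1 hgV.2
    have e1 : G * A = C (q : ℤ) * A' := by
      apply toQ_injective
      rw [map_mul, map_mul, hG, hA, hA', toQ_C]
      show (q : ℚ) • g * V.1 = C ((q : ℤ) : ℚ) * (g * V.1)
      rw [smul_eq_C_mul, Int.cast_natCast]
      ring
    have e2 : G * B = C (q : ℤ) * B' := by
      apply toQ_injective
      rw [map_mul, map_mul, hG, hB, hB', toQ_C]
      show (q : ℚ) • g * V.2 = C ((q : ℤ) : ℚ) * (g * V.2)
      rw [smul_eq_C_mul, Int.cast_natCast]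
      ring
    have hC : red q (C (q : ℤ)) = 0 := by
      ext n
      rw [red_coeff]
      simp only [C_apply]
      split_ifs <;> simp
    haveI := Fact.mk hq
    have r1 : red q G * red q A = 0 := by rw [← map_mul, e1, map_mul, hC, zero_mul]
    have r2 : red q G * red q B = 0 := by rw [← map_mul, e2, map_mul, hC, zero_mul]
    have hgZ : IsZ g := by
      by_cases hG0 : red q G = 0
      · have := div_of_red hq hG0
        rwa [hG, smul_smul, inv_mul_cancel₀ hq0, one_smul] at this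
      · exfalso
        have a0 := (mul_eq_zero.1 r1).resolve_left hG0
        have b0 := (mul_eq_zero.1 r2).resolve_left hG0
        refine hp q hq ⟨?_, ?_⟩
        · show IsZ ((q : ℚ)⁻¹ • V.1)
          rw [← hA]
          exact div_of_red hq a0
        · show IsZ ((q : ℚ)⁻¹ • V.2)
          rw [← hB]
          exact div_of_red hq b0
    exact ih M' (by have := hq.two_le; nlinarith) hM' f hf hgZ
  · have : M = 1 := by omega
    subst this
    simpa using hMf

theorem exists_prim {x : W} (hx : x ≠ 0) :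
    ∃ e : ℚ, 0 < e ∧ e • x ∈ R2 ∧ (∀ f : RQ, f • (e • x) ∈ R2 → IsZ f) ∧
      ∀ q : ℕ, q.Prime → (q : ℚ)⁻¹ • (e • x) ∉ R2 := by
  obtain ⟨M1, hM1, h1⟩ := exists_den x.1
  obtain ⟨M2, hM2, h2⟩ := exists_den x.2
  set D : ℕ := M1 * M2 with hD
  have hD0 : 0 < D := Nat.mul_pos hM1 hM2
  have hDq : (D : ℚ) ≠ 0 := by exact_mod_cast hD0.ne'
  have hDx : (D : ℚ) • x ∈ R2 := by
    refine ⟨?_, ?_⟩
    · show IsZ ((D : ℚ) • x.1)
      have := isZ_nat_smul M2 h1
      rw [smul_smul] at this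
      rw [hD, Nat.cast_mul, mul_comm]
      exact this
    · show IsZ ((D : ℚ) • x.2)
      have := isZ_nat_smul M1 h2
      rw [smul_smul] at this
      rw [hD, Nat.cast_mul]
      exact this
  have hbd : ∃ B : ℕ, ∀ m : ℕ, 0 < m → (m : ℚ)⁻¹ • ((D : ℚ) • x) ∈ R2 → m ≤ B := by
    have aux : ∀ y : RQ, y ≠ 0 → ∃ B : ℕ, ∀ m : ℕ, 0 < m → IsZ ((m : ℚ)⁻¹ • y) → m ≤ B := by
      intro y hy
      have : ∃ n, y.coeff n ≠ 0 := by
        by_contra hcon
        push Not at hcon
        apply hy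
        ext n
        rw [hcon n]
        simp
      obtain ⟨n, hn⟩ := this
      refine ⟨⌈|y.coeff n|⌉₊, fun m hm hZ => ?_⟩
      obtain ⟨k, hk⟩ := hZ n
      rw [qsmul_coeff] at hk
      have hm0 : (m : ℚ) ≠ 0 := by exact_mod_cast hm.ne'
      have hk' : y.coeff n = m * k := by
        rw [← hk, ← mul_assoc, mul_inv_cancel₀ hm0, one_mul]
      have hk0 : k ≠ 0 := by
        rintro rfl
        rw [Int.cast_zero, mul_zero] at hk'
        exact hn hk'
      have h3 : (1 : ℚ) ≤ |(k : ℚ)| := by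
        have := Int.one_le_abs hk0
        rw [← Int.cast_abs]
        exact_mod_cast this
      have h4 : (m : ℚ) ≤ |y.coeff n| := by
        rw [hk', abs_mul, abs_of_nonneg (Nat.cast_nonneg m)]
        have : (0 : ℚ) < m := by exact_mod_cast hm
        nlinarith
      exact_mod_cast h4.trans (Nat.le_ceil _)
    by_cases hx1 : x.1 = 0
    · have hx2 : x.2 ≠ 0 := fun h => hx (Prod.ext hx1 h)
      obtain ⟨B, hB⟩ := aux ((D : ℚ) • x.2) (smul_ne_zero hDq hx2)
      exact ⟨B, fun m hm h => hB m hm h.2⟩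
    · obtain ⟨B, hB⟩ := aux ((D : ℚ) • x.1) (smul_ne_zero hDq hx1)
      exact ⟨B, fun m hm h => hB m hm h.1⟩
  obtain ⟨B, hB⟩ := hbd
  classical
  have hex : ∃ m : ℕ, 0 < m ∧ (m : ℚ)⁻¹ • ((D : ℚ) • x) ∈ R2 ∧
      ∀ m' : ℕ, 0 < m' → (m' : ℚ)⁻¹ • ((D : ℚ) • x) ∈ R2 → m' ≤ m := by
    let P : ℕ → Prop := fun m => 0 < m ∧ (m : ℚ)⁻¹ • ((D : ℚ) • x) ∈ R2
    have hP1 : P 1 := ⟨one_pos, by simpa using hDx⟩
    have h1B : 1 ≤ B := hB 1 hP1.1 hP1.2
    have hsp := Nat.findGreatest_spec (P := P) h1B hP1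
    exact ⟨Nat.findGreatest P B, hsp.1, hsp.2, fun m' h0 h => Nat.le_findGreatest (hB m' h0 h) ⟨h0, h⟩⟩
  obtain ⟨m, hm, hmx, hmax⟩ := hex
  have hm0 : (0 : ℚ) < m := by exact_mod_cast hm
  have hD1 : (0 : ℚ) < D := by exact_mod_cast hD0
  have hp : ∀ q : ℕ, q.Prime → (q : ℚ)⁻¹ • (((m : ℚ)⁻¹ * D) • x) ∉ R2 := by
    intro q hq h
    have h5 := hmax (q * m) (Nat.mul_pos hq.pos hm) (by
      rw [smul_smul] at h ⊢
      convert h using 2
      push_cast
      rw [mul_inv, mul_assoc])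
    have := hq.two_le
    nlinarith
  rw [smul_smul] at hmx
  refine ⟨(m : ℚ)⁻¹ * D, by positivity, hmx, fun f hf => ?_, hp⟩
  obtain ⟨M, hM, hMf⟩ := exists_den f
  exact gauss hmx hp M hM f hf hMf

end Pool.Agent.TAM
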