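import Mathlib
import Pool.Agent.TAM.Basic
import Pool.Agent.TAM.Prim

/-!
PROJECT TAM, module Alg: the algebra behind the chain lemma.
PLAN. Step 1 (integral form). Let `V ∈ R2` with `q⁻¹ • V ∉ R2` for all primes `q`. For every `M ≥ 1` there is `I` such that for all
`v : RQ` with `Pt v`, `IsZ v`: if all coefficients of `v * V.1, v * V.2` in degrees `< I` are divisible by `M` then `M ∣ v.coeff 0`.
Induction on `M` (M = 1 trivial; `M = q * M'`, q prime, `Nat.recOnMul` or strong induction with `Nat.minFac`). Choose a component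
`V_i` and `n0` minimal such that `q ∤ V_i.coeff n0` (lowest degree where it is not divisible; exists as V is not divisible by q, finite support).
If `q` divides the coefficients of `v * V_i` in degrees `< I` then `q ∣ v.coeff j` for all `j` with `j + n0 < I`: look at the smallest
`j` with `q ∤ v.coeff j`; the coefficient of `v * V_i` in degree `j + n0` is `v_j V_{i,n0}` mod q. So `v = q v' + v''` with `v'`, `v''` integral, `Pt`,
`v''` supported in degrees `≥ I - n0`; `v'' * V_k` is supported in degrees `≥ I - n0 - K` (K bounds the pole orders of V). So the coefficients of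
`v' * V_k` in degrees `< min I (I - n0 - K)` are divisible by `M'`. Take `I` so large that this min is `≥ I(M')` and `I - n0 > 0`.
Step 2. `x = e⁻¹ • V` (exists_prim). `(M:ℚ) • u` integral and `u * x` integral in low degrees: with `e⁻¹ = p / r`, put
`v = (M p) • (u)`... precisely: choose `M2 ≥ 1` with `M2 * e⁻¹ / M`... e.g. `M2 = M * r`, `v = (M2 * e⁻¹) • u = (M * p) • u` is integral, and
`v * V = M2 • (u * x)` is divisible by `M2` in degrees `< I`. Step 1 with `M2`: `M2 ∣ v.coeff 0`, so `e⁻¹ * u.coeff 0 ∈ ℤ`, and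
`(u.coeff 0) • x = (e⁻¹ * u.coeff 0) • V ∈ R2`.
-/

namespace Pool.Agent.TAM

open LaurentPolynomial

/-- Convolution of a finitely supported sequence with a sequence. -/
private noncomputable def cv (A : ℤ →₀ ℤ) (v : ℤ → ℤ) (n : ℤ) : ℤ :=
  A.sum fun m a => a * v (-m + n)

private lemma prime_case (A : ℤ →₀ ℤ) (q : ℕ) (hq : q.Prime) (hA : ∃ m, ¬ (q : ℤ) ∣ A m) (J : ℤ) :
    ∃ I : ℤ, ∀ v : ℤ → ℤ, (∀ j < 0, v j = 0) → (∀ n < I, (q : ℤ) ∣ cv A v n) →
      ∀ j < J, (q : ℤ) ∣ v j := by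
  classical
  -- the smallest degree
  have hmin : ∃ n0, ¬ (q : ℤ) ∣ A n0 ∧ ∀ m < n0, (q : ℤ) ∣ A m := by
    obtain ⟨m, hm⟩ := hA
    set s := A.support.filter (fun m => ¬ (q : ℤ) ∣ A m) with hs
    have hne : s.Nonempty := by
      refine ⟨m, Finset.mem_filter.2 ⟨?_, hm⟩⟩
      rw [Finsupp.mem_support_iff]
      intro h
      exact hm (by rw [h]; exact dvd_zero _)
    refine ⟨s.min' hne, (Finset.mem_filter.1 (s.min'_mem hne)).2, fun m' hm' => ?_⟩
    by_contra hcon
    have : m' ∈ s := by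
      refine Finset.mem_filter.2 ⟨?_, hcon⟩
      rw [Finsupp.mem_support_iff]
      intro h
      exact hcon (by rw [h]; exact dvd_zero _)
    exact absurd (s.min'_le m' this) (not_le.2 hm')
  obtain ⟨n0, hn0, hlow⟩ := hmin
  refine ⟨J + n0, fun v hv hn => ?_⟩
  have key : ∀ N : ℕ, ∀ j < J, j < N → (q : ℤ) ∣ v j := by
    intro N
    induction N with
    | zero =>
      intro j _ hj
      rw [hv j (by simpa using hj)]
      exact dvd_zero _
    | succ N ih =>
      intro j hjJ hjN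
      have h1 := hn (j + n0) (by omega)
      unfold cv at h1
      have hmem : n0 ∈ A.support := by
        rw [Finsupp.mem_support_iff]
        intro h
        exact hn0 (by rw [h]; exact dvd_zero _)
      rw [Finsupp.sum, ← Finset.add_sum_erase _ _ hmem] at h1
      have h2 : (q : ℤ) ∣ ∑ x ∈ A.support.erase n0, A x * v (-x + (j + n0)) := by
        refine Finset.dvd_sum fun x hx => ?_
        rcases lt_or_gt_of_ne (Finset.ne_of_mem_erase hx) with h | h
        · exact Dvd.dvd.mul_right (hlow x h) _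
        · exact Dvd.dvd.mul_left (ih _ (by omega) (by push_cast at hjN; omega)) _
      have h3 := (Int.dvd_add_left h2).1 h1
      have h4 : -n0 + (j + n0) = j := by ring
      rw [h4] at h3
      exact ((Nat.prime_iff_prime_int.1 hq).dvd_or_dvd h3).resolve_left hn0
  intro j hj
  exact key (j + 1).toNat j hj (by omega)

private lemma low_zero (A : ℤ →₀ ℤ) : ∃ K : ℤ, ∀ m ∈ A.support, -K ≤ m := by
  obtain ⟨lo, hlo⟩ := A.support.bddBelow
  exact ⟨-lo, fun m hm => by rw [neg_neg]; exact hlo (Finset.mem_coe.2 hm)⟩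

private lemma step_one (A B : ℤ →₀ ℤ)
    (hAB : ∀ q : ℕ, q.Prime → (∃ m, ¬ (q : ℤ) ∣ A m) ∨ (∃ m, ¬ (q : ℤ) ∣ B m)) :
    ∀ M : ℕ, 0 < M → ∀ J : ℤ, ∃ I : ℤ, ∀ v : ℤ → ℤ, (∀ j < 0, v j = 0) →
      (∀ n < I, (M : ℤ) ∣ cv A v n ∧ (M : ℤ) ∣ cv B v n) → ∀ j < J, (M : ℤ) ∣ v j := by
  intro M
  induction M using Nat.strong_induction_on with
  | _ M ih =>
  intro hM J
  rcases Nat.lt_or_ge 1 M with h1 | h1
  · obtain ⟨q, hq, M', rfl⟩ := Nat.exists_prime_and_dvd (n := M) (by omega)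
    have hM' : 0 < M' := Nat.pos_of_mul_pos_left hM
    obtain ⟨I', hI'⟩ := ih M' (by have := hq.two_le; nlinarith) hM' J
    obtain ⟨KA, hKA⟩ := low_zero A
    obtain ⟨KB, hKB⟩ := low_zero B
    set J' : ℤ := max J (max (I' + KA) (I' + KB)) with hJ'
    have hI1 : ∃ I1 : ℤ, ∀ v : ℤ → ℤ, (∀ j < 0, v j = 0) →
        (∀ n < I1, (q : ℤ) ∣ cv A v n ∧ (q : ℤ) ∣ cv B v n) → ∀ j < J', (q : ℤ) ∣ v j := by
      rcases hAB q hq with h | h
      · obtain ⟨I1, hI1⟩ := prime_case A q hq h J'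
        exact ⟨I1, fun v hv hn => hI1 v hv fun n hn' => (hn n hn').1⟩
      · obtain ⟨I1, hI1⟩ := prime_case B q hq h J'
        exact ⟨I1, fun v hv hn => hI1 v hv fun n hn' => (hn n hn').2⟩
    obtain ⟨I1, hI1⟩ := hI1
    refine ⟨max I1 I', fun v hv hn j hj => ?_⟩
    have hq0 : (q : ℤ) ≠ 0 := by exact_mod_cast hq.ne_zero
    have hdq : ∀ j < J', (q : ℤ) ∣ v j := hI1 v hv fun n hn' => by
      have h2 := hn n (lt_of_lt_of_le hn' (le_max_left _ _))
      push_cast at h2
      exact ⟨(Dvd.intro _ rfl).trans h2.1, (Dvd.intro _ rfl).trans h2.2⟩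
    set v' : ℤ → ℤ := fun j => if j < J' then v j / q else 0 with hv'
    have hvv : ∀ j < J', v j = q * v' j := by
      intro j hj
      simp only [hv', if_pos hj]
      exact (Int.mul_ediv_cancel' (hdq j hj)).symm
    have hcv : ∀ (C : ℤ →₀ ℤ) (K : ℤ), (∀ m ∈ C.support, -K ≤ m) → I' + K ≤ J' → ∀ n < I',
        cv C v n = q * cv C v' n := by
      intro C K hK hKJ n hn
      unfold cv
      rw [Finsupp.sum, Finsupp.sum, Finset.mul_sum]
      refine Finset.sum_congr rfl fun m hm => ?_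
      have := hK m hm
      rw [hvv (-m + n) (by omega)]
      ring
    have h3 := hI' v' (fun j hj => by
      simp only [hv']
      split_ifs
      · rw [hv j hj]; simp
      · rfl) (fun n hn' => by
      have h2 := hn n (lt_of_lt_of_le hn' (le_max_right _ _))
      rw [hcv A KA hKA (le_trans (le_max_left _ _) (le_max_right _ _)) n hn',
        hcv B KB hKB (le_trans (le_max_right _ _) (le_max_right _ _)) n hn'] at h2
      push_cast at h2
      exact ⟨(mul_dvd_mul_iff_left hq0).1 h2.1, (mul_dvd_mul_iff_left hq0).1 h2.2⟩) j hj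
    rw [hvv j (lt_of_lt_of_le hj (le_max_left _ _))]
    push_cast
    exact mul_dvd_mul_left _ h3
  · have : M = 1 := by omega
    subst this
    exact ⟨0, fun v _ _ j _ => by simp⟩

theorem alg_chain (x : W) (hx : x ≠ 0) (M : ℕ) (hM : 0 < M) :
    ∃ I : ℤ, ∀ u : RQ, Pt u → IsZ ((M : ℚ) • u) →
      (∀ n < I, (∃ k : ℤ, (u * x.1).coeff n = k) ∧ ∃ k : ℤ, (u * x.2).coeff n = k) →
      (u.coeff 0) • x ∈ R2 := by
  obtain ⟨e, he, hV, -, hp⟩ := exists_prim hx
  set V : W := e • x with hVdef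
  obtain ⟨A, hA⟩ := isZ_iff.1 hV.1
  obtain ⟨B, hB⟩ := isZ_iff.1 hV.2
  have hAB : ∀ q : ℕ, q.Prime →
      (∃ m, ¬ (q : ℤ) ∣ A.coeff m) ∨ (∃ m, ¬ (q : ℤ) ∣ B.coeff m) := by
    intro q hq
    by_contra hcon
    push Not at hcon
    obtain ⟨h1, h2⟩ := hcon
    have hq0 : (q : ℚ) ≠ 0 := by exact_mod_cast hq.ne_zero
    refine hp q hq ⟨fun n => ?_, fun n => ?_⟩
    · obtain ⟨k, hk⟩ := h1 n
      refine ⟨k, ?_⟩
      show ((q : ℚ)⁻¹ • V.1).coeff n = _
      rw [← hA, AddMonoidAlgebra.coeff_smul_apply, toQ_coeff, hk, smul_eq_mul]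
      push_cast
      field_simp
    · obtain ⟨k, hk⟩ := h2 n
      refine ⟨k, ?_⟩
      show ((q : ℚ)⁻¹ • V.2).coeff n = _
      rw [← hB, AddMonoidAlgebra.coeff_smul_apply, toQ_coeff, hk, smul_eq_mul]
      push_cast
      field_simp
  set r : ℕ := e.den with hr
  set p : ℕ := e.num.natAbs with hpdef
  have hr0 : 0 < r := e.den_pos
  have hp0 : 0 < p := by
    have := Rat.num_pos.2 he
    omega
  have hre : (r : ℚ) * e = p := by
    have h1 : (r : ℚ) * e = e.num := Rat.den_mul_eq_num e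
    rw [h1, hpdef]
    have h2 : ((e.num.natAbs : ℤ)) = e.num := by
      have := Rat.num_pos.2 he
      omega
    have h3 := congrArg (Int.cast : ℤ → ℚ) h2.symm
    rw [Int.cast_natCast] at h3
    exact h3
  obtain ⟨I, hI⟩ := step_one A.coeff B.coeff hAB (M * p) (Nat.mul_pos hM hp0) 1
  refine ⟨I, fun u hu hMu hn => ?_⟩
  have hru : IsZ (((M : ℚ) * r) • u) := by
    have := hMu.int_smul (r : ℤ)
    rw [smul_smul] at this
    rw [mul_comm]
    simpa using this
  obtain ⟨v, hv⟩ := isZ_iff.1 hru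
  have hvc : ∀ j, (v.coeff j : ℚ) = (M : ℚ) * r * u.coeff j := by
    intro j
    rw [← toQ_coeff, hv, AddMonoidAlgebra.coeff_smul_apply, smul_eq_mul]
  have hconv : ∀ (G : LaurentPolynomial ℤ) (y : RQ), toQ G = e • y → ∀ n,
      (cv G.coeff v.coeff n : ℚ) = (M : ℚ) * p * (u * y).coeff n := by
    intro G y hG n
    have h1 : cv G.coeff v.coeff n = (G * v).coeff n := by
      rw [AddMonoidAlgebra.coeff_mul_apply_left]
      rfl
    rw [h1, ← toQ_coeff, map_mul, hG, hv, smul_mul_smul_comm, mul_comm y u,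
      AddMonoidAlgebra.coeff_smul_apply, smul_eq_mul, ← hre]
    ring
  have hdv : ∀ (G : LaurentPolynomial ℤ) (y : RQ), toQ G = e • y → ∀ n,
      (∃ k : ℤ, (u * y).coeff n = k) → ((M * p : ℕ) : ℤ) ∣ cv G.coeff v.coeff n := by
    intro G y hG n ⟨k, hk⟩
    refine ⟨k, ?_⟩
    have h1 := hconv G y hG n
    rw [hk] at h1
    have : (cv G.coeff v.coeff n : ℚ) = (((M * p : ℕ) : ℤ) * k : ℤ) := by
      rw [h1]; push_cast; ring
    exact_mod_cast this
  have h0 := hI v.coeff (fun j hj => by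
      have h1 := hvc j
      rw [hu j hj, mul_zero] at h1
      exact_mod_cast h1)
    (fun n hn' => ⟨hdv A x.1 hA n (hn n hn').1, hdv B x.2 hB n (hn n hn').2⟩) 0 one_pos
  obtain ⟨k, hk⟩ := h0
  have hM0 : (M : ℚ) ≠ 0 := by exact_mod_cast hM.ne'
  have hr1 : (r : ℚ) ≠ 0 := by exact_mod_cast hr0.ne'
  have h5 : u.coeff 0 = k * e := by
    have h1 := hvc 0
    rw [hk] at h1
    push_cast at h1
    rw [← hre] at h1
    have h2 : (M : ℚ) * r * (e * k) = (M : ℚ) * r * u.coeff 0 := by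
      rw [← h1]; ring
    have h3 := mul_left_cancel₀ (mul_ne_zero hM0 hr1) h2
    rw [← h3, mul_comm]
  rw [h5, mul_smul]
  exact R2_int_smul k hV

end Pool.Agent.TAM
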