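import Mathlib
import Pool.Agent.TAM.Basic

/-!
PROJECT TAM, module LL: behaviour of `L0, L1, NN` under base change, constants.
-/

namespace Pool.Agent.TAM

open LaurentPolynomial

private theorem cmb_coeff (a b : ℚ) (f g : RQ) (n : ℤ) :
    (a • f + b • g).coeff n = a * f.coeff n + b * g.coeff n := by
  simp

private noncomputable def phi (a b c d : ℚ) : W →+ W where
  toFun z := (a • z.1 + b • z.2, c • z.1 + d • z.2)
  map_zero' := by simp
  map_add' x y := by
    refine Prod.ext ?_ ?_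
    · show a • (x.1 + y.1) + b • (x.2 + y.2) = (a • x.1 + b • x.2) + (a • y.1 + b • y.2)
      module
    · show c • (x.1 + y.1) + d • (x.2 + y.2) = (c • x.1 + d • x.2) + (c • y.1 + d • y.2)
      module

private theorem phi_apply (a b c d : ℚ) (z : W) : phi a b c d z = (a • z.1 + b • z.2, c • z.1 + d • z.2) := rfl

private theorem phi_phi {a b c d : ℚ} (h : a * d - b * c = 1) (z : W) :
    phi a b c d (phi d (-b) (-c) a z) = z := by
  rw [phi_apply, phi_apply]
  refine Prod.ext ?_ ?_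
  · show a • (d • z.1 + (-b) • z.2) + b • ((-c) • z.1 + a • z.2) = z.1
    have h1 : a • (d • z.1 + (-b) • z.2) + b • ((-c) • z.1 + a • z.2) = (a * d - b * c) • z.1 := by
      module
    rw [h1, h, one_smul]
  · show c • (d • z.1 + (-b) • z.2) + d • ((-c) • z.1 + a • z.2) = z.2
    have h1 : c • (d • z.1 + (-b) • z.2) + d • ((-c) • z.1 + a • z.2) = (a * d - b * c) • z.2 := by
      module
    rw [h1, h, one_smul]

private theorem phi_phi' {a b c d : ℚ} (h : a * d - b * c = 1) (z : W) :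
    phi d (-b) (-c) a (phi a b c d z) = z := by
  have h1 : d * a - (-b) * (-c) = 1 := by rw [← h]; ring
  have h2 := phi_phi h1 z
  rw [neg_neg, neg_neg] at h2
  exact h2

private theorem lat_bas (a b c d : ℚ) (F : W × W) : lat (bas a b c d F) = (lat F).comap (phi a b c d) := by
  ext z
  exact mem_lat_bas

/-- Stable under rational linear combinations. -/
private def Lc (P : RQ → Prop) : Prop := ∀ (a b : ℚ) (f g : RQ), P f → P g → P (a • f + b • g)

private theorem lc_gen (S : Set ℤ) : Lc fun f => ∀ n ∈ S, f.coeff n = 0 := by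
  intro a b f g hf hg n hn
  rw [cmb_coeff, hf n hn, hg n hn, mul_zero, mul_zero, add_zero]

private theorem lc_Pt : Lc Pt := lc_gen {n | n < 0}
private theorem lc_Ps : Lc Ps := lc_gen {n | 0 < n}
private theorem lc_Ps' : Lc Ps' := lc_gen {n | 0 ≤ n}

private theorem lc_iff {P : RQ → Prop} (hP : Lc P) {a b c d : ℚ} (h : a * d - b * c = 1) (z : W) :
    (P (phi a b c d z).1 ∧ P (phi a b c d z).2) ↔ (P z.1 ∧ P z.2) := by
  constructor
  · rintro ⟨h1, h2⟩
    rw [← phi_phi' h z]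
    exact ⟨hP _ _ _ _ h1 h2, hP _ _ _ _ h1 h2⟩
  · rintro ⟨h1, h2⟩
    exact ⟨hP _ _ _ _ h1 h2, hP _ _ _ _ h1 h2⟩

private theorem lead_bas {P : RQ → Prop} (hP : Lc P) {a b c d : ℚ} (h : a * d - b * c = 1) {F : W × W} {p : ℚ × ℚ} :
    (∃ z ∈ lat (bas a b c d F), P z.1 ∧ P z.2 ∧ z.1.coeff 0 = p.1 ∧ z.2.coeff 0 = p.2) ↔
      ∃ z ∈ lat F, P z.1 ∧ P z.2 ∧ z.1.coeff 0 = a * p.1 + b * p.2 ∧ z.2.coeff 0 = c * p.1 + d * p.2 := by
  constructor
  · rintro ⟨z, hz, h1, h2, h3, h4⟩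
    rw [lat_bas] at hz
    have h5 := (lc_iff hP h z).2 ⟨h1, h2⟩
    refine ⟨phi a b c d z, hz, h5.1, h5.2, ?_, ?_⟩
    · show (a • z.1 + b • z.2).coeff 0 = _
      rw [cmb_coeff, h3, h4]
    · show (c • z.1 + d • z.2).coeff 0 = _
      rw [cmb_coeff, h3, h4]
  · rintro ⟨z, hz, h1, h2, h3, h4⟩
    have h5 : P (phi d (-b) (-c) a z).1 ∧ P (phi d (-b) (-c) a z).2 := by
      refine (lc_iff hP h _).1 ?_
      rw [phi_phi h]
      exact ⟨h1, h2⟩
    refine ⟨phi d (-b) (-c) a z, ?_, h5.1, h5.2, ?_, ?_⟩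
    · rw [lat_bas]
      show phi a b c d (phi d (-b) (-c) a z) ∈ lat F
      rw [phi_phi h]
      exact hz
    · show (d • z.1 + (-b) • z.2).coeff 0 = _
      rw [cmb_coeff, h3, h4]
      linear_combination p.1 * h
    · show ((-c) • z.1 + a • z.2).coeff 0 = _
      rw [cmb_coeff, h3, h4]
      linear_combination p.2 * h

theorem mem_L0_bas {a b c d : ℚ} (h : a * d - b * c = 1) {F : W × W} {p : ℚ × ℚ} :
    p ∈ L0 (lat (bas a b c d F)) ↔ (a * p.1 + b * p.2, c * p.1 + d * p.2) ∈ L0 (lat F) := by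
  rw [mem_L0, mem_L0]
  exact lead_bas lc_Pt h

theorem mem_L1_bas {a b c d : ℚ} (h : a * d - b * c = 1) {F : W × W} {p : ℚ × ℚ} :
    p ∈ L1 (lat (bas a b c d F)) ↔ (a * p.1 + b * p.2, c * p.1 + d * p.2) ∈ L1 (lat F) := by
  rw [mem_L1, mem_L1]
  exact lead_bas lc_Ps h

theorem NF_bas {a b c d : ℚ} (h : a * d - b * c = 1) (F : W × W) : NF (bas a b c d F) = NF F := by
  have hsur : Function.Surjective (phi a b c d) := fun z => ⟨_, phi_phi h z⟩
  have hinj : Function.Injective (phi a b c d) := by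
    intro x y hxy
    rw [← phi_phi' h x, hxy, phi_phi' h y]
  have h0 : E0 (lat (bas a b c d F)) = (E0 (lat F)).comap (phi a b c d) := by
    ext z
    show (z ∈ lat (bas a b c d F) ∧ Pt z.1 ∧ Pt z.2) ↔
      (phi a b c d z ∈ lat F ∧ Pt (phi a b c d z).1 ∧ Pt (phi a b c d z).2)
    rw [lat_bas, lc_iff lc_Pt h]
    rfl
  have h1 : E1' (lat (bas a b c d F)) = (E1' (lat F)).comap (phi a b c d) := by
    ext z
    show (z ∈ lat (bas a b c d F) ∧ Ps' z.1 ∧ Ps' z.2) ↔
      (phi a b c d z ∈ lat F ∧ Ps' (phi a b c d z).1 ∧ Ps' (phi a b c d z).2)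
    rw [lat_bas, lc_iff lc_Ps' h]
    rfl
  have h2 : E0 (lat (bas a b c d F)) ⊔ E1' (lat (bas a b c d F)) =
      (E0 (lat F) ⊔ E1' (lat F)).comap (phi a b c d) := by
    rw [h0, h1]
    apply AddSubgroup.map_injective hinj
    rw [AddSubgroup.map_sup, AddSubgroup.map_comap_eq_self_of_surjective hsur,
      AddSubgroup.map_comap_eq_self_of_surjective hsur, AddSubgroup.map_comap_eq_self_of_surjective hsur]
  unfold NF NN
  rw [h2, lat_bas, AddSubgroup.relIndex_comap, AddSubgroup.map_comap_eq_self_of_surjective hsur]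

theorem NF_hm (F : W × W) : NF (hm F) = NF F := by
  rw [NF, NF, lat_hm]

private theorem coeff_C_ne (r : ℚ) {n : ℤ} (hn : n ≠ 0) : (C r : RQ).coeff n = 0 := by
  rw [LaurentPolynomial.C_apply, if_neg hn]

private theorem coeff_C_zero (r : ℚ) : (C r : RQ).coeff 0 = r := by
  rw [LaurentPolynomial.C_apply, if_pos rfl]

theorem const_L0 {F : W × W} {p : ℚ × ℚ} (h : vec F p ∈ R2) : p ∈ L0 (lat F) := by
  rw [mem_L0]
  exact ⟨(C p.1, C p.2), const_mem_lat.2 h, fun n hn => coeff_C_ne _ (ne_of_lt hn),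
    fun n hn => coeff_C_ne _ (ne_of_lt hn), coeff_C_zero _, coeff_C_zero _⟩

theorem const_L1 {F : W × W} {p : ℚ × ℚ} (h : vec F p ∈ R2) : p ∈ L1 (lat F) := by
  rw [mem_L1]
  exact ⟨(C p.1, C p.2), const_mem_lat.2 h, fun n hn => coeff_C_ne _ (ne_of_gt hn),
    fun n hn => coeff_C_ne _ (ne_of_gt hn), coeff_C_zero _, coeff_C_zero _⟩

end Pool.Agent.TAM
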