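import Mathlib
import Pool.Agent.TAM.Basic
import Pool.Agent.TAM.LL

/-!
PROJECT TAM, module CCl: the chain groups `CC i`.
PLAN. CC_zero: unfold, mem_L0; `z.2.coeff n = 0` for `n ≤ 0` is `Pt z.2` and `z.2.coeff 0 = 0`.
CC_shift: `z' ∈ L'` with `z'.2.coeff n = 0` for `n ≤ i` corresponds to `z = (z'.1, T z'.2)` with `z.2.coeff n = 0` for `n ≤ i+1` (coeff_T_mul).
CC_bas: `z ∈ lat (bas 1 b 0 1 F)` iff `(z.1 + b z.2, z.2) ∈ lat F` (mem_lat_bas); coefficients of `b z.2` in degrees `≤ i` vanish (i ≥ 0).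
CC_scale: `z ∈ lat (bas e 0 0 e⁻¹ F)` iff `(e z.1, e⁻¹ z.2) ∈ lat F`.
CC_anti: clear. CC_of_mem: the constant `(C c, 0)`. CC_sub: difference of the two elements.
-/

namespace Pool.Agent.TAM

open LaurentPolynomial

theorem CC_zero {L : AddSubgroup W} {c : ℚ} : CC 0 L c ↔ (c, 0) ∈ L0 L := by
  rw [mem_L0]
  constructor
  · rintro ⟨z, hz, h1, h2, h3⟩
    refine ⟨z, hz, h1, fun n hn => h3 n (by push_cast; omega), h2, h3 0 (by simp)⟩
  · rintro ⟨z, hz, h1, h2, h3, h4⟩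
    refine ⟨z, hz, h1, h3, fun n hn => ?_⟩
    push_cast at hn
    rcases lt_or_eq_of_le hn with h | h
    · exact h2 n h
    · rw [h]
      exact h4

theorem CC_shf {F : W × W} {i : ℕ} {c : ℚ} : CC i (lat (shf F)) c ↔ CC (i + 1) (lat F) c := by
  constructor
  · rintro ⟨z, hz, h1, h2, h3⟩
    refine ⟨(z.1, T 1 * z.2), mem_lat_shf.1 hz, h1, h2, fun n hn => ?_⟩
    rw [coeff_T_mul]
    exact h3 _ (by push_cast at hn; omega)
  · rintro ⟨z, hz, h1, h2, h3⟩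
    refine ⟨(z.1, T (-1) * z.2), mem_lat_shf.2 ?_, h1, h2, fun n hn => ?_⟩
    · have e : (T 1 : RQ) * (T (-1) * z.2) = z.2 := by
        rw [← mul_assoc, ← T_add]
        norm_num
      show (z.1, (T 1 : RQ) * (T (-1) * z.2)) ∈ lat F
      rw [e]
      exact hz
    · show ((T (-1) : RQ) * z.2).coeff n = 0
      rw [coeff_T_mul]
      exact h3 _ (by push_cast; omega)

theorem CC_bas {F : W × W} {i : ℕ} {c b : ℚ} : CC i (lat (bas 1 b 0 1 F)) c ↔ CC i (lat F) c := by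
  have cc : ∀ (b' : ℚ) (z : W), (∀ n : ℤ, n ≤ i → z.2.coeff n = 0) → Pt z.1 → z.1.coeff 0 = c →
      Pt (z.1 + b' • z.2) ∧ (z.1 + b' • z.2).coeff 0 = c := by
    intro b' z h3 h1 h2
    refine ⟨fun n hn => ?_, ?_⟩
    · show z.1.coeff n + (b' • z.2).coeff n = 0
      rw [AddMonoidAlgebra.coeff_smul_apply, h1 n hn, h3 n (by omega)]
      simp
    · show z.1.coeff 0 + (b' • z.2).coeff 0 = c
      rw [AddMonoidAlgebra.coeff_smul_apply, h2, h3 0 (by omega)]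
      simp
  constructor
  · rintro ⟨z, hz, h1, h2, h3⟩
    rw [mem_lat_bas] at hz
    obtain ⟨h4, h5⟩ := cc b z h3 h1 h2
    refine ⟨(z.1 + b • z.2, z.2), ?_, h4, h5, h3⟩
    simpa using hz
  · rintro ⟨z, hz, h1, h2, h3⟩
    obtain ⟨h4, h5⟩ := cc (-b) z h3 h1 h2
    refine ⟨(z.1 + (-b) • z.2, z.2), ?_, h4, h5, h3⟩
    rw [mem_lat_bas]
    simpa using hz

theorem CC_scale {F : W × W} {i : ℕ} {c e : ℚ} (he : e ≠ 0) :
    CC i (lat (bas e 0 0 e⁻¹ F)) c ↔ CC i (lat F) (e * c) := by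
  constructor
  · rintro ⟨z, hz, h1, h2, h3⟩
    rw [mem_lat_bas] at hz
    refine ⟨(e • z.1, e⁻¹ • z.2), ?_, fun n hn => ?_, ?_, fun n hn => ?_⟩
    · simpa using hz
    · show (e • z.1).coeff n = 0
      rw [AddMonoidAlgebra.coeff_smul_apply, h1 n hn, smul_zero]
    · show (e • z.1).coeff 0 = e * c
      rw [AddMonoidAlgebra.coeff_smul_apply, h2, smul_eq_mul]
    · show (e⁻¹ • z.2).coeff n = 0
      rw [AddMonoidAlgebra.coeff_smul_apply, h3 n hn, smul_zero]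
  · rintro ⟨z, hz, h1, h2, h3⟩
    refine ⟨(e⁻¹ • z.1, e • z.2), ?_, fun n hn => ?_, ?_, fun n hn => ?_⟩
    · rw [mem_lat_bas]
      have e1 : e • (e⁻¹ • z.1) = z.1 := by rw [smul_smul, mul_inv_cancel₀ he, one_smul]
      have e2 : e⁻¹ • (e • z.2) = z.2 := by rw [smul_smul, inv_mul_cancel₀ he, one_smul]
      show (e • (e⁻¹ • z.1) + (0 : ℚ) • (e • z.2), (0 : ℚ) • (e⁻¹ • z.1) + e⁻¹ • (e • z.2)) ∈ lat F
      rw [e1, e2, zero_smul, zero_smul, add_zero, zero_add]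
      exact hz
    · show (e⁻¹ • z.1).coeff n = 0
      rw [AddMonoidAlgebra.coeff_smul_apply, h1 n hn, smul_zero]
    · show (e⁻¹ • z.1).coeff 0 = c
      rw [AddMonoidAlgebra.coeff_smul_apply, h2, smul_eq_mul, ← mul_assoc, inv_mul_cancel₀ he,
        one_mul]
    · show (e • z.2).coeff n = 0
      rw [AddMonoidAlgebra.coeff_smul_apply, h3 n hn, smul_zero]

theorem CC_anti {L : AddSubgroup W} {i j : ℕ} (h : i ≤ j) {c : ℚ} (hc : CC j L c) : CC i L c := by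
  obtain ⟨z, hz, h1, h2, h3⟩ := hc
  exact ⟨z, hz, h1, h2, fun n hn => h3 n (by omega)⟩

theorem CC_of_mem {F : W × W} {i : ℕ} {c : ℚ} (hc : c • F.1 ∈ R2) : CC i (lat F) c := by
  have h0 : vec F (c, 0) ∈ R2 := by
    show c • F.1 + (0 : ℚ) • F.2 ∈ R2
    rw [zero_smul, add_zero]
    exact hc
  have h1 : ((C c : RQ), (C (0 : ℚ) : RQ)) ∈ lat F := (const_mem_lat (p := (c, 0))).2 h0
  refine ⟨((C c : RQ), (C (0 : ℚ) : RQ)), h1, fun n hn => ?_, ?_, fun n hn => ?_⟩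
  · show (C c : RQ).coeff n = 0
    rw [LaurentPolynomial.C_apply, if_neg (ne_of_lt hn)]
  · show (C c : RQ).coeff 0 = c
    rw [LaurentPolynomial.C_apply, if_pos rfl]
  · show (C (0 : ℚ) : RQ).coeff n = 0
    rw [LaurentPolynomial.C_apply]
    split_ifs <;> rfl

theorem CC_sub {L : AddSubgroup W} {i : ℕ} {c c' : ℚ} (h : CC i L c) (h' : CC i L c') :
    CC i L (c - c') := by
  obtain ⟨z, hz, h1, h2, h3⟩ := h
  obtain ⟨z', hz', h1', h2', h3'⟩ := h'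
  refine ⟨z - z', L.sub_mem hz hz', fun n hn => ?_, ?_, fun n hn => ?_⟩
  · show z.1.coeff n - z'.1.coeff n = 0
    rw [h1 n hn, h1' n hn, sub_zero]
  · show z.1.coeff 0 - z'.1.coeff 0 = c - c'
    rw [h2, h2']
  · show z.2.coeff n - z'.2.coeff n = 0
    rw [h3 n hn, h3' n hn, sub_zero]

end Pool.Agent.TAM
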