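import Mathlib
import Pool.Agent.TAM.Basic
import Pool.Agent.TAM.UniA

/-!
PROJECT TAM, module M1a: the shift formulas at `T = 0`.
-/

namespace Pool.Agent.TAM

open LaurentPolynomial

private theorem m1a_mem {L L' : AddSubgroup W} (hL' : ∀ z : W, z ∈ L' ↔ ((z.1, T 1 * z.2) : W) ∈ L)
    {p : ℚ × ℚ} : p ∈ L0 L' ↔ ∃ w ∈ L, Pt w.1 ∧ Pt w.2 ∧ w.2.coeff 0 = 0 ∧ w.1.coeff 0 = p.1 ∧
      w.2.coeff 1 = p.2 := by
  rw [mem_L0]
  constructor
  · rintro ⟨z, hz, h1, h2, h3, h4⟩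
    refine ⟨(z.1, T 1 * z.2), (hL' z).1 hz, h1, fun n hn => ?_, ?_, h3, ?_⟩
    · show (T 1 * z.2).coeff n = 0
      rw [coeff_T_mul]
      exact h2 _ (by omega)
    · show (T 1 * z.2).coeff 0 = 0
      rw [coeff_T_mul]
      exact h2 _ (by omega)
    · show (T 1 * z.2).coeff 1 = p.2
      rw [coeff_T_mul, sub_self]
      exact h4
  · rintro ⟨w, hw, h1, h2, h0, h3, h4⟩
    refine ⟨(w.1, T (-1) * w.2), (hL' _).2 ?_, h1, fun n hn => ?_, h3, ?_⟩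
    · have e : (T 1 * (T (-1) * w.2) : RQ) = w.2 := by
        rw [← mul_assoc, ← T_add, add_neg_cancel, T_zero, one_mul]
      show ((w.1, T 1 * (T (-1) * w.2)) : W) ∈ L
      rw [e]
      exact hw
    · show (T (-1) * w.2).coeff n = 0
      rw [coeff_T_mul]
      rcases lt_trichotomy (n - -1) 0 with h | h | h
      · exact h2 _ h
      · rw [h]
        exact h0
      · omega
    · show (T (-1) * w.2).coeff 0 = p.2
      rw [coeff_T_mul, zero_sub, neg_neg]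
      exact h4

private theorem m1a_zero {L L' : AddSubgroup W} (hst : Stb L)
    (hL' : ∀ z : W, z ∈ L' ↔ ((z.1, T 1 * z.2) : W) ∈ L) {c : ℚ} :
    (0, c) ∈ L0 L' ↔ ∃ p ∈ L0 L, p.2 = c := by
  rw [m1a_mem hL']
  constructor
  · rintro ⟨w, hw, h1, h2, h0, h3, h4⟩
    refine ⟨(w.1.coeff 1, w.2.coeff 1), mem_L0.2 ⟨(T (-1) : RQ) • w, hst _ (isZ_T (-1)) _ hw,
      fun n hn => ?_, fun n hn => ?_, ?_, ?_⟩, h4⟩
    · show ((T (-1) : RQ) • w.1).coeff n = 0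
      rw [T_smul_coeff]
      rcases lt_trichotomy (n - -1) 0 with h | h | h
      · exact h1 _ h
      · rw [h]
        exact h3
      · omega
    · show ((T (-1) : RQ) • w.2).coeff n = 0
      rw [T_smul_coeff]
      rcases lt_trichotomy (n - -1) 0 with h | h | h
      · exact h2 _ h
      · rw [h]
        exact h0
      · omega
    · show ((T (-1) : RQ) • w.1).coeff 0 = w.1.coeff 1
      rw [T_smul_coeff, zero_sub, neg_neg]
    · show ((T (-1) : RQ) • w.2).coeff 0 = w.2.coeff 1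
      rw [T_smul_coeff, zero_sub, neg_neg]
  · rintro ⟨p, hp, rfl⟩
    obtain ⟨z, hz, h1, h2, h3, h4⟩ := mem_L0.1 hp
    refine ⟨(T 1 : RQ) • z, hst _ (isZ_T 1) _ hz, fun n hn => ?_, fun n hn => ?_, ?_, ?_, ?_⟩
    · show ((T 1 : RQ) • z.1).coeff n = 0
      rw [T_smul_coeff]
      exact h1 _ (by omega)
    · show ((T 1 : RQ) • z.2).coeff n = 0
      rw [T_smul_coeff]
      exact h2 _ (by omega)
    · show ((T 1 : RQ) • z.2).coeff 0 = 0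
      rw [T_smul_coeff]
      exact h2 _ (by omega)
    · show ((T 1 : RQ) • z.1).coeff 0 = 0
      rw [T_smul_coeff]
      exact h1 _ (by omega)
    · show ((T 1 : RQ) • z.2).coeff 1 = p.2
      rw [T_smul_coeff, sub_self]
      exact h4

theorem shift_L0 {L L' : AddSubgroup W} (hst : Stb L) (h0 : Uni (L0 L))
    (hL' : ∀ z : W, z ∈ L' ↔ ((z.1, T 1 * z.2) : W) ∈ L) {a : ℚ} (ha : 0 < a)
    (hS : ∀ c : ℚ, (c, 0) ∈ L0 L ↔ ∃ k : ℤ, c = k * a) :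
    Uni (L0 L') ∧ (∀ c : ℚ, (0, c) ∈ L0 L' ↔ ∃ k : ℤ, c = k * a⁻¹) ∧
      (∀ c : ℚ, (c, 0) ∈ L0 L' → (c, 0) ∈ L0 L) := by
  obtain ⟨s1, p0, hp0, s2⟩ := uni_snd h0 ha hS
  have hA : ∀ c : ℚ, (0, c) ∈ L0 L' ↔ ∃ k : ℤ, c = k * a⁻¹ := by
    intro c
    rw [m1a_zero hst hL']
    constructor
    · rintro ⟨p, hp, rfl⟩
      exact s1 p hp
    · rintro ⟨k, rfl⟩
      refine ⟨k • p0, (L0 L).zsmul_mem hp0 k, ?_⟩
      show k • p0.2 = k * a⁻¹
      rw [s2, zsmul_eq_mul]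
  have hB : ∀ p ∈ L0 L', (p.1, 0) ∈ L0 L := by
    intro p hp
    obtain ⟨w, hw, h1, h2, h3, h4, _⟩ := (m1a_mem hL').1 hp
    exact mem_L0.2 ⟨w, hw, h1, h2, h4, h3⟩
  refine ⟨?_, hA, fun c hc => hB _ hc⟩
  obtain ⟨z, hz, h1, h2, h3, h4⟩ := mem_L0.1 ((hS a).2 ⟨1, by rw [Int.cast_one, one_mul]⟩)
  have hu : (a, z.2.coeff 1) ∈ L0 L' := (m1a_mem hL').2 ⟨z, hz, h1, h2, h4, h3, rfl⟩
  have hv : ((0, a⁻¹) : ℚ × ℚ) ∈ L0 L' := (hA _).2 ⟨1, by rw [Int.cast_one, one_mul]⟩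
  refine ⟨_, hu, _, hv, ?_, fun w hw => ?_⟩
  · show a * a⁻¹ - z.2.coeff 1 * 0 = 1
    rw [mul_zero, sub_zero, mul_inv_cancel₀ ha.ne']
  · obtain ⟨m, hm⟩ := (hS w.1).1 (hB w hw)
    have h5 := (L0 L').sub_mem hw ((L0 L').zsmul_mem hu m)
    have h6 : w - m • ((a, z.2.coeff 1) : ℚ × ℚ) = (0, w.2 - m * z.2.coeff 1) := by
      refine Prod.ext ?_ ?_
      · show w.1 - m • a = 0
        rw [zsmul_eq_mul, hm, sub_self]
      · show w.2 - m • z.2.coeff 1 = w.2 - m * z.2.coeff 1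
        rw [zsmul_eq_mul]
    rw [h6] at h5
    obtain ⟨n, hn⟩ := (hA _).1 h5
    refine ⟨m, n, Prod.ext ?_ ?_⟩
    · show w.1 = m • a + n • (0 : ℚ)
      rw [zsmul_eq_mul, smul_zero, add_zero, hm]
    · show w.2 = m • z.2.coeff 1 + n • a⁻¹
      rw [zsmul_eq_mul, zsmul_eq_mul, ← hn]
      ring

end Pool.Agent.TAM
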