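import Mathlib
import Pool.Agent.TAM.Basic
import Pool.Agent.TAM.UniA

/-!
PROJECT TAM, module M1b: the shift formulas at `T = ∞`.
-/

namespace Pool.Agent.TAM

open LaurentPolynomial

private theorem shiftA {L L' : AddSubgroup W}
    (hL' : ∀ z : W, z ∈ L' ↔ ((z.1, T 1 * z.2) : W) ∈ L) (c : ℚ) :
    (c, 0) ∈ L1 L' ↔ ∃ p ∈ L1 L, p.1 = c := by
  constructor
  · intro h
    obtain ⟨z, hz, h1, h2, h3, h4⟩ := mem_L1.1 h
    refine ⟨(z.1.coeff 0, (T 1 * z.2).coeff 0), ?_, h3⟩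
    refine mem_L1.2 ⟨(z.1, T 1 * z.2), (hL' z).1 hz, h1, ?_, rfl, rfl⟩
    intro n hn
    show (T 1 * z.2).coeff n = 0
    rw [coeff_T_mul]
    rcases eq_or_lt_of_le (show (0 : ℤ) ≤ n - 1 by omega) with h0 | h0
    · rw [← h0]
      exact h4
    · exact h2 _ h0
  · rintro ⟨p, hp, rfl⟩
    obtain ⟨z, hz, h1, h2, h3, h4⟩ := mem_L1.1 hp
    refine mem_L1.2 ⟨(z.1, T (-1) * z.2), (hL' _).2 ?_, h1, ?_, h3, ?_⟩
    · show ((z.1, T 1 * (T (-1) * z.2)) : W) ∈ L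
      rw [← mul_assoc, ← T_add, add_neg_cancel, T_zero, one_mul]
      exact hz
    · intro n hn
      show (T (-1) * z.2).coeff n = 0
      rw [coeff_T_mul]
      exact h2 _ (by omega)
    · show (T (-1) * z.2).coeff 0 = 0
      rw [coeff_T_mul]
      exact h2 _ (by norm_num)

private theorem shiftB {L L' : AddSubgroup W} (hst : Stb L)
    (hL' : ∀ z : W, z ∈ L' ↔ ((z.1, T 1 * z.2) : W) ∈ L) {p : ℚ × ℚ} (hp : p ∈ L1 L') :
    (0, p.2) ∈ L1 L := by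
  obtain ⟨z, hz, h1, h2, h3, h4⟩ := mem_L1.1 hp
  have h5 := hst _ (isZ_T (-1)) _ ((hL' z).1 hz)
  have h6 : ((T (-1) : RQ) • ((z.1, T 1 * z.2) : W)) = ((T (-1) * z.1, z.2) : W) := by
    refine Prod.ext rfl ?_
    show T (-1) * (T 1 * z.2) = z.2
    rw [← mul_assoc, ← T_add, neg_add_cancel, T_zero, one_mul]
  rw [h6] at h5
  refine mem_L1.2 ⟨_, h5, ?_, h2, ?_, h4⟩
  · intro n hn
    show (T (-1) * z.1).coeff n = 0
    rw [coeff_T_mul]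
    exact h1 _ (by omega)
  · show (T (-1) * z.1).coeff 0 = 0
    rw [coeff_T_mul]
    exact h1 _ (by norm_num)

private theorem shiftC {L L' : AddSubgroup W} (hst : Stb L)
    (hL' : ∀ z : W, z ∈ L' ↔ ((z.1, T 1 * z.2) : W) ∈ L) {c : ℚ} (hc : (0, c) ∈ L1 L) :
    ∃ th : ℚ, (th, c) ∈ L1 L' := by
  obtain ⟨y, hy, h1, h2, h3, h4⟩ := mem_L1.1 hc
  refine ⟨(T 1 * y.1).coeff 0, mem_L1.2 ⟨(T 1 * y.1, y.2), (hL' _).2 ?_, ?_, h2, rfl, h4⟩⟩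
  · exact hst _ (isZ_T 1) _ hy
  · intro n hn
    show (T 1 * y.1).coeff n = 0
    rw [coeff_T_mul]
    rcases eq_or_lt_of_le (show (0 : ℤ) ≤ n - 1 by omega) with h0 | h0
    · rw [← h0]
      exact h3
    · exact h1 _ h0

theorem shift_L1 {L L' : AddSubgroup W} (hst : Stb L) (h1 : Uni (L1 L))
    (hL' : ∀ z : W, z ∈ L' ↔ ((z.1, T 1 * z.2) : W) ∈ L) {b : ℚ} (hb : 0 < b)
    (hS : ∀ c : ℚ, (0, c) ∈ L1 L ↔ ∃ k : ℤ, c = k * b) :
    Uni (L1 L') ∧ (∀ c : ℚ, (c, 0) ∈ L1 L' ↔ ∃ k : ℤ, c = k * b⁻¹) ∧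
      (∀ c : ℚ, (0, c) ∈ L1 L' → (0, c) ∈ L1 L) := by
  obtain ⟨hf1, p0, hp0, hp1⟩ := uni_fst h1 hb hS
  have hA : ∀ c : ℚ, (c, 0) ∈ L1 L' ↔ ∃ k : ℤ, c = k * b⁻¹ := by
    intro c
    rw [shiftA hL']
    constructor
    · rintro ⟨p, hp, rfl⟩
      exact hf1 p hp
    · rintro ⟨k, rfl⟩
      refine ⟨k • p0, (L1 L).zsmul_mem hp0 k, ?_⟩
      rw [Prod.smul_fst, hp1, zsmul_eq_mul]
  refine ⟨?_, hA, ?_⟩
  · have hbm : (0, b) ∈ L1 L := (hS b).2 ⟨1, by simp⟩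
    obtain ⟨th, hth⟩ := shiftC hst hL' hbm
    refine ⟨(b⁻¹, 0), (hA _).2 ⟨1, by simp⟩, (th, b), hth, ?_, ?_⟩
    · simp only [dt]
      rw [zero_mul, sub_zero, inv_mul_cancel₀ hb.ne']
    · intro w hw
      obtain ⟨n, hn⟩ := (hS _).1 (shiftB hst hL' hw)
      have h2 := (L1 L').sub_mem hw ((L1 L').zsmul_mem hth n)
      have h3 : w - n • (th, b) = (w.1 - n * th, 0) := by
        refine Prod.ext ?_ ?_
        · rw [Prod.fst_sub, Prod.smul_fst, zsmul_eq_mul]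
        · rw [Prod.snd_sub, Prod.smul_snd, zsmul_eq_mul]
          show w.2 - n * b = 0
          rw [hn, sub_self]
      rw [h3] at h2
      obtain ⟨m, hm⟩ := (hA _).1 h2
      refine ⟨m, n, ?_⟩
      refine Prod.ext ?_ ?_
      · rw [Prod.fst_add, Prod.smul_fst, Prod.smul_fst, zsmul_eq_mul, zsmul_eq_mul]
        show w.1 = m * b⁻¹ + n * th
        linarith
      · rw [Prod.snd_add, Prod.smul_snd, Prod.smul_snd, zsmul_eq_mul, zsmul_eq_mul]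
        show w.2 = m * 0 + n * b
        rw [hn]
        ring
  · intro c hc
    exact shiftB hst hL' hc

end Pool.Agent.TAM
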