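import Mathlib
import Pool.Agent.TAM.Defs

/-!
PROJECT TAM, module Ratio: an index formula.
-/

namespace Pool.Agent.TAM

private theorem rat_relIndex {α : ℚ} (hα : 0 < α) (m : ℕ) :
    (AddSubgroup.zmultiples ((m : ℚ) * α)).relIndex (AddSubgroup.zmultiples α) = m := by
  obtain ⟨f, hf⟩ : ∃ f : ℤ →+ ℚ, ∀ k, f k = k * α :=
    ⟨(AddMonoidHom.mulRight α).comp (Int.castAddHom ℚ), fun k => rfl⟩
  have hinj : Function.Injective f := by
    intro a b hab
    rw [hf, hf] at hab
    exact_mod_cast mul_right_cancel₀ hα.ne' hab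
  have h1 : (AddSubgroup.zmultiples (m : ℤ)).map f = AddSubgroup.zmultiples ((m : ℚ) * α) := by
    rw [AddMonoidHom.map_zmultiples, hf]
    norm_cast
  have h2 : (⊤ : AddSubgroup ℤ).map f = AddSubgroup.zmultiples α := by
    have h3 : (⊤ : AddSubgroup ℤ) = AddSubgroup.zmultiples 1 := by
      rw [eq_comm, eq_top_iff]
      intro k _
      rw [AddSubgroup.mem_zmultiples_iff]
      exact ⟨k, by simp⟩
    rw [h3, AddMonoidHom.map_zmultiples, hf]
    norm_num
  rw [← h1, ← h2, AddSubgroup.relIndex_map_map_of_injective _ _ hinj, AddSubgroup.relIndex_top_right,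
    Int.index_zmultiples]
  simp

private theorem rat_map {G : Type*} [AddCommGroup G] (A : AddSubgroup G) (p : G →+ ℚ) (α : ℚ)
    (hA : ∀ c : ℚ, (∃ x ∈ A, p x = c) ↔ ∃ k : ℤ, c = k * α) : A.map p = AddSubgroup.zmultiples α := by
  ext c
  rw [AddSubgroup.mem_map, hA, AddSubgroup.mem_zmultiples_iff]
  constructor
  · rintro ⟨k, hk⟩
    exact ⟨k, by rw [zsmul_eq_mul, hk]⟩
  · rintro ⟨k, hk⟩
    exact ⟨k, by rw [← hk, zsmul_eq_mul]⟩

private theorem rat_index {G : Type*} [AddCommGroup G] (A : AddSubgroup G) (p : G →+ ℚ) :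
    A.index = (A ⊓ p.ker).relIndex p.ker * (A.map p).relIndex p.range := by
  rw [AddSubgroup.inf_relIndex_right, ← AddSubgroup.index_comap, AddSubgroup.comap_map_eq,
    ← AddSubgroup.relIndex_sup_left (H := p.ker) (K := A),
    AddSubgroup.relIndex_mul_index le_sup_left]

theorem index_ratio {G : Type*} [AddCommGroup G] (A A' : AddSubgroup G) (p : G →+ ℚ) (α β : ℚ)
    (hα : 0 < α) (hβ : 0 < β)
    (hA : ∀ c : ℚ, (∃ x ∈ A, p x = c) ↔ ∃ k : ℤ, c = k * α)
    (hA' : ∀ c : ℚ, (∃ x ∈ A', p x = c) ↔ ∃ k : ℤ, c = k * β)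
    (hk : ∀ x, p x = 0 → (x ∈ A ↔ x ∈ A')) :
    (A'.index : ℚ) * α = A.index * β := by
  have hK : A ⊓ p.ker = A' ⊓ p.ker := by
    ext x
    rw [AddSubgroup.mem_inf, AddSubgroup.mem_inf, AddMonoidHom.mem_ker]
    constructor
    · rintro ⟨h1, h2⟩
      exact ⟨(hk x h2).1 h1, h2⟩
    · rintro ⟨h1, h2⟩
      exact ⟨(hk x h2).2 h1, h2⟩
  have e1 := rat_map A p α hA
  have e2 := rat_map A' p β hA'
  rw [rat_index A p, rat_index A' p, hK, e1, e2]
  -- common multiple
  obtain ⟨m, n, hm, hn, hmn⟩ : ∃ m n : ℕ, 0 < m ∧ 0 < n ∧ (m : ℚ) * α = n * β := by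
    refine ⟨β.num.toNat * α.den, α.num.toNat * β.den, ?_, ?_, ?_⟩
    · have h1 := Rat.num_pos.2 hβ
      exact Nat.mul_pos (by omega) α.den_pos
    · have h1 := Rat.num_pos.2 hα
      exact Nat.mul_pos (by omega) β.den_pos
    · have h1 : ((β.num.toNat : ℕ) : ℚ) = (β.num : ℚ) := by
        have : ((β.num.toNat : ℕ) : ℤ) = β.num := Int.toNat_of_nonneg (Rat.num_pos.2 hβ).le
        exact_mod_cast this
      have h2 : ((α.num.toNat : ℕ) : ℚ) = (α.num : ℚ) := by
        have : ((α.num.toNat : ℕ) : ℤ) = α.num := Int.toNat_of_nonneg (Rat.num_pos.2 hα).le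
        exact_mod_cast this
      have h3 : (α.den : ℚ) * α = α.num := by
        rw [mul_comm]
        exact_mod_cast Rat.mul_den_eq_num α
      have h4 : (β.den : ℚ) * β = β.num := by
        rw [mul_comm]
        exact_mod_cast Rat.mul_den_eq_num β
      rw [Nat.cast_mul, Nat.cast_mul, h1, h2, mul_assoc, mul_assoc, h3, h4, mul_comm]
  have hγα : AddSubgroup.zmultiples ((m : ℚ) * α) ≤ AddSubgroup.zmultiples α := by
    rw [AddSubgroup.zmultiples_le, AddSubgroup.mem_zmultiples_iff]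
    exact ⟨m, by rw [zsmul_eq_mul]; norm_cast⟩
  have hγβ : AddSubgroup.zmultiples ((m : ℚ) * α) ≤ AddSubgroup.zmultiples β := by
    rw [hmn, AddSubgroup.zmultiples_le, AddSubgroup.mem_zmultiples_iff]
    exact ⟨n, by rw [zsmul_eq_mul]; norm_cast⟩
  have hαR : AddSubgroup.zmultiples α ≤ p.range := by
    rw [← e1]
    rintro _ ⟨x, _, rfl⟩
    exact ⟨x, rfl⟩
  have hβR : AddSubgroup.zmultiples β ≤ p.range := by
    rw [← e2]
    rintro _ ⟨x, _, rfl⟩
    exact ⟨x, rfl⟩
  have h1 := AddSubgroup.relIndex_mul_relIndex _ _ _ hγα hαR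
  have h2 := AddSubgroup.relIndex_mul_relIndex _ _ _ hγβ hβR
  rw [rat_relIndex hα m] at h1
  rw [hmn, rat_relIndex hβ n, ← hmn] at h2
  have h3 : (m : ℚ) * (AddSubgroup.zmultiples α).relIndex p.range =
      n * (AddSubgroup.zmultiples β).relIndex p.range := by
    have := h1.trans h2.symm
    exact_mod_cast this
  have hm' : (m : ℚ) ≠ 0 := by exact_mod_cast hm.ne'
  have h4 : ((AddSubgroup.zmultiples β).relIndex p.range : ℚ) * α =
      (AddSubgroup.zmultiples α).relIndex p.range * β := by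
    apply mul_left_cancel₀ hm'
    calc (m : ℚ) * (((AddSubgroup.zmultiples β).relIndex p.range : ℚ) * α)
        = ((AddSubgroup.zmultiples β).relIndex p.range : ℚ) * (m * α) := by ring
      _ = (n * (AddSubgroup.zmultiples β).relIndex p.range) * β := by rw [hmn]; ring
      _ = m * ((AddSubgroup.zmultiples α).relIndex p.range * β) := by rw [← h3]; ring
  push_cast
  rw [mul_assoc, mul_assoc, h4]

end Pool.Agent.TAM
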