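import Mathlib
import Pool.Agent.TAM.Basic
import Pool.Agent.TAM.UniA
import Pool.Agent.TAM.Ratio

/-!
PROJECT TAM, module N2: the index of a shifted lattice.
PLAN. Apply index_ratio in the group `G = L` (subtype): `A = (E0 L ⊔ E1' L).addSubgroupOf L` (index `NN L`), and
`A'` = the subgroup of `z ∈ L` with `(z.1, T(-1) * z.2) ∈ E0 L' ⊔ E1' L'`; `NN L' = A'.index` by transport along the bijection
`L ≅ L'`, `z ↦ (z.1, T(-1) z.2)`. `p z = z.2.coeff 0`.
 Elements of `A'`: `z = x + y` with `x ∈ L`, `Pt x.1`, `x.2` supported in degrees `≥ 1`; `y ∈ L`, `Ps' y.1`, `Ps y.2` (y.2 supported in degrees ≤ 0).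
 Elements of `A`: `z = x + y`, `x ∈ L` with `Pt x.1, Pt x.2`, `y ∈ L` with `Ps' y.1`, `Ps' y.2`.
 If `z.2.coeff 0 = 0`: in `A` this means `x.2.coeff 0 = 0`, in `A'` it means `y.2.coeff 0 = 0`: the same set of sums. So hk.
 p(A): `x.2.coeff 0` for `x ∈ E0 L`, i.e. second coordinates of `L0 L`: `ℤ a⁻¹` (uni_snd). p(A'): `y.2.coeff 0` with `y ∈ E1 L`, `y.1.coeff 0 = 0`: `(0, c) ∈ L1 L`: `ℤ b`.
 index_ratio with `α = a⁻¹`, `β = b`: `NN L' * a⁻¹ = NN L * b`.
-/

namespace Pool.Agent.TAM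

open LaurentPolynomial

/-- Multiplication of the second coordinate by `T`. -/
noncomputable def sh2 : W →+ W where
  toFun z := (z.1, T 1 * z.2)
  map_zero' := by simp
  map_add' a b := by
    refine Prod.ext rfl ?_
    show T 1 * (a.2 + b.2) = T 1 * a.2 + T 1 * b.2
    ring

theorem sh2_inj : Function.Injective sh2 := by
  intro a b h
  have h1 : (sh2 a).1 = (sh2 b).1 := by rw [h]
  have h2 : (sh2 a).2 = (sh2 b).2 := by rw [h]
  change a.1 = b.1 at h1
  change T 1 * a.2 = T 1 * b.2 at h2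
  refine Prod.ext h1 ?_
  have h3 : (T (-1) : RQ) * (T 1 * a.2) = T (-1) * (T 1 * b.2) := by rw [h2]
  rwa [← mul_assoc, ← mul_assoc, ← T_add, neg_add_cancel, T_zero, one_mul, one_mul] at h3

theorem sh2_surj (z : W) : sh2 (z.1, T (-1) * z.2) = z := by
  refine Prod.ext rfl ?_
  show T 1 * (T (-1) * z.2) = z.2
  rw [← mul_assoc, ← T_add, add_neg_cancel, T_zero, one_mul]

theorem shift_NN {L L' : AddSubgroup W} (h0 : Uni (L0 L))
    (hL' : ∀ z : W, z ∈ L' ↔ ((z.1, T 1 * z.2) : W) ∈ L) {a b : ℚ} (ha : 0 < a) (hb : 0 < b)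
    (hS0 : ∀ c : ℚ, (c, 0) ∈ L0 L ↔ ∃ k : ℤ, c = k * a)
    (hS1 : ∀ c : ℚ, (0, c) ∈ L1 L ↔ ∃ k : ℤ, c = k * b) :
    (NN L' : ℚ) = NN L * a * b := by
  classical
  obtain ⟨hs1, p0, hp0, hp02⟩ := uni_snd h0 ha hS0
  have hL'' : ∀ z : W, z ∈ L' ↔ sh2 z ∈ L := hL'
  have hmapL : L'.map sh2 = L := by
    ext z
    constructor
    · rintro ⟨w, hw, rfl⟩
      exact (hL'' w).1 hw
    · intro hz
      exact ⟨(z.1, T (-1) * z.2), (hL'' _).2 (by rw [sh2_surj]; exact hz), sh2_surj z⟩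
  -- membership in the image of the sum
  have hB : ∀ z : W, z ∈ (E0 L' ⊔ E1' L').map sh2 ↔
      ∃ x ∈ L, ∃ y ∈ L, Pt x.1 ∧ (∀ n : ℤ, n < 1 → x.2.coeff n = 0) ∧ Ps' y.1 ∧ Ps y.2 ∧
        x + y = z := by
    intro z
    constructor
    · rintro ⟨w, hw, rfl⟩
      obtain ⟨x, hx, y, hy, rfl⟩ := AddSubgroup.mem_sup.1 hw
      refine ⟨sh2 x, (hL'' x).1 hx.1, sh2 y, (hL'' y).1 hy.1, hx.2.1, ?_, hy.2.1, ?_,
        (map_add sh2 x y).symm⟩
      · intro n hn
        show (T 1 * x.2).coeff n = 0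
        rw [coeff_T_mul]
        exact hx.2.2 _ (by omega)
      · intro n hn
        show (T 1 * y.2).coeff n = 0
        rw [coeff_T_mul]
        exact hy.2.2 _ (by omega)
    · rintro ⟨x, hx, y, hy, h1, h2, h3, h4, rfl⟩
      refine ⟨((x.1, T (-1) * x.2) : W) + ((y.1, T (-1) * y.2) : W),
        AddSubgroup.mem_sup.2 ⟨_, ?_, _, ?_, rfl⟩, ?_⟩
      · refine ⟨(hL'' _).2 (by rw [sh2_surj]; exact hx), h1, ?_⟩
        intro n hn
        show (T (-1) * x.2).coeff n = 0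
        rw [coeff_T_mul]
        exact h2 _ (by omega)
      · refine ⟨(hL'' _).2 (by rw [sh2_surj]; exact hy), h3, ?_⟩
        intro n hn
        show (T (-1) * y.2).coeff n = 0
        rw [coeff_T_mul]
        exact h4 _ (by omega)
      · rw [map_add, sh2_surj, sh2_surj]
  have hNN : NN L' = ((E0 L' ⊔ E1' L').map sh2).relIndex L := by
    have h := AddSubgroup.relIndex_map_map_of_injective (E0 L' ⊔ E1' L') L' sh2_inj
    rw [hmapL] at h
    exact h.symm
  let p : L →+ ℚ := (cf 0).comp ((AddMonoidHom.snd RQ RQ).comp L.subtype)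
  have hp : ∀ z : L, p z = (z : W).2.coeff 0 := fun z => rfl
  have key := index_ratio ((E0 L ⊔ E1' L).addSubgroupOf L)
    (((E0 L' ⊔ E1' L').map sh2).addSubgroupOf L) p a⁻¹ b (inv_pos.2 ha) hb ?_ ?_ ?_
  · have e1 : (((E0 L' ⊔ E1' L').map sh2).addSubgroupOf L).index = NN L' := by
      rw [hNN]; rfl
    have e2 : ((E0 L ⊔ E1' L).addSubgroupOf L).index = NN L := rfl
    rw [e1, e2] at key
    have ha' : a ≠ 0 := ha.ne'
    field_simp at key
    linarith
  · intro c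
    constructor
    · rintro ⟨z, hz, rfl⟩
      obtain ⟨x, hx, y, hy, hxy⟩ := AddSubgroup.mem_sup.1 (AddSubgroup.mem_addSubgroupOf.1 hz)
      obtain ⟨k, hk⟩ := hs1 (c0 x) ⟨x, hx, rfl⟩
      refine ⟨k, ?_⟩
      rw [hp, ← hxy]
      show (x.2 + y.2).coeff 0 = _
      have h2 := hy.2.2 0 le_rfl
      have h3 : x.2.coeff 0 = k * a⁻¹ := hk
      simp [h2, h3]
    · rintro ⟨k, rfl⟩
      obtain ⟨x, hx, rfl⟩ := hp0
      have hkx : k • x ∈ E0 L := (E0 L).zsmul_mem hx k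
      refine ⟨⟨k • x, hkx.1⟩, AddSubgroup.mem_addSubgroupOf.2
        ((le_sup_left : E0 L ≤ E0 L ⊔ E1' L) hkx), ?_⟩
      have h3 : p ⟨k • x, hkx.1⟩ = cf 0 (k • x.2) := rfl
      rw [h3, map_zsmul]
      have h4 : cf 0 x.2 = a⁻¹ := hp02
      rw [h4, zsmul_eq_mul]
  · intro c
    constructor
    · rintro ⟨z, hz, rfl⟩
      obtain ⟨x, hx, y, hy, h1, h2, h3, h4, hxy⟩ := (hB _).1 (AddSubgroup.mem_addSubgroupOf.1 hz)
      have h5 : (x.2 + y.2).coeff 0 = y.2.coeff 0 := by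
        have := h2 0 (by norm_num)
        simp [this]
      have h6 : p z = y.2.coeff 0 := by
        rw [hp, ← hxy]
        exact h5
      rw [h6]
      refine (hS1 _).1 (mem_L1.2 ⟨y, hy, fun n hn => h3 n hn.le, h4, h3 0 le_rfl, rfl⟩)
    · intro hc
      obtain ⟨y, hy, h1, h2, h3, h4⟩ := mem_L1.1 ((hS1 c).2 hc)
      refine ⟨⟨y, hy⟩, AddSubgroup.mem_addSubgroupOf.2 ((hB _).2 ⟨0, L.zero_mem, y, hy,
        fun n _ => by simp, fun n _ => by simp, ?_, h2, zero_add y⟩), h4⟩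
      intro n hn
      rcases hn.lt_or_eq with h | h
      · exact h1 n h
      · rw [← h]; exact h3
  · intro z hz
    rw [AddSubgroup.mem_addSubgroupOf, AddSubgroup.mem_addSubgroupOf, hB]
    constructor
    · intro h
      obtain ⟨x, hx, y, hy, hxy⟩ := AddSubgroup.mem_sup.1 h
      refine ⟨x, hx.1, y, hy.1, hx.2.1, ?_, hy.2.1, fun n hn => hy.2.2 n hn.le, hxy⟩
      have h0' : x.2.coeff 0 = 0 := by
        have h1 : (x.2 + y.2).coeff 0 = 0 := by
          have h2 : (x.2 + y.2).coeff 0 = ((z : L) : W).2.coeff 0 := by rw [← hxy]; rfl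
          rw [h2]; exact hz
        have h2 := hy.2.2 0 le_rfl
        simpa [h2] using h1
      intro n hn
      rcases lt_or_eq_of_le (show n ≤ 0 by omega) with h | h
      · exact hx.2.2 n h
      · rw [h]; exact h0'
    · rintro ⟨x, hx, y, hy, h1, h2, h3, h4, hxy⟩
      have h0' : y.2.coeff 0 = 0 := by
        have h1 : (x.2 + y.2).coeff 0 = 0 := by
          have h2 : (x.2 + y.2).coeff 0 = ((z : L) : W).2.coeff 0 := by rw [← hxy]; rfl
          rw [h2]; exact hz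
        have h2 := h2 0 (by norm_num)
        simpa [h2] using h1
      refine AddSubgroup.mem_sup.2 ⟨x, ⟨hx, h1, fun n hn => h2 n (by omega)⟩, y,
        ⟨hy, h3, ?_⟩, hxy⟩
      intro n hn
      rcases hn.lt_or_eq with h | h
      · exact h4 n h
      · rw [← h]; exact h0'

end Pool.Agent.TAM
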