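import Mathlib
import Pool.Agent.TAM.LL
import Pool.Agent.TAM.M1a
import Pool.Agent.TAM.M1b
import Pool.Agent.TAM.N2
import Pool.Agent.TAM.Base0
import Pool.Agent.TAM.Euc

/-!
PROJECT TAM, module GdAll: all frames are good; the shift formulas for frames; connectivity without bound.
-/

namespace Pool.Agent.TAM

open LaurentPolynomial

private theorem isFr_e12 : IsFr e12 := by
  refine ⟨0, ?_⟩
  show (1 : RQ) * 1 - 0 * 0 = T 0
  rw [T_zero]
  ring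

private theorem line0 {G : AddSubgroup (ℚ × ℚ)} (hG : Uni G) :
    ∃ a : ℚ, 0 < a ∧ ∀ c : ℚ, (c, 0) ∈ G ↔ ∃ k : ℤ, c = k * a := by
  obtain ⟨a, ha, h⟩ := uni_line hG (v := ((1 : ℚ), (0 : ℚ))) (by
    intro h0
    have h1 := congrArg Prod.fst h0
    exact one_ne_zero h1)
  refine ⟨a, ha, fun c => ?_⟩
  rw [← h c]
  have : c • ((1 : ℚ), (0 : ℚ)) = (c, 0) := by
    refine Prod.ext ?_ ?_
    · show c * 1 = c
      ring
    · show c * 0 = 0
      ring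
  rw [this]

private theorem line1 {G : AddSubgroup (ℚ × ℚ)} (hG : Uni G) :
    ∃ a : ℚ, 0 < a ∧ ∀ c : ℚ, (0, c) ∈ G ↔ ∃ k : ℤ, c = k * a := by
  obtain ⟨a, ha, h⟩ := uni_line hG (v := ((0 : ℚ), (1 : ℚ))) (by
    intro h0
    have h1 := congrArg Prod.snd h0
    exact one_ne_zero h1)
  refine ⟨a, ha, fun c => ?_⟩
  rw [← h c]
  have : c • ((0 : ℚ), (1 : ℚ)) = (0, c) := by
    refine Prod.ext ?_ ?_
    · show c * 0 = 0
      ring
    · show c * 1 = c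
      ring
  rw [this]

theorem gd_frame {F : W × W} (hF : IsFr F) : Gd (lat F) := by
  have h := rch_of_isFr hF
  clear hF
  induction h with
  | one =>
    have h1 : e12.1 ∈ R2 := ⟨isZ_one, isZ_zero⟩
    have h2 : e12.2 ∈ R2 := ⟨isZ_zero, isZ_one⟩
    rw [unit_frame isFr_e12 h1 h2]
    exact gd_R2
  | bas F a b c d h hr ih =>
    refine ⟨lat_stb _, uni_of_iff h ih.u0 (fun p => mem_L0_bas h),
      uni_of_iff h ih.u1 (fun p => mem_L1_bas h), ?_⟩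
    have h1 : NN (lat (bas a b c d F)) = NN (lat F) := NF_bas h F
    rw [h1]
    exact ih.nz
  | shf F hr ih =>
    obtain ⟨a, ha, hSa⟩ := line0 ih.u0
    obtain ⟨b, hb, hSb⟩ := line1 ih.u1
    refine ⟨lat_stb _, (shift_L0 ih.stb ih.u0 (fun z => mem_lat_shf) ha hSa).1,
      (shift_L1 ih.stb ih.u1 (fun z => mem_lat_shf) hb hSb).1, ?_⟩
    have h1 : (NN (lat (shf F)) : ℚ) = NN (lat F) * a * b :=
      shift_NN ih.u0 (fun z => mem_lat_shf) ha hb hSa hSb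
    intro h2
    rw [h2, Nat.cast_zero] at h1
    have h3 : (0 : ℚ) < NN (lat F) := by
      exact_mod_cast Nat.pos_of_ne_zero ih.nz
    have h4 : 0 < (NN (lat F) : ℚ) * a * b := mul_pos (mul_pos h3 ha) hb
    rw [← h1] at h4
    exact lt_irrefl _ h4
  | hm F hr ih =>
    rw [lat_hm]
    exact ih
  | hm' F hr ih =>
    rw [lat_hm] at ih
    exact ih

theorem NF_pos {F : W × W} (hF : IsFr F) : 0 < NF F := by
  exact Nat.pos_of_ne_zero (gd_frame hF).nz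

theorem shf_all {F : W × W} (hF : IsFr F) {a b : ℚ} (ha : 0 < a) (hb : 0 < b)
    (hS0 : ∀ c : ℚ, (c, 0) ∈ L0 (lat F) ↔ ∃ k : ℤ, c = k * a)
    (hS1 : ∀ c : ℚ, (0, c) ∈ L1 (lat F) ↔ ∃ k : ℤ, c = k * b) :
    (NF (shf F) : ℚ) = NF F * a * b ∧
      (∀ c : ℚ, (0, c) ∈ L0 (lat (shf F)) ↔ ∃ k : ℤ, c = k * a⁻¹) ∧
      (∀ c : ℚ, (c, 0) ∈ L1 (lat (shf F)) ↔ ∃ k : ℤ, c = k * b⁻¹) ∧
      (∀ c : ℚ, (c, 0) ∈ L0 (lat (shf F)) → (c, 0) ∈ L0 (lat F)) ∧
      (∀ c : ℚ, (0, c) ∈ L1 (lat (shf F)) → (0, c) ∈ L1 (lat F)) := by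
  have h := gd_frame hF
  have h0 := shift_L0 h.stb h.u0 (L' := lat (shf F)) (fun z => mem_lat_shf) ha hS0
  have h1 := shift_L1 h.stb h.u1 (L' := lat (shf F)) (fun z => mem_lat_shf) hb hS1
  have h2 := shift_NN h.u0 (L' := lat (shf F)) (fun z => mem_lat_shf) ha hb hS0 hS1
  exact ⟨h2, h0.2.1, h1.2.1, h0.2.2, h1.2.2⟩

theorem Cn_mono {D D' : ℕ} (h : D ≤ D') {F G : W × W} (hc : Cn D F G) : Cn D' F G := by
  induction hc with
  | refl F => exact Cn.refl F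
  | symm _ ih => exact Cn.symm ih
  | trans _ _ ih1 ih2 => exact Cn.trans ih1 ih2
  | base F a b c d h1 => exact Cn.base F a b c d h1
  | hom F => exact Cn.hom F
  | shift F h1 h2 => exact Cn.shift F (lt_of_lt_of_le h1 h) (lt_of_lt_of_le h2 h)

theorem conn0 {F : W × W} (hF : IsFr F) : ∃ D, Cn D e12 F := by
  have h := rch_of_isFr hF
  clear hF
  induction h with
  | one => exact ⟨0, Cn.refl _⟩
  | bas F a b c d h hr ih =>
    obtain ⟨D, hD⟩ := ih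
    exact ⟨D, Cn.trans hD (Cn.base F a b c d h)⟩
  | shf F hr ih =>
    obtain ⟨D, hD⟩ := ih
    refine ⟨max D (max (NF F) (NF (shf F)) + 1), Cn.trans (Cn_mono (le_max_left _ _) hD)
      (Cn.shift F ?_ ?_)⟩
    · exact lt_of_lt_of_le (Nat.lt_succ_of_le (le_max_left _ _)) (le_max_right _ _)
    · exact lt_of_lt_of_le (Nat.lt_succ_of_le (le_max_right _ _)) (le_max_right _ _)
  | hm F hr ih =>
    obtain ⟨D, hD⟩ := ih
    exact ⟨D, Cn.trans hD (Cn.hom F)⟩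
  | hm' F hr ih =>
    obtain ⟨D, hD⟩ := ih
    exact ⟨D, Cn.trans hD (Cn.symm (Cn.hom F))⟩

end Pool.Agent.TAM
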