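import Mathlib
import Pool.Agent.TAM.CCl
import Pool.Agent.TAM.GdAll
import Pool.Agent.TAM.Alg

/-!
PROJECT TAM, module Chain: the chain lemma.
PLAN. bdd: `w = T(-n) • z ∈ L` (Stb); `NN L • w ∈ E0 L ⊔ E1' L` (relIndex kills: `AddSubgroup.nsmul_mem_of_relIndex_ne_zero...` or
`AddSubgroup.relIndex` = card of the quotient, `card_nsmul_eq_zero'`), `= e0 + e1`; the constant term of `e1 ∈ E1'` is 0, so the constant term of
`NN L • w` is that of `e0 ∈ E0 L`, i.e. in `L0 L`; it is `(NN L) * (z.1.coeff n, z.2.coeff n)`.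
chain: let `x = F.1 ≠ 0` (IsFr), `{c | (c,0) ∈ L0 (lat F)} = ℤ a` (uni_line), `a = p / r`. If `z ∈ lat F` witnesses `CC i (lat F) c`: for `n ≤ i` the pair
`(z.1.coeff n, 0)`: by bdd `N * z.1.coeff n ∈ ℤ a`, so `(N r) * z.1.coeff n ∈ ℤ`. Let `u` = the part of `z.1` in degrees `≤ i` : `Pt u`,
`(N r) • u` integral, `u.coeff 0 = c`. `z.1 • x + z.2 • F.2 ∈ R2`, where `(z.1 - u) • x` and `z.2 • F.2` have coefficients 0 in degrees `< i + 1 - K`, `K` a bound
with all coefficients of `x, F.2` in degrees `< -K` equal to 0. So `u * x.1, u * x.2` are integral in degrees `< i + 1 - K`; take `i` with `i + 1 - K ≥ I`,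
alg_chain with `M = N r`.
-/

namespace Pool.Agent.TAM

open LaurentPolynomial

private theorem coeff_nsm (k : ℕ) (f : RQ) (n : ℤ) : (k • f).coeff n = (k : ℚ) * f.coeff n := by
  rw [← cf_apply, map_nsmul, nsmul_eq_mul, cf_apply]

theorem bdd {L : AddSubgroup W} (hL : Gd L) {z : W} (hz : z ∈ L) (n : ℤ) :
    ((NN L : ℚ) * z.1.coeff n, (NN L : ℚ) * z.2.coeff n) ∈ L0 L := by
  have hw : (T (-n) : RQ) • z ∈ L := hL.stb _ (isZ_T _) z hz
  have h1 : NN L • ((T (-n) : RQ) • z) ∈ E0 L ⊔ E1' L :=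
    AddSubgroup.nsmul_relIndex_mem _ hw
  obtain ⟨u, hu, v, hv, huv⟩ := AddSubgroup.mem_sup.1 h1
  refine mem_L0.2 ⟨u, hu.1, hu.2.1, hu.2.2, ?_, ?_⟩
  · have e1 : u.1.coeff 0 + v.1.coeff 0 = (NN L : ℚ) * z.1.coeff n := by
      have e2 : (u + v).1.coeff 0 = (NN L • ((T (-n) : RQ) • z)).1.coeff 0 := by rw [huv]
      have e3 : (NN L • ((T (-n) : RQ) • z)).1.coeff 0 = (NN L : ℚ) * z.1.coeff n := by
        rw [Prod.smul_fst, Prod.smul_fst]
        rw [coeff_nsm, T_smul_coeff]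
        congr 2
        ring
      rw [e3] at e2
      rw [← e2]
      simp
    rw [hv.2.1 0 le_rfl, add_zero] at e1
    exact e1
  · have e1 : u.2.coeff 0 + v.2.coeff 0 = (NN L : ℚ) * z.2.coeff n := by
      have e2 : (u + v).2.coeff 0 = (NN L • ((T (-n) : RQ) • z)).2.coeff 0 := by rw [huv]
      have e3 : (NN L • ((T (-n) : RQ) • z)).2.coeff 0 = (NN L : ℚ) * z.2.coeff n := by
        rw [Prod.smul_snd, Prod.smul_snd]
        rw [coeff_nsm, T_smul_coeff]
        congr 2
        ring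
      rw [e3] at e2
      rw [← e2]
      simp
    rw [hv.2.2 0 le_rfl, add_zero] at e1
    exact e1

/-- All coefficients in degrees below `-K` vanish. -/
private theorem exists_pole (f : RQ) : ∃ K : ℕ, ∀ K' : ℕ, K ≤ K' → ∀ n : ℤ, n < -(K' : ℤ) →
    f.coeff n = 0 := by
  classical
  refine ⟨f.coeff.support.sup (fun n => n.natAbs), fun K' hK' n hn => ?_⟩
  by_contra h
  have h1 : n ∈ f.coeff.support := Finsupp.mem_support_iff.2 h
  have h2 : n.natAbs ≤ f.coeff.support.sup (fun n => n.natAbs) :=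
    Finset.le_sup (f := fun n : ℤ => n.natAbs) h1
  omega

private theorem coeff_mul_sum (f g : RQ) (n : ℤ) :
    (f * g).coeff n = ∑ m ∈ f.coeff.support, f.coeff m * g.coeff (n - m) := by
  classical
  rw [AddMonoidAlgebra.coeff_mul, Finsupp.sum]
  refine Finset.sum_congr rfl fun m _ => ?_
  rw [Finsupp.sum, Finset.sum_eq_single (n - m)]
  · rw [if_pos (by ring)]
  · intro k _ hk
    rw [if_neg]
    intro h
    exact hk (by omega)
  · intro h
    rw [Finsupp.notMem_support_iff] at h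
    simp [h]

/-- Degrees of products. -/
private theorem coeff_mul_low {f g : RQ} {a b : ℤ} (hf : ∀ n : ℤ, n < a → f.coeff n = 0)
    (hg : ∀ n : ℤ, n < b → g.coeff n = 0) {n : ℤ} (hn : n < a + b) : (f * g).coeff n = 0 := by
  rw [coeff_mul_sum]
  refine Finset.sum_eq_zero fun m _ => ?_
  by_cases h : m < a
  · rw [hf m h, zero_mul]
  · rw [hg (n - m) (by omega), mul_zero]

/-- The truncation to degrees `≤ i`. -/
private noncomputable def trn (i : ℤ) (f : RQ) : RQ :=
  ⟨f.coeff.filter (fun n => n ≤ i)⟩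

private theorem trn_coeff (i : ℤ) (f : RQ) (n : ℤ) :
    (trn i f).coeff n = if n ≤ i then f.coeff n else 0 := by
  show (f.coeff.filter (fun n => n ≤ i)) n = _
  rw [Finsupp.filter_apply]

private theorem fst_ne_zero {F : W × W} (hF : IsFr F) : F.1 ≠ 0 := by
  intro h0
  obtain ⟨m, hm⟩ := hF
  have h1 : wd F.1 F.2 = 0 := by
    rw [h0]
    simp [wd]
  rw [h1] at hm
  have h2 : (T m * T (-m) : RQ) = 1 := by rw [← T_add, add_neg_cancel, T_zero]
  rw [← hm, zero_mul] at h2
  exact zero_ne_one h2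

theorem chain {F : W × W} (hF : IsFr F) : ∃ i : ℕ, ∀ c : ℚ, CC i (lat F) c → c • F.1 ∈ R2 := by
  classical
  have hG := gd_frame hF
  obtain ⟨a, ha, hline⟩ := uni_line hG.u0 (v := ((1 : ℚ), (0 : ℚ))) (by
    intro h0
    exact one_ne_zero (congrArg Prod.fst h0))
  have hline' : ∀ c : ℚ, (c, 0) ∈ L0 (lat F) ↔ ∃ k : ℤ, c = k * a := by
    intro c
    rw [← hline c]
    have : c • ((1 : ℚ), (0 : ℚ)) = (c, 0) := by
      refine Prod.ext ?_ ?_
      · show c * 1 = c
        ring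
      · show c * 0 = 0
        ring
    rw [this]
  have hN : 0 < NN (lat F) := Nat.pos_of_ne_zero hG.nz
  set M : ℕ := NN (lat F) * a.den with hM
  have hM0 : 0 < M := Nat.mul_pos hN a.den_pos
  obtain ⟨I, hI⟩ := alg_chain F.1 (fst_ne_zero hF) M hM0
  obtain ⟨K1, hK1⟩ := exists_pole F.1.1
  obtain ⟨K2, hK2⟩ := exists_pole F.1.2
  obtain ⟨K3, hK3⟩ := exists_pole F.2.1
  obtain ⟨K4, hK4⟩ := exists_pole F.2.2
  set K : ℕ := K1 + K2 + K3 + K4 with hK
  refine ⟨(I + K).toNat, fun c hc => ?_⟩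
  set i : ℕ := (I + K).toNat with hi
  have hiI : I ≤ (i : ℤ) + 1 - K := by omega
  obtain ⟨z, hz, hz1, hz2, hz3⟩ := hc
  have hu0 : (trn i z.1).coeff 0 = c := by
    rw [trn_coeff, if_pos (by omega), hz2]
  rw [← hu0]
  refine hI (trn i z.1) ?_ ?_ ?_
  · intro n hn
    rw [trn_coeff, hz1 n hn, ite_self]
  · intro n
    have e1 : ((M : ℚ) • trn i z.1).coeff n = (M : ℚ) * (trn i z.1).coeff n := by simp
    rw [e1, trn_coeff]
    by_cases h : n ≤ i
    · rw [if_pos h]
      have h1 := bdd hG hz n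
      rw [hz3 n h, mul_zero, hline'] at h1
      obtain ⟨k, hk⟩ := h1
      refine ⟨k * a.num, ?_⟩
      rw [hM]
      push_cast
      have h2 : (a : ℚ) * a.den = a.num := by
        exact_mod_cast Rat.mul_den_eq_num a
      calc (NN (lat F) : ℚ) * a.den * z.1.coeff n = (NN (lat F) : ℚ) * z.1.coeff n * a.den := by ring
        _ = k * a * a.den := by rw [hk]
        _ = k * (a * a.den) := by ring
        _ = k * a.num := by rw [h2]
    · rw [if_neg h]
      exact ⟨0, by simp⟩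
  · intro n hn
    have hw := mem_R2.1 (mem_lat.1 hz)
    have hlow : ∀ m : ℤ, m < (i : ℤ) + 1 → (z.1 - trn i z.1).coeff m = 0 := by
      intro m hm
      have e1 : (z.1 - trn i z.1).coeff m = z.1.coeff m - (trn i z.1).coeff m := by simp
      rw [e1, trn_coeff, if_pos (by omega), sub_self]
    have hlow2 : ∀ m : ℤ, m < (i : ℤ) + 1 → z.2.coeff m = 0 := fun m hm => hz3 m (by omega)
    constructor
    · obtain ⟨k, hk⟩ := hw.1 n
      refine ⟨k, ?_⟩
      rw [← hk]
      have e1 : (z.1 • F.1 + z.2 • F.2).1 =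
          trn i z.1 * F.1.1 + (z.1 - trn i z.1) * F.1.1 + z.2 * F.2.1 := by
        show z.1 * F.1.1 + z.2 * F.2.1 = _
        ring
      have e2 : ((z.1 - trn i z.1) * F.1.1).coeff n = 0 :=
        coeff_mul_low (a := (i : ℤ) + 1) (b := -(K : ℤ)) hlow
          (fun m hm => hK1 K (by omega) m hm) (by omega)
      have e3 : (z.2 * F.2.1).coeff n = 0 :=
        coeff_mul_low (a := (i : ℤ) + 1) (b := -(K : ℤ)) hlow2
          (fun m hm => hK3 K (by omega) m hm) (by omega)
      rw [e1]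
      have e4 : (trn i z.1 * F.1.1 + (z.1 - trn i z.1) * F.1.1 + z.2 * F.2.1).coeff n =
          (trn i z.1 * F.1.1).coeff n + ((z.1 - trn i z.1) * F.1.1).coeff n +
            (z.2 * F.2.1).coeff n := by simp only [AddMonoidAlgebra.coeff_add, Finsupp.add_apply]
      rw [e4, e2, e3, add_zero, add_zero]
    · obtain ⟨k, hk⟩ := hw.2 n
      refine ⟨k, ?_⟩
      rw [← hk]
      have e1 : (z.1 • F.1 + z.2 • F.2).2 =
          trn i z.1 * F.1.2 + (z.1 - trn i z.1) * F.1.2 + z.2 * F.2.2 := by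
        show z.1 * F.1.2 + z.2 * F.2.2 = _
        ring
      have e2 : ((z.1 - trn i z.1) * F.1.2).coeff n = 0 :=
        coeff_mul_low (a := (i : ℤ) + 1) (b := -(K : ℤ)) hlow
          (fun m hm => hK2 K (by omega) m hm) (by omega)
      have e3 : (z.2 * F.2.2).coeff n = 0 :=
        coeff_mul_low (a := (i : ℤ) + 1) (b := -(K : ℤ)) hlow2
          (fun m hm => hK4 K (by omega) m hm) (by omega)
      rw [e1]
      have e4 : (trn i z.1 * F.1.2 + (z.1 - trn i z.1) * F.1.2 + z.2 * F.2.2).coeff n =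
          (trn i z.1 * F.1.2).coeff n + ((z.1 - trn i z.1) * F.1.2).coeff n +
            (z.2 * F.2.2).coeff n := by simp only [AddMonoidAlgebra.coeff_add, Finsupp.add_apply]
      rw [e4, e2, e3, add_zero, add_zero]

end Pool.Agent.TAM
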