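import Mathlib
import Pool.Agent.TAM.UniA

/-!
PROJECT TAM, module ClA: Claim A, two different lattices of determinant 1 in `ℚ²`.
PLAN. See section 4 of /team-store/tam_paper.txt. Write `ND p` for `ND G0 G1 p` (`p ≠ 0` and the groups
`{c | c • p ∈ G0}`, `{c | c • p ∈ G1}` differ). There is `M ≥ 1` with `M * dt x y ∈ ℤ` for `x ∈ G0, y ∈ G1`
(both lattices have rational bases). Prove by strong induction on `n : ℕ`: for all primitive `x ∈ G0`, primitive
`y ∈ G1`, `ND x`, `ND y`, with `M * |dt x y| = n`: `Rl x y`. Let `φ = |dt x y|`.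
 * `φ = 0`: `y = c • x`, use hself.   * `0 < φ < 1`: hadj.
 * `φ ≥ 1`: replacing `y` by `-y` (`Rl y (-y)` by hself with `c = -1`) assume `dt x y = φ`. uni_compl: `w ∈ G0`, `dt x w = 1`;
   subtract a multiple of `x` so that `al = dt w y ∈ [0, φ)`. `z ∈ G1`, `dt z y = 1`, `be = dt x z ∈ [0, φ)`.
   `w1 = w, w2 = w - x, z1 = z, z2 = z - y`; `al1 = al, al2 = al - φ, be1 = be, be2 = be - φ`,
   `dt wi zj = (ali * bej - 1) / φ` (from `φ • w = al • x + 1 • y`, `φ • z = 1 • x + be • y`).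
   All `wi` are primitive in `G0`, all `zj` primitive in `G1` (uni_prim).
   Not both `w1, w2` are non-ND (else both lie in `G1`, `dt (w) (w - x) = 1`... so `G0 = G1` by uni_eq); same for `z1, z2`.
   If `wi` is not ND then `wi ∈ G1`, so `ali ∈ ℤ`, and `ali ≠ 0` (otherwise `wi` is parallel to `y`, which is ND).
   If `zj` is not ND then `zj ∈ G0`, `bej ∈ ℤ`, `bej ≠ 0`.
   `al = 0` implies `y = φ • w`, and `φ = 1` would give `y = w` not ND; so `φ > 1`. Same for `be = 0`.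
   Choose `i, j` with `wi, zj` ND and `|ali| < φ, |bej| < φ, |ali * bej - 1| < φ^2`:
     w1, z1 ND: (1,1) (if φ = 1 then al, be > 0).   w1, z1 not ND: (2,2) (al, be ≥ 1).
     w1 ND, z1 not ND (be ≥ 1 an integer, be < φ): if w2 ND and al > 0: (2,2); if al = 0: (1,2) (φ > 1);
       if w2 not ND: φ - al ≥ 1 an integer, (1,2), al*(φ-be)+1 ≤ (φ-1)^2+1 < φ^2.
     w1 not ND, z1 ND: symmetric.
   By induction `Rl x zj`, `Rl wi y`, `Rl wi zj` (smaller values, the value 0 is allowed), so `Rl x y`.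
 Finally for `ND p`, `ND q`: let `x = a • p` primitive in `G0`, `y = b • q` primitive in `G1` (uni_primitive_multiple): `Rl x y`,
 and hself connects `p, x` and `q, y`. (ND is invariant under nonzero scalars.)
-/

namespace Pool.Agent.TAM

theorem ND_smul {G0 G1 : AddSubgroup (ℚ × ℚ)} {p : ℚ × ℚ} (h : ND G0 G1 p) {c : ℚ} (hc : c ≠ 0) :
    ND G0 G1 (c • p) := by
  obtain ⟨h1, h2⟩ := h
  refine ⟨smul_ne_zero hc h1, fun hcon => h2 fun e => ?_⟩
  have h3 := hcon (e / c)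
  rw [smul_smul, div_mul_cancel₀ _ hc] at h3
  exact h3

private def Pr (G : AddSubgroup (ℚ × ℚ)) (x : ℚ × ℚ) : Prop :=
  x ∈ G ∧ ∀ c : ℚ, c • x ∈ G → ∃ k : ℤ, c = k

private theorem par {w y : ℚ × ℚ} (hw : w ≠ 0) (h : dt w y = 0) : ∃ c : ℚ, y = c • w := by
  unfold dt at h
  by_cases h1 : w.1 = 0
  · have h2 : w.2 ≠ 0 := fun h2 => hw (Prod.ext h1 h2)
    refine ⟨y.2 / w.2, Prod.ext ?_ ?_⟩
    · show y.1 = y.2 / w.2 * w.1
      rw [h1, mul_zero]
      rw [h1, zero_mul, zero_sub, neg_eq_zero] at h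
      exact (mul_eq_zero.mp h).resolve_left h2
    · show y.2 = y.2 / w.2 * w.2
      rw [div_mul_cancel₀ _ h2]
  · refine ⟨y.1 / w.1, Prod.ext ?_ ?_⟩
    · show y.1 = y.1 / w.1 * w.1
      rw [div_mul_cancel₀ _ h1]
    · show y.2 = y.1 / w.1 * w.2
      field_simp
      linarith

private theorem dt_smul_left (c : ℚ) (u v : ℚ × ℚ) : dt (c • u) v = c * dt u v := by
  simp only [dt, Prod.smul_fst, Prod.smul_snd, smul_eq_mul]
  ring

private theorem dt_smul_right (c : ℚ) (u v : ℚ × ℚ) : dt u (c • v) = c * dt u v := by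
  simp only [dt, Prod.smul_fst, Prod.smul_snd, smul_eq_mul]
  ring

private theorem dt_sub_left (u u' v : ℚ × ℚ) : dt (u - u') v = dt u v - dt u' v := by
  simp only [dt, Prod.fst_sub, Prod.snd_sub]
  ring

private theorem dt_sub_right (u v v' : ℚ × ℚ) : dt u (v - v') = dt u v - dt u v' := by
  simp only [dt, Prod.fst_sub, Prod.snd_sub]
  ring

private theorem dt_self (u : ℚ × ℚ) : dt u u = 0 := by
  simp only [dt]
  ring

private theorem dt_swap (u v : ℚ × ℚ) : dt u v = - dt v u := by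
  simp only [dt]
  ring

private theorem zsmul_eq (k : ℤ) (u : ℚ × ℚ) : k • u = (k : ℚ) • u := by
  refine Prod.ext ?_ ?_
  · show k • u.1 = (k : ℚ) * u.1
    rw [zsmul_eq_mul]
  · show k • u.2 = (k : ℚ) * u.2
    rw [zsmul_eq_mul]

private theorem qsmul_mem {G : AddSubgroup (ℚ × ℚ)} {u : ℚ × ℚ} (hu : u ∈ G) (k : ℤ) :
    (k : ℚ) • u ∈ G := by
  rw [← zsmul_eq]
  exact G.zsmul_mem hu k

/-- the choice of the pair -/
private theorem arith {φ al be : ℚ} {A1 A2 B1 B2 : Prop} (hφ : 1 ≤ φ) (ha0 : 0 ≤ al) (ha1 : al < φ)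
    (hb0 : 0 ≤ be) (hb1 : be < φ) (hA : ¬ (¬ A1 ∧ ¬ A2)) (hB : ¬ (¬ B1 ∧ ¬ B2))
    (hA1 : ¬ A1 → ∃ k : ℤ, al = k ∧ al ≠ 0) (hA2 : ¬ A2 → ∃ k : ℤ, al - φ = k ∧ al - φ ≠ 0)
    (hB1 : ¬ B1 → ∃ k : ℤ, be = k ∧ be ≠ 0) (hB2 : ¬ B2 → ∃ k : ℤ, be - φ = k ∧ be - φ ≠ 0)
    (ha : al = 0 → 1 < φ) (hb : be = 0 → 1 < φ) :
    ∃ a b : ℚ, ((A1 ∧ a = al) ∨ (A2 ∧ a = al - φ)) ∧ ((B1 ∧ b = be) ∨ (B2 ∧ b = be - φ)) ∧
      |a| < φ ∧ |b| < φ ∧ |a * b - 1| < φ ^ 2 := by
  have hint1 : ∀ k : ℤ, (0 : ℚ) ≤ k → (k : ℚ) ≠ 0 → (1 : ℚ) ≤ k := by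
    intro k h1 h2
    have h3 : 0 ≤ k := by exact_mod_cast h1
    have h4 : k ≠ 0 := by exact_mod_cast h2
    have h5 : 1 ≤ k := by omega
    exact_mod_cast h5
  have hint2 : ∀ k : ℤ, (k : ℚ) ≤ 0 → (k : ℚ) ≠ 0 → (k : ℚ) ≤ -1 := by
    intro k h1 h2
    have h3 : k ≤ 0 := by exact_mod_cast h1
    have h4 : k ≠ 0 := by exact_mod_cast h2
    have h5 : k ≤ -1 := by omega
    exact_mod_cast h5
  have hal1 : ¬ A1 → 1 ≤ al := by
    intro h
    obtain ⟨k, h1, h2⟩ := hA1 h
    rw [h1] at ha0 h2 ⊢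
    exact hint1 k ha0 h2
  have hbe1 : ¬ B1 → 1 ≤ be := by
    intro h
    obtain ⟨k, h1, h2⟩ := hB1 h
    rw [h1] at hb0 h2 ⊢
    exact hint1 k hb0 h2
  have hal2 : ¬ A2 → al ≤ φ - 1 := by
    intro h
    obtain ⟨k, h1, h2⟩ := hA2 h
    have h3 : al - φ ≤ 0 := by linarith
    rw [h1] at h2 h3
    have := hint2 k h3 h2
    linarith
  have hbe2 : ¬ B2 → be ≤ φ - 1 := by
    intro h
    obtain ⟨k, h1, h2⟩ := hB2 h
    have h3 : be - φ ≤ 0 := by linarith
    rw [h1] at h2 h3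
    have := hint2 k h3 h2
    linarith
  by_cases a1 : A1
  · by_cases b1 : B1
    · refine ⟨al, be, Or.inl ⟨a1, rfl⟩, Or.inl ⟨b1, rfl⟩, ?_, ?_, ?_⟩
      · rw [abs_lt]; constructor <;> linarith
      · rw [abs_lt]; constructor <;> linarith
      · rw [abs_lt]
        constructor
        · rcases lt_or_eq_of_le hφ with h | h
          · nlinarith [mul_nonneg ha0 hb0]
          · have h1 : 0 < al := lt_of_le_of_ne ha0 fun h' => by
              have := ha h'.symm
              linarith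
            have h2 : 0 < be := lt_of_le_of_ne hb0 fun h' => by
              have := hb h'.symm
              linarith
            nlinarith [mul_pos h1 h2]
        · nlinarith [mul_lt_mul'' ha1 hb1 ha0 hb0]
    · have hb' := hbe1 b1
      have b2 : B2 := by
        by_contra h
        exact hB ⟨b1, h⟩
      have hφ1 : 1 < φ := by linarith
      by_cases h0 : al = 0
      · refine ⟨al, be - φ, Or.inl ⟨a1, rfl⟩, Or.inr ⟨b2, rfl⟩, ?_, ?_, ?_⟩
        · rw [abs_lt]; constructor <;> linarith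
        · rw [abs_lt]; constructor <;> linarith
        · rw [h0, zero_mul, zero_sub, abs_neg, abs_one]
          nlinarith
      · have hal : 0 < al := lt_of_le_of_ne ha0 (Ne.symm h0)
        by_cases a2 : A2
        · refine ⟨al - φ, be - φ, Or.inr ⟨a2, rfl⟩, Or.inr ⟨b2, rfl⟩, ?_, ?_, ?_⟩
          · rw [abs_lt]; constructor <;> linarith
          · rw [abs_lt]; constructor <;> linarith
          · have h1 : 0 < (φ - al) * (φ - be) := mul_pos (by linarith) (by linarith)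
            have h2 : (φ - al) * (φ - be) ≤ φ * φ :=
              mul_le_mul (by linarith) (by linarith) (by linarith) (by linarith)
            rw [abs_lt]
            constructor <;> nlinarith
        · have ha' := hal2 a2
          refine ⟨al, be - φ, Or.inl ⟨a1, rfl⟩, Or.inr ⟨b2, rfl⟩, ?_, ?_, ?_⟩
          · rw [abs_lt]; constructor <;> linarith
          · rw [abs_lt]; constructor <;> linarith
          · have h1 : 0 ≤ al * (φ - be) := mul_nonneg ha0 (by linarith)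
            have h2 : al * (φ - be) ≤ (φ - 1) * (φ - 1) :=
              mul_le_mul ha' (by linarith) (by linarith) (by linarith)
            rw [abs_lt]
            constructor <;> nlinarith
  · have ha' := hal1 a1
    have a2 : A2 := by
      by_contra h
      exact hA ⟨a1, h⟩
    have hφ1 : 1 < φ := by linarith
    by_cases b1 : B1
    · by_cases h0 : be = 0
      · refine ⟨al - φ, be, Or.inr ⟨a2, rfl⟩, Or.inl ⟨b1, rfl⟩, ?_, ?_, ?_⟩
        · rw [abs_lt]; constructor <;> linarith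
        · rw [abs_lt]; constructor <;> linarith
        · rw [h0, mul_zero, zero_sub, abs_neg, abs_one]
          nlinarith
      · have hbe : 0 < be := lt_of_le_of_ne hb0 (Ne.symm h0)
        by_cases b2 : B2
        · refine ⟨al - φ, be - φ, Or.inr ⟨a2, rfl⟩, Or.inr ⟨b2, rfl⟩, ?_, ?_, ?_⟩
          · rw [abs_lt]; constructor <;> linarith
          · rw [abs_lt]; constructor <;> linarith
          · have h1 : 0 < (φ - al) * (φ - be) := mul_pos (by linarith) (by linarith)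
            have h2 : (φ - al) * (φ - be) ≤ φ * φ :=
              mul_le_mul (by linarith) (by linarith) (by linarith) (by linarith)
            rw [abs_lt]
            constructor <;> nlinarith
        · have hb' := hbe2 b2
          refine ⟨al - φ, be, Or.inr ⟨a2, rfl⟩, Or.inl ⟨b1, rfl⟩, ?_, ?_, ?_⟩
          · rw [abs_lt]; constructor <;> linarith
          · rw [abs_lt]; constructor <;> linarith
          · have h1 : 0 ≤ (φ - al) * be := mul_nonneg (by linarith) hb0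
            have h2 : (φ - al) * be ≤ (φ - 1) * (φ - 1) :=
              mul_le_mul (by linarith) hb' hb0 (by linarith)
            rw [abs_lt]
            constructor <;> nlinarith
    · have hb' := hbe1 b1
      have b2 : B2 := by
        by_contra h
        exact hB ⟨b1, h⟩
      refine ⟨al - φ, be - φ, Or.inr ⟨a2, rfl⟩, Or.inr ⟨b2, rfl⟩, ?_, ?_, ?_⟩
      · rw [abs_lt]; constructor <;> linarith
      · rw [abs_lt]; constructor <;> linarith
      · have h1 : 0 < (φ - al) * (φ - be) := mul_pos (by linarith) (by linarith)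
        have h2 : (φ - al) * (φ - be) ≤ φ * φ :=
          mul_le_mul (by linarith) (by linarith) (by linarith) (by linarith)
        rw [abs_lt]
        constructor <;> nlinarith

/-- a primitive vector that is not ND is in the other lattice -/
private theorem nnd {G0 G1 : AddSubgroup (ℚ × ℚ)} {w : ℚ × ℚ} (hw0 : w ≠ 0) (h : ¬ ND G0 G1 w) :
    w ∈ G0 ↔ w ∈ G1 := by
  by_contra hcon
  apply h
  refine ⟨hw0, fun h1 => hcon ?_⟩
  have := h1 1
  rwa [one_smul] at this

private theorem prim_both {G0 G1 : AddSubgroup (ℚ × ℚ)} {w : ℚ × ℚ} (h0 : Pr G0 w) (h1 : Pr G1 w) :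
    ¬ ND G0 G1 w := by
  rintro ⟨_, h2⟩
  apply h2
  intro c
  constructor
  · intro h
    obtain ⟨k, rfl⟩ := h0.2 c h
    exact qsmul_mem h1.1 k
  · intro h
    obtain ⟨k, rfl⟩ := h1.2 c h
    exact qsmul_mem h0.1 k

private theorem stp {G0 G1 : AddSubgroup (ℚ × ℚ)} (h0 : Uni G0) (h1 : Uni G1) (hne : G0 ≠ G1)
    (Rl : ℚ × ℚ → ℚ × ℚ → Prop) (hsymm : ∀ p q, Rl p q → Rl q p)
    (htrans : ∀ p q r, Rl p q → Rl q r → Rl p r) {x y : ℚ × ℚ} (hx : Pr G0 x) (hy : Pr G1 y)
    (nx : ND G0 G1 x) (ny : ND G0 G1 y) (hφ : 1 ≤ dt x y)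
    (IH : ∀ x' y', Pr G0 x' → Pr G1 y' → ND G0 G1 x' → ND G0 G1 y' → |dt x' y'| < dt x y →
      Rl x' y') : Rl x y := by
  have hφ0 : 0 < dt x y := by linarith
  -- `w`
  obtain ⟨w, hw, hxw, hal0, hal1⟩ : ∃ w ∈ G0, dt x w = 1 ∧ 0 ≤ dt w y ∧ dt w y < dt x y := by
    obtain ⟨w0, hw0, hxw0⟩ := uni_compl h0 hx.1 hx.2
    refine ⟨w0 - ((⌊dt w0 y / dt x y⌋ : ℤ) : ℚ) • x, G0.sub_mem hw0 (qsmul_mem hx.1 _), ?_, ?_, ?_⟩
    · rw [dt_sub_right, dt_smul_right, dt_self, hxw0]
      ring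
    · rw [dt_sub_left, dt_smul_left]
      have h2 := Int.floor_le (dt w0 y / dt x y)
      rw [le_div_iff₀ hφ0] at h2
      linarith
    · rw [dt_sub_left, dt_smul_left]
      have h2 := Int.lt_floor_add_one (dt w0 y / dt x y)
      rw [div_lt_iff₀ hφ0] at h2
      linarith
  obtain ⟨z, hz, hzy, hbe0, hbe1⟩ : ∃ z ∈ G1, dt z y = 1 ∧ 0 ≤ dt x z ∧ dt x z < dt x y := by
    obtain ⟨z0, hz0, hyz0⟩ := uni_compl h1 hy.1 hy.2
    have hz0' : dt (-z0) y = 1 := by
      have h2 : dt (-z0) y = dt y z0 := by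
        simp only [dt, Prod.fst_neg, Prod.snd_neg]
        ring
      rw [h2, hyz0]
    refine ⟨-z0 - ((⌊dt x (-z0) / dt x y⌋ : ℤ) : ℚ) • y,
      G1.sub_mem (G1.neg_mem hz0) (qsmul_mem hy.1 _), ?_, ?_, ?_⟩
    · rw [dt_sub_left, dt_smul_left, dt_self, hz0']
      ring
    · rw [dt_sub_right, dt_smul_right]
      have h2 := Int.floor_le (dt x (-z0) / dt x y)
      rw [le_div_iff₀ hφ0] at h2
      linarith
    · rw [dt_sub_right, dt_smul_right]
      have h2 := Int.lt_floor_add_one (dt x (-z0) / dt x y)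
      rw [div_lt_iff₀ hφ0] at h2
      linarith
  have hx0 : x ≠ 0 := nx.1
  have hy0 : y ≠ 0 := ny.1
  -- general facts about the candidates
  have hW : ∀ w' ∈ G0, dt x w' = 1 → Pr G0 w' ∧ w' ≠ 0 ∧
      (¬ ND G0 G1 w' → w' ∈ G1 ∧ ∃ k : ℤ, dt w' y = k ∧ dt w' y ≠ 0) := by
    intro w' hw' hxw'
    have hne0 : w' ≠ 0 := by
      rintro rfl
      simp [dt] at hxw'
    refine ⟨⟨hw', (uni_prim h0 hx.1 hw' hxw').2⟩, hne0, fun hn => ?_⟩
    have h2 := (nnd hne0 hn).1 hw'
    obtain ⟨k, hk⟩ := uni_int h1 h2 hy.1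
    refine ⟨h2, k, hk, fun h3 => ?_⟩
    obtain ⟨c, hc⟩ := par hne0 h3
    have hc0 : c ≠ 0 := by
      rintro rfl
      rw [zero_smul] at hc
      exact hy0 hc
    apply hn
    have h4 := ND_smul ny (inv_ne_zero hc0)
    rwa [hc, smul_smul, inv_mul_cancel₀ hc0, one_smul] at h4
  have hZ : ∀ z' ∈ G1, dt z' y = 1 → Pr G1 z' ∧ z' ≠ 0 ∧
      (¬ ND G0 G1 z' → z' ∈ G0 ∧ ∃ k : ℤ, dt x z' = k ∧ dt x z' ≠ 0) := by
    intro z' hz' hzy'
    have hne0 : z' ≠ 0 := by
      rintro rfl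
      simp [dt] at hzy'
    refine ⟨⟨hz', (uni_prim h1 hz' hy.1 hzy').1⟩, hne0, fun hn => ?_⟩
    have h2 := (nnd hne0 hn).2 hz'
    obtain ⟨k, hk⟩ := uni_int h0 hx.1 h2
    refine ⟨h2, k, hk, fun h3 => ?_⟩
    have h3' : dt z' x = 0 := by rw [dt_swap, h3, neg_zero]
    obtain ⟨c, hc⟩ := par hne0 h3'
    have hc0 : c ≠ 0 := by
      rintro rfl
      rw [zero_smul] at hc
      exact hx0 hc
    apply hn
    have h4 := ND_smul nx (inv_ne_zero hc0)
    rwa [hc, smul_smul, inv_mul_cancel₀ hc0, one_smul] at h4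
  have hw2 : w - x ∈ G0 := G0.sub_mem hw hx.1
  have hxw2 : dt x (w - x) = 1 := by rw [dt_sub_right, dt_self, hxw, sub_zero]
  have hw2y : dt (w - x) y = dt w y - dt x y := dt_sub_left w x y
  have hz2 : z - y ∈ G1 := G1.sub_mem hz hy.1
  have hz2y : dt (z - y) y = 1 := by rw [dt_sub_left, dt_self, hzy, sub_zero]
  have hxz2 : dt x (z - y) = dt x z - dt x y := dt_sub_right x z y
  obtain ⟨W1, W1n, W1i⟩ := hW w hw hxw
  obtain ⟨W2, W2n, W2i⟩ := hW (w - x) hw2 hxw2
  obtain ⟨Z1, Z1n, Z1i⟩ := hZ z hz hzy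
  obtain ⟨Z2, Z2n, Z2i⟩ := hZ (z - y) hz2 hz2y
  obtain ⟨a, b, hA, hB, ha, hb, hab⟩ := arith (φ := dt x y) (al := dt w y) (be := dt x z)
    (A1 := ND G0 G1 w) (A2 := ND G0 G1 (w - x)) (B1 := ND G0 G1 z) (B2 := ND G0 G1 (z - y))
    hφ hal0 hal1 hbe0 hbe1 (by
      rintro ⟨n1, n2⟩
      apply hne
      refine uni_eq h0 h1 hw hw2 (W1i n1).1 (W2i n2).1 ?_
      rw [dt_sub_right, dt_self, dt_swap w x, hxw]
      norm_num) (by
      rintro ⟨n1, n2⟩
      apply hne
      refine uni_eq h0 h1 (Z2i n2).1 (Z1i n1).1 hz2 hz ?_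
      rw [dt_sub_left, dt_self, dt_swap y z, hzy]
      norm_num) (fun n => (W1i n).2) (fun n => by
      rw [← hw2y]
      exact (W2i n).2) (fun n => (Z1i n).2) (fun n => by
      rw [← hxz2]
      exact (Z2i n).2) (by
      intro h2
      rcases lt_or_eq_of_le hφ with h | h
      · exact h
      · exfalso
        obtain ⟨c, hc⟩ := par W1n h2
        have h3 : dt x y = c := by rw [hc, dt_smul_right, hxw, mul_one]
        have h4 : y = w := by rw [hc, ← h3, ← h, one_smul]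
        exact prim_both W1 (h4 ▸ hy) (h4 ▸ ny)) (by
      intro h2
      rcases lt_or_eq_of_le hφ with h | h
      · exact h
      · exfalso
        have h2' : dt z x = 0 := by rw [dt_swap, h2, neg_zero]
        obtain ⟨c, hc⟩ := par Z1n h2'
        have h3 : dt x y = c := by rw [hc, dt_smul_left, hzy, mul_one]
        have h4 : x = z := by rw [hc, ← h3, ← h, one_smul]
        exact prim_both (h4 ▸ hx) Z1 (h4 ▸ nx))
  obtain ⟨w', hPw, hnw, hxw', hwa⟩ : ∃ w', Pr G0 w' ∧ ND G0 G1 w' ∧ dt x w' = 1 ∧ dt w' y = a := by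
    rcases hA with ⟨h, h'⟩ | ⟨h, h'⟩
    · exact ⟨w, W1, h, hxw, h'.symm⟩
    · exact ⟨w - x, W2, h, hxw2, by rw [hw2y, h']⟩
  obtain ⟨z', hPz, hnz, hzy', hzb⟩ : ∃ z', Pr G1 z' ∧ ND G0 G1 z' ∧ dt z' y = 1 ∧ dt x z' = b := by
    rcases hB with ⟨h, h'⟩ | ⟨h, h'⟩
    · exact ⟨z, Z1, h, hzy, h'.symm⟩
    · exact ⟨z - y, Z2, h, hz2y, by rw [hxz2, h']⟩
  have hpl : dt x y * dt w' z' = a * b - 1 := by
    have h2 : dt x y * dt w' z' = dt w' y * dt x z' - dt x w' * dt z' y := by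
      simp only [dt]
      ring
    rw [h2, hwa, hzb, hxw', hzy', mul_one]
  have r1 : Rl x z' := IH x z' hx hPz nx hnz (by rw [hzb]; exact hb)
  have r2 : Rl w' y := IH w' y hPw hy hnw ny (by rw [hwa]; exact ha)
  have r3 : Rl w' z' := IH w' z' hPw hPz hnw hnz (by
    rw [← hpl, abs_mul, abs_of_pos hφ0, pow_two] at hab
    exact lt_of_mul_lt_mul_left hab hφ0.le)
  exact htrans _ _ _ r1 (htrans _ _ _ (hsymm _ _ r3) r2)

private theorem den_int (q : ℚ) : ∃ k : ℤ, (q.den : ℚ) * q = k :=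
  ⟨q.num, by rw [mul_comm]; exact Rat.mul_den_eq_num q⟩

private theorem exM {G0 G1 : AddSubgroup (ℚ × ℚ)} (h0 : Uni G0) (h1 : Uni G1) :
    ∃ M : ℚ, 0 < M ∧ ∀ x ∈ G0, ∀ y ∈ G1, ∃ k : ℤ, M * dt x y = k := by
  obtain ⟨u, _, v, _, _, huv⟩ := h0
  obtain ⟨u', _, v', _, _, huv'⟩ := h1
  have hex : ∀ a b : ℚ, 0 < ((a.den : ℚ)) ∧ 0 < ((b.den : ℚ)) := fun a b =>
    ⟨by exact_mod_cast a.den_pos, by exact_mod_cast b.den_pos⟩
  obtain ⟨k1, hk1⟩ := den_int (dt u u')
  obtain ⟨k2, hk2⟩ := den_int (dt u v')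
  obtain ⟨k3, hk3⟩ := den_int (dt v u')
  obtain ⟨k4, hk4⟩ := den_int (dt v v')
  have p1 := (hex (dt u u') (dt u v')).1
  have p2 := (hex (dt u u') (dt u v')).2
  have p3 := (hex (dt v u') (dt v v')).1
  have p4 := (hex (dt v u') (dt v v')).2
  refine ⟨(dt u u').den * (dt u v').den * ((dt v u').den * (dt v v').den), by positivity, ?_⟩
  intro x hx y hy
  obtain ⟨m, n, rfl⟩ := huv x hx
  obtain ⟨m', n', rfl⟩ := huv' y hy
  have e : dt (m • u + n • v) (m' • u' + n' • v') = m * m' * dt u u' + m * n' * dt u v' +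
      n * m' * dt v u' + n * n' * dt v v' := by
    rw [zsmul_eq, zsmul_eq, zsmul_eq, zsmul_eq]
    simp only [dt, Prod.smul_fst, Prod.smul_snd, smul_eq_mul, Prod.fst_add, Prod.snd_add]
    ring
  refine ⟨m * m' * k1 * ((dt u v').den * ((dt v u').den * (dt v v').den)) +
    m * n' * k2 * ((dt u u').den * ((dt v u').den * (dt v v').den)) +
    n * m' * k3 * ((dt u u').den * ((dt u v').den * (dt v v').den)) +
    n * n' * k4 * ((dt u u').den * ((dt u v').den * (dt v u').den)), ?_⟩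
  rw [e]
  push_cast
  rw [← hk1, ← hk2, ← hk3, ← hk4]
  ring

theorem claimA {G0 G1 : AddSubgroup (ℚ × ℚ)} (h0 : Uni G0) (h1 : Uni G1) (hne : G0 ≠ G1)
    (Rl : ℚ × ℚ → ℚ × ℚ → Prop) (hsymm : ∀ p q, Rl p q → Rl q p)
    (htrans : ∀ p q r, Rl p q → Rl q r → Rl p r)
    (hself : ∀ p, ND G0 G1 p → ∀ c : ℚ, c ≠ 0 → Rl p (c • p))
    (hadj : ∀ x y, x ∈ G0 → (∀ c : ℚ, c • x ∈ G0 → ∃ k : ℤ, c = k) → y ∈ G1 →
      (∀ c : ℚ, c • y ∈ G1 → ∃ k : ℤ, c = k) → 0 < |dt x y| → |dt x y| < 1 → Rl x y) :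
    ∀ p q, ND G0 G1 p → ND G0 G1 q → Rl p q := by
  obtain ⟨M, hM, hMi⟩ := exM h0 h1
  have main : ∀ n : ℕ, ∀ x y, Pr G0 x → Pr G1 y → ND G0 G1 x → ND G0 G1 y →
      M * |dt x y| < n → Rl x y := by
    intro n
    induction n with
    | zero =>
      intro x y _ _ _ _ h
      have : 0 ≤ M * |dt x y| := by positivity
      rw [Nat.cast_zero] at h
      linarith
    | succ n ih =>
      have pos : ∀ x y, Pr G0 x → Pr G1 y → ND G0 G1 x → ND G0 G1 y → 1 ≤ dt x y →
          M * |dt x y| < (n + 1 : ℕ) → Rl x y := by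
        intro x y hx hy nx ny hφ h
        refine stp h0 h1 hne Rl hsymm htrans hx hy nx ny hφ ?_
        intro x' y' hx' hy' nx' ny' hlt
        refine ih x' y' hx' hy' nx' ny' ?_
        obtain ⟨k, hk⟩ := hMi x hx.1 y hy.1
        obtain ⟨k', hk'⟩ := hMi x' hx'.1 y' hy'.1
        have e1 : M * |dt x y| = k := by
          rw [abs_of_pos (by linarith), hk]
        have e2 : M * |dt x' y'| = (|k'| : ℤ) := by
          rw [Int.cast_abs, ← hk', abs_mul, abs_of_pos hM]
        have e3 : M * |dt x' y'| < M * |dt x y| := by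
          refine mul_lt_mul_of_pos_left ?_ hM
          rw [abs_of_pos (show 0 < dt x y by linarith)]
          exact hlt
        rw [e1, e2] at e3
        rw [e1] at h
        have e4 : |k'| < k := by exact_mod_cast e3
        have e5 : k < (n : ℤ) + 1 := by exact_mod_cast h
        have e6 : |k'| < (n : ℤ) := by omega
        rw [e2]
        exact_mod_cast e6
      intro x y hx hy nx ny h
      rcases eq_or_lt_of_le (abs_nonneg (dt x y)) with h2 | h2
      · obtain ⟨c, hc⟩ := par nx.1 (abs_eq_zero.mp h2.symm)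
        have hc0 : c ≠ 0 := by
          rintro rfl
          rw [zero_smul] at hc
          exact ny.1 hc
        rw [hc]
        exact hself x nx c hc0
      · by_cases h3 : |dt x y| < 1
        · exact hadj x y hx.1 hx.2 hy.1 hy.2 h2 h3
        · rw [not_lt] at h3
          rcases le_total 0 (dt x y) with h4 | h4
          · rw [abs_of_nonneg h4] at h3
            exact pos x y hx hy nx ny h3 h
          · rw [abs_of_nonpos h4] at h3
            have e1 : dt x (-y) = - dt x y := by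
              simp only [dt, Prod.fst_neg, Prod.snd_neg]
              ring
            have e2 : (-1 : ℚ) • y = -y := by rw [neg_smul, one_smul]
            have ny' : ND G0 G1 (-y) := by
              rw [← e2]
              exact ND_smul ny (by norm_num)
            have hy' : Pr G1 (-y) := by
              refine ⟨G1.neg_mem hy.1, fun c hc => ?_⟩
              have h5 : c • y ∈ G1 := by
                have := G1.neg_mem hc
                rwa [smul_neg, neg_neg] at this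
              exact hy.2 c h5
            have r1 := pos x (-y) hx hy' nx ny' (by rw [e1]; exact h3) (by
              rw [e1, abs_neg]
              exact h)
            have r2 := hself y ny (-1) (by norm_num)
            rw [e2] at r2
            exact htrans _ _ _ r1 (hsymm _ _ r2)
  intro p q np nq
  obtain ⟨a, ha, hap, hap'⟩ := uni_primitive_multiple h0 np.1
  obtain ⟨b, hb, hbq, hbq'⟩ := uni_primitive_multiple h1 nq.1
  obtain ⟨n, hn⟩ := exists_nat_gt (M * |dt (a • p) (b • q)|)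
  have r := main n (a • p) (b • q) ⟨hap, hap'⟩ ⟨hbq, hbq'⟩ (ND_smul np ha.ne') (ND_smul nq hb.ne') hn
  exact htrans _ _ _ (hself p np a ha.ne') (htrans _ _ _ r (hsymm _ _ (hself q nq b hb.ne')))

end Pool.Agent.TAM
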