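import Mathlib
import Pool.Agent.TAM.Basic

/-!
PROJECT TAM, module Fp: integrality of a factor (used for H2a).
PLAN. `neg_part`: let `g` be a polynomial in `T` with integral coefficients and constant term `1`, and suppose all coefficients of
`f * g` in negative degrees are integral. Then all coefficients of `f` in negative degrees are integral. Induction from the
lowest degree of `f` upwards: `(f*g).coeff n = f.coeff n + Σ_{j<n} f.coeff j * g.coeff (n-j)`, strong induction on `n - (lowest degree)`.
`pos_part`: the mirror statement (apply `invert`, or repeat).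
-/

namespace Pool.Agent.TAM

open LaurentPolynomial

private lemma coef_step {f g : RQ} (hg : IsZ g) (hg1 : g.coeff 0 = 1) (n : ℤ)
    (hn : ∃ k : ℤ, (f * g).coeff n = k)
    (hlow : ∀ m, m ≠ n → g.coeff (-m + n) = 0 ∨ ∃ k : ℤ, f.coeff m = k) :
    ∃ k : ℤ, f.coeff n = k := by
  have hr : ∀ q : ℚ, (∃ k : ℤ, q = k) ↔ q ∈ (Int.castAddHom ℚ).range := by
    intro q
    simp only [AddMonoidHom.mem_range, Int.coe_castAddHom]
    exact ⟨fun ⟨k, hk⟩ => ⟨k, hk.symm⟩, fun ⟨k, hk⟩ => ⟨k, hk.symm⟩⟩
  by_cases hs : n ∈ f.coeff.support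
  · rw [AddMonoidAlgebra.coeff_mul_apply_left, Finsupp.sum, ← Finset.add_sum_erase _ _ hs,
      neg_add_cancel, hg1, mul_one, hr] at hn
    rw [hr]
    have h2 : ∑ x ∈ f.coeff.support.erase n, f.coeff x * g.coeff (-x + n) ∈
        (Int.castAddHom ℚ).range := by
      refine sum_mem fun x hx => ?_
      rcases hlow x (Finset.ne_of_mem_erase hx) with h | ⟨k, hk⟩
      · rw [h, mul_zero]
        exact zero_mem _
      · obtain ⟨l, hl⟩ := hg (-x + n)
        rw [hk, hl, ← hr]
        exact ⟨k * l, by push_cast; ring⟩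
    have h3 := sub_mem hn h2
    rwa [add_sub_cancel_right] at h3
  · refine ⟨0, ?_⟩
    rw [Finsupp.notMem_support_iff] at hs
    rw [hs, Int.cast_zero]

theorem neg_part {f g : RQ} (hg : IsZ g) (hg0 : Pt g) (hg1 : g.coeff 0 = 1)
    (h : ∀ n < 0, ∃ k : ℤ, (f * g).coeff n = k) : ∀ n < 0, ∃ k : ℤ, f.coeff n = k := by
  obtain ⟨lo, hlo'⟩ := f.coeff.support.bddBelow
  have hlo : ∀ i ∈ f.coeff.support, lo ≤ i := fun i h => hlo' (Finset.mem_coe.2 h)
  have key : ∀ N : ℕ, ∀ n < 0, n < lo + N → ∃ k : ℤ, f.coeff n = k := by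
    intro N
    induction N with
    | zero =>
      intro n _ hn
      refine ⟨0, ?_⟩
      have : n ∉ f.coeff.support := fun h => by
        have := hlo n h
        push_cast at hn
        omega
      rw [Finsupp.notMem_support_iff.1 this, Int.cast_zero]
    | succ N ih =>
      intro n hn0 hn
      refine coef_step hg hg1 n (h n hn0) fun m hm => ?_
      rcases lt_or_gt_of_ne hm with h1 | h1
      · right
        exact ih m (by omega) (by push_cast at hn; omega)
      · left
        exact hg0 _ (by omega)
  intro n hn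
  exact key (n - lo + 1).toNat n hn (by omega)

theorem pos_part {f g : RQ} (hg : IsZ g) (hg0 : Ps g) (hg1 : g.coeff 0 = 1)
    (h : ∀ n > 0, ∃ k : ℤ, (f * g).coeff n = k) : ∀ n > 0, ∃ k : ℤ, f.coeff n = k := by
  obtain ⟨hi, hhi'⟩ := f.coeff.support.bddAbove
  have hhi : ∀ i ∈ f.coeff.support, i ≤ hi := fun i h => hhi' (Finset.mem_coe.2 h)
  have key : ∀ N : ℕ, ∀ n > 0, (hi : ℤ) - N < n → ∃ k : ℤ, f.coeff n = k := by
    intro N
    induction N with
    | zero =>
      intro n _ hn
      refine ⟨0, ?_⟩
      have : n ∉ f.coeff.support := fun h => by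
        have := hhi n h
        push_cast at hn
        omega
      rw [Finsupp.notMem_support_iff.1 this, Int.cast_zero]
    | succ N ih =>
      intro n hn0 hn
      refine coef_step hg hg1 n (h n hn0) fun m hm => ?_
      rcases lt_or_gt_of_ne hm with h1 | h1
      · left
        exact hg0 _ (by omega)
      · right
        exact ih m (by omega) (by push_cast at hn; omega)
  intro n hn
  exact key ((hi : ℤ) - n + 1).toNat n hn (by omega)

end Pool.Agent.TAM
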