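import Mathlib
import Pool.Agent.TAM.GdAll
import Pool.Agent.TAM.Fp

/-!
PROJECT TAM, module H2a: two trivial frames at the same level differ by an integral transvection.
PLAN. `wd x y = T m = wd x y'` so `wd x (y' - y) = 0` and `y' = y + f • x` with `f = T(-m) * wd (y' - y) y`.. (frame_coord for (x,y)).
`(c,0) ∈ L0 (lat (x,y)) → c • x ∈ R2 → c ∈ ℤ` (Triv, hp with f = C c: `IsZ (C c)` so c is an integer), and `(1,0) ∈ L0` (const_L0): primitive; uni_compl: an
element `(w1, 1) ∈ L0 (lat (x,y))`: `z ∈ lat (x,y)`, Pt, `z.2.coeff 0 = 1`. `z.2` is integral: `z.1 • x + z.2 • y = w ∈ R2`, `wd x w = z.2 * T m` and wd_isZ.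
Same for (x,y'): `z'`, with `z'.1 • x + z'.2 • y' = (z'.1 + f z'.2) • x + z'.2 • y ∈ R2`. Then
`z.2 • w' - z'.2 • w = (z.2 z'.1 + f z.2 z'.2 - z'.2 z.1) • x ∈ R2`, so (hp) `f * (z.2 * z'.2) + (polynomial in T)` is integral: neg_part with
`g = z.2 * z'.2` (integral, Pt, constant coefficient 1): the coefficients of `f` in negative degrees are integral. The same with L1, Ps, pos_part.
`r` = f minus its constant coefficient, `c` = the constant coefficient.
-/

namespace Pool.Agent.TAM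

open LaurentPolynomial

private lemma cm_zero {a b : RQ} {n : ℤ} (h : ∀ m, a.coeff m = 0 ∨ b.coeff (-m + n) = 0) :
    (a * b).coeff n = 0 := by
  rw [AddMonoidAlgebra.coeff_mul_apply_left, Finsupp.sum]
  refine Finset.sum_eq_zero fun m _ => ?_
  rcases h m with h1 | h1
  · rw [h1, zero_mul]
  · rw [h1, mul_zero]

private lemma cm_one {a b : RQ} (h : ∀ m, m ≠ 0 → a.coeff m = 0 ∨ b.coeff (-m + 0) = 0) :
    (a * b).coeff 0 = a.coeff 0 * b.coeff 0 := by
  rw [AddMonoidAlgebra.coeff_mul_apply_left, Finsupp.sum]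
  rw [Finset.sum_eq_single (0 : ℤ)]
  · rw [neg_zero, zero_add]
  · intro m _ hm
    rcases h m hm with h1 | h1
    · rw [h1, zero_mul]
    · rw [h1, mul_zero]
  · intro h0
    rw [Finsupp.notMem_support_iff.1 h0, zero_mul]

private lemma pt_mul {a b : RQ} (ha : Pt a) (hb : Pt b) : Pt (a * b) := by
  intro n hn
  refine cm_zero fun m => ?_
  rcases lt_or_ge m 0 with h | h
  · exact Or.inl (ha m h)
  · exact Or.inr (hb _ (by omega))

private lemma ps_mul {a b : RQ} (ha : Ps a) (hb : Ps b) : Ps (a * b) := by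
  intro n hn
  refine cm_zero fun m => ?_
  rcases lt_or_ge 0 m with h | h
  · exact Or.inl (ha m h)
  · exact Or.inr (hb _ (by omega))

private lemma pt_one {a b : RQ} (ha : Pt a) (hb : Pt b) :
    (a * b).coeff 0 = a.coeff 0 * b.coeff 0 := by
  refine cm_one fun m hm => ?_
  rcases lt_or_ge m 0 with h | h
  · exact Or.inl (ha m h)
  · exact Or.inr (hb _ (by omega))

private lemma ps_one {a b : RQ} (ha : Ps a) (hb : Ps b) :
    (a * b).coeff 0 = a.coeff 0 * b.coeff 0 := by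
  refine cm_one fun m hm => ?_
  rcases lt_or_ge 0 m with h | h
  · exact Or.inl (ha m h)
  · exact Or.inr (hb _ (by omega))

private lemma isZ_C {c : ℚ} (h : IsZ (C c : RQ)) : ∃ k : ℤ, c = k := by
  obtain ⟨k, hk⟩ := h 0
  rw [LaurentPolynomial.C_apply, if_pos rfl] at hk
  exact ⟨k, hk⟩

private lemma lev_gen {x y : W} (hx : x ∈ R2) (hp : ∀ f : RQ, f • x ∈ R2 → IsZ f)
    (ht : ∀ c : ℚ, ((c, 0) : ℚ × ℚ) ∈ L0 (lat (x, y)) ∨ ((c, 0) : ℚ × ℚ) ∈ L1 (lat (x, y)) →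
      c • x ∈ R2) {G : AddSubgroup (ℚ × ℚ)} (hU : Uni G)
    (hG : G = L0 (lat (x, y)) ∨ G = L1 (lat (x, y))) : ∃ w ∈ G, w.2 = 1 := by
  have h1 : ((1 : ℚ), (0 : ℚ)) ∈ G := by
    have hv : vec (x, y) ((1 : ℚ), (0 : ℚ)) ∈ R2 := by
      show (1 : ℚ) • x + (0 : ℚ) • y ∈ R2
      rw [one_smul, zero_smul, add_zero]
      exact hx
    rcases hG with h | h
    · rw [h]; exact const_L0 hv
    · rw [h]; exact const_L1 hv
  obtain ⟨w, hw, hd⟩ := uni_compl hU h1 (fun c hc => by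
    have e : c • ((1 : ℚ), (0 : ℚ)) = (c, 0) := by
      refine Prod.ext ?_ ?_
      · show c * 1 = c
        ring
      · show c * 0 = 0
        ring
    rw [e] at hc
    have h2 : c • x ∈ R2 := by
      refine ht c ?_
      rcases hG with h | h
      · rw [h] at hc; exact Or.inl hc
      · rw [h] at hc; exact Or.inr hc
    rw [rat_smul_eq] at h2
    exact isZ_C (hp _ h2))
  refine ⟨w, hw, ?_⟩
  simpa [dt] using hd

private lemma snd_isZ {x y : W} (hx : x ∈ R2) {m : ℤ} (hm : wd x y = T m) {z : W}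
    (hz : z ∈ lat (x, y)) : IsZ z.2 := by
  rw [mem_lat] at hz
  have h1 := wd_isZ hx hz
  have h2 : wd x (z.1 • (x, y).1 + z.2 • (x, y).2) = z.2 * T m := by
    show wd x (z.1 • x + z.2 • y) = _
    rw [wd_add_right, wd_smul_right, wd_smul_right, wd_self, mul_zero, zero_add, hm]
  rw [h2] at h1
  have h3 := (isZ_T (-m)).mul h1
  have h4 : (T (-m) : RQ) * (z.2 * T m) = z.2 := by
    rw [mul_comm z.2, ← mul_assoc, ← T_add, neg_add_cancel, T_zero, one_mul]
  rwa [h4] at h3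

private lemma comb {x y y' : W} (hp : ∀ f : RQ, f • x ∈ R2 → IsZ f) {f : RQ}
    (hf : y' = y + f • x) {z z' : W} (hz : z ∈ lat (x, y)) (hz' : z' ∈ lat (x, y'))
    (h2 : IsZ z.2) (h2' : IsZ z'.2) : IsZ (z.2 * z'.1 + f * (z.2 * z'.2) - z'.2 * z.1) := by
  rw [mem_lat] at hz hz'
  apply hp
  have h := R2.sub_mem (R2_smul h2 hz') (R2_smul h2' hz)
  convert h using 1
  show _ = z.2 • (z'.1 • x + z'.2 • y') - z'.2 • (z.1 • x + z.2 • y)
  rw [hf]
  module

theorem h2a {x y y' : W} (hx : x ∈ R2) (hp : ∀ f : RQ, f • x ∈ R2 → IsZ f) (hF : IsFr (x, y))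
    (hw : wd x y' = wd x y) (ht : Triv (x, y)) (ht' : Triv (x, y')) :
    ∃ r : RQ, IsZ r ∧ ∃ c : ℚ, y' = y + r • x + c • x := by
  obtain ⟨m, hm⟩ := hF
  have hm' : wd x y = T m := hm
  have hF' : IsFr (x, y) := ⟨m, hm⟩
  have hm'' : wd x y' = T m := by rw [hw, hm']
  have hF'' : IsFr (x, y') := ⟨m, hm''⟩
  obtain ⟨f, hf⟩ : ∃ f : RQ, y' = y + f • x := by
    refine ⟨T (-m) * wd (y' - y) y, ?_⟩
    have h1 := frame_coord (F := (x, y)) hm (y' - y)
    have h2 : wd x (y' - y) = 0 := by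
      have h3 : wd x (y' - y) = wd x y' - wd x y := by
        simp only [wd, Prod.fst_sub, Prod.snd_sub]; ring
      rw [h3, hw, sub_self]
    have h4 : y' - y = (T (-m) * wd (y' - y) y) • x + (T (-m) * wd x (y' - y)) • y := h1
    rw [h2, mul_zero, zero_smul, add_zero] at h4
    rw [← h4]
    abel
  have g1 := gd_frame hF'
  have g2 := gd_frame hF''
  have hneg : ∀ n < 0, ∃ k : ℤ, f.coeff n = k := by
    obtain ⟨w, hw1, hw2⟩ := lev_gen hx hp (fun c hc => ht c hc) g1.u0 (Or.inl rfl)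
    obtain ⟨w', hw1', hw2'⟩ := lev_gen hx hp (fun c hc => ht' c hc) g2.u0 (Or.inl rfl)
    rw [mem_L0] at hw1 hw1'
    obtain ⟨z, hz, a1, a2, a3, a4⟩ := hw1
    obtain ⟨z', hz', a1', a2', a3', a4'⟩ := hw1'
    have i1 := snd_isZ hx hm' hz
    have i2 := snd_isZ hx hm'' hz'
    have h3 := comb hp hf hz hz' i1 i2
    refine neg_part (g := z.2 * z'.2) (i1.mul i2) (pt_mul a2 a2') ?_ fun n hn => ?_
    · rw [pt_one a2 a2', a4, a4', hw2, hw2', one_mul]
    · obtain ⟨k, hk⟩ := h3 n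
      refine ⟨k, ?_⟩
      rw [← hk]
      show _ = (z.2 * z'.1).coeff n + (f * (z.2 * z'.2)).coeff n - (z'.2 * z.1).coeff n
      rw [pt_mul a2 a1' n hn, pt_mul a2' a1 n hn, zero_add, sub_zero]
  have hpos : ∀ n > 0, ∃ k : ℤ, f.coeff n = k := by
    obtain ⟨w, hw1, hw2⟩ := lev_gen hx hp (fun c hc => ht c hc) g1.u1 (Or.inr rfl)
    obtain ⟨w', hw1', hw2'⟩ := lev_gen hx hp (fun c hc => ht' c hc) g2.u1 (Or.inr rfl)
    rw [mem_L1] at hw1 hw1'
    obtain ⟨z, hz, a1, a2, a3, a4⟩ := hw1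
    obtain ⟨z', hz', a1', a2', a3', a4'⟩ := hw1'
    have i1 := snd_isZ hx hm' hz
    have i2 := snd_isZ hx hm'' hz'
    have h3 := comb hp hf hz hz' i1 i2
    refine pos_part (g := z.2 * z'.2) (i1.mul i2) (ps_mul a2 a2') ?_ fun n hn => ?_
    · rw [ps_one a2 a2', a4, a4', hw2, hw2', one_mul]
    · obtain ⟨k, hk⟩ := h3 n
      refine ⟨k, ?_⟩
      rw [← hk]
      show _ = (z.2 * z'.1).coeff n + (f * (z.2 * z'.2)).coeff n - (z'.2 * z.1).coeff n
      rw [ps_mul a2 a1' n hn, ps_mul a2' a1 n hn, zero_add, sub_zero]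
  refine ⟨f - C (f.coeff 0), fun n => ?_, f.coeff 0, ?_⟩
  · show ∃ k : ℤ, f.coeff n - (C (f.coeff 0) : RQ).coeff n = k
    rw [LaurentPolynomial.C_apply]
    rcases lt_trichotomy n 0 with h | h | h
    · obtain ⟨k, hk⟩ := hneg n h
      exact ⟨k, by rw [if_neg (ne_of_lt h), sub_zero, hk]⟩
    · subst h
      exact ⟨0, by rw [if_pos rfl, sub_self, Int.cast_zero]⟩
    · obtain ⟨k, hk⟩ := hpos n h
      exact ⟨k, by rw [if_neg (ne_of_gt h), sub_zero, hk]⟩
  · rw [rat_smul_eq, hf, add_assoc, ← add_smul, sub_add_cancel]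

end Pool.Agent.TAM
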