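import Mathlib
import Pool.Agent.TAM.CCl
import Pool.Agent.TAM.GdAll

/-!
PROJECT TAM, module LMove: left and right moves along the line of an integral vector.
`P0 F m`: `{c | (c,0) ∈ L0 (lat F)} = ℤ (1/m)`; `P1 F n`: `{c | (c,0) ∈ L1 (lat F)} = ℤ (1/n)`.
PLAN. exists_P0: uni_line for `L0` and `v = (1,0)`: `ℤ a`, `a > 0`; `1 • F.1 ∈ R2` gives `(1,0) ∈ L0` (const_L0), so `1 = k a`, `m = k`. Same for P1.
left_move: `F = (x, y)`. `v = (1/n, 0) ∈ L1` is primitive (P1), uni_compl: `w = (w1, w2) ∈ L1` with `(1/n) w2 = 1`, so `w2 = n`. Let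
`G = bas 1 (w1/n) 0 1 F = (x, y + (w1/n) x)`. Then (mem_L1_bas) `(0, c) ∈ L1 (lat G) ↔ (c w1/n, c) ∈ L1 (lat F) ↔ (c/n) • w ∈ L1 ↔ c ∈ ℤ n` (w is primitive: uni_prim).
`(c, 0) ∈ L0 (lat G) ↔ (c, 0) ∈ L0 (lat F)` ; so a = 1/m, b = n in shf_all: `NF (shf G) = NF F * (1/m) * n`, `(c,0) ∈ L1 (lat (shf G)) ↔ c ∈ ℤ (1/n)`. `y' = T • (y + (w1/n) x)`.
CC: CC_shf, CC_bas. Cn: base then shift (NF_bas). wd: wd x y' = T 1 * wd x y.
right_move: `v = (1/m, 0) ∈ L0` primitive, `w = (w1, m) ∈ L0`. `G = bas .. F = (y1, -x)` with `y1 = y + (w1/m) x` (`bas (w1/m) (-1) 1 0 F`: a d - b c = 1).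
`(c, 0) ∈ L0 (lat G) ↔ (c w1/m, c) ∈ L0 (lat F) ↔ c ∈ ℤ m`; `(0, c) ∈ L1 (lat G) ↔ (-c, 0) ∈ L1 (lat F) ↔ c ∈ ℤ (1/n)`: shf_all with a = m, b = 1/n:
`NF (shf G) = NF F * m * (1/n)`; `shf G = (y1, -T x)`; `bas 0 1 (-1) 0 (shf G) = (T x, y1) = hm (x, T⁻¹ y1)`: `y' = T(-1) • y1`.
 `(0,c) ∈ L0 (lat (shf G)) ↔ c ∈ ℤ (1/m)` gives P0 (x,y') m;  the last clause of shf_all gives the L1 inclusion. Transport by mem_L0_bas, lat_hm.
-/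

namespace Pool.Agent.TAM

open LaurentPolynomial

/-- `{c | (c, 0) ∈ L0} = ℤ (1/m)`. -/
def P0 (F : W × W) (m : ℕ) : Prop :=
  0 < m ∧ ∀ c : ℚ, (c, 0) ∈ L0 (lat F) ↔ ∃ k : ℤ, c = k * (m : ℚ)⁻¹

/-- `{c | (c, 0) ∈ L1} = ℤ (1/n)`. -/
def P1 (F : W × W) (n : ℕ) : Prop :=
  0 < n ∧ ∀ c : ℚ, (c, 0) ∈ L1 (lat F) ↔ ∃ k : ℤ, c = k * (n : ℚ)⁻¹

private theorem line {G : AddSubgroup (ℚ × ℚ)} (hG : Uni G) (h1 : ((1 : ℚ), (0 : ℚ)) ∈ G) :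
    ∃ m : ℕ, 0 < m ∧ ∀ c : ℚ, (c, 0) ∈ G ↔ ∃ k : ℤ, c = k * (m : ℚ)⁻¹ := by
  obtain ⟨a, ha, h⟩ := uni_line hG (v := ((1 : ℚ), (0 : ℚ))) (by
    intro h0
    have h1 := congrArg Prod.fst h0
    exact one_ne_zero h1)
  have hsm : ∀ c : ℚ, c • ((1 : ℚ), (0 : ℚ)) = (c, 0) := by
    intro c
    refine Prod.ext ?_ ?_
    · show c * 1 = c
      ring
    · show c * 0 = 0
      ring
  obtain ⟨k, hk⟩ := (h 1).1 (by rw [hsm]; exact h1)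
  have hk0 : 0 < (k : ℚ) := by
    by_contra hcon
    have h2 : (k : ℚ) * a ≤ 0 := mul_nonpos_of_nonpos_of_nonneg (not_lt.1 hcon) ha.le
    rw [← hk] at h2
    linarith
  have hk1 : 0 < k := by exact_mod_cast hk0
  obtain ⟨m, hm⟩ : ∃ m : ℕ, (m : ℤ) = k := ⟨k.toNat, Int.toNat_of_nonneg hk1.le⟩
  have hmq : (m : ℚ) = k := by exact_mod_cast hm
  have ham : a = (m : ℚ)⁻¹ := by
    rw [hmq]
    exact eq_inv_of_mul_eq_one_right hk.symm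
  refine ⟨m, by omega, fun c => ?_⟩
  rw [← hsm, h c, ham]

private theorem vec10 (F : W × W) : vec F (1, 0) = F.1 := by
  show (1 : ℚ) • F.1 + (0 : ℚ) • F.2 = F.1
  rw [one_smul, zero_smul, add_zero]

theorem exists_P0 {F : W × W} (hF : IsFr F) (hx : F.1 ∈ R2) : ∃ m, P0 F m :=
  line (gd_frame hF).u0 (const_L0 (by rw [vec10]; exact hx))

theorem exists_P1 {F : W × W} (hF : IsFr F) (hx : F.1 ∈ R2) : ∃ n, P1 F n :=
  line (gd_frame hF).u1 (const_L1 (by rw [vec10]; exact hx))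

/-- the second basis vector -/
private theorem second {G : AddSubgroup (ℚ × ℚ)} (hG : Uni G) {n : ℕ} (hn : 0 < n)
    (h : ∀ c : ℚ, (c, 0) ∈ G ↔ ∃ k : ℤ, c = k * (n : ℚ)⁻¹) :
    ∃ b : ℚ, ∀ c : ℚ, (b * c, c) ∈ G ↔ ∃ k : ℤ, c = k * (n : ℚ) := by
  have hn0 : (n : ℚ) ≠ 0 := by exact_mod_cast hn.ne'
  have hv : (((n : ℚ)⁻¹, 0) : ℚ × ℚ) ∈ G := (h _).2 ⟨1, by push_cast; ring⟩
  have hvp : ∀ c : ℚ, c • (((n : ℚ)⁻¹, 0) : ℚ × ℚ) ∈ G → ∃ k : ℤ, c = k := by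
    intro c hc
    have h1 : c • (((n : ℚ)⁻¹, 0) : ℚ × ℚ) = (c * (n : ℚ)⁻¹, 0) := by
      refine Prod.ext rfl ?_
      show c * 0 = 0
      ring
    rw [h1] at hc
    obtain ⟨k, hk⟩ := (h _).1 hc
    exact ⟨k, mul_right_cancel₀ (inv_ne_zero hn0) hk⟩
  obtain ⟨w, hw, hd⟩ := uni_compl hG hv hvp
  have hw2 : w.2 = n := by
    have h1 : (n : ℚ)⁻¹ * w.2 - 0 * w.1 = 1 := hd
    rw [zero_mul, sub_zero] at h1
    have h2 : (n : ℚ) * ((n : ℚ)⁻¹ * w.2) = n * 1 := by rw [h1]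
    rwa [← mul_assoc, mul_inv_cancel₀ hn0, one_mul, mul_one] at h2
  have hwp := (uni_prim hG hv hw hd).2
  refine ⟨w.1 / n, fun c => ?_⟩
  have h1 : ((w.1 / n * c, c) : ℚ × ℚ) = (c / n) • w := by
    refine Prod.ext ?_ ?_
    · show w.1 / n * c = c / n * w.1
      ring
    · show c = c / n * w.2
      rw [hw2, div_mul_cancel₀ _ hn0]
  rw [h1]
  constructor
  · intro h2
    obtain ⟨k, hk⟩ := hwp _ h2
    refine ⟨k, ?_⟩
    rw [← hk, div_mul_cancel₀ _ hn0]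
  · rintro ⟨k, rfl⟩
    have h2 : (k : ℚ) * n / n = k := by
      rw [mul_div_assoc, div_self hn0, mul_one]
    rw [h2]
    have h3 : ((k : ℚ) • w) = k • w := by
      refine Prod.ext ?_ ?_
      · show (k : ℚ) * w.1 = k • w.1
        rw [zsmul_eq_mul]
      · show (k : ℚ) * w.2 = k • w.2
        rw [zsmul_eq_mul]
    rw [h3]
    exact G.zsmul_mem hw k

private theorem ex_neg {c b : ℚ} : (∃ k : ℤ, -c = k * b) ↔ ∃ k : ℤ, c = k * b := by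
  constructor
  · rintro ⟨k, hk⟩
    exact ⟨-k, by push_cast; linarith⟩
  · rintro ⟨k, hk⟩
    exact ⟨-k, by push_cast; rw [hk]; ring⟩

theorem left_move {x y : W} {m n : ℕ} (hF : IsFr (x, y)) (h0 : P0 (x, y) m) (h1 : P1 (x, y) n) :
    ∃ y' : W, IsFr (x, y') ∧ wd x y' = T 1 * wd x y ∧ (NF (x, y') : ℚ) * m = NF (x, y) * n ∧
      P1 (x, y') n ∧ (∀ (i : ℕ) (c : ℚ), CC i (lat (x, y')) c ↔ CC (i + 1) (lat (x, y)) c) ∧
      ∀ D, NF (x, y) < D → NF (x, y') < D → Cn D (x, y) (x, y') := by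
  have hm0 : (m : ℚ) ≠ 0 := by exact_mod_cast h0.1.ne'
  have hn0 : (n : ℚ) ≠ 0 := by exact_mod_cast h1.1.ne'
  have hmp : (0 : ℚ) < m := by exact_mod_cast h0.1
  have hnp : (0 : ℚ) < n := by exact_mod_cast h1.1
  obtain ⟨b, hb⟩ := second (gd_frame hF).u1 h1.1 h1.2
  have hdet : (1 : ℚ) * 1 - b * 0 = 1 := by ring
  obtain ⟨G, hG⟩ : ∃ G, G = bas 1 b 0 1 (x, y) := ⟨_, rfl⟩
  have hGF : IsFr G := by rw [hG]; exact isFr_bas hdet hF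
  have hS1 : ∀ c : ℚ, (0, c) ∈ L1 (lat G) ↔ ∃ k : ℤ, c = k * (n : ℚ) := by
    intro c
    rw [hG, mem_L1_bas hdet, ← hb c]
    have e : ((1 * ((0, c) : ℚ × ℚ).1 + b * ((0, c) : ℚ × ℚ).2,
        0 * ((0, c) : ℚ × ℚ).1 + 1 * ((0, c) : ℚ × ℚ).2) : ℚ × ℚ) = (b * c, c) := by
      refine Prod.ext ?_ ?_
      · show 1 * 0 + b * c = b * c
        ring
      · show 0 * 0 + 1 * c = c
        ring
    rw [e]
  have hS0 : ∀ c : ℚ, (c, 0) ∈ L0 (lat G) ↔ ∃ k : ℤ, c = k * (m : ℚ)⁻¹ := by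
    intro c
    rw [hG, mem_L0_bas hdet, ← h0.2 c]
    have e : ((1 * ((c, 0) : ℚ × ℚ).1 + b * ((c, 0) : ℚ × ℚ).2,
        0 * ((c, 0) : ℚ × ℚ).1 + 1 * ((c, 0) : ℚ × ℚ).2) : ℚ × ℚ) = (c, 0) := by
      refine Prod.ext ?_ ?_
      · show 1 * c + b * 0 = c
        ring
      · show 0 * c + 1 * 0 = (0 : ℚ)
        ring
    rw [e]
  obtain ⟨hN, -, hL1, -, -⟩ := shf_all hGF (inv_pos.2 hmp) hnp hS0 hS1
  have hNG : NF G = NF (x, y) := by rw [hG]; exact NF_bas hdet _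
  have hfst : G.1 = x := by
    rw [hG]
    show (1 : ℚ) • x + (0 : ℚ) • y = x
    rw [one_smul, zero_smul, add_zero]
  have hsnd : G.2 = b • x + y := by
    rw [hG]
    show b • x + (1 : ℚ) • y = b • x + y
    rw [one_smul]
  have hsh : shf G = (x, (T 1 : RQ) • G.2) := by
    show (G.1, (T 1 : RQ) • G.2) = _
    rw [hfst]
  refine ⟨(T 1 : RQ) • G.2, ?_, ?_, ?_, ?_, ?_, ?_⟩
  · rw [← hsh]
    exact isFr_shf hGF
  · rw [wd_smul_right, hsnd, wd_add_right, wd_rat_smul_right, wd_self, mul_zero, zero_add]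
  · rw [← hsh, hN, hNG]
    field_simp
  · rw [← hsh]
    exact ⟨h1.1, hL1⟩
  · intro i c
    rw [← hsh, CC_shf, hG, CC_bas]
  · intro D hD hD'
    rw [← hsh] at hD' ⊢
    have h3 : Cn D (x, y) G := by
      rw [hG]
      exact Cn.base _ _ _ _ _ hdet
    exact h3.trans (Cn.shift G (by rw [hNG]; exact hD) hD')

theorem right_move {x y : W} {m n : ℕ} (hF : IsFr (x, y)) (h0 : P0 (x, y) m) (h1 : P1 (x, y) n) :
    ∃ y' : W, IsFr (x, y') ∧ wd x y' = T (-1) * wd x y ∧ (NF (x, y') : ℚ) * n = NF (x, y) * m ∧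
      P0 (x, y') m ∧ (∀ c : ℚ, (c, 0) ∈ L1 (lat (x, y')) → (c, 0) ∈ L1 (lat (x, y))) ∧
      ∀ D, NF (x, y) < D → NF (x, y') < D → Cn D (x, y) (x, y') := by
  have hm0 : (m : ℚ) ≠ 0 := by exact_mod_cast h0.1.ne'
  have hn0 : (n : ℚ) ≠ 0 := by exact_mod_cast h1.1.ne'
  have hmp : (0 : ℚ) < m := by exact_mod_cast h0.1
  have hnp : (0 : ℚ) < n := by exact_mod_cast h1.1
  obtain ⟨b, hb⟩ := second (gd_frame hF).u0 h0.1 h0.2
  have hdet : b * 0 - (-1) * 1 = (1 : ℚ) := by ring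
  have hdet2 : (0 : ℚ) * 0 - 1 * (-1) = 1 := by ring
  obtain ⟨G, hG⟩ : ∃ G, G = bas b (-1) 1 0 (x, y) := ⟨_, rfl⟩
  have hGF : IsFr G := by rw [hG]; exact isFr_bas hdet hF
  have hS0 : ∀ c : ℚ, (c, 0) ∈ L0 (lat G) ↔ ∃ k : ℤ, c = k * (m : ℚ) := by
    intro c
    rw [hG, mem_L0_bas hdet, ← hb c]
    have e : ((b * ((c, 0) : ℚ × ℚ).1 + (-1) * ((c, 0) : ℚ × ℚ).2,
        1 * ((c, 0) : ℚ × ℚ).1 + 0 * ((c, 0) : ℚ × ℚ).2) : ℚ × ℚ) = (b * c, c) := by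
      refine Prod.ext ?_ ?_
      · show b * c + (-1) * 0 = b * c
        ring
      · show 1 * c + 0 * 0 = c
        ring
    rw [e]
  have hL1G : ∀ c : ℚ, (0, c) ∈ L1 (lat G) ↔ (-c, 0) ∈ L1 (lat (x, y)) := by
    intro c
    rw [hG, mem_L1_bas hdet]
    have e : ((b * ((0, c) : ℚ × ℚ).1 + (-1) * ((0, c) : ℚ × ℚ).2,
        1 * ((0, c) : ℚ × ℚ).1 + 0 * ((0, c) : ℚ × ℚ).2) : ℚ × ℚ) = (-c, 0) := by
      refine Prod.ext ?_ ?_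
      · show b * 0 + (-1) * c = -c
        ring
      · show 1 * 0 + 0 * c = (0 : ℚ)
        ring
    rw [e]
  have hS1 : ∀ c : ℚ, (0, c) ∈ L1 (lat G) ↔ ∃ k : ℤ, c = k * (n : ℚ)⁻¹ := by
    intro c
    rw [hL1G, h1.2, ex_neg]
  obtain ⟨hN, hL0, -, -, hL1⟩ := shf_all hGF hmp (inv_pos.2 hnp) hS0 hS1
  have hNG : NF G = NF (x, y) := by rw [hG]; exact NF_bas hdet _
  have hfst : G.1 = b • x + y := by
    rw [hG]
    show b • x + (1 : ℚ) • y = b • x + y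
    rw [one_smul]
  have hsnd : G.2 = -x := by
    rw [hG]
    show (-1 : ℚ) • x + (0 : ℚ) • y = -x
    rw [zero_smul, add_zero, neg_smul, one_smul]
  have hH : hm (x, (T (-1) : RQ) • G.1) = bas 0 1 (-1) 0 (shf G) := by
    refine Prod.ext ?_ ?_
    · show (T 1 : RQ) • x = (0 : ℚ) • G.1 + (-1 : ℚ) • ((T 1 : RQ) • G.2)
      rw [hsnd, zero_smul, zero_add, smul_neg, neg_smul, one_smul, neg_neg]
    · show (T 1 : RQ) • ((T (-1) : RQ) • G.1) = (1 : ℚ) • G.1 + (0 : ℚ) • ((T 1 : RQ) • G.2)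
      rw [T_smul_T_neg_smul, one_smul, zero_smul, add_zero]
  have hlat : lat (x, (T (-1) : RQ) • G.1) = lat (bas 0 1 (-1) 0 (shf G)) := by
    rw [← hH, lat_hm]
  have hNH : NF (x, (T (-1) : RQ) • G.1) = NF (shf G) := by
    show NN (lat _) = _
    rw [hlat]
    exact NF_bas hdet2 _
  have hbs : ∀ c : ℚ, ((0 * ((c, 0) : ℚ × ℚ).1 + 1 * ((c, 0) : ℚ × ℚ).2,
      (-1) * ((c, 0) : ℚ × ℚ).1 + 0 * ((c, 0) : ℚ × ℚ).2) : ℚ × ℚ) = (0, -c) := by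
    intro c
    refine Prod.ext ?_ ?_
    · show 0 * c + 1 * 0 = (0 : ℚ)
      ring
    · show (-1) * c + 0 * 0 = -c
      ring
  refine ⟨(T (-1) : RQ) • G.1, ?_, ?_, ?_, ⟨h0.1, fun c => ?_⟩, ?_, ?_⟩
  · apply isFr_of_hm
    rw [hH]
    exact isFr_bas hdet2 (isFr_shf hGF)
  · rw [wd_smul_right, hfst, wd_add_right, wd_rat_smul_right, wd_self, mul_zero, zero_add]
  · rw [hNH, hN, hNG]
    field_simp
  · rw [hlat, mem_L0_bas hdet2, hbs, hL0, ex_neg]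
  · intro c hc
    rw [hlat, mem_L1_bas hdet2, hbs] at hc
    have h3 := (hL1G (-c)).1 (hL1 _ hc)
    rwa [neg_neg] at h3
  · intro D hD hD'
    have h3 : Cn D (x, y) G := by
      rw [hG]
      exact Cn.base _ _ _ _ _ hdet
    have h4 : Cn D G (shf G) := Cn.shift G (by rw [hNG]; exact hD) (by rw [← hNH]; exact hD')
    have h5 : Cn D (shf G) (bas 0 1 (-1) 0 (shf G)) := Cn.base _ _ _ _ _ hdet2
    have h6 : Cn D (x, (T (-1) : RQ) • G.1) (bas 0 1 (-1) 0 (shf G)) := by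
      rw [← hH]
      exact Cn.hom _
    exact ((h3.trans h4).trans h5).trans h6.symm

end Pool.Agent.TAM
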