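import Mathlib
import Pool.Agent.TAM.LMove

/-!
PROJECT TAM, module H2b: moves of trivial frames, integral transvections.
PLAN. For `x ∈ R2` primitive and Triv (x,y): P0 (x,y) 1 and P1 (x,y) 1 (`(c,0) ∈ L0 → c • x ∈ R2 → IsZ (C c)` (rat_smul_eq), c integer; conversely const_L0).
triv_left: left_move with m = n = 1: NF' = NF; P1 (x,y') 1; `CC 0 (lat (x,y')) c → CC 1 (lat (x,y)) c → CC 0 (lat (x,y)) c` so c ∈ ℤ: Triv.
triv_right: right_move with m = n = 1, P0 (x,y') 1 and the inclusion of the L1 parts.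
lat_tr: `z ∈ lat (x, y + r • x)` iff `(z.1 + r z.2, z.2) ∈ lat (x,y)`; `z.2` is integral for z in either lattice (`wd x w = z.2 T m`, wd_isZ), so `(r z.2) • x ∈ R2`.
tr_conn: first `r = C k * T n`, induction on `n.natAbs` for all y: `n = 0`: bas 1 k 0 1. `n > 0`: triv_right gives `y'` at level m - 1 with `wd x y' = T(-1) wd x y`; by induction
`Cn D (x,y') (x, y' + k T^(n-1) x)`; shf of this: `(x, T y' + k T^n x)`; `wd x (T y') = wd x y` and `T y'`, `y` differ by a rational multiple... careful: use the explicit form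
instead: from right_move one only knows `y'`; but `(x, T y')` and `(x, y)` are both Triv? To avoid this the lemma triv_right' below states that `T y' = y + c x`, c rational.
 (right_move is constructed with `y' = T(-1) • (y + c x)`, left_move with `y' = T • (y + c x)`: triv_left', triv_right' are proved directly from shf_all in the same way: copy the
 argument of LMove.) Then `(x, y) ~ (x, y')`, `y' = T(-1) (y + c x)`, `(x, y') ~ (x, y' + k T^(n-1) x)` by induction, shf gives `(x, y + c x + k T^n x)`: indices: lat_tr; base change gives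
 `(x, y + k T^n x)`.  `n < 0`: the same with triv_left'.
General r integral: induction over sums of monomials (isZ_iff and LaurentPolynomial.induction_on' over ℤ), lat_tr keeps Triv, NF.
-/

namespace Pool.Agent.TAM

open LaurentPolynomial

/-- the second basis vector -/
private theorem second {G : AddSubgroup (ℚ × ℚ)} (hG : Uni G) {n : ℕ} (hn : 0 < n)
    (h : ∀ c : ℚ, (c, 0) ∈ G ↔ ∃ k : ℤ, c = k * (n : ℚ)⁻¹) :
    ∃ b : ℚ, ∀ c : ℚ, (b * c, c) ∈ G ↔ ∃ k : ℤ, c = k * (n : ℚ) := by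
  have hn0 : (n : ℚ) ≠ 0 := by exact_mod_cast hn.ne'
  have hv : (((n : ℚ)⁻¹, 0) : ℚ × ℚ) ∈ G := (h _).2 ⟨1, by push_cast; ring⟩
  have hvp : ∀ c : ℚ, c • (((n : ℚ)⁻¹, 0) : ℚ × ℚ) ∈ G → ∃ k : ℤ, c = k := by
    intro c hc
    have h1 : c • (((n : ℚ)⁻¹, 0) : ℚ × ℚ) = (c * (n : ℚ)⁻¹, 0) := by
      refine Prod.ext rfl ?_
      show c * 0 = 0
      ring
    rw [h1] at hc
    obtain ⟨k, hk⟩ := (h _).1 hc
    exact ⟨k, mul_right_cancel₀ (inv_ne_zero hn0) hk⟩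
  obtain ⟨w, hw, hd⟩ := uni_compl hG hv hvp
  have hw2 : w.2 = n := by
    have h1 : (n : ℚ)⁻¹ * w.2 - 0 * w.1 = 1 := hd
    rw [zero_mul, sub_zero] at h1
    have h2 : (n : ℚ) * ((n : ℚ)⁻¹ * w.2) = n * 1 := by rw [h1]
    rwa [← mul_assoc, mul_inv_cancel₀ hn0, one_mul, mul_one] at h2
  have hwp := (uni_prim hG hv hw hd).2
  refine ⟨w.1 / n, fun c => ?_⟩
  have h1 : ((w.1 / n * c, c) : ℚ × ℚ) = (c / n) • w := by
    refine Prod.ext ?_ ?_
    · show w.1 / n * c = c / n * w.1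
      ring
    · show c = c / n * w.2
      rw [hw2, div_mul_cancel₀ _ hn0]
  rw [h1]
  constructor
  · intro h2
    obtain ⟨k, hk⟩ := hwp _ h2
    refine ⟨k, ?_⟩
    rw [← hk, div_mul_cancel₀ _ hn0]
  · rintro ⟨k, rfl⟩
    have h2 : (k : ℚ) * n / n = k := by
      rw [mul_div_assoc, div_self hn0, mul_one]
    rw [h2]
    have h3 : ((k : ℚ) • w) = k • w := by
      refine Prod.ext ?_ ?_
      · show (k : ℚ) * w.1 = k • w.1
        rw [zsmul_eq_mul]
      · show (k : ℚ) * w.2 = k • w.2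
        rw [zsmul_eq_mul]
    rw [h3]
    exact G.zsmul_mem hw k

private theorem ex_neg {c b : ℚ} : (∃ k : ℤ, -c = k * b) ↔ ∃ k : ℤ, c = k * b := by
  constructor
  · rintro ⟨k, hk⟩
    exact ⟨-k, by push_cast; linarith⟩
  · rintro ⟨k, hk⟩
    exact ⟨-k, by push_cast; rw [hk]; ring⟩

private theorem left_exp {x y : W} {m n : ℕ} (hF : IsFr (x, y)) (h0 : P0 (x, y) m)
    (h1 : P1 (x, y) n) :
    ∃ (b : ℚ) (y' : W), y' = (T 1 : RQ) • (y + b • x) ∧ (NF (x, y') : ℚ) * m = NF (x, y) * n ∧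
      P1 (x, y') n ∧ (∀ (i : ℕ) (c : ℚ), CC i (lat (x, y')) c ↔ CC (i + 1) (lat (x, y)) c) ∧
      ∀ D, NF (x, y) < D → NF (x, y') < D → Cn D (x, y) (x, y') := by
  have hm0 : (m : ℚ) ≠ 0 := by exact_mod_cast h0.1.ne'
  have hn0 : (n : ℚ) ≠ 0 := by exact_mod_cast h1.1.ne'
  have hmp : (0 : ℚ) < m := by exact_mod_cast h0.1
  have hnp : (0 : ℚ) < n := by exact_mod_cast h1.1
  obtain ⟨b, hb⟩ := second (gd_frame hF).u1 h1.1 h1.2
  have hdet : (1 : ℚ) * 1 - b * 0 = 1 := by ring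
  obtain ⟨G, hG⟩ : ∃ G, G = bas 1 b 0 1 (x, y) := ⟨_, rfl⟩
  have hGF : IsFr G := by rw [hG]; exact isFr_bas hdet hF
  have hS1 : ∀ c : ℚ, (0, c) ∈ L1 (lat G) ↔ ∃ k : ℤ, c = k * (n : ℚ) := by
    intro c
    rw [hG, mem_L1_bas hdet, ← hb c]
    have e : ((1 * ((0, c) : ℚ × ℚ).1 + b * ((0, c) : ℚ × ℚ).2,
        0 * ((0, c) : ℚ × ℚ).1 + 1 * ((0, c) : ℚ × ℚ).2) : ℚ × ℚ) = (b * c, c) := by
      refine Prod.ext ?_ ?_
      · show 1 * 0 + b * c = b * c
        ring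
      · show 0 * 0 + 1 * c = c
        ring
    rw [e]
  have hS0 : ∀ c : ℚ, (c, 0) ∈ L0 (lat G) ↔ ∃ k : ℤ, c = k * (m : ℚ)⁻¹ := by
    intro c
    rw [hG, mem_L0_bas hdet, ← h0.2 c]
    have e : ((1 * ((c, 0) : ℚ × ℚ).1 + b * ((c, 0) : ℚ × ℚ).2,
        0 * ((c, 0) : ℚ × ℚ).1 + 1 * ((c, 0) : ℚ × ℚ).2) : ℚ × ℚ) = (c, 0) := by
      refine Prod.ext ?_ ?_
      · show 1 * c + b * 0 = c
        ring
      · show 0 * c + 1 * 0 = (0 : ℚ)
        ring
    rw [e]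
  obtain ⟨hN, -, hL1, -, -⟩ := shf_all hGF (inv_pos.2 hmp) hnp hS0 hS1
  have hNG : NF G = NF (x, y) := by rw [hG]; exact NF_bas hdet _
  have hfst : G.1 = x := by
    rw [hG]
    show (1 : ℚ) • x + (0 : ℚ) • y = x
    rw [one_smul, zero_smul, add_zero]
  have hsnd : G.2 = b • x + y := by
    rw [hG]
    show b • x + (1 : ℚ) • y = b • x + y
    rw [one_smul]
  have hsh : shf G = (x, (T 1 : RQ) • G.2) := by
    show (G.1, (T 1 : RQ) • G.2) = _
    rw [hfst]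
  refine ⟨b, (T 1 : RQ) • G.2, by rw [hsnd, add_comm], ?_, ?_, ?_, ?_⟩
  · rw [← hsh, hN, hNG]
    field_simp
  · rw [← hsh]
    exact ⟨h1.1, hL1⟩
  · intro i c
    rw [← hsh, CC_shf, hG, CC_bas]
  · intro D hD hD'
    rw [← hsh] at hD' ⊢
    have h3 : Cn D (x, y) G := by
      rw [hG]
      exact Cn.base _ _ _ _ _ hdet
    exact h3.trans (Cn.shift G (by rw [hNG]; exact hD) hD')

private theorem right_exp {x y : W} {m n : ℕ} (hF : IsFr (x, y)) (h0 : P0 (x, y) m)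
    (h1 : P1 (x, y) n) :
    ∃ (b : ℚ) (y' : W), y' = (T (-1) : RQ) • (y + b • x) ∧
      (NF (x, y') : ℚ) * n = NF (x, y) * m ∧
      P0 (x, y') m ∧ (∀ c : ℚ, (c, 0) ∈ L1 (lat (x, y')) → (c, 0) ∈ L1 (lat (x, y))) ∧
      ∀ D, NF (x, y) < D → NF (x, y') < D → Cn D (x, y) (x, y') := by
  have hm0 : (m : ℚ) ≠ 0 := by exact_mod_cast h0.1.ne'
  have hn0 : (n : ℚ) ≠ 0 := by exact_mod_cast h1.1.ne'
  have hmp : (0 : ℚ) < m := by exact_mod_cast h0.1
  have hnp : (0 : ℚ) < n := by exact_mod_cast h1.1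
  obtain ⟨b, hb⟩ := second (gd_frame hF).u0 h0.1 h0.2
  have hdet : b * 0 - (-1) * 1 = (1 : ℚ) := by ring
  have hdet2 : (0 : ℚ) * 0 - 1 * (-1) = 1 := by ring
  obtain ⟨G, hG⟩ : ∃ G, G = bas b (-1) 1 0 (x, y) := ⟨_, rfl⟩
  have hGF : IsFr G := by rw [hG]; exact isFr_bas hdet hF
  have hS0 : ∀ c : ℚ, (c, 0) ∈ L0 (lat G) ↔ ∃ k : ℤ, c = k * (m : ℚ) := by
    intro c
    rw [hG, mem_L0_bas hdet, ← hb c]
    have e : ((b * ((c, 0) : ℚ × ℚ).1 + (-1) * ((c, 0) : ℚ × ℚ).2,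
        1 * ((c, 0) : ℚ × ℚ).1 + 0 * ((c, 0) : ℚ × ℚ).2) : ℚ × ℚ) = (b * c, c) := by
      refine Prod.ext ?_ ?_
      · show b * c + (-1) * 0 = b * c
        ring
      · show 1 * c + 0 * 0 = c
        ring
    rw [e]
  have hL1G : ∀ c : ℚ, (0, c) ∈ L1 (lat G) ↔ (-c, 0) ∈ L1 (lat (x, y)) := by
    intro c
    rw [hG, mem_L1_bas hdet]
    have e : ((b * ((0, c) : ℚ × ℚ).1 + (-1) * ((0, c) : ℚ × ℚ).2,
        1 * ((0, c) : ℚ × ℚ).1 + 0 * ((0, c) : ℚ × ℚ).2) : ℚ × ℚ) = (-c, 0) := by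
      refine Prod.ext ?_ ?_
      · show b * 0 + (-1) * c = -c
        ring
      · show 1 * 0 + 0 * c = (0 : ℚ)
        ring
    rw [e]
  have hS1 : ∀ c : ℚ, (0, c) ∈ L1 (lat G) ↔ ∃ k : ℤ, c = k * (n : ℚ)⁻¹ := by
    intro c
    rw [hL1G, h1.2, ex_neg]
  obtain ⟨hN, hL0, -, -, hL1⟩ := shf_all hGF hmp (inv_pos.2 hnp) hS0 hS1
  have hNG : NF G = NF (x, y) := by rw [hG]; exact NF_bas hdet _
  have hfst : G.1 = b • x + y := by
    rw [hG]
    show b • x + (1 : ℚ) • y = b • x + y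
    rw [one_smul]
  have hsnd : G.2 = -x := by
    rw [hG]
    show (-1 : ℚ) • x + (0 : ℚ) • y = -x
    rw [zero_smul, add_zero, neg_smul, one_smul]
  have hH : hm (x, (T (-1) : RQ) • G.1) = bas 0 1 (-1) 0 (shf G) := by
    refine Prod.ext ?_ ?_
    · show (T 1 : RQ) • x = (0 : ℚ) • G.1 + (-1 : ℚ) • ((T 1 : RQ) • G.2)
      rw [hsnd, zero_smul, zero_add, smul_neg, neg_smul, one_smul, neg_neg]
    · show (T 1 : RQ) • ((T (-1) : RQ) • G.1) = (1 : ℚ) • G.1 + (0 : ℚ) • ((T 1 : RQ) • G.2)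
      rw [T_smul_T_neg_smul, one_smul, zero_smul, add_zero]
  have hlat : lat (x, (T (-1) : RQ) • G.1) = lat (bas 0 1 (-1) 0 (shf G)) := by
    rw [← hH, lat_hm]
  have hNH : NF (x, (T (-1) : RQ) • G.1) = NF (shf G) := by
    show NN (lat _) = _
    rw [hlat]
    exact NF_bas hdet2 _
  have hbs : ∀ c : ℚ, ((0 * ((c, 0) : ℚ × ℚ).1 + 1 * ((c, 0) : ℚ × ℚ).2,
      (-1) * ((c, 0) : ℚ × ℚ).1 + 0 * ((c, 0) : ℚ × ℚ).2) : ℚ × ℚ) = (0, -c) := by
    intro c
    refine Prod.ext ?_ ?_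
    · show 0 * c + 1 * 0 = (0 : ℚ)
      ring
    · show (-1) * c + 0 * 0 = -c
      ring
  refine ⟨b, (T (-1) : RQ) • G.1, by rw [hfst, add_comm], ?_, ⟨h0.1, fun c => ?_⟩, ?_, ?_⟩
  · rw [hNH, hN, hNG]
    field_simp
  · rw [hlat, mem_L0_bas hdet2, hbs, hL0, ex_neg]
  · intro c hc
    rw [hlat, mem_L1_bas hdet2, hbs] at hc
    have h3 := (hL1G (-c)).1 (hL1 _ hc)
    rwa [neg_neg] at h3
  · intro D hD hD'
    have h3 : Cn D (x, y) G := by
      rw [hG]
      exact Cn.base _ _ _ _ _ hdet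
    have h4 : Cn D G (shf G) := Cn.shift G (by rw [hNG]; exact hD) (by rw [← hNH]; exact hD')
    have h5 : Cn D (shf G) (bas 0 1 (-1) 0 (shf G)) := Cn.base _ _ _ _ _ hdet2
    have h6 : Cn D (x, (T (-1) : RQ) • G.1) (bas 0 1 (-1) 0 (shf G)) := by
      rw [← hH]
      exact Cn.hom _
    exact ((h3.trans h4).trans h5).trans h6.symm

private theorem int_of_mem {x : W} (hp : ∀ f : RQ, f • x ∈ R2 → IsZ f) {c : ℚ}
    (hc : c • x ∈ R2) : ∃ k : ℤ, c = k := by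
  rw [rat_smul_eq] at hc
  obtain ⟨k, hk⟩ := hp _ hc 0
  have h : (C c : RQ).coeff 0 = c := by simp
  rw [h] at hk
  exact ⟨k, hk⟩

private theorem vec_c0 (F : W × W) (c : ℚ) : vec F (c, 0) = c • F.1 := by
  show c • F.1 + (0 : ℚ) • F.2 = c • F.1
  rw [zero_smul, add_zero]

private theorem triv_P0 {x y : W} (hx : x ∈ R2) (hp : ∀ f : RQ, f • x ∈ R2 → IsZ f)
    (ht : Triv (x, y)) : P0 (x, y) 1 := by
  refine ⟨one_pos, fun c => ⟨fun h => ?_, ?_⟩⟩
  · obtain ⟨k, hk⟩ := int_of_mem hp (ht c (Or.inl h))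
    exact ⟨k, by rw [hk]; simp⟩
  · rintro ⟨k, rfl⟩
    refine const_L0 ?_
    rw [vec_c0]
    have : (k : ℚ) * ((1 : ℕ) : ℚ)⁻¹ = k := by simp
    rw [this]
    exact R2_int_smul k hx

private theorem triv_P1 {x y : W} (hx : x ∈ R2) (hp : ∀ f : RQ, f • x ∈ R2 → IsZ f)
    (ht : Triv (x, y)) : P1 (x, y) 1 := by
  refine ⟨one_pos, fun c => ⟨fun h => ?_, ?_⟩⟩
  · obtain ⟨k, hk⟩ := int_of_mem hp (ht c (Or.inr h))
    exact ⟨k, by rw [hk]; simp⟩
  · rintro ⟨k, rfl⟩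
    refine const_L1 ?_
    rw [vec_c0]
    have : (k : ℚ) * ((1 : ℕ) : ℚ)⁻¹ = k := by simp
    rw [this]
    exact R2_int_smul k hx

private theorem mem_of_one {x : W} (hx : x ∈ R2) {c : ℚ}
    (h : ∃ k : ℤ, c = k * ((1 : ℕ) : ℚ)⁻¹) : c • x ∈ R2 := by
  obtain ⟨k, rfl⟩ := h
  have : (k : ℚ) * ((1 : ℕ) : ℚ)⁻¹ = k := by simp
  rw [this]
  exact R2_int_smul k hx

theorem triv_left' {x y : W} (hx : x ∈ R2) (hp : ∀ f : RQ, f • x ∈ R2 → IsZ f) (hF : IsFr (x, y))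
    (ht : Triv (x, y)) : ∃ c : ℚ, Triv (x, (T 1 : RQ) • (y + c • x)) ∧
      NF (x, (T 1 : RQ) • (y + c • x)) = NF (x, y) ∧
      ∀ D, NF (x, y) < D → Cn D (x, y) (x, (T 1 : RQ) • (y + c • x)) := by
  obtain ⟨b, y', rfl, hN, h1, hC, hcn⟩ := left_exp hF (triv_P0 hx hp ht) (triv_P1 hx hp ht)
  have hN' : NF (x, (T 1 : RQ) • (y + b • x)) = NF (x, y) := by
    have : NF (x, (T 1 : RQ) • (y + b • x)) * 1 = NF (x, y) * 1 := by exact_mod_cast hN
    rwa [mul_one, mul_one] at this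
  refine ⟨b, ?_, hN', fun D hD => hcn D hD (by rw [hN']; exact hD)⟩
  intro c hc
  rcases hc with hc | hc
  · have e1 := (hC 0 c).1 (CC_zero.2 hc)
    have e2 := CC_zero.1 (CC_anti (Nat.zero_le 1) e1)
    exact ht c (Or.inl e2)
  · exact mem_of_one hx ((h1.2 c).1 hc)

theorem triv_right' {x y : W} (hx : x ∈ R2) (hp : ∀ f : RQ, f • x ∈ R2 → IsZ f) (hF : IsFr (x, y))
    (ht : Triv (x, y)) : ∃ c : ℚ, Triv (x, (T (-1) : RQ) • (y + c • x)) ∧
      NF (x, (T (-1) : RQ) • (y + c • x)) = NF (x, y) ∧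
      ∀ D, NF (x, y) < D → Cn D (x, y) (x, (T (-1) : RQ) • (y + c • x)) := by
  obtain ⟨b, y', rfl, hN, h0, hL, hcn⟩ := right_exp hF (triv_P0 hx hp ht) (triv_P1 hx hp ht)
  have hN' : NF (x, (T (-1) : RQ) • (y + b • x)) = NF (x, y) := by
    have : NF (x, (T (-1) : RQ) • (y + b • x)) * 1 = NF (x, y) * 1 := by exact_mod_cast hN
    rwa [mul_one, mul_one] at this
  refine ⟨b, ?_, hN', fun D hD => hcn D hD (by rw [hN']; exact hD)⟩
  intro c hc
  rcases hc with hc | hc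
  · exact mem_of_one hx ((h0.2 c).1 hc)
  · exact ht c (Or.inr (hL c hc))

private theorem isZ_snd {x y : W} (hx : x ∈ R2) (hF : IsFr (x, y)) {u v : RQ}
    (h : u • x + v • y ∈ R2) : IsZ v := by
  obtain ⟨m, hm⟩ := hF
  have h1 := wd_isZ hx h
  have h2 : wd x (u • x + v • y) = v * T m := by
    rw [wd_add_right, wd_smul_right, wd_smul_right, wd_self, mul_zero, zero_add]
    have : wd x y = T m := hm
    rw [this]
  rw [h2] at h1
  have h3 := h1.mul (isZ_T (-m))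
  rw [mul_assoc, ← T_add, add_neg_cancel, T_zero, mul_one] at h3
  exact h3

private theorem isFr_tr {x y : W} (hF : IsFr (x, y)) (r : RQ) : IsFr (x, y + r • x) := by
  obtain ⟨m, hm⟩ := hF
  refine ⟨m, ?_⟩
  show wd x (y + r • x) = T m
  rw [wd_add_right, wd_smul_right, wd_self, mul_zero, add_zero]
  exact hm

theorem lat_tr {x y : W} (hx : x ∈ R2) (hF : IsFr (x, y)) {r : RQ} (hr : IsZ r) :
    lat (x, y + r • x) = lat (x, y) := by
  ext z
  rw [mem_lat, mem_lat]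
  show z.1 • x + z.2 • (y + r • x) ∈ R2 ↔ z.1 • x + z.2 • y ∈ R2
  have e : z.1 • x + z.2 • (y + r • x) = (z.1 • x + z.2 • y) + (z.2 * r) • x := by
    rw [smul_add, smul_smul, ← add_assoc]
  constructor
  · intro h
    have h1 : IsZ z.2 := isZ_snd hx (isFr_tr hF r) h
    rw [e] at h
    have h2 := R2.sub_mem h (R2_smul (h1.mul hr) hx)
    rwa [add_sub_cancel_right] at h2
  · intro h
    have h1 : IsZ z.2 := isZ_snd hx hF h
    rw [e]
    exact R2.add_mem h (R2_smul (h1.mul hr) hx)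

private theorem cn_shear (D : ℕ) (x y : W) (q : ℚ) : Cn D (x, y) (x, y + q • x) := by
  have h : bas 1 q 0 1 (x, y) = (x, y + q • x) := by
    refine Prod.ext ?_ ?_
    · show (1 : ℚ) • x + (0 : ℚ) • y = x
      rw [one_smul, zero_smul, add_zero]
    · show q • x + (1 : ℚ) • y = y + q • x
      rw [one_smul, add_comm]
  rw [← h]
  exact Cn.base _ 1 q 0 1 (by ring)

private theorem NF_shear (x y : W) (q : ℚ) : NF (x, y + q • x) = NF (x, y) := by
  have h : bas 1 q 0 1 (x, y) = (x, y + q • x) := by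
    refine Prod.ext ?_ ?_
    · show (1 : ℚ) • x + (0 : ℚ) • y = x
      rw [one_smul, zero_smul, add_zero]
    · show q • x + (1 : ℚ) • y = y + q • x
      rw [one_smul, add_comm]
  rw [← h]
  exact NF_bas (by ring) _

private theorem isFr_shear {x y : W} (hF : IsFr (x, y)) (q : ℚ) : IsFr (x, y + q • x) := by
  rw [rat_smul_eq]
  exact isFr_tr hF _

private theorem NF_tr {x y : W} (hx : x ∈ R2) (hF : IsFr (x, y)) {r : RQ} (hr : IsZ r) :
    NF (x, y + r • x) = NF (x, y) := by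
  show NN (lat _) = NN (lat _)
  rw [lat_tr hx hF hr]

private theorem triv_tr {x y : W} (hx : x ∈ R2) (hF : IsFr (x, y)) {r : RQ} (hr : IsZ r)
    (ht : Triv (x, y)) : Triv (x, y + r • x) := by
  intro c hc
  rw [lat_tr hx hF hr] at hc
  exact ht c hc

/-- Monomials. -/
private theorem tr_mono {x : W} (hx : x ∈ R2) (hp : ∀ f : RQ, f • x ∈ R2 → IsZ f) (k : ℤ)
    {D : ℕ} (j : ℕ) : ∀ y : W, IsFr (x, y) → Triv (x, y) → NF (x, y) < D →
      Cn D (x, y) (x, y + (C (k : ℚ) * T (j : ℤ) : RQ) • x) ∧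
      Cn D (x, y) (x, y + (C (k : ℚ) * T (-(j : ℤ)) : RQ) • x) := by
  have hk : ∀ n : ℤ, IsZ (C (k : ℚ) * T n : RQ) := fun n => (isZ_int k).mul (isZ_T n)
  induction j with
  | zero =>
    intro y hF ht hD
    have h := cn_shear D x y k
    rw [rat_smul_eq] at h
    have e : (C (k : ℚ) * T ((0 : ℕ) : ℤ) : RQ) = C (k : ℚ) := by
      rw [Nat.cast_zero, T_zero, mul_one]
    have e' : (C (k : ℚ) * T (-((0 : ℕ) : ℤ)) : RQ) = C (k : ℚ) := by
      rw [Nat.cast_zero, neg_zero, T_zero, mul_one]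
    rw [e, e']
    exact ⟨h, h⟩
  | succ j ih =>
    intro y hF ht hD
    constructor
    · obtain ⟨c, h1, h2, h3⟩ := triv_right' hx hp hF ht
      set y1 : W := (T (-1) : RQ) • (y + c • x) with hy1
      have hF1 : IsFr (x, y1) := by
        have := isFr_shear hF c
        obtain ⟨m, hm⟩ := this
        refine ⟨-1 + m, ?_⟩
        show wd x ((T (-1) : RQ) • (y + c • x)) = _
        rw [wd_smul_right, T_add]
        have hm' : wd x (y + c • x) = T m := hm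
        rw [hm']
      have hD1 : NF (x, y1) < D := by rw [h2]; exact hD
      have h4 := (ih y1 hF1 h1 hD1).1
      have e1 : shf (x, y1 + (C (k : ℚ) * T (j : ℤ) : RQ) • x) =
          (x, (y + c • x) + (C (k : ℚ) * T ((j + 1 : ℕ) : ℤ) : RQ) • x) := by
        refine Prod.ext rfl ?_
        show (T 1 : RQ) • (y1 + (C (k : ℚ) * T (j : ℤ) : RQ) • x) = _
        rw [smul_add, hy1, T_smul_T_neg_smul, smul_smul]
        congr 2
        rw [mul_left_comm, ← T_add]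
        congr 2
        push_cast
        ring
      have h5 : NF (x, y1 + (C (k : ℚ) * T (j : ℤ) : RQ) • x) < D := by
        rw [NF_tr hx hF1 (hk _)]
        exact hD1
      have h6 : NF (shf (x, y1 + (C (k : ℚ) * T (j : ℤ) : RQ) • x)) < D := by
        rw [e1, NF_tr hx (isFr_shear hF c) (hk _), NF_shear]
        exact hD
      have h7 := Cn.shift _ h5 h6
      rw [e1] at h7
      have h8 := cn_shear D x ((y + c • x) + (C (k : ℚ) * T ((j + 1 : ℕ) : ℤ) : RQ) • x) (-c)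
      have e2 : (y + c • x) + (C (k : ℚ) * T ((j + 1 : ℕ) : ℤ) : RQ) • x + (-c) • x =
          y + (C (k : ℚ) * T ((j + 1 : ℕ) : ℤ) : RQ) • x := by
        rw [neg_smul]
        abel
      rw [e2] at h8
      exact Cn.trans (h3 D hD) (Cn.trans h4 (Cn.trans h7 h8))
    · obtain ⟨c, h1, h2, h3⟩ := triv_left' hx hp hF ht
      set y1 : W := (T 1 : RQ) • (y + c • x) with hy1
      have hF1 : IsFr (x, y1) := by
        have := isFr_shear hF c
        obtain ⟨m, hm⟩ := this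
        refine ⟨1 + m, ?_⟩
        show wd x ((T 1 : RQ) • (y + c • x)) = _
        rw [wd_smul_right, T_add]
        have hm' : wd x (y + c • x) = T m := hm
        rw [hm']
      have hD1 : NF (x, y1) < D := by rw [h2]; exact hD
      have h4 := (ih y1 hF1 h1 hD1).2
      have e1 : shf (x, (y + c • x) + (C (k : ℚ) * T (-((j + 1 : ℕ) : ℤ)) : RQ) • x) =
          (x, y1 + (C (k : ℚ) * T (-(j : ℤ)) : RQ) • x) := by
        refine Prod.ext rfl ?_
        show (T 1 : RQ) • ((y + c • x) + (C (k : ℚ) * T (-((j + 1 : ℕ) : ℤ)) : RQ) • x) = _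
        rw [smul_add, hy1, smul_smul]
        congr 2
        rw [mul_left_comm, ← T_add]
        congr 2
        push_cast
        ring
      have h5 : NF (x, (y + c • x) + (C (k : ℚ) * T (-((j + 1 : ℕ) : ℤ)) : RQ) • x) < D := by
        rw [NF_tr hx (isFr_shear hF c) (hk _), NF_shear]
        exact hD
      have h6 : NF (shf (x, (y + c • x) + (C (k : ℚ) * T (-((j + 1 : ℕ) : ℤ)) : RQ) • x)) < D := by
        rw [e1, NF_tr hx hF1 (hk _)]
        exact hD1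
      have h7 := Cn.shift _ h5 h6
      rw [e1] at h7
      have h8 := cn_shear D x ((y + c • x) + (C (k : ℚ) * T (-((j + 1 : ℕ) : ℤ)) : RQ) • x) (-c)
      have e2 : (y + c • x) + (C (k : ℚ) * T (-((j + 1 : ℕ) : ℤ)) : RQ) • x + (-c) • x =
          y + (C (k : ℚ) * T (-((j + 1 : ℕ) : ℤ)) : RQ) • x := by
        rw [neg_smul]
        abel
      rw [e2] at h8
      exact Cn.trans (h3 D hD) (Cn.trans h4 (Cn.trans (Cn.symm h7) h8))

theorem tr_conn {x y : W} (hx : x ∈ R2) (hp : ∀ f : RQ, f • x ∈ R2 → IsZ f) (hF : IsFr (x, y))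
    (ht : Triv (x, y)) {r : RQ} (hr : IsZ r) {D : ℕ} (hD : NF (x, y) < D) :
    Cn D (x, y) (x, y + r • x) := by
  obtain ⟨g, rfl⟩ := isZ_iff.1 hr
  clear hr
  revert y
  induction g using LaurentPolynomial.induction_on' with
  | add p q h1 h2 =>
    intro y hF ht hD
    have hzp : IsZ (toQ p) := isZ_toQ p
    have e : y + toQ (p + q) • x = (y + toQ p • x) + toQ q • x := by
      rw [map_add, add_smul, add_assoc]
    rw [e]
    refine Cn.trans (h1 hF ht hD) (h2 (isFr_tr hF _) (triv_tr hx hF hzp ht) ?_)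
    rw [NF_tr hx hF hzp]
    exact hD
  | C_mul_T n a =>
    intro y hF ht hD
    rw [map_mul, toQ_T, toQ_C]
    rcases Int.le_total 0 n with h | h
    · obtain ⟨j, rfl⟩ := Int.eq_ofNat_of_zero_le h
      exact (tr_mono hx hp a j y hF ht hD).1
    · obtain ⟨j, hj⟩ := Int.eq_ofNat_of_zero_le (neg_nonneg.2 h)
      have hn : n = -(j : ℤ) := by omega
      rw [hn]
      exact (tr_mono hx hp a j y hF ht hD).2

end Pool.Agent.TAM
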