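import Mathlib
import Pool.Agent.TAM.LMove
import Pool.Agent.TAM.Chain
import Pool.Agent.TAM.Prim

/-!
PROJECT TAM, module LR: Lemma R (a frame which is not trivial along its first vector can be improved).
PLAN. lemR_prim: `x ∈ R2` primitive (`f • x ∈ R2 → IsZ f`), P0 m, P1 n, not both `m = n = 1`. The chain lemma gives `i` with
`CC i (lat (x,y)) c → c • x ∈ R2 → c ∈ ℤ`. Induction on `i` (generalizing y, m; n fixed):
 * `n < m`: left_move: `NF' * m = NF * n`, so `NF' < NF` (NF > 0).   * `m < n`: right_move.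
 * `m = n ≥ 2`: `i = 0` is impossible (`CC 0` is `(c,0) ∈ L0`, contains `1/m`; CC_zero). left_move: `NF' = NF`, P1 n, exists_P0 gives m', `CC i' ` with `i' = i - 1`;
   not both 1 as n ≥ 2; `m' ≤ m`... not needed: apply the induction hypothesis to (x, y') with (m', n): it covers all cases (m' <> n improves at once, m' = n recursion).
   Compose the Cn paths (NF' = NF < D).
 So do induction on `i` with the statement for all `y, m` with these hypotheses.
lemR: `x ≠ 0`; exists_prim: `e > 0`, `V = e • x` primitive; frame `(V, e⁻¹ • y) = bas e 0 0 e⁻¹ (x,y)`; `Triv` is not satisfied for it (Triv is invariant: `(c,0) ∈ L0 (lat (V, ..)) ↔ (e c, 0) ∈ L0 (lat (x,y))`,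
`c • V = (e c) • x`); if m = n = 1 then Triv (V,..) (c ∈ ℤ, c • V ∈ R2). Apply lemR_prim and scale back: from (V, y') to (x, e • y') = bas e⁻¹ 0 0 e (V, y').
h1_triv: strong induction on `NF (x, y)`: if Triv (x,y) take y' = y; otherwise lemR and the induction hypothesis.
-/

namespace Pool.Agent.TAM

open LaurentPolynomial

private theorem bas_scale (e : ℚ) (F : W × W) : bas e 0 0 e⁻¹ F = (e • F.1, e⁻¹ • F.2) := by
  simp [bas]

private theorem scale_det {e : ℚ} (he : e ≠ 0) : e * e⁻¹ - 0 * 0 = 1 := by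
  rw [mul_inv_cancel₀ he]
  ring

private theorem isFr_scale {F : W × W} (hF : IsFr F) {e : ℚ} (he : e ≠ 0) :
    IsFr (e • F.1, e⁻¹ • F.2) := by
  rw [← bas_scale]
  exact isFr_bas (scale_det he) hF

private theorem NF_scale (F : W × W) {e : ℚ} (he : e ≠ 0) :
    NF (e • F.1, e⁻¹ • F.2) = NF F := by
  rw [← bas_scale]
  exact NF_bas (scale_det he) F

private theorem cn_scale (D : ℕ) (F : W × W) {e : ℚ} (he : e ≠ 0) :
    Cn D F (e • F.1, e⁻¹ • F.2) := by
  rw [← bas_scale]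
  exact Cn.base F e 0 0 e⁻¹ (scale_det he)

private theorem triv_scale {F : W × W} {e : ℚ} (he : e ≠ 0) (h : Triv F) :
    Triv (e • F.1, e⁻¹ • F.2) := by
  intro c hc
  have h1 : ((e * c, 0) : ℚ × ℚ) ∈ L0 (lat F) ∨ ((e * c, 0) : ℚ × ℚ) ∈ L1 (lat F) := by
    rw [← bas_scale] at hc
    rcases hc with hc | hc
    · rw [mem_L0_bas (scale_det he)] at hc
      left
      simpa using hc
    · rw [mem_L1_bas (scale_det he)] at hc
      right
      simpa using hc
  have h2 := h _ h1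
  show c • (e • F.1) ∈ R2
  rw [smul_smul, mul_comm]
  exact h2

private theorem triv_of_one {x y : W} (hx : x ∈ R2) (h0 : P0 (x, y) 1) (h1 : P1 (x, y) 1) :
    Triv (x, y) := by
  intro c hc
  have h : ∃ k : ℤ, c = k := by
    rcases hc with hc | hc
    · obtain ⟨k, hk⟩ := (h0.2 c).1 hc
      exact ⟨k, by rw [hk]; simp⟩
    · obtain ⟨k, hk⟩ := (h1.2 c).1 hc
      exact ⟨k, by rw [hk]; simp⟩
  obtain ⟨k, rfl⟩ := h
  exact R2_int_smul k hx

private theorem nat_lt_of {a b m n : ℕ} (hb : 0 < b) (h : (a : ℚ) * m = b * n) (hnm : n < m) :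
    a < b := by
  have h1 : a * m = b * n := by exact_mod_cast h
  have h2 : b * n < b * m := Nat.mul_lt_mul_of_pos_left hnm hb
  have h3 : a * m < b * m := by rw [h1]; exact h2
  exact lt_of_mul_lt_mul_right h3 (Nat.zero_le _)

private theorem lemR_aux (i : ℕ) : ∀ {x y : W} {m n : ℕ} (_ : IsFr (x, y)) (_ : x ∈ R2)
    (_ : ∀ f : RQ, f • x ∈ R2 → IsZ f) (_ : P0 (x, y) m) (_ : P1 (x, y) n)
    (_ : ¬ (m = 1 ∧ n = 1)) (_ : ∀ c : ℚ, CC i (lat (x, y)) c → c • x ∈ R2),
    ∃ y' : W, IsFr (x, y') ∧ NF (x, y') < NF (x, y) ∧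
      ∀ D, NF (x, y) < D → Cn D (x, y) (x, y') := by
  induction i with
  | zero =>
    intro x y m n hF hx hp h0 h1 hmn hc
    have hm : m = 1 := by
      have e1 : CC 0 (lat (x, y)) ((m : ℚ)⁻¹) := by
        rw [CC_zero, h0.2]
        exact ⟨1, by simp⟩
      have e2 := hc _ e1
      rw [rat_smul_eq] at e2
      obtain ⟨k, hk⟩ := hp _ e2 0
      have e3 : (C ((m : ℚ)⁻¹) : RQ).coeff 0 = (m : ℚ)⁻¹ := by simp
      rw [e3] at hk
      have e4 : (0 : ℚ) < m := by exact_mod_cast h0.1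
      have e5 : (k : ℚ) * m = 1 := by
        rw [← hk]
        exact inv_mul_cancel₀ e4.ne'
      have e6 : k * (m : ℤ) = 1 := by exact_mod_cast e5
      have e9 : (m : ℤ) ∣ 1 := ⟨k, by rw [← e6]; ring⟩
      have e7 : (m : ℤ) = 1 := Int.eq_one_of_dvd_one (Int.natCast_nonneg m) e9
      exact_mod_cast e7
    have hn : 1 < n := by
      have := h1.1
      rcases Nat.lt_or_ge 1 n with h | h
      · exact h
      · exact absurd ⟨hm, by omega⟩ hmn
    obtain ⟨y', e1, -, e3, -, -, e6⟩ := right_move hF h0 h1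
    have hlt : NF (x, y') < NF (x, y) := nat_lt_of (NF_pos hF) e3 (by omega)
    exact ⟨y', e1, hlt, fun D hD => e6 D hD (lt_trans hlt hD)⟩
  | succ i ih =>
    intro x y m n hF hx hp h0 h1 hmn hc
    rcases lt_trichotomy n m with h | h | h
    · obtain ⟨y', e1, -, e3, -, -, e6⟩ := left_move hF h0 h1
      have hlt : NF (x, y') < NF (x, y) := nat_lt_of (NF_pos hF) e3 h
      exact ⟨y', e1, hlt, fun D hD => e6 D hD (lt_trans hlt hD)⟩
    · subst h
      obtain ⟨y1, e1, -, e3, e4, e5, e6⟩ := left_move hF h0 h1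
      have hN : NF (x, y1) = NF (x, y) := by
        have e7 : NF (x, y1) * n = NF (x, y) * n := by exact_mod_cast e3
        exact Nat.eq_of_mul_eq_mul_right h0.1 e7
      obtain ⟨m', hm'⟩ := exists_P0 e1 hx
      obtain ⟨y2, f1, f2, f3⟩ := ih e1 hx hp hm' e4
        (fun hh => hmn ⟨hh.2, hh.2⟩) (fun c hcc => hc c ((e5 i c).1 hcc))
      refine ⟨y2, f1, by rw [hN] at f2; exact f2, fun D hD => ?_⟩
      exact Cn.trans (e6 D hD (by rw [hN]; exact hD)) (f3 D (by rw [hN]; exact hD))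
    · obtain ⟨y', e1, -, e3, -, -, e6⟩ := right_move hF h0 h1
      have hlt : NF (x, y') < NF (x, y) := nat_lt_of (NF_pos hF) e3 h
      exact ⟨y', e1, hlt, fun D hD => e6 D hD (lt_trans hlt hD)⟩

theorem lemR_prim {x y : W} {m n : ℕ} (hF : IsFr (x, y)) (hx : x ∈ R2)
    (hp : ∀ f : RQ, f • x ∈ R2 → IsZ f) (h0 : P0 (x, y) m) (h1 : P1 (x, y) n)
    (hmn : ¬ (m = 1 ∧ n = 1)) :
    ∃ y' : W, IsFr (x, y') ∧ NF (x, y') < NF (x, y) ∧
      ∀ D, NF (x, y) < D → Cn D (x, y) (x, y') := by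
  obtain ⟨i, hi⟩ := chain hF
  exact lemR_aux i hF hx hp h0 h1 hmn hi

private theorem fst_ne_zero {x y : W} (hF : IsFr (x, y)) : x ≠ 0 := by
  intro h0
  obtain ⟨m, hm⟩ := hF
  have h1 : wd x y = 0 := by
    rw [h0]
    simp [wd]
  have hm' : wd x y = T m := hm
  rw [h1] at hm'
  have h2 : (T m * T (-m) : RQ) = 1 := by rw [← T_add, add_neg_cancel, T_zero]
  rw [← hm', zero_mul] at h2
  exact zero_ne_one h2

theorem lemR {x y : W} (hF : IsFr (x, y)) (hnt : ¬ Triv (x, y)) :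
    ∃ y' : W, IsFr (x, y') ∧ NF (x, y') < NF (x, y) ∧
      ∀ D, NF (x, y) < D → Cn D (x, y) (x, y') := by
  obtain ⟨e, he0, hx, hp, -⟩ := exists_prim (fst_ne_zero hF)
  have he : e ≠ 0 := ne_of_gt he0
  have hei : e⁻¹ ≠ 0 := inv_ne_zero he
  have hF' : IsFr (e • x, e⁻¹ • y) := isFr_scale hF he
  have hback : ∀ z : W, (e⁻¹ • (e • x, z).1, (e⁻¹)⁻¹ • (e • x, z).2) = (x, e • z) := by
    intro z
    refine Prod.ext ?_ ?_
    · show e⁻¹ • (e • x) = x
      rw [smul_smul, inv_mul_cancel₀ he, one_smul]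
    · show (e⁻¹)⁻¹ • z = e • z
      rw [inv_inv]
  obtain ⟨m, hm⟩ := exists_P0 hF' hx
  obtain ⟨n, hn⟩ := exists_P1 hF' hx
  have hmn : ¬ (m = 1 ∧ n = 1) := by
    rintro ⟨rfl, rfl⟩
    apply hnt
    have h1 := triv_scale hei (triv_of_one hx hm hn)
    rw [hback] at h1
    have h2 : e • (e⁻¹ • y) = y := by rw [smul_smul, mul_inv_cancel₀ he, one_smul]
    rw [h2] at h1
    exact h1
  obtain ⟨y', h1, h2, h3⟩ := lemR_prim hF' hx hp hm hn hmn
  have hN : NF (e • x, e⁻¹ • y) = NF (x, y) := NF_scale (x, y) he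
  have hN' : NF (x, e • y') = NF (e • x, y') := by
    have h4 := NF_scale (e • x, y') hei
    rw [hback] at h4
    exact h4
  refine ⟨e • y', ?_, ?_, fun D hD => ?_⟩
  · have := isFr_scale h1 hei
    rw [hback] at this
    exact this
  · rw [hN', ← hN]
    exact h2
  · have h4 := cn_scale D (e • x, y') hei
    rw [hback] at h4
    have h5 : Cn D (x, y) (e • x, e⁻¹ • y) := cn_scale D (x, y) he
    exact Cn.trans h5 (Cn.trans (h3 D (by rw [hN]; exact hD)) h4)

/-- H1: every frame is connected with a trivial one, without increasing the index. -/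
theorem h1_triv {x y : W} (hF : IsFr (x, y)) {D : ℕ} (hD : NF (x, y) < D) :
    ∃ y' : W, IsFr (x, y') ∧ Triv (x, y') ∧ NF (x, y') ≤ NF (x, y) ∧ Cn D (x, y) (x, y') := by
  have key : ∀ (n : ℕ) (y : W), IsFr (x, y) → NF (x, y) = n → n < D →
      ∃ y' : W, IsFr (x, y') ∧ Triv (x, y') ∧ NF (x, y') ≤ NF (x, y) ∧
        Cn D (x, y) (x, y') := by
    intro n
    induction n using Nat.strong_induction_on with
    | _ n ih =>
      intro y hF hn hnD
      by_cases ht : Triv (x, y)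
      · exact ⟨y, hF, ht, le_rfl, Cn.refl _⟩
      · obtain ⟨y1, h1, h2, h3⟩ := lemR hF ht
        rw [hn] at h2
        obtain ⟨y2, h4, h5, h6, h7⟩ := ih (NF (x, y1)) h2 y1 h1 rfl (lt_trans h2 hnD)
        refine ⟨y2, h4, h5, le_trans h6 (by rw [hn]; exact h2.le), ?_⟩
        exact Cn.trans (h3 D (by rw [hn]; exact hnD)) h7
  exact key _ y hF rfl hD

end Pool.Agent.TAM
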