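import Mathlib
import Pool.Agent.TAM.LR
import Pool.Agent.TAM.H2a
import Pool.Agent.TAM.H2b

/-!
PROJECT TAM, module H2: well-definedness of the class of a vector.
PLAN. h2: scale to `x ∈ R2` primitive (exists_prim; (x,y) → bas e 0 0 e⁻¹; Triv is invariant). Levels: `wd x y = T m`, `wd x y' = T m'`; induction on `(m - m').natAbs`:
move the frame with the smaller level by triv_left' (level + 1, `wd x (T • (y + c • x)) = T 1 * wd x y`). When `m = m'`: h2a gives `y' = y + r • x + c • x`; tr_conn connects (x,y) with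
`(x, y + r • x)`, then base change `bas 1 c 0 1`; indices equal by lat_tr and NF_bas.
wd_conn: h1_triv for both, then h2. dead: Al D x: (x,Y) with NF < D, h1_triv gives a Triv frame with NF < D, h2 gives the same NF as (x,y).
-/

namespace Pool.Agent.TAM

open LaurentPolynomial

private theorem h2_bas_scale (e : ℚ) (F : W × W) : bas e 0 0 e⁻¹ F = (e • F.1, e⁻¹ • F.2) := by
  simp [bas]

private theorem h2_det {e : ℚ} (he : e ≠ 0) : e * e⁻¹ - 0 * 0 = 1 := by
  rw [mul_inv_cancel₀ he]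
  ring

private theorem h2_isFr {F : W × W} (hF : IsFr F) {e : ℚ} (he : e ≠ 0) :
    IsFr (e • F.1, e⁻¹ • F.2) := by
  rw [← h2_bas_scale]
  exact isFr_bas (h2_det he) hF

private theorem h2_NF (F : W × W) {e : ℚ} (he : e ≠ 0) :
    NF (e • F.1, e⁻¹ • F.2) = NF F := by
  rw [← h2_bas_scale]
  exact NF_bas (h2_det he) F

private theorem h2_cn (D : ℕ) (F : W × W) {e : ℚ} (he : e ≠ 0) :
    Cn D F (e • F.1, e⁻¹ • F.2) := by
  rw [← h2_bas_scale]
  exact Cn.base F e 0 0 e⁻¹ (h2_det he)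

private theorem h2_triv {F : W × W} {e : ℚ} (he : e ≠ 0) (h : Triv F) :
    Triv (e • F.1, e⁻¹ • F.2) := by
  intro c hc
  have h1 : ((e * c, 0) : ℚ × ℚ) ∈ L0 (lat F) ∨ ((e * c, 0) : ℚ × ℚ) ∈ L1 (lat F) := by
    rw [← h2_bas_scale] at hc
    rcases hc with hc | hc
    · rw [mem_L0_bas (h2_det he)] at hc
      left
      simpa using hc
    · rw [mem_L1_bas (h2_det he)] at hc
      right
      simpa using hc
  have h2 := h _ h1
  show c • (e • F.1) ∈ R2
  rw [smul_smul, mul_comm]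
  exact h2

private theorem h2_ne {x y : W} (hF : IsFr (x, y)) : x ≠ 0 := by
  intro h0
  obtain ⟨m, hm⟩ := hF
  have h1 : wd x y = 0 := by
    rw [h0]
    simp [wd]
  have hm' : wd x y = T m := hm
  rw [h1] at hm'
  have h2 : (T m * T (-m) : RQ) = 1 := by rw [← T_add, add_neg_cancel, T_zero]
  rw [← hm', zero_mul] at h2
  exact zero_ne_one h2

private theorem h2_same {x y y' : W} (hx : x ∈ R2) (hp : ∀ f : RQ, f • x ∈ R2 → IsZ f)
    (hF : IsFr (x, y)) (hw : wd x y' = wd x y) (ht : Triv (x, y)) (ht' : Triv (x, y')) :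
    NF (x, y) = NF (x, y') ∧ ∀ D, NF (x, y) < D → Cn D (x, y) (x, y') := by
  obtain ⟨r, hr, c, rfl⟩ := h2a hx hp hF hw ht ht'
  have h1 : bas 1 c 0 1 (x, y + r • x) = (x, y + r • x + c • x) := by
    refine Prod.ext ?_ ?_
    · show (1 : ℚ) • x + (0 : ℚ) • (y + r • x) = x
      rw [one_smul, zero_smul, add_zero]
    · show c • x + (1 : ℚ) • (y + r • x) = y + r • x + c • x
      rw [one_smul, add_comm]
  have hdet : (1 : ℚ) * 1 - c * 0 = 1 := by ring
  have h2 : NF (x, y + r • x) = NF (x, y) := by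
    unfold NF
    rw [lat_tr hx hF hr]
  refine ⟨?_, fun D hD => ?_⟩
  · rw [← h1, NF_bas hdet, h2]
  · rw [← h1]
    exact Cn.trans (tr_conn hx hp hF ht hr hD) (Cn.base _ 1 c 0 1 hdet)

private theorem h2_up {x y' : W} (hx : x ∈ R2) (hp : ∀ f : RQ, f • x ∈ R2 → IsZ f) {m' : ℤ}
    (hw' : wd x y' = T m') (ht' : Triv (x, y')) : ∀ (k : ℕ) (y : W), wd x y = T (m' - k) →
    Triv (x, y) → NF (x, y) = NF (x, y') ∧ ∀ D, NF (x, y) < D → Cn D (x, y) (x, y') := by
  intro k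
  induction k with
  | zero =>
    intro y hw ht
    have h1 : wd x y' = wd x y := by
      rw [hw, hw']
      simp
    exact h2_same hx hp ⟨_, hw⟩ h1 ht ht'
  | succ k ih =>
    intro y hw ht
    obtain ⟨c, h1, h2, h3⟩ := triv_left' hx hp ⟨_, hw⟩ ht
    have h4 : wd x ((T 1 : RQ) • (y + c • x)) = T (m' - k) := by
      rw [wd_smul_right, wd_add_right, wd_rat_smul_right, wd_self, mul_zero, add_zero, hw, ← T_add]
      congr 1
      push_cast
      ring
    obtain ⟨h5, h6⟩ := ih _ h4 h1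
    refine ⟨h2.symm.trans h5, fun D hD => Cn.trans (h3 D hD) (h6 D ?_)⟩
    rw [h2]
    exact hD

private theorem h2_prim {x y y' : W} (hx : x ∈ R2) (hp : ∀ f : RQ, f • x ∈ R2 → IsZ f)
    (hF : IsFr (x, y)) (hF' : IsFr (x, y')) (ht : Triv (x, y)) (ht' : Triv (x, y')) :
    NF (x, y) = NF (x, y') ∧ ∀ D, NF (x, y) < D → Cn D (x, y) (x, y') := by
  obtain ⟨m, hm⟩ := hF
  obtain ⟨m', hm'⟩ := hF'
  change wd x y = T m at hm
  change wd x y' = T m' at hm'
  rcases le_total m m' with h | h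
  · obtain ⟨k, hk⟩ := Int.le.dest h
    refine h2_up hx hp hm' ht' k y ?_ ht
    rw [hm]
    congr 1
    omega
  · obtain ⟨k, hk⟩ := Int.le.dest h
    obtain ⟨h1, h2⟩ := h2_up hx hp hm ht k y' (by
      rw [hm']
      congr 1
      omega) ht'
    exact ⟨h1.symm, fun D hD => Cn.symm (h2 D (by rw [h1]; exact hD))⟩

theorem h2 {x y y' : W} (hF : IsFr (x, y)) (hF' : IsFr (x, y')) (ht : Triv (x, y))
    (ht' : Triv (x, y')) :
    NF (x, y) = NF (x, y') ∧ ∀ D, NF (x, y) < D → Cn D (x, y) (x, y') := by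
  obtain ⟨e, he0, hx, hp, -⟩ := exists_prim (h2_ne hF)
  have he : e ≠ 0 := ne_of_gt he0
  have a1 : IsFr (e • x, e⁻¹ • y) := h2_isFr (F := (x, y)) hF he
  have a2 : IsFr (e • x, e⁻¹ • y') := h2_isFr (F := (x, y')) hF' he
  have a3 := h2_triv (F := (x, y)) he ht
  have a4 := h2_triv (F := (x, y')) he ht'
  have a5 := h2_prim hx hp a1 a2 a3 a4
  obtain ⟨b1, b2⟩ := a5
  have hN : NF (e • x, e⁻¹ • y) = NF (x, y) := h2_NF (x, y) he
  have hN' : NF (e • x, e⁻¹ • y') = NF (x, y') := h2_NF (x, y') he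
  refine ⟨?_, fun D hD => ?_⟩
  · rw [← hN, ← hN']
    exact b1
  · have h3 : Cn D (x, y) (e • x, e⁻¹ • y) := h2_cn D (x, y) he
    have h4 : Cn D (x, y') (e • x, e⁻¹ • y') := h2_cn D (x, y') he
    rw [← hN] at hD
    exact Cn.trans h3 (Cn.trans (b2 D hD) (Cn.symm h4))

theorem wd_conn {x y y' : W} {D : ℕ} (hF : IsFr (x, y)) (hF' : IsFr (x, y')) (h : NF (x, y) < D)
    (h' : NF (x, y') < D) : Cn D (x, y) (x, y') := by
  obtain ⟨y1, a1, a2, a3, a4⟩ := h1_triv hF h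
  obtain ⟨y2, b1, b2, b3, b4⟩ := h1_triv hF' h'
  exact Cn.trans a4 (Cn.trans ((h2 a1 b1 a2 b2).2 D (lt_of_le_of_lt a3 h)) (Cn.symm b4))

theorem dead {x y : W} {D : ℕ} (hF : IsFr (x, y)) (ht : Triv (x, y)) (hA : Al D x) :
    NF (x, y) < D := by
  obtain ⟨Y, h1, h3⟩ := hA
  obtain ⟨y1, a1, a2, a3, -⟩ := h1_triv h1 h3
  rw [(h2 hF a1 ht a2).1]
  exact lt_of_le_of_lt a3 h3

end Pool.Agent.TAM
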