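import Mathlib
import Pool.Agent.TAM.H2
import Pool.Agent.TAM.LL

/-!
PROJECT TAM, module SmL: the relation Sm on vectors.
PLAN. sm_trans uses wd_conn for the middle vector. sm_smul: frame (v,Y) → bas c 0 0 c⁻¹ = (c v, c⁻¹ Y). sm_T: frame (v,Y) → hm = (T v, T Y), NF_hm.
frame_of_vec: `p = (p1,p2) ≠ 0`: choose b, d with `p1 d - b p2 = 1`, `bas p1 b p2 d F = (vec F p, ..)`. al_vec, sm_vec: bas of the same frame F.
al_of_sm etc: unfold.
-/

namespace Pool.Agent.TAM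

open LaurentPolynomial

private lemma bas_inv_T (v Y : W) : ((T 1 : RQ) • v, (T 1 : RQ) • Y) = hm (v, Y) := rfl

private lemma bas_diag (c : ℚ) (v Y : W) : bas c 0 0 c⁻¹ (v, Y) = (c • v, c⁻¹ • Y) := by
  simp [bas]

theorem sm_symm {D : ℕ} {v v' : W} (h : Sm D v v') : Sm D v' v := by
  obtain ⟨Y, Y', h1, h2, h3, h4, h5⟩ := h
  exact ⟨Y', Y, h2, h1, h4, h3, Cn.symm h5⟩

theorem sm_trans {D : ℕ} {v v' v'' : W} (h : Sm D v v') (h' : Sm D v' v'') : Sm D v v'' := by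
  obtain ⟨Y, Y', h1, h2, h3, h4, h5⟩ := h
  obtain ⟨Z, Z', g1, g2, g3, g4, g5⟩ := h'
  exact ⟨Y, Z', h1, g2, h3, g4, Cn.trans h5 (Cn.trans (wd_conn h2 g1 h4 g3) g5)⟩

theorem sm_self {D : ℕ} {v : W} (h : Al D v) : Sm D v v := by
  obtain ⟨Y, h1, h2⟩ := h
  exact ⟨Y, Y, h1, h1, h2, h2, Cn.refl _⟩

theorem al_of_sm {D : ℕ} {v v' : W} (h : Sm D v v') : Al D v ∧ Al D v' := by
  obtain ⟨Y, Y', h1, h2, h3, h4, h5⟩ := h
  exact ⟨⟨Y, h1, h3⟩, ⟨Y', h2, h4⟩⟩

theorem al_smul {D : ℕ} {v : W} (h : Al D v) {c : ℚ} (hc : c ≠ 0) : Al D (c • v) := by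
  obtain ⟨Y, h1, h2⟩ := h
  have hd : c * c⁻¹ - 0 * 0 = 1 := by rw [mul_inv_cancel₀ hc]; ring
  refine ⟨c⁻¹ • Y, ?_, ?_⟩
  · rw [← bas_diag]
    exact isFr_bas hd h1
  · rw [← bas_diag, NF_bas hd]
    exact h2

theorem sm_smul {D : ℕ} {v : W} (h : Al D v) {c : ℚ} (hc : c ≠ 0) : Sm D v (c • v) := by
  obtain ⟨Y, h1, h2⟩ := h
  have hd : c * c⁻¹ - 0 * 0 = 1 := by rw [mul_inv_cancel₀ hc]; ring
  refine ⟨Y, c⁻¹ • Y, h1, ?_, h2, ?_, ?_⟩
  · rw [← bas_diag]
    exact isFr_bas hd h1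
  · rw [← bas_diag, NF_bas hd]
    exact h2
  · rw [← bas_diag]
    exact Cn.base _ c 0 0 c⁻¹ hd

theorem al_T {D : ℕ} {v : W} {n : ℤ} : Al D ((T n : RQ) • v) ↔ Al D v := by
  have key : ∀ (n : ℤ) (v : W), Al D v → Al D ((T n : RQ) • v) := by
    have up : ∀ (k : ℕ) (v : W), Al D v → Al D ((T (k : ℤ) : RQ) • v) := by
      intro k
      induction k with
      | zero =>
        intro v h
        rw [Nat.cast_zero, T_zero, one_smul]
        exact h
      | succ k ih =>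
        intro v h
        obtain ⟨Y, h1, h2⟩ := ih v h
        refine ⟨(T 1 : RQ) • Y, ?_, ?_⟩
        · have e : ((T ((k + 1 : ℕ) : ℤ) : RQ) • v, (T 1 : RQ) • Y) =
              hm ((T (k : ℤ) : RQ) • v, Y) := by
            show _ = ((T 1 : RQ) • ((T (k : ℤ) : RQ) • v), (T 1 : RQ) • Y)
            rw [smul_smul, ← T_add]
            push_cast
            rw [add_comm]
          rw [e]
          exact isFr_hm h1
        · have e : ((T ((k + 1 : ℕ) : ℤ) : RQ) • v, (T 1 : RQ) • Y) =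
              hm ((T (k : ℤ) : RQ) • v, Y) := by
            show _ = ((T 1 : RQ) • ((T (k : ℤ) : RQ) • v), (T 1 : RQ) • Y)
            rw [smul_smul, ← T_add]
            push_cast
            rw [add_comm]
          rw [e, NF_hm]
          exact h2
    have down : ∀ (k : ℕ) (v : W), Al D v → Al D ((T (-(k : ℤ)) : RQ) • v) := by
      intro k
      induction k with
      | zero =>
        intro v h
        rw [Nat.cast_zero, neg_zero, T_zero, one_smul]
        exact h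
      | succ k ih =>
        intro v h
        obtain ⟨Y, h1, h2⟩ := ih v h
        have e : hm ((T (-((k + 1 : ℕ) : ℤ)) : RQ) • v, (T (-1) : RQ) • Y) =
              ((T (-(k : ℤ)) : RQ) • v, Y) := by
          show ((T 1 : RQ) • ((T (-((k + 1 : ℕ) : ℤ)) : RQ) • v), (T 1 : RQ) • ((T (-1) : RQ) • Y)) = _
          rw [smul_smul, ← T_add, smul_smul, ← T_add]
          refine Prod.ext ?_ ?_
          · show (T (1 + -((k + 1 : ℕ) : ℤ)) : RQ) • v = (T (-(k : ℤ)) : RQ) • v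
            congr 2
            push_cast
            ring
          · show (T (1 + -1) : RQ) • Y = Y
            rw [add_neg_cancel, T_zero, one_smul]
        refine ⟨(T (-1) : RQ) • Y, ?_, ?_⟩
        · apply isFr_of_hm
          rw [e]
          exact h1
        · rw [← NF_hm, e]
          exact h2
    intro n v h
    rcases le_total 0 n with hn | hn
    · have := up n.toNat v h
      rwa [Int.toNat_of_nonneg hn] at this
    · have := down (-n).toNat v h
      rwa [Int.toNat_of_nonneg (by omega), neg_neg] at this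
  refine ⟨fun h => ?_, key n v⟩
  have := key (-n) _ h
  rwa [T_neg_smul_T_smul] at this

theorem sm_T {D : ℕ} {v : W} (h : Al D v) (n : ℤ) : Sm D v ((T n : RQ) • v) := by
  have stp : ∀ w : W, Al D w → Sm D w ((T 1 : RQ) • w) := by
    rintro w ⟨Y, h1, h2⟩
    refine ⟨Y, (T 1 : RQ) • Y, h1, ?_, h2, ?_, ?_⟩
    · rw [bas_inv_T]
      exact isFr_hm h1
    · rw [bas_inv_T, NF_hm]
      exact h2
    · rw [bas_inv_T]
      exact Cn.hom _
  have up : ∀ (k : ℕ) (v : W), Al D v → Sm D v ((T (k : ℤ) : RQ) • v) := by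
    intro k
    induction k with
    | zero =>
      intro v h
      rw [Nat.cast_zero, T_zero, one_smul]
      exact sm_self h
    | succ k ih =>
      intro v h
      have h1 := ih v h
      have h2 := stp _ (al_of_sm h1).2
      rw [smul_smul, ← T_add] at h2
      have h3 := sm_trans h1 h2
      have e : ((k + 1 : ℕ) : ℤ) = 1 + k := by push_cast; ring
      rw [e]
      exact h3
  rcases le_total 0 n with hn | hn
  · have := up n.toNat v h
    rwa [Int.toNat_of_nonneg hn] at this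
  · have h1 : Al D ((T n : RQ) • v) := al_T.2 h
    have h2 := up (-n).toNat _ h1
    rw [Int.toNat_of_nonneg (by omega), T_neg_smul_T_smul] at h2
    exact sm_symm h2

theorem frame_of_vec {F : W × W} (hF : IsFr F) {p : ℚ × ℚ} (hp : p ≠ 0) :
    ∃ b d : ℚ, p.1 * d - b * p.2 = 1 ∧ (bas p.1 b p.2 d F).1 = vec F p ∧
      IsFr (bas p.1 b p.2 d F) := by
  obtain ⟨b, d, h⟩ : ∃ b d : ℚ, p.1 * d - b * p.2 = 1 := by
    by_cases h1 : p.1 = 0
    · have h2 : p.2 ≠ 0 := fun h2 => hp (Prod.ext h1 h2)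
      refine ⟨-p.2⁻¹, 0, ?_⟩
      rw [mul_zero, zero_sub, neg_mul, neg_neg, inv_mul_cancel₀ h2]
    · refine ⟨0, p.1⁻¹, ?_⟩
      rw [mul_inv_cancel₀ h1, zero_mul, sub_zero]
  exact ⟨b, d, h, bas_fst _ _ _ _ _, isFr_bas h hF⟩

theorem al_vec {D : ℕ} {F : W × W} (hF : IsFr F) (hD : NF F < D) {p : ℚ × ℚ} (hp : p ≠ 0) :
    Al D (vec F p) := by
  obtain ⟨b, d, h1, h2, h3⟩ := frame_of_vec hF hp
  refine ⟨(bas p.1 b p.2 d F).2, ?_, ?_⟩
  · rw [← h2]
    exact h3
  · rw [← h2]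
    show NF (bas p.1 b p.2 d F) < D
    rw [NF_bas h1]
    exact hD

theorem sm_vec {D : ℕ} {F : W × W} (hF : IsFr F) (hD : NF F < D) {p q : ℚ × ℚ} (hp : p ≠ 0)
    (hq : q ≠ 0) : Sm D (vec F p) (vec F q) := by
  obtain ⟨b, d, h1, h2, h3⟩ := frame_of_vec hF hp
  obtain ⟨b', d', h1', h2', h3'⟩ := frame_of_vec hF hq
  refine ⟨(bas p.1 b p.2 d F).2, (bas q.1 b' q.2 d' F).2, ?_, ?_, ?_, ?_, ?_⟩
  · rw [← h2]
    exact h3
  · rw [← h2']
    exact h3'
  · rw [← h2]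
    show NF (bas p.1 b p.2 d F) < D
    rw [NF_bas h1]
    exact hD
  · rw [← h2']
    show NF (bas q.1 b' q.2 d' F) < D
    rw [NF_bas h1']
    exact hD
  · rw [← h2, ← h2']
    exact Cn.trans (Cn.symm (Cn.base F _ _ _ _ h1)) (Cn.base F _ _ _ _ h1')

/-- Connected frames of index `< D` have related vectors. -/
theorem sm_of_cn {D : ℕ} {F G : W × W} (hF : IsFr F) (hG : IsFr G) (hD : NF F < D) (hD' : NF G < D)
    (hc : Cn D F G) {p q : ℚ × ℚ} (hp : p ≠ 0) (hq : q ≠ 0) : Sm D (vec F p) (vec G q) := by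
  obtain ⟨b, d, h1, h2, h3⟩ := frame_of_vec hF hp
  obtain ⟨b', d', h1', h2', h3'⟩ := frame_of_vec hG hq
  refine ⟨(bas p.1 b p.2 d F).2, (bas q.1 b' q.2 d' G).2, ?_, ?_, ?_, ?_, ?_⟩
  · rw [← h2]
    exact h3
  · rw [← h2']
    exact h3'
  · rw [← h2]
    show NF (bas p.1 b p.2 d F) < D
    rw [NF_bas h1]
    exact hD
  · rw [← h2']
    show NF (bas q.1 b' q.2 d' G) < D
    rw [NF_bas h1']
    exact hD'
  · rw [← h2, ← h2']
    exact Cn.trans (Cn.symm (Cn.base F _ _ _ _ h1)) (Cn.trans hc (Cn.base G _ _ _ _ h1'))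

/-- Related vectors: all frames of index `< D` containing them are connected. -/
theorem cn_of_sm {D : ℕ} {F G : W × W} (hF : IsFr F) (hG : IsFr G) (hD : NF F < D) (hD' : NF G < D)
    {p q : ℚ × ℚ} (hp : p ≠ 0) (hq : q ≠ 0) (h : Sm D (vec F p) (vec G q)) : Cn D F G := by
  obtain ⟨b, d, h1, h2, h3⟩ := frame_of_vec hF hp
  obtain ⟨b', d', h1', h2', h3'⟩ := frame_of_vec hG hq
  obtain ⟨Y, Y', g1, g2, g3, g4, g5⟩ := h
  have c1 : Cn D (vec F p, (bas p.1 b p.2 d F).2) (vec F p, Y) := by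
    refine wd_conn ?_ g1 ?_ g3
    · rw [← h2]
      exact h3
    · rw [← h2]
      show NF (bas p.1 b p.2 d F) < D
      rw [NF_bas h1]
      exact hD
  have c2 : Cn D (vec G q, (bas q.1 b' q.2 d' G).2) (vec G q, Y') := by
    refine wd_conn ?_ g2 ?_ g4
    · rw [← h2']
      exact h3'
    · rw [← h2']
      show NF (bas q.1 b' q.2 d' G) < D
      rw [NF_bas h1']
      exact hD'
  rw [← h2] at c1
  rw [← h2'] at c2
  rw [← h2] at g5
  rw [← h2'] at g5
  exact Cn.trans (Cn.base F _ _ _ _ h1) (Cn.trans c1 (Cn.trans g5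
    (Cn.trans (Cn.symm c2) (Cn.symm (Cn.base G _ _ _ _ h1')))))

end Pool.Agent.TAM
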