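import Mathlib
import Pool.Agent.TAM.SmL
import Pool.Agent.TAM.ClA

/-!
PROJECT TAM, module SDA: step 5a, nondegenerate lines of a plane of index D are alive and related.
PLAN. sda_adj: sign: replace `y` by `-y` (sm_smul with c = -1) so that `nu = dt x y ∈ (0,1)`. `G = bas x.1 (y.1/nu) x.2 (y.2/nu) F` (determinant `dt x y / nu = 1`):
`(c,0) ∈ L0 (lat G) ↔ c • x ∈ L0 (lat F) ↔ c ∈ ℤ` (a = 1), `(0,c) ∈ L1 (lat G) ↔ (c/nu) • y ∈ L1 (lat F) ↔ c ∈ ℤ nu` (b = nu): shf_all: `NF (shf G) = D * nu < D`.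
`shf G = (vec F x, T • (1/nu) • vec F y)`: sm_vec for shf G with p = (1,0), q = (0,1); then sm_T, sm_smul (alive by al_of_sm) give Sm (vec F x) (vec F y).
nd_alive: `p` nondegenerate: there is c with `c • p` in one of L0, L1 and not in the other; c ≠ 0. Frame `G = bas p.1 b p.2 d F` (frame_of_vec), `(c,0) ∈ L0 (lat G) ↔ c • p ∈ L0 (lat F)`.
If `c • vec F p ∈ R2` then `c • p` is in both (const_L0, const_L1). So `¬ Triv G`, lemR gives a frame of smaller index containing vec F p.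
sda: claimA with `Rl p q := Sm D (vec F p) (vec F q)`, gd_frame for Uni, vec_smul.
-/

namespace Pool.Agent.TAM

open LaurentPolynomial

private lemma adj_pos {D : ℕ} {F : W × W} (hF : IsFr F) (hN : NF F = D) {x y : ℚ × ℚ}
    (hx : x ∈ L0 (lat F)) (hxp : ∀ c : ℚ, c • x ∈ L0 (lat F) → ∃ k : ℤ, c = k)
    (hy : y ∈ L1 (lat F)) (hyp : ∀ c : ℚ, c • y ∈ L1 (lat F) → ∃ k : ℤ, c = k)
    (h0 : 0 < dt x y) (h1 : dt x y < 1) : Sm D (vec F x) (vec F y) := by
  set nu := dt x y with hnu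
  have hnu0 : nu ≠ 0 := ne_of_gt h0
  have hdet : x.1 * (y.2 / nu) - (y.1 / nu) * x.2 = 1 := by
    have : x.1 * (y.2 / nu) - (y.1 / nu) * x.2 = dt x y / nu := by
      simp only [dt]; ring
    rw [this, ← hnu, div_self hnu0]
  set G := bas x.1 (y.1 / nu) x.2 (y.2 / nu) F with hG
  have hFG : IsFr G := isFr_bas hdet hF
  have hNG : NF G = D := by rw [hG, NF_bas hdet, hN]
  have hS0 : ∀ c : ℚ, (c, 0) ∈ L0 (lat G) ↔ ∃ k : ℤ, c = k * 1 := by
    intro c
    rw [hG, mem_L0_bas hdet]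
    have e : (x.1 * ((c, 0) : ℚ × ℚ).1 + y.1 / nu * ((c, 0) : ℚ × ℚ).2,
        x.2 * ((c, 0) : ℚ × ℚ).1 + y.2 / nu * ((c, 0) : ℚ × ℚ).2) = c • x := by
      refine Prod.ext ?_ ?_
      · show x.1 * c + y.1 / nu * 0 = c * x.1
        ring
      · show x.2 * c + y.2 / nu * 0 = c * x.2
        ring
    rw [e]
    constructor
    · intro h
      obtain ⟨k, hk⟩ := hxp c h
      exact ⟨k, by rw [mul_one, hk]⟩
    · rintro ⟨k, hk⟩
      rw [mul_one] at hk
      have h2 := (L0 (lat F)).zsmul_mem hx k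
      rw [hk, Int.cast_smul_eq_zsmul]
      exact h2
  have hS1 : ∀ c : ℚ, (0, c) ∈ L1 (lat G) ↔ ∃ k : ℤ, c = k * nu := by
    intro c
    rw [hG, mem_L1_bas hdet]
    have e : (x.1 * ((0, c) : ℚ × ℚ).1 + y.1 / nu * ((0, c) : ℚ × ℚ).2,
        x.2 * ((0, c) : ℚ × ℚ).1 + y.2 / nu * ((0, c) : ℚ × ℚ).2) = (c / nu) • y := by
      refine Prod.ext ?_ ?_
      · show x.1 * 0 + y.1 / nu * c = c / nu * y.1
        ring
      · show x.2 * 0 + y.2 / nu * c = c / nu * y.2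
        ring
    rw [e]
    constructor
    · intro h
      obtain ⟨k, hk⟩ := hyp _ h
      refine ⟨k, ?_⟩
      rw [← hk, div_mul_cancel₀ _ hnu0]
    · rintro ⟨k, hk⟩
      have h2 := (L1 (lat F)).zsmul_mem hy k
      rw [hk, mul_div_assoc, div_self hnu0, mul_one, Int.cast_smul_eq_zsmul]
      exact h2
  have hsh := (shf_all hFG one_pos h0 hS0 hS1).1
  have hlt : NF (shf G) < D := by
    rw [hNG, mul_one] at hsh
    have hD : (0 : ℚ) < D := by
      rw [← hN]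
      exact_mod_cast NF_pos hF
    have : (NF (shf G) : ℚ) < D := by
      rw [hsh]
      nlinarith
    exact_mod_cast this
  have e1 : vec (shf G) ((1 : ℚ), (0 : ℚ)) = vec F x := by
    show (1 : ℚ) • G.1 + (0 : ℚ) • ((T 1 : RQ) • G.2) = vec F x
    rw [one_smul, zero_smul, add_zero, hG, bas_fst]
  have e2 : vec (shf G) ((0 : ℚ), (1 : ℚ)) = (T 1 : RQ) • (nu⁻¹ • vec F y) := by
    show (0 : ℚ) • G.1 + (1 : ℚ) • ((T 1 : RQ) • G.2) = _
    rw [one_smul, zero_smul, zero_add, hG, bas_snd, ← vec_smul]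
    congr 2
    refine Prod.ext ?_ ?_
    · show y.1 / nu = nu⁻¹ * y.1
      ring
    · show y.2 / nu = nu⁻¹ * y.2
      ring
  have hsm : Sm D (vec (shf G) ((1 : ℚ), (0 : ℚ))) (vec (shf G) ((0 : ℚ), (1 : ℚ))) := by
    refine sm_vec (isFr_shf hFG) hlt ?_ ?_
    · intro h
      exact one_ne_zero (congrArg Prod.fst h)
    · intro h
      exact one_ne_zero (congrArg Prod.snd h)
  rw [e1, e2] at hsm
  have ha1 : Al D (nu⁻¹ • vec F y) := al_T.1 (al_of_sm hsm).2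
  have ha2 : Al D (vec F y) := by
    have := al_smul ha1 hnu0
    rwa [smul_smul, mul_inv_cancel₀ hnu0, one_smul] at this
  exact sm_trans hsm (sm_trans (sm_symm (sm_T ha1 1)) (sm_symm (sm_smul ha2 (inv_ne_zero hnu0))))

theorem sda_adj {D : ℕ} {F : W × W} (hF : IsFr F) (hN : NF F = D) {x y : ℚ × ℚ}
    (hx : x ∈ L0 (lat F)) (hxp : ∀ c : ℚ, c • x ∈ L0 (lat F) → ∃ k : ℤ, c = k)
    (hy : y ∈ L1 (lat F)) (hyp : ∀ c : ℚ, c • y ∈ L1 (lat F) → ∃ k : ℤ, c = k)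
    (h0 : 0 < |dt x y|) (h1 : |dt x y| < 1) : Sm D (vec F x) (vec F y) := by
  rcases lt_or_ge 0 (dt x y) with h | h
  · rw [abs_of_pos h] at h0 h1
    exact adj_pos hF hN hx hxp hy hyp h0 h1
  · rw [abs_of_nonpos h] at h0 h1
    have e1 : dt x (-y) = - dt x y := by
      simp only [dt, Prod.fst_neg, Prod.snd_neg]
      ring
    have e2 : (-1 : ℚ) • y = -y := by rw [neg_smul, one_smul]
    have h2 := adj_pos hF hN hx hxp ((L1 (lat F)).neg_mem hy) (fun c hc => hyp c (by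
      have := (L1 (lat F)).neg_mem hc
      rwa [smul_neg, neg_neg] at this)) (by rw [e1]; exact h0) (by rw [e1]; exact h1)
    have h3 := (al_of_sm h2).2
    rw [← e2, vec_smul] at h2 h3
    have h4 : Al D (vec F y) := by
      have := al_smul h3 (c := -1) (by norm_num)
      rwa [smul_smul, neg_mul_neg, one_mul, one_smul] at this
    exact sm_trans h2 (sm_symm (sm_smul h4 (by norm_num)))

theorem nd_alive {D : ℕ} {F : W × W} (hF : IsFr F) (hN : NF F = D) {p : ℚ × ℚ}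
    (hp : ND (L0 (lat F)) (L1 (lat F)) p) : Al D (vec F p) := by
  obtain ⟨hp0, hp1⟩ := hp
  obtain ⟨b, d, h1, h2, h3⟩ := frame_of_vec hF hp0
  have hnt : ¬ Triv (bas p.1 b p.2 d F) := by
    intro ht
    apply hp1
    intro c
    have e : (p.1 * ((c, 0) : ℚ × ℚ).1 + b * ((c, 0) : ℚ × ℚ).2,
        p.2 * ((c, 0) : ℚ × ℚ).1 + d * ((c, 0) : ℚ × ℚ).2) = c • p := by
      refine Prod.ext ?_ ?_
      · show p.1 * c + b * 0 = c * p.1
        ring
      · show p.2 * c + d * 0 = c * p.2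
        ring
    have i0 : (c, 0) ∈ L0 (lat (bas p.1 b p.2 d F)) ↔ c • p ∈ L0 (lat F) := by
      rw [mem_L0_bas h1, e]
    have i1 : (c, 0) ∈ L1 (lat (bas p.1 b p.2 d F)) ↔ c • p ∈ L1 (lat F) := by
      rw [mem_L1_bas h1, e]
    have h4 := ht c
    rw [i0, i1, h2, ← vec_smul] at h4
    exact ⟨fun h => const_L1 (h4 (Or.inl h)), fun h => const_L0 (h4 (Or.inr h))⟩
  obtain ⟨y', g1, g2, g3⟩ := lemR (x := (bas p.1 b p.2 d F).1) (y := (bas p.1 b p.2 d F).2) h3 hnt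
  rw [h2] at g1 g2
  refine ⟨y', g1, lt_of_lt_of_le g2 ?_⟩
  rw [← h2]
  show NF (bas p.1 b p.2 d F) ≤ D
  rw [NF_bas h1, hN]

theorem sda {D : ℕ} {F : W × W} (hF : IsFr F) (hN : NF F = D) (hne : L0 (lat F) ≠ L1 (lat F))
    {p q : ℚ × ℚ} (hp : ND (L0 (lat F)) (L1 (lat F)) p) (hq : ND (L0 (lat F)) (L1 (lat F)) q) :
    Sm D (vec F p) (vec F q) := by
  have hg := gd_frame hF
  exact claimA hg.u0 hg.u1 hne (fun p q => Sm D (vec F p) (vec F q)) (fun p q h => sm_symm h)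
    (fun p q r h h' => sm_trans h h') (fun p hp c hc => by
      show Sm D (vec F p) (vec F (c • p))
      rw [vec_smul]
      exact sm_smul (nd_alive hF hN hp) hc)
    (fun x y hx hxp hy hyp h0 h1 => sda_adj hF hN hx hxp hy hyp h0 h1) p q hp hq

end Pool.Agent.TAM
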