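import Mathlib
import Pool.Agent.TAM.SDA
import Pool.Agent.TAM.CCl

/-!
PROJECT TAM, module BS: step 5b, bad frames under a shift.
-/

namespace Pool.Agent.TAM

open LaurentPolynomial

private theorem bs_all {D : ℕ} {F : W × W} (h : Bd D F) :
    NF (shf F) = D ∧ (∀ c : ℚ, (0, c) ∈ L0 (lat (shf F)) ↔ ∃ k : ℤ, c = k) ∧
      (∀ c : ℚ, (c, 0) ∈ L1 (lat (shf F)) ↔ ∃ k : ℤ, c = k) ∧
      (∀ c : ℚ, (c, 0) ∈ L0 (lat (shf F)) → ∃ k : ℤ, c = k) ∧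
      (∀ c : ℚ, (0, c) ∈ L1 (lat (shf F)) → ∃ k : ℤ, c = k) := by
  have hS1' : ∀ c : ℚ, (0, c) ∈ L1 (lat F) ↔ ∃ k : ℤ, c = k := by
    intro c
    rw [h.l1]
    constructor
    · rintro ⟨m, n, hmn⟩
      exact ⟨n, congrArg Prod.snd hmn⟩
    · rintro ⟨k, rfl⟩
      exact ⟨0, k, by rw [Int.cast_zero]⟩
  have hS0 : ∀ c : ℚ, (c, 0) ∈ L0 (lat F) ↔ ∃ k : ℤ, c = k * (1 : ℚ) := by
    intro c
    rw [h.l0]
    simp only [mul_one]
  have hS1 : ∀ c : ℚ, (0, c) ∈ L1 (lat F) ↔ ∃ k : ℤ, c = k * (1 : ℚ) := by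
    intro c
    rw [hS1']
    simp only [mul_one]
  obtain ⟨e1, e2, e3, e4, e5⟩ := shf_all h.fr one_pos one_pos hS0 hS1
  refine ⟨?_, ?_, ?_, ?_, ?_⟩
  · rw [mul_one, mul_one, h.nf] at e1
    exact_mod_cast e1
  · intro c
    rw [e2]
    simp only [inv_one, mul_one]
  · intro c
    rw [e3]
    simp only [inv_one, mul_one]
  · intro c hc
    exact (h.l0 c).1 (e4 c hc)
  · intro c hc
    exact (hS1' c).1 (e5 c hc)

private theorem bs_cc {F : W × W} {c : ℚ} : (c, 0) ∈ L0 (lat (shf F)) ↔ CC 1 (lat F) c := by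
  rw [← CC_zero, CC_shf]

private theorem vec10 (F : W × W) : vec F (1, 0) = F.1 := by
  show (1 : ℚ) • F.1 + (0 : ℚ) • F.2 = F.1
  rw [one_smul, zero_smul, add_zero]

private theorem vec01 (F : W × W) : vec F (0, 1) = F.2 := by
  show (0 : ℚ) • F.1 + (1 : ℚ) • F.2 = F.2
  rw [one_smul, zero_smul, zero_add]

private theorem sm10 (c : ℚ) : c • ((1 : ℚ), (0 : ℚ)) = (c, 0) := by
  refine Prod.ext ?_ ?_
  · show c * 1 = c
    ring
  · show c * 0 = 0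
    ring

private theorem sm01 (c : ℚ) : c • ((0 : ℚ), (1 : ℚ)) = (0, c) := by
  refine Prod.ext ?_ ?_
  · show c * 0 = 0
    ring
  · show c * 1 = c
    ring

private theorem ne10 : ((1 : ℚ), (0 : ℚ)) ≠ 0 := by
  intro h
  have h1 := congrArg Prod.fst h
  exact one_ne_zero h1

private theorem ne01 : ((0 : ℚ), (1 : ℚ)) ≠ 0 := by
  intro h
  have h1 := congrArg Prod.snd h
  exact one_ne_zero h1

private theorem dt1001 : dt ((1 : ℚ), (0 : ℚ)) ((0 : ℚ), (1 : ℚ)) = 1 := by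
  simp [dt]

private theorem z2_of {G : AddSubgroup (ℚ × ℚ)} (hG : Uni G) (h10 : ((1 : ℚ), (0 : ℚ)) ∈ G)
    (h01 : ((0 : ℚ), (1 : ℚ)) ∈ G) (p : ℚ × ℚ) :
    p ∈ G ↔ ∃ m n : ℤ, p = ((m : ℚ), (n : ℚ)) := by
  have e : ∀ m n : ℤ, m • ((1 : ℚ), (0 : ℚ)) + n • ((0 : ℚ), (1 : ℚ)) = ((m : ℚ), (n : ℚ)) := by
    intro m n
    refine Prod.ext ?_ ?_
    · show m • (1 : ℚ) + n • (0 : ℚ) = m
      rw [smul_zero, add_zero, zsmul_eq_mul, mul_one]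
    · show m • (0 : ℚ) + n • (1 : ℚ) = n
      rw [smul_zero, zero_add, zsmul_eq_mul, mul_one]
  constructor
  · intro hp
    obtain ⟨m, n, h⟩ := uni_basis hG h10 h01 dt1001 p hp
    exact ⟨m, n, by rw [h, e]⟩
  · rintro ⟨m, n, rfl⟩
    rw [← e]
    exact G.add_mem (G.zsmul_mem h10 m) (G.zsmul_mem h01 n)

/-- `x` and `T y` are not related. -/
private theorem bs_ns {D : ℕ} {F : W × W} (h : Bd D F) : ¬ Sm D F.1 ((T 1 : RQ) • F.2) := by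
  intro h1
  exact h.ns (sm_trans h1 (sm_symm (sm_T h.a2 1)))

private theorem bs_both {D : ℕ} {F : W × W} (h : Bd D F)
    (hl : ¬ ∀ c : ℚ, (c, 0) ∈ L0 (lat (shf F)) ↔ ∃ k : ℤ, c = k)
    (hl' : ¬ ∀ c : ℚ, (0, c) ∈ L1 (lat (shf F)) ↔ ∃ k : ℤ, c = k) : False := by
  obtain ⟨e1, e2, e3, e4, e5⟩ := bs_all h
  have n1 : ND (L0 (lat (shf F))) (L1 (lat (shf F))) (1, 0) := by
    refine ⟨ne10, fun hc => hl fun c => ?_⟩
    have := hc c
    rw [sm10] at this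
    rw [this, e3]
  have n2 : ND (L0 (lat (shf F))) (L1 (lat (shf F))) (0, 1) := by
    refine ⟨ne01, fun hc => hl' fun c => ?_⟩
    have := hc c
    rw [sm01] at this
    rw [← this, e2]
  have hne : L0 (lat (shf F)) ≠ L1 (lat (shf F)) := by
    intro hc
    apply hl
    intro c
    rw [hc, e3]
  have h1 := sda (isFr_shf h.fr) e1 hne n1 n2
  rw [vec10, vec01] at h1
  exact bs_ns h h1

theorem bs_shf {D : ℕ} {F : W × W} (h : Bd D F) :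
    NF (shf F) = D ∧ (∀ c : ℚ, (0, c) ∈ L0 (lat (shf F)) ↔ ∃ k : ℤ, c = k) ∧
      (∀ c : ℚ, (c, 0) ∈ L1 (lat (shf F)) ↔ ∃ k : ℤ, c = k) := by
  obtain ⟨e1, e2, e3, -, -⟩ := bs_all h
  exact ⟨e1, e2, e3⟩

/-- Case la = 1. -/
theorem bsA {D : ℕ} {F : W × W} (h : Bd D F) (hl : ∀ c : ℚ, CC 1 (lat F) c ↔ ∃ k : ℤ, c = k) :
    (Bd D (shf F) ∧ L0 (lat (shf F)) = L1 (lat (shf F))) ∨ ∃ θ : ℚ, TI D (bas 1 θ 0 1 (shf F)) := by
  obtain ⟨e1, e2, e3, e4, e5⟩ := bs_all h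
  have hfr := isFr_shf h.fr
  have hgd := gd_frame hfr
  have H0 : ∀ c : ℚ, (c, 0) ∈ L0 (lat (shf F)) ↔ ∃ k : ℤ, c = k := by
    intro c
    rw [bs_cc, hl]
  have m10 : ((1 : ℚ), (0 : ℚ)) ∈ L0 (lat (shf F)) := (H0 1).2 ⟨1, by rw [Int.cast_one]⟩
  have m01 : ((0 : ℚ), (1 : ℚ)) ∈ L0 (lat (shf F)) := (e2 1).2 ⟨1, by rw [Int.cast_one]⟩
  have n10 : ((1 : ℚ), (0 : ℚ)) ∈ L1 (lat (shf F)) := (e3 1).2 ⟨1, by rw [Int.cast_one]⟩
  by_cases hc1 : ∀ c : ℚ, (0, c) ∈ L1 (lat (shf F)) ↔ ∃ k : ℤ, c = k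
  · left
    have n01 : ((0 : ℚ), (1 : ℚ)) ∈ L1 (lat (shf F)) := (hc1 1).2 ⟨1, by rw [Int.cast_one]⟩
    exact ⟨⟨hfr, e1, z2_of hgd.u1 n10 n01, H0, h.ni, h.a1, al_T.2 h.a2, bs_ns h⟩,
      uni_eq hgd.u0 hgd.u1 m10 m01 n10 n01 dt1001⟩
  · right
    obtain ⟨w, hw, hdw⟩ := uni_compl hgd.u1 n10 (fun c hc => by
      rw [sm10] at hc
      exact (e3 c).1 hc)
    have hw2 : w.2 = 1 := by
      have h1 : (1 : ℚ) * w.2 - 0 * w.1 = 1 := hdw
      linarith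
    obtain ⟨θ, t⟩ := w
    have ht : t = 1 := hw2
    subst ht
    -- `(0, 1)` is not in `L1`
    have k01 : ((0 : ℚ), (1 : ℚ)) ∉ L1 (lat (shf F)) := by
      intro hc
      apply hc1
      intro c
      refine ⟨e5 c, ?_⟩
      rintro ⟨k, rfl⟩
      have h2 := (L1 (lat (shf F))).zsmul_mem hc k
      have h3 : k • ((0 : ℚ), (1 : ℚ)) = (0, (k : ℚ)) := by
        refine Prod.ext ?_ ?_
        · show k • (0 : ℚ) = 0
          rw [smul_zero]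
        · show k • (1 : ℚ) = k
          rw [zsmul_eq_mul, mul_one]
      rw [h3] at h2
      exact h2
    -- `(θ, 1)` is not in `L0`
    have kθ : (θ, (1 : ℚ)) ∉ L0 (lat (shf F)) := by
      intro hc
      have h1 := (L0 (lat (shf F))).sub_mem hc m01
      have h2 : (θ, (1 : ℚ)) - ((0 : ℚ), (1 : ℚ)) = (θ, 0) := by
        refine Prod.ext ?_ ?_
        · show θ - 0 = θ
          ring
        · show (1 : ℚ) - 1 = 0
          ring
      rw [h2] at h1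
      have h3 := (e3 θ).2 ((H0 θ).1 h1)
      have h4 := (L1 (lat (shf F))).sub_mem hw h3
      have h5 : (θ, (1 : ℚ)) - (θ, (0 : ℚ)) = (0, 1) := by
        refine Prod.ext ?_ ?_
        · show θ - θ = 0
          ring
        · show (1 : ℚ) - 0 = 1
          ring
      rw [h5] at h4
      exact k01 h4
    have hne : L0 (lat (shf F)) ≠ L1 (lat (shf F)) := by
      intro hc
      rw [hc] at m01
      exact k01 m01
    have nd1 : ND (L0 (lat (shf F))) (L1 (lat (shf F))) (0, 1) := by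
      refine ⟨ne01, fun hc => k01 ?_⟩
      have := (hc 1)
      rw [one_smul] at this
      exact this.1 m01
    have nd2 : ND (L0 (lat (shf F))) (L1 (lat (shf F))) (θ, 1) := by
      refine ⟨fun hc => ?_, fun hc => kθ ?_⟩
      · have h1 := congrArg Prod.snd hc
        exact one_ne_zero h1
      · have := (hc 1)
        rw [one_smul] at this
        exact this.2 hw
    have hsm := sda hfr e1 hne nd1 nd2
    rw [vec01] at hsm
    have hdet : (1 : ℚ) * 1 - θ * 0 = 1 := by ring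
    have hG := isFr_bas hdet hfr
    have hG1 : (bas 1 θ 0 1 (shf F)).1 = F.1 := by
      rw [bas_fst]
      exact vec10 (shf F)
    have hG2 : (bas 1 θ 0 1 (shf F)).2 = vec (shf F) (θ, 1) := bas_snd _ _ _ _ _
    have hL0 : ∀ c : ℚ, (c, 0) ∈ L0 (lat (bas 1 θ 0 1 (shf F))) ↔ (c, 0) ∈ L0 (lat (shf F)) := by
      intro c
      rw [mem_L0_bas hdet]
      have : (1 * (c, (0 : ℚ)).1 + θ * (c, (0 : ℚ)).2, 0 * (c, (0 : ℚ)).1 + 1 * (c, (0 : ℚ)).2) =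
          (c, (0 : ℚ)) := by
        refine Prod.ext ?_ ?_
        · show 1 * c + θ * 0 = c
          ring
        · show 0 * c + 1 * 0 = (0 : ℚ)
          ring
      rw [this]
    have g10 : ((1 : ℚ), (0 : ℚ)) ∈ L1 (lat (bas 1 θ 0 1 (shf F))) := by
      rw [mem_L1_bas hdet]
      have : (1 * ((1 : ℚ), (0 : ℚ)).1 + θ * ((1 : ℚ), (0 : ℚ)).2,
          0 * ((1 : ℚ), (0 : ℚ)).1 + 1 * ((1 : ℚ), (0 : ℚ)).2) = ((1 : ℚ), (0 : ℚ)) := by
        refine Prod.ext ?_ ?_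
        · show 1 * 1 + θ * 0 = (1 : ℚ)
          ring
        · show 0 * 1 + 1 * 0 = (0 : ℚ)
          ring
      rw [this]
      exact n10
    have heq01 : (1 * ((0 : ℚ), (1 : ℚ)).1 + θ * ((0 : ℚ), (1 : ℚ)).2,
        0 * ((0 : ℚ), (1 : ℚ)).1 + 1 * ((0 : ℚ), (1 : ℚ)).2) = (θ, (1 : ℚ)) := by
      refine Prod.ext ?_ ?_
      · show 1 * 0 + θ * 1 = θ
        ring
      · show 0 * 0 + 1 * 1 = (1 : ℚ)
        ring
    have g01 : ((0 : ℚ), (1 : ℚ)) ∈ L1 (lat (bas 1 θ 0 1 (shf F))) := by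
      rw [mem_L1_bas hdet, heq01]
      exact hw
    refine ⟨θ, ⟨hG, ?_, z2_of (gd_frame hG).u1 g10 g01, fun c => by rw [hL0, H0], ?_, ?_, ?_, ?_⟩, ?_⟩
    · rw [NF_bas hdet, e1]
    · rw [hG1]
      exact h.ni
    · rw [hG1]
      exact h.a1
    · rw [hG2]
      exact (al_of_sm hsm).2
    · rw [hG1, hG2]
      intro hc
      exact bs_ns h (sm_trans hc (sm_symm hsm))
    · intro hc
      rw [← hc, mem_L0_bas hdet, heq01] at g01
      exact kθ g01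

/-- Case la > 1. -/
theorem bsC {D : ℕ} {F : W × W} (h : Bd D F) (hl : ¬ ∀ c : ℚ, CC 1 (lat F) c ↔ ∃ k : ℤ, c = k) :
    TI D (bas 0 (-1) 1 0 (shf F)) := by
  obtain ⟨e1, e2, e3, e4, e5⟩ := bs_all h
  have hfr := isFr_shf h.fr
  have hgd := gd_frame hfr
  have hl' : ¬ ∀ c : ℚ, (c, 0) ∈ L0 (lat (shf F)) ↔ ∃ k : ℤ, c = k := by
    intro hc
    apply hl
    intro c
    rw [← bs_cc]
    exact hc c
  have hc1 : ∀ c : ℚ, (0, c) ∈ L1 (lat (shf F)) ↔ ∃ k : ℤ, c = k := by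
    by_contra hc
    exact bs_both h hl' hc
  have n10 : ((1 : ℚ), (0 : ℚ)) ∈ L1 (lat (shf F)) := (e3 1).2 ⟨1, by rw [Int.cast_one]⟩
  have n01 : ((0 : ℚ), (1 : ℚ)) ∈ L1 (lat (shf F)) := (hc1 1).2 ⟨1, by rw [Int.cast_one]⟩
  have hz := z2_of hgd.u1 n10 n01
  have hdet : (0 : ℚ) * 0 - (-1) * 1 = 1 := by ring
  have hG := isFr_bas hdet hfr
  have hG1 : (bas 0 (-1) 1 0 (shf F)).1 = (T 1 : RQ) • F.2 := by
    rw [bas_fst]
    exact vec01 (shf F)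
  have hG2 : (bas 0 (-1) 1 0 (shf F)).2 = (-1 : ℚ) • F.1 := by
    show (-1 : ℚ) • F.1 + (0 : ℚ) • ((T 1 : RQ) • F.2) = (-1 : ℚ) • F.1
    rw [zero_smul, add_zero]
  have hm : ∀ p : ℚ × ℚ, ((0 : ℚ) * p.1 + (-1) * p.2, (1 : ℚ) * p.1 + 0 * p.2) = (-p.2, p.1) := by
    intro p
    refine Prod.ext ?_ ?_
    · show (0 : ℚ) * p.1 + (-1) * p.2 = -p.2
      ring
    · show (1 : ℚ) * p.1 + 0 * p.2 = p.1
      ring
  have hL0 : ∀ p, p ∈ L0 (lat (bas 0 (-1) 1 0 (shf F))) ↔ (-p.2, p.1) ∈ L0 (lat (shf F)) := by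
    intro p
    rw [mem_L0_bas hdet, hm]
  have hL1 : ∀ p, p ∈ L1 (lat (bas 0 (-1) 1 0 (shf F))) ↔ (-p.2, p.1) ∈ L1 (lat (shf F)) := by
    intro p
    rw [mem_L1_bas hdet, hm]
  have l1' : ∀ p : ℚ × ℚ, p ∈ L1 (lat (bas 0 (-1) 1 0 (shf F))) ↔
      ∃ m n : ℤ, p = ((m : ℚ), (n : ℚ)) := by
    intro p
    rw [hL1, hz]
    constructor
    · rintro ⟨m, n, hmn⟩
      have h1 : -p.2 = m := congrArg Prod.fst hmn
      have h2 : p.1 = n := congrArg Prod.snd hmn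
      refine ⟨n, -m, Prod.ext h2 ?_⟩
      show p.2 = ((-m : ℤ) : ℚ)
      push_cast
      linarith
    · rintro ⟨m, n, rfl⟩
      refine ⟨-n, m, Prod.ext ?_ rfl⟩
      show -(n : ℚ) = ((-n : ℤ) : ℚ)
      push_cast
      ring
  have l0' : ∀ c : ℚ, (c, 0) ∈ L0 (lat (bas 0 (-1) 1 0 (shf F))) ↔ ∃ k : ℤ, c = k := by
    intro c
    rw [hL0]
    show ((-(0 : ℚ), c) : ℚ × ℚ) ∈ L0 (lat (shf F)) ↔ _
    rw [neg_zero]
    exact e2 c
  have hal : Al D ((bas 0 (-1) 1 0 (shf F)).1) := by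
    rw [hG1]
    exact al_T.2 h.a2
  have hnf : NF (bas 0 (-1) 1 0 (shf F)) = D := by rw [NF_bas hdet, e1]
  refine ⟨⟨hG, hnf, l1', l0', ?_, hal, ?_, ?_⟩, ?_⟩
  · intro hr
    have htr : Triv (bas 0 (-1) 1 0 (shf F)) := by
      rintro c (hc | hc)
      · obtain ⟨k, rfl⟩ := (l0' c).1 hc
        exact R2_int_smul k hr
      · obtain ⟨m, n, hmn⟩ := (l1' _).1 hc
        have h1 : c = m := congrArg Prod.fst hmn
        rw [h1]
        exact R2_int_smul m hr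
    have hd := dead (x := (bas 0 (-1) 1 0 (shf F)).1) (y := (bas 0 (-1) 1 0 (shf F)).2) (D := D)
      hG htr hal
    exact absurd hd (by
      show ¬ NF (bas 0 (-1) 1 0 (shf F)) < D
      rw [hnf]
      exact lt_irrefl D)
  · rw [hG2]
    exact al_smul h.a1 (by norm_num)
  · rw [hG1, hG2]
    intro hc
    exact bs_ns h (sm_symm (sm_trans hc (sm_symm (sm_smul h.a1 (by norm_num)))))
  · intro hc
    apply hl'
    intro c
    have h1 := hL0 (0, -c)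
    have h2 := hL1 (0, -c)
    rw [hc, h2] at h1
    have h3 : ((-(-c), (0 : ℚ)) : ℚ × ℚ) ∈ L1 (lat (shf F)) ↔ (-(-c), (0 : ℚ)) ∈ L0 (lat (shf F)) := h1
    rw [neg_neg] at h3
    rw [← h3, e3]

end Pool.Agent.TAM
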