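import Mathlib
import Pool.Agent.TAM.UniA

/-!
PROJECT TAM, module FA: connecting primitive vectors outside a subgroup.
PLAN. Prove by strong induction on `n : ℕ`: for all primitive `u, v ∈ G` outside `S` with `|dt u v| = n`
(`dt u v` is an integer, uni_int): `Rl u v`.
`n = 0`: `v = ± u` (both primitive and parallel): hself.   `n = 1`: hadj for `u, v` or for `u, -v` (and hself).
`n ≥ 2`: uni_compl: `w ∈ G`, `dt u w = 1`; subtract a multiple of `u` so that `0 ≤ al < n` where `al = dt w v'`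
(`v' = ± v` with `dt u v' = n`). `al ≠ 0` (else `w` is parallel to `v'`, both primitive, so `dt u v' = ± 1`).
`w, w - u` are primitive (uni_prim), not both in `S` since `u ∉ S`; `|dt w v'|, |dt (w - u) v'| < n`; the one outside `S` is
adjacent to `u` (hadj, dt u w = dt u (w - u) = 1) and connected to `v'` by induction.
-/

namespace Pool.Agent.TAM

private lemma dt_addL (a b c : ℚ × ℚ) : dt (a + b) c = dt a c + dt b c := by
  simp only [dt, Prod.fst_add, Prod.snd_add]; ring

private lemma dt_subL (a b c : ℚ × ℚ) : dt (a - b) c = dt a c - dt b c := by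
  simp only [dt, Prod.fst_sub, Prod.snd_sub]; ring

private lemma dt_subR (a b c : ℚ × ℚ) : dt a (b - c) = dt a b - dt a c := by
  simp only [dt, Prod.fst_sub, Prod.snd_sub]; ring

private lemma dt_negR (a b : ℚ × ℚ) : dt a (-b) = - dt a b := by
  simp only [dt, Prod.fst_neg, Prod.snd_neg]; ring

private lemma dt_zsmulL (j : ℤ) (a b : ℚ × ℚ) : dt (j • a) b = j * dt a b := by
  simp only [dt, Prod.smul_fst, Prod.smul_snd]
  simp only [zsmul_eq_mul]
  ring

private lemma dt_zsmulR (j : ℤ) (a b : ℚ × ℚ) : dt a (j • b) = j * dt a b := by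
  simp only [dt, Prod.smul_fst, Prod.smul_snd]
  simp only [zsmul_eq_mul]
  ring

private lemma dt_selfA (a : ℚ × ℚ) : dt a a = 0 := by
  simp only [dt]; ring

private lemma prim_ne {G : AddSubgroup (ℚ × ℚ)} {u : ℚ × ℚ}
    (hp : ∀ c : ℚ, c • u ∈ G → ∃ k : ℤ, c = k) : u ≠ 0 := by
  rintro rfl
  obtain ⟨k, hk⟩ := hp (1 / 2) (by rw [smul_zero]; exact G.zero_mem)
  have h2 : (2 * k : ℚ) = 1 := by rw [← hk]; norm_num
  have h3 : (2 * k : ℤ) = 1 := by exact_mod_cast h2
  omega

private lemma par_eq {G : AddSubgroup (ℚ × ℚ)} {u v : ℚ × ℚ} (hu : u ∈ G)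
    (hpu : ∀ c : ℚ, c • u ∈ G → ∃ k : ℤ, c = k) (hv : v ∈ G)
    (hpv : ∀ c : ℚ, c • v ∈ G → ∃ k : ℤ, c = k) (h : dt u v = 0) : v = u ∨ v = -u := by
  have hu0 := prim_ne hpu
  have hv0 := prim_ne hpv
  have hc : ∃ c : ℚ, v = c • u := by
    simp only [dt] at h
    by_cases h1 : u.1 = 0
    · have h2 : u.2 ≠ 0 := by
        intro h2
        exact hu0 (Prod.ext h1 h2)
      refine ⟨v.2 / u.2, Prod.ext ?_ ?_⟩
      · simp only [Prod.smul_fst, smul_eq_mul, h1, mul_zero]
        rw [h1, zero_mul, zero_sub, neg_eq_zero] at h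
        exact (mul_eq_zero.1 h).resolve_left h2
      · simp only [Prod.smul_snd, smul_eq_mul]
        field_simp
    · refine ⟨v.1 / u.1, Prod.ext ?_ ?_⟩
      · simp only [Prod.smul_fst, smul_eq_mul]
        field_simp
      · simp only [Prod.smul_snd, smul_eq_mul]
        field_simp
        linarith
  obtain ⟨c, hc⟩ := hc
  have hc0 : c ≠ 0 := by
    rintro rfl
    rw [zero_smul] at hc
    exact hv0 hc
  obtain ⟨k, hk⟩ := hpu c (hc ▸ hv)
  have hu' : u = c⁻¹ • v := by rw [hc, smul_smul, inv_mul_cancel₀ hc0, one_smul]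
  obtain ⟨l, hl⟩ := hpv c⁻¹ (hu' ▸ hu)
  have hkl : (k * l : ℚ) = 1 := by rw [← hk, ← hl, mul_inv_cancel₀ hc0]
  have hkl' : k * l = 1 := by exact_mod_cast hkl
  rcases Int.eq_one_or_neg_one_of_mul_eq_one hkl' with h1 | h1
  · left
    rw [hc, hk, h1]
    simp
  · right
    rw [hc, hk, h1]
    simp

theorem faA {G S : AddSubgroup (ℚ × ℚ)} (hG : Uni G)
    (Rl : ℚ × ℚ → ℚ × ℚ → Prop) (hsymm : ∀ p q, Rl p q → Rl q p)
    (htrans : ∀ p q r, Rl p q → Rl q r → Rl p r)
    (hself : ∀ u ∈ G, u ∉ S → (∀ c : ℚ, c • u ∈ G → ∃ k : ℤ, c = k) → Rl u u ∧ Rl u (-u))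
    (hadj : ∀ u v, u ∈ G → v ∈ G → dt u v = 1 → u ∉ S → v ∉ S → Rl u v) :
    ∀ u v, u ∈ G → (∀ c : ℚ, c • u ∈ G → ∃ k : ℤ, c = k) → u ∉ S →
      v ∈ G → (∀ c : ℚ, c • v ∈ G → ∃ k : ℤ, c = k) → v ∉ S → Rl u v := by
  have hneg : ∀ v, v ∈ G → (∀ c : ℚ, c • v ∈ G → ∃ k : ℤ, c = k) → v ∉ S →
      (-v ∈ G ∧ (∀ c : ℚ, c • (-v) ∈ G → ∃ k : ℤ, c = k) ∧ -v ∉ S) := by
    intro v hv hp hS
    refine ⟨G.neg_mem hv, fun c hc => ?_, fun h => hS ?_⟩
    · rw [smul_neg] at hc
      exact hp c (neg_mem_iff.1 hc)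
    · exact neg_mem_iff.1 h
  have key : ∀ n : ℕ, ∀ u v, u ∈ G → (∀ c : ℚ, c • u ∈ G → ∃ k : ℤ, c = k) → u ∉ S →
      v ∈ G → (∀ c : ℚ, c • v ∈ G → ∃ k : ℤ, c = k) → v ∉ S → |dt u v| = n → Rl u v := by
    intro n
    induction n using Nat.strong_induction_on with
    | _ n ih =>
    -- the positive version
    have pos : ∀ u v, u ∈ G → (∀ c : ℚ, c • u ∈ G → ∃ k : ℤ, c = k) → u ∉ S →
      v ∈ G → (∀ c : ℚ, c • v ∈ G → ∃ k : ℤ, c = k) → v ∉ S → dt u v = n → Rl u v := by
      intro u v hu hpu hSu hv hpv hSv hd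
      rcases Nat.lt_or_ge n 2 with hn | hn
      · interval_cases n
        · rcases par_eq hu hpu hv hpv (by simpa using hd) with h | h
          · rw [h]
            exact (hself u hu hSu hpu).1
          · rw [h]
            exact (hself u hu hSu hpu).2
        · exact hadj u v hu hv (by simpa using hd) hSu hSv
      · obtain ⟨w, hw, hw1⟩ := uni_compl hG hu hpu
        obtain ⟨k, hk⟩ := uni_int hG hw hv
        set j : ℤ := k / n with hj
        set a : ℤ := k % n with ha
        have hnz : (n : ℤ) ≠ 0 := by omega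
        have ha0 : 0 ≤ a := Int.emod_nonneg k hnz
        have han : a < n := Int.emod_lt_of_pos k (by omega)
        have hka : k = n * j + a := (Int.mul_ediv_add_emod k n).symm
        set w' := w - j • u with hw'
        have hw'G : w' ∈ G := G.sub_mem hw (G.zsmul_mem hu j)
        have huw' : dt u w' = 1 := by
          rw [hw', dt_subR, dt_zsmulR, dt_selfA, mul_zero, sub_zero, hw1]
        have hw'v : dt w' v = a := by
          rw [hw', dt_subL, dt_zsmulL, hk, hd, hka]
          push_cast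
          ring
        have hpw' := (uni_prim hG hu hw'G huw').2
        have hane : a ≠ 0 := by
          intro h0
          rw [h0, Int.cast_zero] at hw'v
          rcases par_eq hw'G hpw' hv hpv hw'v with h | h
          · rw [h, huw'] at hd
            have : (1 : ℕ) = n := by exact_mod_cast hd
            omega
          · rw [h, dt_negR, huw'] at hd
            have : (-1 : ℤ) = n := by exact_mod_cast hd
            omega
        set w2 := w' - u with hw2
        have hw2G : w2 ∈ G := G.sub_mem hw'G hu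
        have huw2 : dt u w2 = 1 := by
          rw [hw2, dt_subR, dt_selfA, sub_zero, huw']
        have hpw2 := (uni_prim hG hu hw2G huw2).2
        have hw2v : dt w2 v = a - n := by
          rw [hw2, dt_subL, hd, hw'v]
        by_cases hS : w' ∈ S
        · have hS2 : w2 ∉ S := by
            intro h
            apply hSu
            have := S.sub_mem hS h
            rwa [hw2, sub_sub_cancel] at this
          refine htrans u w2 v (hadj u w2 hu hw2G huw2 hSu hS2) ?_
          refine ih (n - a.toNat) (by omega) w2 v hw2G hpw2 hS2 hv hpv hSv ?_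
          rw [hw2v]
          have h1 : ((n - a.toNat : ℕ) : ℤ) = n - a := by omega
          have h2 : ((n - a.toNat : ℕ) : ℚ) = ((n - a : ℤ) : ℚ) := by
            exact_mod_cast congrArg (Int.cast : ℤ → ℚ) h1
          rw [h2]
          push_cast
          rw [abs_sub_comm, abs_of_nonneg]
          have : (a : ℚ) < n := by exact_mod_cast han
          linarith
        · refine htrans u w' v (hadj u w' hu hw'G huw' hSu hS) ?_
          refine ih a.toNat (by omega) w' v hw'G hpw' hS hv hpv hSv ?_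
          rw [hw'v]
          have h1 : ((a.toNat : ℕ) : ℤ) = a := by omega
          have h2 : ((a.toNat : ℕ) : ℚ) = ((a : ℤ) : ℚ) := by
            exact_mod_cast congrArg (Int.cast : ℤ → ℚ) h1
          rw [h2, abs_of_nonneg]
          exact_mod_cast ha0
    intro u v hu hpu hSu hv hpv hSv hd
    rcases abs_choice (dt u v) with h | h
    · exact pos u v hu hpu hSu hv hpv hSv (by rw [← h, hd])
    · obtain ⟨h1, h2, h3⟩ := hneg v hv hpv hSv
      have := pos u (-v) hu hpu hSu h1 h2 h3 (by rw [dt_negR, ← h, hd])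
      exact htrans _ _ _ this (hsymm _ _ (hself v hv hSv hpv).2)
  intro u v hu hpu hSu hv hpv hSv
  obtain ⟨k, hk⟩ := uni_int hG hu hv
  refine key k.natAbs u v hu hpu hSu hv hpv hSv ?_
  rw [hk]
  have : ((k.natAbs : ℤ) : ℚ) = ((|k| : ℤ) : ℚ) := by rw [Int.natCast_natAbs]
  rw [← Int.cast_abs, ← this]
  simp

end Pool.Agent.TAM
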