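import Mathlib
import Pool.Agent.TAM.BS
import Pool.Agent.TAM.FA
import Pool.Agent.TAM.Chain

/-!
PROJECT TAM, module S1: step 5c, a failure of (S_D) produces a type I frame.
PLAN. s1_bd: a bad frame produces a type I frame: chain for F (`CC i (lat F) c → c • F.1 ∈ R2`): there is i with `¬ ∀ c, CC i (lat F) c ↔ c ∈ ℤ` (as `1 • F.1 ∉ R2`, Bd.ni, `CC i 1` fails for this i).
 Induction on i for all bad F: `i = 0`: CC_zero and Bd.l0, impossible. `i + 1`: if `CC 1 (lat F)` is not ℤ: bsC. Otherwise bsA: done, or `Bd D (shf F)` with `CC i (lat (shf F)) ↔ CC (i+1) (lat F)`.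
s1: Case `L0 = L1 = G` (at F): let `S = {p | vec F p ∈ R2}` (AddSubgroup). For primitive `u ∈ G`: alive iff `u ∉ S`: if `u ∈ S` the frame `bas u.1 b u.2 d F` is Triv (`c • u ∈ G → c ∈ ℤ → c • vec ∈ R2`), dead excludes
 alive; if `u ∉ S` then it is not Triv (c = 1), lemR gives alive. Scale p, q to primitive vectors (uni_primitive_multiple, al_smul, sm_smul). If all pairs `u, v ∈ G \ S` with `dt u v = 1` were Sm-related, faA would give Sm p q.
 So there are `u, v ∈ G \ S`, `dt u v = 1`, not Sm, both alive. `G' = bas u.1 v.1 u.2 v.2 F = (vec u, vec v)`: L0 = L1 = ℤ² there (uni_basis, mem_L0_bas): Bd. s1_bd.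
 Case `L0 ≠ L1`: if both p, q are ND: sda, contradiction. Some ND vector exists: take (gd_frame) ... if all nonzero vectors had the same multiples in L0 and L1 then L0 = L1. By symmetry and sda (transitivity): one of p, q, call it v, is alive,
 not ND and not Sm-related to some (all) ND vectors [if p is not ND: it is not related to an ND vector w, or q is not: since if both p ~ w, q ~ w then p ~ q; if q is ND take w = q]. Let `x = a • v` primitive in L0, it lies in L1 and is primitive there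
 (not ND). uni_compl in L1: `y ∈ L1`, `dt x y = 1`. `y` is ND: y ≠ 0; if `∀ c, c•y ∈ L0 ↔ c•y ∈ L1` then y ∈ L0, uni_eq gives L0 = L1. `G = bas x.1 y.1 x.2 y.2 F`: `L1 G = ℤ²` (uni_basis), `(c,0) ∈ L0 G ↔ c • x ∈ L0 ↔ c ∈ ℤ`; `vec F x ∉ R2` by dead (else Triv);
 alive; not Sm (vec x) (vec y) because y is ND and sda. `L0 G ≠ L1 G`. So TI.
-/

namespace Pool.Agent.TAM

open LaurentPolynomial

private theorem s1_ind {D : ℕ} : ∀ (i : ℕ) (F : W × W), Bd D F →
    (¬ ∀ c : ℚ, CC i (lat F) c ↔ ∃ k : ℤ, c = k) → ∃ G, TI D G := by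
  intro i
  induction i with
  | zero =>
    intro F h hn
    exact absurd (fun c => by rw [CC_zero]; exact h.l0 c) hn
  | succ i ih =>
    intro F h hn
    by_cases hl : ∀ c : ℚ, CC 1 (lat F) c ↔ ∃ k : ℤ, c = k
    · rcases bsA h hl with ⟨hb, _⟩ | ⟨θ, hT⟩
      · refine ih (shf F) hb ?_
        intro h1
        apply hn
        intro c
        rw [← CC_shf]
        exact h1 c
      · exact ⟨_, hT⟩
    · exact ⟨_, bsC h hl⟩

theorem s1_bd {D : ℕ} {F : W × W} (h : Bd D F) : ∃ G, TI D G := by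
  obtain ⟨i, hi⟩ := chain h.fr
  refine s1_ind i F h ?_
  intro h1
  have h2 := hi 1 ((h1 1).2 ⟨1, by norm_num⟩)
  rw [one_smul] at h2
  exact h.ni h2

/-- The vectors of the plane which are integral. -/
private noncomputable def vS (F : W × W) : AddSubgroup (ℚ × ℚ) where
  carrier := {p | vec F p ∈ R2}
  zero_mem' := by
    show vec F 0 ∈ R2
    have : vec F 0 = 0 := by simp [vec]
    rw [this]
    exact R2.zero_mem
  add_mem' := by
    intro a b ha hb
    have h := R2.add_mem ha hb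
    show vec F (a + b) ∈ R2
    have e : vec F (a + b) = vec F a + vec F b := by
      simp only [vec, Prod.fst_add, Prod.snd_add, add_smul]
      abel
    rw [e]
    exact h
  neg_mem' := by
    intro a ha
    have h := R2.neg_mem ha
    show vec F (-a) ∈ R2
    have e : vec F (-a) = -vec F a := by
      simp only [vec, Prod.fst_neg, Prod.snd_neg, neg_smul]
      abel
    rw [e]
    exact h

private theorem mem_vS {F : W × W} {p : ℚ × ℚ} : p ∈ vS F ↔ vec F p ∈ R2 := Iff.rfl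

private theorem line_L0 {a b c d : ℚ} (h : a * d - b * c = 1) {F : W × W} (e : ℚ) :
    (e, 0) ∈ L0 (lat (bas a b c d F)) ↔ e • ((a, c) : ℚ × ℚ) ∈ L0 (lat F) := by
  rw [mem_L0_bas h]
  have : (a * e + b * 0, c * e + d * 0) = e • ((a, c) : ℚ × ℚ) := by
    refine Prod.ext ?_ ?_
    · show a * e + b * 0 = e * a
      ring
    · show c * e + d * 0 = e * c
      ring
  rw [this]

private theorem line_L1 {a b c d : ℚ} (h : a * d - b * c = 1) {F : W × W} (e : ℚ) :
    (e, 0) ∈ L1 (lat (bas a b c d F)) ↔ e • ((a, c) : ℚ × ℚ) ∈ L1 (lat F) := by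
  rw [mem_L1_bas h]
  have : (a * e + b * 0, c * e + d * 0) = e • ((a, c) : ℚ × ℚ) := by
    refine Prod.ext ?_ ?_
    · show a * e + b * 0 = e * a
      ring
    · show c * e + d * 0 = e * c
      ring
  rw [this]

private theorem alive_of_not {D : ℕ} {F : W × W} (hF : IsFr F) (hN : NF F = D) {u : ℚ × ℚ}
    (hu : u ≠ 0) (hm : u ∈ L0 (lat F)) (hS : vec F u ∉ R2) : Al D (vec F u) := by
  obtain ⟨b, d, hd, h1, h2⟩ := frame_of_vec hF hu
  have hN' : NF (bas u.1 b u.2 d F) = D := by rw [NF_bas hd, hN]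
  set H := bas u.1 b u.2 d F with hH
  have hfr : IsFr (H.1, H.2) := h2
  have hnt : ¬ Triv (H.1, H.2) := by
    intro ht
    have h3 := ht 1 (Or.inl (by
      show (1, 0) ∈ L0 (lat (bas u.1 b u.2 d F))
      rw [line_L0 hd, one_smul]
      exact hm))
    rw [one_smul] at h3
    apply hS
    rw [← h1]
    exact h3
  obtain ⟨y', hy1, hy2, _⟩ := lemR hfr hnt
  refine ⟨y', ?_, ?_⟩
  · rw [← h1]
    exact hy1
  · rw [← h1, ← hN']
    exact hy2

private theorem dead_of {D : ℕ} {F : W × W} (hF : IsFr F) (hN : NF F = D) {u : ℚ × ℚ}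
    (hu : u ≠ 0) (h0 : ∀ c : ℚ, c • u ∈ L0 (lat F) → ∃ k : ℤ, c = k)
    (h1 : ∀ c : ℚ, c • u ∈ L1 (lat F) → ∃ k : ℤ, c = k) (hS : vec F u ∈ R2) :
    ¬ Al D (vec F u) := by
  intro hA
  obtain ⟨b, d, hd, h3, h2⟩ := frame_of_vec hF hu
  have hN' : NF (bas u.1 b u.2 d F) = D := by rw [NF_bas hd, hN]
  set H := bas u.1 b u.2 d F with hH
  have hfr : IsFr (H.1, H.2) := h2
  have ht : Triv (H.1, H.2) := by
    intro c hc
    have hk : ∃ k : ℤ, c = k := by
      rcases hc with hc | hc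
      · have hc' : (c, 0) ∈ L0 (lat (bas u.1 b u.2 d F)) := hc
        rw [line_L0 hd] at hc'
        exact h0 c hc'
      · have hc' : (c, 0) ∈ L1 (lat (bas u.1 b u.2 d F)) := hc
        rw [line_L1 hd] at hc'
        exact h1 c hc'
    obtain ⟨k, rfl⟩ := hk
    show (k : ℚ) • H.1 ∈ R2
    rw [h3]
    exact R2_int_smul k hS
  have hA' : Al D H.1 := by rw [h3]; exact hA
  have h5 := dead hfr ht hA'
  have h6 : NF (H.1, H.2) = D := hN'
  omega

/-- Coordinates with respect to a basis of determinant `1`. -/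
private theorem coord_iff {G : AddSubgroup (ℚ × ℚ)} (hG : Uni G) {u v : ℚ × ℚ} (hu : u ∈ G)
    (hv : v ∈ G) (h : dt u v = 1) (p : ℚ × ℚ) :
    (u.1 * p.1 + v.1 * p.2, u.2 * p.1 + v.2 * p.2) ∈ G ↔ ∃ m n : ℤ, p = ((m : ℚ), (n : ℚ)) := by
  constructor
  · intro hp
    obtain ⟨m, n, hmn⟩ := uni_basis hG hu hv h _ hp
    refine ⟨m, n, ?_⟩
    have e1 := congrArg Prod.fst hmn
    have e2 := congrArg Prod.snd hmn
    simp only [Prod.fst_add, Prod.snd_add, Prod.smul_fst, Prod.smul_snd] at e1 e2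
    simp only [zsmul_eq_mul] at e1 e2
    simp only [dt] at h
    refine Prod.ext ?_ ?_
    · show p.1 = m
      have : (u.1 * v.2 - u.2 * v.1) * p.1 = (u.1 * v.2 - u.2 * v.1) * m := by
        linear_combination v.2 * e1 - v.1 * e2
      rwa [h, one_mul, one_mul] at this
    · show p.2 = n
      have : (u.1 * v.2 - u.2 * v.1) * p.2 = (u.1 * v.2 - u.2 * v.1) * n := by
        linear_combination u.1 * e2 - u.2 * e1
      rwa [h, one_mul, one_mul] at this
  · rintro ⟨m, n, rfl⟩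
    have e : (u.1 * (m : ℚ) + v.1 * (n : ℚ), u.2 * (m : ℚ) + v.2 * (n : ℚ)) = m • u + n • v := by
      refine Prod.ext ?_ ?_
      · simp only [Prod.fst_add, Prod.smul_fst]
        simp only [zsmul_eq_mul]
        ring
      · simp only [Prod.snd_add, Prod.smul_snd]
        simp only [zsmul_eq_mul]
        ring
    rw [e]
    exact G.add_mem (G.zsmul_mem hu m) (G.zsmul_mem hv n)

private theorem ne_of_dt {u v : ℚ × ℚ} (h : dt u v = 1) : u ≠ 0 ∧ v ≠ 0 := by
  constructor
  · rintro rfl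
    simp [dt] at h
  · rintro rfl
    simp [dt] at h

theorem s1_eq {D : ℕ} {F : W × W} (hF : IsFr F) (hN : NF F = D) (he : L0 (lat F) = L1 (lat F))
    {p q : ℚ × ℚ} (hp : p ≠ 0) (hq : q ≠ 0) (hpa : Al D (vec F p)) (hqa : Al D (vec F q))
    (hns : ¬ Sm D (vec F p) (vec F q)) : ∃ G, TI D G := by
  by_contra hno
  have hG : Uni (L0 (lat F)) := (gd_frame hF).u0
  obtain ⟨a, ha, hap, happ⟩ := uni_primitive_multiple hG hp
  obtain ⟨b, hb, hbq, hbqq⟩ := uni_primitive_multiple hG hq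
  have hap0 : a • p ≠ 0 := smul_ne_zero ha.ne' hp
  have hbq0 : b • q ≠ 0 := smul_ne_zero hb.ne' hq
  have hA1 : Al D (vec F (a • p)) := by rw [vec_smul]; exact al_smul hpa ha.ne'
  have hA2 : Al D (vec F (b • q)) := by rw [vec_smul]; exact al_smul hqa hb.ne'
  have hS1 : a • p ∉ vS F := by
    intro h
    exact dead_of hF hN hap0 happ (by rw [← he]; exact happ) (mem_vS.1 h) hA1
  have hS2 : b • q ∉ vS F := by
    intro h
    exact dead_of hF hN hbq0 hbqq (by rw [← he]; exact hbqq) (mem_vS.1 h) hA2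
  have key := faA (G := L0 (lat F)) (S := vS F) hG (fun u v => Sm D (vec F u) (vec F v))
    (fun u v h => sm_symm h) (fun u v w h h' => sm_trans h h') ?_ ?_ (a • p) (b • q) hap happ hS1
    hbq hbqq hS2
  · apply hns
    have h1 : Sm D (vec F p) (vec F (a • p)) := by rw [vec_smul]; exact sm_smul hpa ha.ne'
    have h2 : Sm D (vec F q) (vec F (b • q)) := by rw [vec_smul]; exact sm_smul hqa hb.ne'
    exact sm_trans (sm_trans h1 key) (sm_symm h2)
  · intro u hu hSu hpr
    have hu0 : u ≠ 0 := by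
      rintro rfl
      exact hSu (vS F).zero_mem
    have hA := alive_of_not hF hN hu0 hu hSu
    refine ⟨sm_self hA, ?_⟩
    have h1 := sm_smul hA (c := -1) (by norm_num)
    rw [← vec_smul, neg_one_smul] at h1
    exact h1
  · intro u v hu hv hd hSu hSv
    by_contra hns'
    apply hno
    obtain ⟨hu0, hv0⟩ := ne_of_dt hd
    have hdet : u.1 * v.2 - v.1 * u.2 = 1 := by
      rw [← hd]
      simp only [dt]
      ring
    apply s1_bd (F := bas u.1 v.1 u.2 v.2 F)
    refine ⟨isFr_bas hdet hF, by rw [NF_bas hdet, hN], ?_, ?_, ?_, ?_, ?_, ?_⟩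
    · intro r
      rw [mem_L1_bas hdet, ← he]
      exact coord_iff hG hu hv hd r
    · intro c
      rw [mem_L0_bas hdet]
      have h1 := coord_iff hG hu hv hd (c, 0)
      rw [h1]
      constructor
      · rintro ⟨m, n, hmn⟩
        exact ⟨m, congrArg Prod.fst hmn⟩
      · rintro ⟨k, rfl⟩
        exact ⟨k, 0, by simp⟩
    · exact hSu
    · exact alive_of_not hF hN hu0 hu hSu
    · exact alive_of_not hF hN hv0 hv hSv
    · exact hns'

private theorem s1_key {D : ℕ} {F : W × W} (hF : IsFr F) (hN : NF F = D)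
    (hne : L0 (lat F) ≠ L1 (lat F)) {v w : ℚ × ℚ} (hv : v ≠ 0) (hva : Al D (vec F v))
    (hw : ND (L0 (lat F)) (L1 (lat F)) w) (hns : ¬ Sm D (vec F v) (vec F w)) : ∃ G, TI D G := by
  have hG0 : Uni (L0 (lat F)) := (gd_frame hF).u0
  have hG1 : Uni (L1 (lat F)) := (gd_frame hF).u1
  have hnd : ∀ c : ℚ, c • v ∈ L0 (lat F) ↔ c • v ∈ L1 (lat F) := by
    by_contra hh
    exact hns (sda hF hN hne ⟨hv, hh⟩ hw)
  obtain ⟨a, ha, hx, hxp⟩ := uni_primitive_multiple hG0 hv
  have hx0 : a • v ≠ 0 := smul_ne_zero ha.ne' hv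
  have hx1 : a • v ∈ L1 (lat F) := (hnd a).1 hx
  have hxp1 : ∀ c : ℚ, c • (a • v) ∈ L1 (lat F) → ∃ k : ℤ, c = k := by
    intro c hc
    apply hxp c
    rw [smul_smul] at hc ⊢
    exact (hnd _).2 hc
  obtain ⟨y, hy, hd⟩ := uni_compl hG1 hx1 hxp1
  obtain ⟨_, hy0⟩ := ne_of_dt hd
  have hyn : y ∉ L0 (lat F) := by
    intro h
    exact hne (uni_eq hG0 hG1 hx h hx1 hy hd)
  have hyND : ND (L0 (lat F)) (L1 (lat F)) y := by
    refine ⟨hy0, fun h => hyn ?_⟩
    have := (h 1).2 (by rw [one_smul]; exact hy)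
    rwa [one_smul] at this
  set x := a • v with hxdef
  have hAx : Al D (vec F x) := by rw [hxdef, vec_smul]; exact al_smul hva ha.ne'
  have hvx : Sm D (vec F v) (vec F x) := by rw [hxdef, vec_smul]; exact sm_smul hva ha.ne'
  have hdet : x.1 * y.2 - y.1 * x.2 = 1 := by
    rw [← hd]
    simp only [dt]
    ring
  refine ⟨bas x.1 y.1 x.2 y.2 F, ⟨isFr_bas hdet hF, by rw [NF_bas hdet, hN], ?_, ?_, ?_, ?_, ?_,
    ?_⟩, ?_⟩
  · intro r
    rw [mem_L1_bas hdet]
    exact coord_iff hG1 hx1 hy hd r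
  · intro c
    rw [line_L0 hdet]
    constructor
    · exact hxp c
    · rintro ⟨k, rfl⟩
      have h1 := (L0 (lat F)).zsmul_mem hx k
      have h2 : (k : ℚ) • ((x.1, x.2) : ℚ × ℚ) = k • x := by
        refine Prod.ext ?_ ?_ <;> simp
      rw [h2]
      exact h1
  · intro h
    exact dead_of hF hN hx0 hxp hxp1 h hAx
  · exact hAx
  · exact nd_alive hF hN hyND
  · intro h
    have h1 : Sm D (vec F x) (vec F y) := h
    exact hns (sm_trans (sm_trans hvx h1) (sda hF hN hne hyND hw))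
  · intro h
    apply hyn
    have h1 : ((0 : ℚ), (1 : ℚ)) ∈ L1 (lat (bas x.1 y.1 x.2 y.2 F)) := by
      rw [mem_L1_bas hdet]
      have e : (x.1 * (0 : ℚ) + y.1 * 1, x.2 * (0 : ℚ) + y.2 * 1) = y := by
        refine Prod.ext ?_ ?_
        · show x.1 * 0 + y.1 * 1 = y.1
          ring
        · show x.2 * 0 + y.2 * 1 = y.2
          ring
      show (x.1 * (0 : ℚ) + y.1 * 1, x.2 * (0 : ℚ) + y.2 * 1) ∈ _
      rw [e]
      exact hy
    rw [← h, mem_L0_bas hdet] at h1
    have e : (x.1 * (0 : ℚ) + y.1 * 1, x.2 * (0 : ℚ) + y.2 * 1) = y := by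
      refine Prod.ext ?_ ?_
      · show x.1 * 0 + y.1 * 1 = y.1
        ring
      · show x.2 * 0 + y.2 * 1 = y.2
        ring
    have h2 : (x.1 * (0 : ℚ) + y.1 * 1, x.2 * (0 : ℚ) + y.2 * 1) ∈ L0 (lat F) := h1
    rw [e] at h2
    exact h2

theorem s1_ne {D : ℕ} {F : W × W} (hF : IsFr F) (hN : NF F = D) (hne : L0 (lat F) ≠ L1 (lat F))
    {p q : ℚ × ℚ} (hp : p ≠ 0) (hq : q ≠ 0) (hpa : Al D (vec F p)) (hqa : Al D (vec F q))
    (hns : ¬ Sm D (vec F p) (vec F q)) : ∃ G, TI D G := by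
  have hw : ∃ w, ND (L0 (lat F)) (L1 (lat F)) w := by
    by_contra hno
    apply hne
    ext r
    by_cases hr : r = 0
    · rw [hr]
      exact ⟨fun _ => AddSubgroup.zero_mem _, fun _ => AddSubgroup.zero_mem _⟩
    · by_contra hr2
      apply hno
      refine ⟨r, hr, fun h => hr2 ?_⟩
      have := h 1
      rwa [one_smul] at this
  obtain ⟨w, hw⟩ := hw
  by_cases h1 : Sm D (vec F p) (vec F w)
  · by_cases h2 : Sm D (vec F q) (vec F w)
    · exact absurd (sm_trans h1 (sm_symm h2)) hns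
    · exact s1_key hF hN hne hq hqa hw h2
  · exact s1_key hF hN hne hp hpa hw h1

end Pool.Agent.TAM
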