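import Mathlib
import Pool.Agent.TAM.BS

/-!
PROJECT TAM, module S2: step 5d, propagation of type I frames with minimal `a`.
`Pm D a F`: type I, `CC i (lat F) = ℤ` for `i < a` and `CC a (lat F) ≠ ℤ`.
PLAN. s2_tr: `G = bas 1 c 0 1 F = (x, y + c x)`, c an integer. `L1 G = ℤ²` and `(k,0) ∈ L0 G ↔ ..` by mem_L0_bas / mem_L1_bas; L0 G ≠ L1 G (otherwise L0 F = L1 F: transport back); CC by CC_bas. `(0,1)` and `(c,1)` are ND at F: they lie in `L1 F = ℤ²`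
 but not in `L0 F` (if `(c,1) ∈ L0 F` then with `(1,0) ∈ L0 F`, `dt (1,0) (c,1) = 1`, uni_eq gives L0 F = L1 F). sda: Sm y (y + c x); so alive and not Sm x (y + c x).
s2_mid: `F_i = (x, T^i y) = shf^[i] F`. For `1 ≤ i < a`: `Bd D F_i` and `L0 F_i = L1 F_i`. Induction: bsA for F_{i-1} with `CC 1 (lat F_{i-1}) = CC i (lat F) = ℤ` (CC_shf iterated); the second alternative of bsA gives a type I frame
 `H = bas 1 θ 0 1 F_i` with `CC j (lat H) = CC (j + i) (lat F)`, `CC (a - i) (lat H) ≠ ℤ` and `a - i < a`, contradiction with hmin.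
s2_flip: `F_{a-1}` is Bd (F itself if a = 1), `CC 1 (lat F_{a-1}) = CC a (lat F) ≠ ℤ`: bsC: `bas 0 (-1) 1 0 F_a = (T^a y, -x)` is TI. Its chain: `K = (T^a y, -x)`, `(c,0) ∈ L0 (lat (shf^[i] K))`, `shf^[i] K = (T^a y, -T^i x)`
 `= bas 0 (-1) 1 0` of `(T^i x, T^a y)`, and `(T^i x, T^a y) = hm^[i] (x, T^(a-i) y)` for `i ≤ a`: so `CC i (lat K) c ↔ (0, c) ∈ L0 (lat (x, T^(a-i) y))`. For `i = 0`: bs_shf for F_{a-1}: ℤ. For `1 ≤ i < a`: F_{a-i} is Bd with L0 = L1 = ℤ². For `i = a`: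
 `(0,c) ∈ L0 (lat F)`: if this were ℤ then (0,1), (1,0) ∈ L0 F ∩ L1 F, uni_eq: L0 F = L1 F, contradiction.
-/

namespace Pool.Agent.TAM

open LaurentPolynomial

/-- Type I frames whose chain drops exactly at `a`. -/
def Pm (D a : ℕ) (F : W × W) : Prop :=
  TI D F ∧ (∀ i < a, ∀ c : ℚ, CC i (lat F) c ↔ ∃ k : ℤ, c = k) ∧
    ¬ ∀ c : ℚ, CC a (lat F) c ↔ ∃ k : ℤ, c = k

private theorem ne01 {F : W × W} (hF : IsFr F) (hne : L0 (lat F) ≠ L1 (lat F))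
    (h1 : ∀ p : ℚ × ℚ, p ∈ L1 (lat F) ↔ ∃ m n : ℤ, p = ((m : ℚ), (n : ℚ)))
    (h0 : ∀ c : ℚ, (c, 0) ∈ L0 (lat F) ↔ ∃ k : ℤ, c = k) (c : ℤ) :
    ((c : ℚ), (1 : ℚ)) ∉ L0 (lat F) := by
  intro hc
  apply hne
  have e1 : ((1 : ℚ), (0 : ℚ)) ∈ L0 (lat F) := (h0 1).2 ⟨1, by simp⟩
  have e2 : ((1 : ℚ), (0 : ℚ)) ∈ L1 (lat F) := (h1 _).2 ⟨1, 0, by simp⟩
  have e3 : ((c : ℚ), (1 : ℚ)) ∈ L1 (lat F) := (h1 _).2 ⟨c, 1, by simp⟩
  exact uni_eq (gd_frame hF).u0 (gd_frame hF).u1 e1 hc e2 e3 (by simp [dt])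

private theorem nd1 {F : W × W} (hF : IsFr F) (hne : L0 (lat F) ≠ L1 (lat F))
    (h1 : ∀ p : ℚ × ℚ, p ∈ L1 (lat F) ↔ ∃ m n : ℤ, p = ((m : ℚ), (n : ℚ)))
    (h0 : ∀ c : ℚ, (c, 0) ∈ L0 (lat F) ↔ ∃ k : ℤ, c = k) (c : ℤ) :
    ND (L0 (lat F)) (L1 (lat F)) ((c : ℚ), (1 : ℚ)) := by
  refine ⟨?_, ?_⟩
  · intro h
    have := congrArg Prod.snd h
    simp at this
  · intro h
    have e3 : ((c : ℚ), (1 : ℚ)) ∈ L1 (lat F) := (h1 _).2 ⟨c, 1, by simp⟩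
    have h2 := (h 1).2 (by rw [one_smul]; exact e3)
    rw [one_smul] at h2
    exact ne01 hF hne h1 h0 c h2

theorem s2_tr {D a : ℕ} {F : W × W} (h : Pm D a F) (c : ℤ) : Pm D a (bas 1 c 0 1 F) := by
  obtain ⟨⟨hB, hne⟩, hlt, hna⟩ := h
  have hdet : (1 : ℚ) * 1 - (c : ℚ) * 0 = 1 := by ring
  have hf1 : (bas 1 (c : ℚ) 0 1 F).1 = F.1 := by simp [bas]
  have hf2 : (bas 1 (c : ℚ) 0 1 F).2 = vec F ((c : ℚ), 1) := by simp [bas, vec]
  have hv2 : F.2 = vec F (((0 : ℤ) : ℚ), 1) := by simp [vec]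
  have hsm : Sm D (vec F (((0 : ℤ) : ℚ), 1)) (vec F ((c : ℚ), 1)) :=
    sda hB.fr hB.nf hne (nd1 hB.fr hne hB.l1 hB.l0 0) (nd1 hB.fr hne hB.l1 hB.l0 c)
  refine ⟨⟨⟨isFr_bas hdet hB.fr, ?_, ?_, ?_, ?_, ?_, ?_, ?_⟩, ?_⟩, ?_, ?_⟩
  · rw [NF_bas hdet]; exact hB.nf
  · intro p
    rw [mem_L1_bas hdet, hB.l1]
    constructor
    · rintro ⟨m, n, hmn⟩
      have e1 := congrArg Prod.fst hmn
      have e2 := congrArg Prod.snd hmn
      simp only at e1 e2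
      refine ⟨m - c * n, n, ?_⟩
      refine Prod.ext ?_ ?_
      · show p.1 = ((m - c * n : ℤ) : ℚ)
        push_cast
        have : p.2 = n := by linarith
        rw [this] at e1
        linarith
      · show p.2 = (n : ℚ)
        linarith
    · rintro ⟨m, n, rfl⟩
      refine ⟨m + c * n, n, ?_⟩
      refine Prod.ext ?_ ?_
      · show (1 : ℚ) * m + c * n = ((m + c * n : ℤ) : ℚ)
        push_cast
        ring
      · show (0 : ℚ) * m + 1 * n = (n : ℚ)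
        ring
  · intro c'
    rw [mem_L0_bas hdet, ← hB.l0 c']
    have : ((1 : ℚ) * c' + (c : ℚ) * 0, (0 : ℚ) * c' + 1 * 0) = (c', (0 : ℚ)) := by
      refine Prod.ext ?_ ?_
      · show (1 : ℚ) * c' + (c : ℚ) * 0 = c'
        ring
      · show (0 : ℚ) * c' + 1 * 0 = 0
        ring
    show ((1 : ℚ) * c' + (c : ℚ) * 0, (0 : ℚ) * c' + 1 * 0) ∈ L0 (lat F) ↔ _
    rw [this]
  · rw [hf1]; exact hB.ni
  · rw [hf1]; exact hB.a1
  · rw [hf2]; exact (al_of_sm hsm).2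
  · rw [hf1, hf2]
    intro hs
    apply hB.ns
    rw [hv2]
    exact sm_trans hs (sm_symm hsm)
  · intro he
    apply hne
    ext p
    have hp : ∀ G : AddSubgroup (ℚ × ℚ), p ∈ G ↔
        ((1 : ℚ) * (p.1 - c * p.2) + (c : ℚ) * p.2, (0 : ℚ) * (p.1 - c * p.2) + 1 * p.2) ∈ G := by
      intro G
      have : ((1 : ℚ) * (p.1 - c * p.2) + (c : ℚ) * p.2,
          (0 : ℚ) * (p.1 - c * p.2) + 1 * p.2) = p := by
        refine Prod.ext ?_ ?_
        · show (1 : ℚ) * (p.1 - c * p.2) + (c : ℚ) * p.2 = p.1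
          ring
        · show (0 : ℚ) * (p.1 - c * p.2) + 1 * p.2 = p.2
          ring
      rw [this]
    rw [hp (L0 (lat F)), hp (L1 (lat F))]
    have e0 := mem_L0_bas hdet (F := F) (p := (p.1 - c * p.2, p.2))
    have e1 := mem_L1_bas hdet (F := F) (p := (p.1 - c * p.2, p.2))
    rw [← e0, ← e1, he]
  · intro i hi c'
    rw [CC_bas]
    exact hlt i hi c'
  · intro hall
    apply hna
    intro c'
    rw [← hall c', CC_bas]

/-- The frame `(x, T^i y)`. -/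
private noncomputable def Fi (F : W × W) (i : ℕ) : W × W := (F.1, (T (i : ℤ) : RQ) • F.2)

private theorem Fi_zero (F : W × W) : Fi F 0 = F := by
  show (F.1, (T ((0 : ℕ) : ℤ) : RQ) • F.2) = F
  rw [Nat.cast_zero, T_zero, one_smul]

private theorem Fi_succ (F : W × W) (i : ℕ) : shf (Fi F i) = Fi F (i + 1) := by
  show (F.1, (T 1 : RQ) • ((T (i : ℤ) : RQ) • F.2)) = (F.1, (T ((i + 1 : ℕ) : ℤ) : RQ) • F.2)
  rw [smul_smul, ← T_add]
  congr 3
  push_cast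
  ring

private theorem CC_Fi (F : W × W) (i : ℕ) : ∀ (j : ℕ) (c : ℚ),
    CC j (lat (Fi F i)) c ↔ CC (j + i) (lat F) c := by
  induction i with
  | zero =>
    intro j c
    rw [Fi_zero, Nat.add_zero]
  | succ i ih =>
    intro j c
    rw [← Fi_succ, CC_shf, ih]
    have : j + 1 + i = j + (i + 1) := by omega
    rw [this]

private theorem mid_aux {D a : ℕ}
    (hmin : ∀ G, TI D G → ∀ i < a, ∀ c : ℚ, CC i (lat G) c ↔ ∃ k : ℤ, c = k)
    {F : W × W} (h : Pm D a F) (i : ℕ) : i + 1 < a →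
      Bd D (Fi F (i + 1)) ∧ L0 (lat (Fi F (i + 1))) = L1 (lat (Fi F (i + 1))) := by
  have step : ∀ i : ℕ, Bd D (Fi F i) → i + 1 < a →
      Bd D (Fi F (i + 1)) ∧ L0 (lat (Fi F (i + 1))) = L1 (lat (Fi F (i + 1))) := by
    intro i hB hi
    have h1 : ∀ c : ℚ, CC 1 (lat (Fi F i)) c ↔ ∃ k : ℤ, c = k := by
      intro c
      rw [CC_Fi]
      exact h.2.1 (1 + i) (by omega) c
    rcases bsA hB h1 with h2 | ⟨θ, h2⟩
    · rw [Fi_succ] at h2
      exact h2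
    · exfalso
      apply h.2.2
      intro c
      have h3 := hmin _ h2 (a - (i + 1)) (by omega) c
      rw [CC_bas, Fi_succ, CC_Fi] at h3
      have : a - (i + 1) + (i + 1) = a := by omega
      rw [this] at h3
      exact h3
  induction i with
  | zero =>
    intro hi
    refine step 0 ?_ hi
    rw [Fi_zero]
    exact h.1.1
  | succ i ih =>
    intro hi
    exact step (i + 1) (ih (by omega)).1 hi

theorem s2_mid {D a : ℕ} (hmin : ∀ G, TI D G → ∀ i < a, ∀ c : ℚ, CC i (lat G) c ↔ ∃ k : ℤ, c = k)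
    {F : W × W} (h : Pm D a F) {i : ℕ} (hi : 1 ≤ i) (hia : i < a) :
    Bd D (F.1, (T (i : ℤ) : RQ) • F.2) ∧
      L0 (lat (F.1, (T (i : ℤ) : RQ) • F.2)) = L1 (lat (F.1, (T (i : ℤ) : RQ) • F.2)) := by
  obtain ⟨j, rfl⟩ : ∃ j, i = j + 1 := ⟨i - 1, by omega⟩
  exact mid_aux hmin h j hia

private theorem lat_hmT (n : ℤ) (X Y : W) :
    lat ((T n : RQ) • X, (T n : RQ) • Y) = lat (X, Y) := by
  ext z
  rw [mem_lat, mem_lat]
  have : z.1 • ((T n : RQ) • X) + z.2 • ((T n : RQ) • Y) = (T n : RQ) • (z.1 • X + z.2 • Y) := by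
    rw [smul_add, smul_smul, smul_smul, smul_smul, smul_smul, mul_comm z.1, mul_comm z.2]
  show z.1 • ((T n : RQ) • X) + z.2 • ((T n : RQ) • Y) ∈ R2 ↔ _
  rw [this, T_smul_mem_R2]

private theorem bas_flip (X Y : W) : bas 0 (-1) 1 0 (X, Y) = (Y, -X) := by
  simp [bas]

private theorem flip_CC (F : W × W) {a i : ℕ} (hi : i ≤ a) (c : ℚ) :
    CC i (lat ((T (a : ℤ) : RQ) • F.2, -F.1)) c ↔ (0, c) ∈ L0 (lat (Fi F (a - i))) := by
  have h1 := CC_Fi ((T (a : ℤ) : RQ) • F.2, -F.1) i 0 c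
  rw [Nat.zero_add] at h1
  rw [← h1, CC_zero]
  have h2 : Fi ((T (a : ℤ) : RQ) • F.2, -F.1) i =
      bas 0 (-1) 1 0 ((T (i : ℤ) : RQ) • F.1, (T (a : ℤ) : RQ) • F.2) := by
    rw [bas_flip]
    show ((T (a : ℤ) : RQ) • F.2, (T (i : ℤ) : RQ) • (-F.1)) = _
    rw [smul_neg]
  have h3 : (T (a : ℤ) : RQ) • F.2 = (T (i : ℤ) : RQ) • ((T ((a - i : ℕ) : ℤ) : RQ) • F.2) := by
    rw [smul_smul, ← T_add]
    congr 2
    push_cast [Nat.cast_sub hi]
    ring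
  rw [h2, h3, mem_L0_bas (by norm_num), lat_hmT]
  show ((0 : ℚ) * c + (-1) * 0, (1 : ℚ) * c + 0 * 0) ∈ L0 (lat (Fi F (a - i))) ↔ _
  have : ((0 : ℚ) * c + (-1) * 0, (1 : ℚ) * c + 0 * 0) = ((0 : ℚ), c) := by
    refine Prod.ext ?_ ?_
    · show (0 : ℚ) * c + (-1) * 0 = 0
      ring
    · show (1 : ℚ) * c + 0 * 0 = c
      ring
  rw [this]

theorem s2_flip {D a : ℕ} (ha : 1 ≤ a)
    (hmin : ∀ G, TI D G → ∀ i < a, ∀ c : ℚ, CC i (lat G) c ↔ ∃ k : ℤ, c = k)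
    {F : W × W} (h : Pm D a F) : Pm D a ((T (a : ℤ) : RQ) • F.2, -F.1) := by
  have hB : Bd D (Fi F (a - 1)) := by
    rcases Nat.eq_or_lt_of_le ha with h1 | h1
    · have : a - 1 = 0 := by omega
      rw [this, Fi_zero]
      exact h.1.1
    · have h2 := mid_aux hmin h (a - 2) (by omega)
      have : a - 2 + 1 = a - 1 := by omega
      rw [this] at h2
      exact h2.1
  have hs : shf (Fi F (a - 1)) = Fi F a := by
    rw [Fi_succ]
    congr 1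
    omega
  have hTI : TI D ((T (a : ℤ) : RQ) • F.2, -F.1) := by
    have h1 : ¬ ∀ c : ℚ, CC 1 (lat (Fi F (a - 1))) c ↔ ∃ k : ℤ, c = k := by
      intro hall
      apply h.2.2
      intro c
      have h2 := hall c
      rw [CC_Fi] at h2
      have : 1 + (a - 1) = a := by omega
      rw [this] at h2
      exact h2
    have h2 := bsC hB h1
    rw [hs] at h2
    have h3 : bas 0 (-1) 1 0 (Fi F a) = ((T (a : ℤ) : RQ) • F.2, -F.1) := bas_flip _ _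
    rw [h3] at h2
    exact h2
  refine ⟨hTI, ?_, ?_⟩
  · intro i hi c
    rw [flip_CC F hi.le]
    rcases Nat.eq_zero_or_pos i with h0 | h0
    · subst h0
      rw [Nat.sub_zero, ← hs]
      exact (bs_shf hB).2.1 c
    · have h2 := mid_aux hmin h (a - i - 1) (by omega)
      have : a - i - 1 + 1 = a - i := by omega
      rw [this] at h2
      rw [h2.2, h2.1.l1]
      constructor
      · rintro ⟨m, n, hmn⟩
        exact ⟨n, congrArg Prod.snd hmn⟩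
      · rintro ⟨k, rfl⟩
        exact ⟨0, k, by simp⟩
  · intro hall
    have h1 := (hall 1).2 ⟨1, by simp⟩
    rw [flip_CC F le_rfl, Nat.sub_self, Fi_zero] at h1
    refine ne01 h.1.1.fr h.1.2 h.1.1.l1 h.1.1.l0 0 ?_
    simpa using h1

end Pool.Agent.TAM
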