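import Mathlib

/-!
PROJECT TAM, module S3core: the algebra of step 5e (everything over ℤ[T;T⁻¹], q a prime, a ≥ 1).
`stg a (f, g) = (T^(-a) g, g - f)`.
PLAN. Let `φ J = (stg a)^[J] (f, g)`.
 deg: for all J: q divides the coefficients of `(φ J).2` in degrees `> d`, not the one in degree `d`, and q divides the
   coefficients of `(φ J).1` in degrees `> d - a` (induction; a ≥ 1).
 bnd: there is δ with all coefficients of `(φ J).1, (φ J).2` in degrees `> δ` equal to 0, for all J.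
 F: `F 0 = 0, F 1 = 1, F (J+2) = F (J+1) - T^(-a) F J`; `F (J+1)` is supported in degrees `≤ 0` with constant coefficient 1.
 (C): `F (J+1) * (φ J).1 - T^(-a) * F J * (φ J).2 = T^(-a J) * f` (induction).
 Let `Q = q^(r-1)`, `g_J = (φ J).2 = p + q h` where `p` = the part of `g_J` in degrees `≤ d` (so `T^(-d) p` is supported in degrees `≤ 0`, with
 constant coefficient not divisible by q). `dvd_sub_pow_of_dvd_sub`: `g_J^Q ≡ p^Q mod q^r`.
 `u = F (J+1) * T^(-d Q) * g_J^(Q-1)` (Q ≥ 1).  Then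
   `u * g_J = F (J+1) * (T^(-d) g_J)^Q ≡ F (J+1) * (T^(-d) p)^Q =: B2 mod q^r`, supported in `≤ 0`, constant coefficient `(p_d)^Q`, not divisible by q;
   `u * (φ J).1 = T^(-dQ) g_J^(Q-1) (T^(-a) F J g_J + T^(-aJ) f) = T^(-a) F J (T^(-d) g_J)^Q + T^(-dQ) g_J^(Q-1) T^(-aJ) f`; the first summand is
   `≡ T^(-a) F J (T^(-d) p)^Q` mod q^r, supported in `≤ 0`; the second is supported in degrees `≤ -dQ + (Q-1)δ - aJ + δ ≤ 0` for J large.
-/

namespace Pool.Agent.TAM

open LaurentPolynomial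

/-- The step for `c = 1`. -/
noncomputable def stg (a : ℕ) (p : LaurentPolynomial ℤ × LaurentPolynomial ℤ) :
    LaurentPolynomial ℤ × LaurentPolynomial ℤ := (T (-(a : ℤ)) * p.2, p.2 - p.1)

/-- the coefficients of `f` in degrees `> d` are divisible by `k` -/
private def Lo (k d : ℤ) (f : LaurentPolynomial ℤ) : Prop := ∀ n, d < n → k ∣ f.coeff n

private theorem Lo.mono {k d e : ℤ} {f : LaurentPolynomial ℤ} (h : Lo k d f) (hde : d ≤ e) :
    Lo k e f := fun n hn => h n (lt_of_le_of_lt hde hn)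

private theorem Lo.dvd {k k' d : ℤ} {f : LaurentPolynomial ℤ} (h : Lo k d f) (hk : k' ∣ k) :
    Lo k' d f := fun n hn => hk.trans (h n hn)

private theorem Lo.add {k d : ℤ} {f g : LaurentPolynomial ℤ} (hf : Lo k d f) (hg : Lo k d g) :
    Lo k d (f + g) := fun n hn => by
  rw [AddMonoidAlgebra.coeff_add, Finsupp.add_apply]
  exact dvd_add (hf n hn) (hg n hn)

private theorem sub_coeff (f g : LaurentPolynomial ℤ) (n : ℤ) :
    (f - g).coeff n = f.coeff n - g.coeff n := by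
  have h : (f - g + g).coeff n = (f - g).coeff n + g.coeff n := by
    rw [AddMonoidAlgebra.coeff_add, Finsupp.add_apply]
  rw [sub_add_cancel] at h
  omega

private theorem Lo.sub {k d : ℤ} {f g : LaurentPolynomial ℤ} (hf : Lo k d f) (hg : Lo k d g) :
    Lo k d (f - g) := fun n hn => by
  rw [sub_coeff]
  exact dvd_sub (hf n hn) (hg n hn)

private theorem Lo.mul {k d e : ℤ} {f g : LaurentPolynomial ℤ} (hf : Lo k d f) (hg : Lo k e g) :
    Lo k (d + e) (f * g) := fun n hn => by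
  rw [AddMonoidAlgebra.coeff_mul]
  refine Finset.dvd_sum fun i _ => Finset.dvd_sum fun j _ => ?_
  dsimp only
  split_ifs with h
  · by_cases hi : d < i
    · exact Dvd.dvd.mul_right (hf i hi) _
    · exact Dvd.dvd.mul_left (hg j (by omega)) _
  · exact dvd_zero _

private theorem T_mul_coeff (m n : ℤ) (f : LaurentPolynomial ℤ) :
    (T m * f).coeff n = f.coeff (n - m) := by
  unfold T
  rw [AddMonoidAlgebra.coeff_single_mul_eq_mul_coeff (n - m), one_mul]
  intro m' _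
  omega

private theorem Lo.T_mul {k d : ℤ} (m : ℤ) {f : LaurentPolynomial ℤ} (hf : Lo k d f) :
    Lo k (m + d) (T m * f) := fun n hn => by
  rw [T_mul_coeff]
  exact hf _ (by omega)

private theorem Lo.erase {k d : ℤ} {f : LaurentPolynomial ℤ} (hf : Lo k d f) :
    Lo k (d - 1) (f.erase d) := fun n hn => by
  rw [AddMonoidAlgebra.coeff_erase]
  by_cases h : n = d
  · rw [h, Finsupp.erase_same]
    exact dvd_zero _
  · rw [Finsupp.erase_ne h]
    exact hf n (by omega)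

private theorem single_coeff (d n a : ℤ) :
    (AddMonoidAlgebra.single d a : LaurentPolynomial ℤ).coeff n = if d = n then a else 0 := by
  rw [AddMonoidAlgebra.coeff_single]
  exact Finsupp.single_apply

private theorem coeff_mul_mod {k d e : ℤ} {f g : LaurentPolynomial ℤ} (hf : Lo k d f)
    (hg : Lo k e g) : k ∣ (f * g).coeff (d + e) - f.coeff d * g.coeff e := by
  have hf' := hf.erase
  have hg' := hg.erase
  have e1 : AddMonoidAlgebra.single d (f.coeff d) + f.erase d = f :=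
    AddMonoidAlgebra.single_add_erase d f
  have e2 : AddMonoidAlgebra.single e (g.coeff e) + g.erase e = g :=
    AddMonoidAlgebra.single_add_erase e g
  have hs : Lo k d (AddMonoidAlgebra.single d (f.coeff d) : LaurentPolynomial ℤ) := fun n hn => by
    rw [single_coeff, if_neg (by omega)]
    exact dvd_zero _
  have e3 : f * g = AddMonoidAlgebra.single d (f.coeff d) * AddMonoidAlgebra.single e (g.coeff e) +
      (AddMonoidAlgebra.single d (f.coeff d) * g.erase e + f.erase d * g) := by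
    have h1 : f * g = (AddMonoidAlgebra.single d (f.coeff d) + f.erase d) * g := by rw [e1]
    have h2 : (AddMonoidAlgebra.single d (f.coeff d) : LaurentPolynomial ℤ) * g =
        AddMonoidAlgebra.single d (f.coeff d) * (AddMonoidAlgebra.single e (g.coeff e) + g.erase e) := by
      rw [e2]
    rw [h1, add_mul, h2, mul_add, add_assoc]
  have h4 := (hs.mul hg') (d + e) (by omega)
  have h5 := (hf'.mul hg) (d + e) (by omega)
  have h6 : (f * g).coeff (d + e) = f.coeff d * g.coeff e +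
      (((AddMonoidAlgebra.single d (f.coeff d) : LaurentPolynomial ℤ) * g.erase e).coeff (d + e) +
        (f.erase d * g).coeff (d + e)) := by
    conv_lhs => rw [e3]
    rw [AddMonoidAlgebra.coeff_add, Finsupp.add_apply, AddMonoidAlgebra.coeff_add,
      Finsupp.add_apply, AddMonoidAlgebra.single_mul_single, single_coeff, if_pos rfl]
  rw [h6, add_sub_cancel_left]
  exact dvd_add h4 h5

private theorem one_coeff (n : ℤ) : (1 : LaurentPolynomial ℤ).coeff n = if 0 = n then 1 else 0 := by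
  rw [← T_zero, T_apply]

private theorem Lo.pow {k d : ℤ} {f : LaurentPolynomial ℤ} (hf : Lo k d f) (m : ℕ) :
    Lo k (d * m) (f ^ m) := by
  induction m with
  | zero =>
    intro n hn
    rw [pow_zero, one_coeff, if_neg (by push_cast at hn; omega)]
    exact dvd_zero _
  | succ m ih =>
    have h := ih.mul hf
    rw [pow_succ]
    refine h.mono (le_of_eq ?_)
    push_cast
    ring

private theorem coeff_pow_mod {k d : ℤ} {f : LaurentPolynomial ℤ} (hf : Lo k d f) (m : ℕ) :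
    k ∣ (f ^ m).coeff (d * m) - f.coeff d ^ m := by
  induction m with
  | zero =>
    rw [pow_zero, pow_zero, one_coeff, if_pos (by simp), sub_self]
    exact dvd_zero _
  | succ m ih =>
    have h := coeff_mul_mod (hf.pow m) hf
    have e : d * ((m + 1 : ℕ) : ℤ) = d * m + d := by push_cast; ring
    rw [pow_succ, pow_succ, e]
    have h2 : (f ^ m * f).coeff (d * m + d) - f.coeff d ^ m * f.coeff d =
        ((f ^ m * f).coeff (d * m + d) - (f ^ m).coeff (d * m) * f.coeff d) +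
          ((f ^ m).coeff (d * m) - f.coeff d ^ m) * f.coeff d := by ring
    rw [h2]
    exact dvd_add h (Dvd.dvd.mul_right ih _)

/-- Decomposition into the part of degree `≤ d` and a multiple of `k`. -/
private theorem Lo.split {k : ℤ} {d : ℤ} {f : LaurentPolynomial ℤ} (hf : Lo k d f) :
    ∃ p h : LaurentPolynomial ℤ, f = p + (k : LaurentPolynomial ℤ) * h ∧ Lo 0 d p ∧
      p.coeff d = f.coeff d := by
  classical
  obtain ⟨p, hp⟩ : ∃ p : LaurentPolynomial ℤ,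
      p = AddMonoidAlgebra.ofCoeff (f.coeff.filter fun n => n ≤ d) := ⟨_, rfl⟩
  obtain ⟨h, hh⟩ : ∃ h : LaurentPolynomial ℤ, h = AddMonoidAlgebra.ofCoeff
      ((f.coeff.filter fun n => d < n).mapRange (fun a => a / k) (Int.zero_ediv k)) := ⟨_, rfl⟩
  have cp : ∀ n, p.coeff n = if n ≤ d then f.coeff n else 0 := fun n => by
    rw [hp, AddMonoidAlgebra.coeff_ofCoeff, Finsupp.filter_apply]
  have ch : ∀ n, h.coeff n = (if d < n then f.coeff n else 0) / k := fun n => by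
    rw [hh, AddMonoidAlgebra.coeff_ofCoeff, Finsupp.mapRange_apply, Finsupp.filter_apply]
  refine ⟨p, h, ?_, fun n hn => ?_, ?_⟩
  · ext n
    have e1 : ((k : LaurentPolynomial ℤ) * h).coeff n = k * h.coeff n := by
      have e2 : (k : LaurentPolynomial ℤ) = AddMonoidAlgebra.single 0 k := by
        rw [single_eq_C]
        simp
      rw [e2, AddMonoidAlgebra.coeff_single_mul_eq_mul_coeff n]
      intro m' _
      omega
    rw [AddMonoidAlgebra.coeff_add, Finsupp.add_apply, e1, cp, ch]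
    by_cases h1 : n ≤ d
    · rw [if_pos h1, if_neg (by omega), Int.zero_ediv, mul_zero, add_zero]
    · rw [if_neg h1, if_pos (by omega), zero_add, Int.mul_ediv_cancel' (hf n (by omega))]
  · rw [cp, if_neg (by omega)]
  · rw [cp, if_pos le_rfl]

private theorem pow_mod {q : ℕ} {d : ℤ} {x : LaurentPolynomial ℤ} (hx : Lo q d x) (s : ℕ) :
    Lo ((q : ℤ) ^ (s + 1)) (d * (q ^ s : ℕ)) (x ^ q ^ s) := by
  obtain ⟨p, h, e1, h1, _⟩ := hx.split
  have h2 : (q : LaurentPolynomial ℤ) ∣ x - p := ⟨h, by rw [e1]; push_cast; ring⟩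
  obtain ⟨y, hy⟩ := dvd_sub_pow_of_dvd_sub h2 s
  have h3 : x ^ q ^ s = p ^ q ^ s + (((q : ℤ) ^ (s + 1) : ℤ) : LaurentPolynomial ℤ) * y := by
    push_cast
    rw [← hy]
    ring
  rw [h3]
  refine Lo.add ((h1.pow _).dvd (dvd_zero _)) fun n _ => ?_
  have e2 : ((((q : ℤ) ^ (s + 1) : ℤ) : LaurentPolynomial ℤ) * y).coeff n =
      (q : ℤ) ^ (s + 1) * y.coeff n := by
    have e2 : (((q : ℤ) ^ (s + 1) : ℤ) : LaurentPolynomial ℤ) =
        AddMonoidAlgebra.single 0 ((q : ℤ) ^ (s + 1)) := by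
      rw [single_eq_C]
      simp
    rw [e2, AddMonoidAlgebra.coeff_single_mul_eq_mul_coeff n]
    intro m' _
    omega
  rw [e2]
  exact Dvd.intro _ rfl

/-- the polynomials `F` of the recursion -/
private noncomputable def Fp (a : ℕ) : ℕ → LaurentPolynomial ℤ
  | 0 => 0
  | 1 => 1
  | J + 2 => Fp a (J + 1) - T (-(a : ℤ)) * Fp a J

private theorem Fp_spec {a : ℕ} (ha : 1 ≤ a) (J : ℕ) :
    Lo 0 0 (Fp a J) ∧ Lo 0 0 (Fp a (J + 1)) ∧ (Fp a (J + 1)).coeff 0 = 1 := by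
  induction J with
  | zero =>
    refine ⟨fun n _ => ?_, fun n hn => ?_, ?_⟩
    · unfold Fp
      rw [AddMonoidAlgebra.coeff_zero, Finsupp.zero_apply]
    · unfold Fp
      rw [one_coeff, if_neg (by omega)]
    · unfold Fp
      rw [one_coeff, if_pos rfl]
  | succ J ih =>
    obtain ⟨h1, h2, h3⟩ := ih
    have e : Fp a (J + 1 + 1) = Fp a (J + 1) - T (-(a : ℤ)) * Fp a J := by
      rw [Fp]
    refine ⟨h2, ?_, ?_⟩
    · rw [e]
      exact h2.sub ((h1.T_mul _).mono (by omega))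
    · rw [e, sub_coeff, h3, T_mul_coeff]
      have h4 := h1 (0 - -(a : ℤ)) (by omega)
      rw [zero_dvd_iff] at h4
      rw [h4, sub_zero]

private theorem exists_bound (f : LaurentPolynomial ℤ) : ∃ δ : ℤ, Lo 0 δ f := by
  classical
  obtain ⟨δ, hδ⟩ := f.coeff.support.exists_le
  refine ⟨δ, fun n hn => ?_⟩
  rw [zero_dvd_iff]
  by_contra h
  have := hδ n (Finsupp.mem_support_iff.2 h)
  omega

theorem s3core {q : ℕ} (hq : q.Prime) {a : ℕ} (ha : 1 ≤ a) (r : ℕ) (hr : 1 ≤ r)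
    (f g : LaurentPolynomial ℤ) (d : ℤ) (hg : ∀ n, d < n → (q : ℤ) ∣ g.coeff n)
    (hgd : ¬ (q : ℤ) ∣ g.coeff d) (hf : ∀ n, d - a < n → (q : ℤ) ∣ f.coeff n) :
    ∃ J : ℕ, ∃ u B1 B2 C1 C2 : LaurentPolynomial ℤ,
      u * ((stg a)^[J] (f, g)).1 = B1 + (q : LaurentPolynomial ℤ) ^ r * C1 ∧
      u * ((stg a)^[J] (f, g)).2 = B2 + (q : LaurentPolynomial ℤ) ^ r * C2 ∧
      (∀ n, 0 < n → B1.coeff n = 0) ∧ (∀ n, 0 < n → B2.coeff n = 0) ∧ ¬ (q : ℤ) ∣ B2.coeff 0 := by
  obtain ⟨δ1, hδ1⟩ := exists_bound f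
  obtain ⟨δ2, hδ2⟩ := exists_bound g
  obtain ⟨δ, hδf, hδg⟩ : ∃ δ : ℤ, Lo 0 δ f ∧ Lo 0 δ g :=
    ⟨max δ1 δ2, hδ1.mono (le_max_left _ _), hδ2.mono (le_max_right _ _)⟩
  obtain ⟨φ, hφ⟩ : ∃ φ : ℕ → LaurentPolynomial ℤ × LaurentPolynomial ℤ,
      ∀ J, φ J = (stg a)^[J] (f, g) := ⟨fun J => (stg a)^[J] (f, g), fun _ => rfl⟩
  have φ0 : φ 0 = (f, g) := hφ 0
  have φs : ∀ J, φ (J + 1) = (T (-(a : ℤ)) * (φ J).2, (φ J).2 - (φ J).1) := fun J => by
    rw [hφ (J + 1), Function.iterate_succ_apply', ← hφ J]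
    rfl
  have bnd : ∀ J, Lo 0 δ (φ J).1 ∧ Lo 0 δ (φ J).2 := fun J => by
    induction J with
    | zero => rw [φ0]; exact ⟨hδf, hδg⟩
    | succ J ih =>
      rw [φs]
      exact ⟨(ih.2.T_mul _).mono (by omega), ih.2.sub ih.1⟩
  have deg : ∀ J, Lo q (d - a) (φ J).1 ∧ Lo q d (φ J).2 ∧ ¬ (q : ℤ) ∣ (φ J).2.coeff d := fun J => by
    induction J with
    | zero => rw [φ0]; exact ⟨hf, hg, hgd⟩
    | succ J ih =>
      rw [φs]
      obtain ⟨h1, h2, h3⟩ := ih
      refine ⟨(h2.T_mul _).mono (by omega), h2.sub (h1.mono (by omega)), ?_⟩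
      change ¬ (q : ℤ) ∣ ((φ J).2 - (φ J).1).coeff d
      rw [sub_coeff]
      intro h4
      exact h3 ((dvd_sub_left (h1 d (by omega))).1 h4)
  have hC : ∀ J : ℕ, Fp a (J + 1) * (φ J).1 - T (-(a : ℤ)) * Fp a J * (φ J).2 =
      T (-(a : ℤ) * J) * f := fun J => by
    induction J with
    | zero =>
      rw [φ0]
      simp [Fp]
    | succ J ih =>
      have e : Fp a (J + 1 + 1) = Fp a (J + 1) - T (-(a : ℤ)) * Fp a J := by rw [Fp]
      have e2 : (T (-(a : ℤ) * ((J + 1 : ℕ) : ℤ)) : LaurentPolynomial ℤ) =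
          T (-(a : ℤ)) * T (-(a : ℤ) * J) := by
        rw [← T_add]
        congr 1
        push_cast
        ring
      rw [φs, e, e2, mul_assoc (T (-(a : ℤ))) (T (-(a : ℤ) * J)) f, ← ih]
      dsimp only
      ring
  obtain ⟨s, rfl⟩ : ∃ s, r = s + 1 := ⟨r - 1, by omega⟩
  obtain ⟨Q, hQ⟩ : ∃ Q : ℕ, Q = q ^ s := ⟨_, rfl⟩
  have hQ0 : 1 ≤ Q := by
    rw [hQ]
    exact Nat.one_le_pow _ _ hq.pos
  obtain ⟨J, hJ⟩ : ∃ J : ℕ, (Q : ℤ) * (δ - d) ≤ J := ⟨((Q : ℤ) * (δ - d)).toNat, Int.self_le_toNat _⟩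
  obtain ⟨dA, dG, dG'⟩ := deg J
  obtain ⟨bA, bG⟩ := bnd J
  obtain ⟨F1, F2, F3⟩ := Fp_spec ha J
  have hCJ := hC J
  obtain ⟨A, hA⟩ : ∃ A, A = (φ J).1 := ⟨_, rfl⟩
  obtain ⟨G, hG⟩ : ∃ G, G = (φ J).2 := ⟨_, rfl⟩
  rw [← hA] at dA bA hCJ
  rw [← hG] at dG dG' bG hCJ
  have hpow : Lo ((q : ℤ) ^ (s + 1)) (d * Q) (G ^ Q) := by
    rw [hQ]
    exact pow_mod dG s
  have hTp : Lo ((q : ℤ) ^ (s + 1)) 0 (T (-(d * Q)) * G ^ Q) := (hpow.T_mul _).mono (by omega)
  obtain ⟨u, hu⟩ : ∃ u, u = Fp a (J + 1) * (T (-(d * Q)) * G ^ (Q - 1)) := ⟨_, rfl⟩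
  have eG : G ^ (Q - 1) * G = G ^ Q := by
    rw [← pow_succ]
    congr 1
    omega
  have uG : u * G = Fp a (J + 1) * (T (-(d * Q)) * G ^ Q) := by
    rw [hu, ← eG]
    ring
  have uA : u * A = T (-(a : ℤ)) * (Fp a J * (T (-(d * Q)) * G ^ Q)) +
      T (-(d * Q)) * (G ^ (Q - 1) * (T (-(a : ℤ) * J) * f)) := by
    rw [hu, ← hCJ, ← eG]
    ring
  have l2 : Lo ((q : ℤ) ^ (s + 1)) 0 (u * G) := by
    rw [uG]
    exact ((F2.dvd (dvd_zero _)).mul hTp).mono (by omega)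
  have l1 : Lo ((q : ℤ) ^ (s + 1)) 0 (u * A) := by
    rw [uA]
    refine Lo.add ((((F1.dvd (dvd_zero _)).mul hTp).T_mul _).mono (by omega)) ?_
    refine Lo.dvd (k := 0) ?_ (dvd_zero _)
    refine Lo.mono (((bG.pow (Q - 1)).mul (hδf.T_mul (-(a : ℤ) * J))).T_mul (-(d * Q))) ?_
    have e5 : ((Q - 1 : ℕ) : ℤ) = Q - 1 := by omega
    have e6 : (J : ℤ) ≤ a * J := by
      have : (1 : ℤ) ≤ a := by omega
      nlinarith [Int.natCast_nonneg J]
    rw [e5]
    nlinarith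
  have l3 : ¬ (q : ℤ) ∣ (u * G).coeff 0 := by
    intro h
    have hdq : (q : ℤ) ∣ (q : ℤ) ^ (s + 1) := dvd_pow_self _ (by omega)
    have h1 := coeff_mul_mod (F2.dvd (dvd_zero (q : ℤ))) (hTp.dvd hdq)
    rw [← uG, F3, one_mul, add_zero] at h1
    have h2 : (q : ℤ) ∣ (T (-(d * Q)) * G ^ Q).coeff 0 := (dvd_sub_right h).1 h1
    rw [T_mul_coeff, zero_sub, neg_neg] at h2
    have h3 := coeff_pow_mod dG Q
    have h4 : (q : ℤ) ∣ G.coeff d ^ Q := (dvd_sub_right h2).1 h3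
    exact dG' ((Nat.prime_iff_prime_int.1 hq).dvd_of_dvd_pow h4)
  obtain ⟨B1, C1, e1, b1, _⟩ := l1.split
  obtain ⟨B2, C2, e2, b2, c2⟩ := l2.split
  refine ⟨J, u, B1, B2, C1, C2, ?_, ?_, fun n hn => zero_dvd_iff.1 (b1 n hn),
    fun n hn => zero_dvd_iff.1 (b2 n hn), ?_⟩
  · rw [← hφ, ← hA, e1]
    push_cast
    rfl
  · rw [← hφ, ← hG, e2]
    push_cast
    rfl
  · rw [c2]
    exact l3

end Pool.Agent.TAM
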