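import Mathlib
import Pool.Agent.TAM.Basic
import Pool.Agent.TAM.S3core

/-!
PROJECT TAM, module S3alg: step 5e for lattices.
-/

namespace Pool.Agent.TAM

open LaurentPolynomial

/-- Clearing denominators in one Laurent polynomial. -/
private theorem clear_one (f : RQ) : ∃ m : ℕ, 0 < m ∧ IsZ ((m : ℚ) • f) := by
  classical
  refine ⟨∏ n ∈ f.coeff.support, (f.coeff n).den, ?_, ?_⟩
  · exact Finset.prod_pos fun n _ => (f.coeff n).pos
  · intro n
    by_cases hn : n ∈ f.coeff.support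
    · obtain ⟨k, hk⟩ := Finset.dvd_prod_of_mem (fun n => (f.coeff n).den) hn
      refine ⟨k * (f.coeff n).num, ?_⟩
      have h1 : (((∏ n ∈ f.coeff.support, (f.coeff n).den : ℕ) : ℚ) • f).coeff n =
          ((∏ n ∈ f.coeff.support, (f.coeff n).den : ℕ) : ℚ) * f.coeff n := by
        simp
      rw [h1, hk]
      push_cast
      have h2 : ((f.coeff n).den : ℚ) * f.coeff n = (f.coeff n).num := by
        rw [mul_comm]
        exact Rat.mul_den_eq_num _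
      rw [← h2]
      ring
    · refine ⟨0, ?_⟩
      have h0 : f.coeff n = 0 := by
        simpa using hn
      simp [h0]

private theorem clear_two (z : W) : ∃ m : ℕ, 0 < m ∧ (m : ℚ) • z ∈ R2 := by
  obtain ⟨m, hm, h1⟩ := clear_one z.1
  obtain ⟨k, hk, h2⟩ := clear_one z.2
  refine ⟨m * k, Nat.mul_pos hm hk, ?_, ?_⟩
  · have : (((m * k : ℕ) : ℚ) • z).1 = ((k : ℤ) : ℚ) • ((m : ℚ) • z.1) := by
      rw [smul_smul]
      push_cast
      rw [mul_comm]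
      rfl
    rw [this]
    exact h1.int_smul _
  · have : (((m * k : ℕ) : ℚ) • z).2 = ((m : ℤ) : ℚ) • ((k : ℚ) • z.2) := by
      rw [smul_smul]
      push_cast
      rfl
    rw [this]
    exact h2.int_smul _

private theorem nat_smul_mem {L : AddSubgroup W} {z : W} (hz : z ∈ L) (k : ℕ) :
    (k : ℚ) • z ∈ L := by
  have : (k : ℚ) • z = k • z := by
    rw [Nat.cast_smul_eq_nsmul]
  rw [this]
  exact L.nsmul_mem hz k

/-- A vector of `L` outside `R2` whose multiple by a prime is integral. -/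
private theorem exists_prime_vec {L : AddSubgroup W} {z : W} (hz : z ∈ L) (hn : z ∉ R2) :
    ∃ q : ℕ, q.Prime ∧ ∃ y ∈ L, y ∉ R2 ∧ (q : ℚ) • y ∈ R2 := by
  classical
  have hex : ∃ m : ℕ, 0 < m ∧ (m : ℚ) • z ∈ R2 := clear_two z
  set m := Nat.find hex with hmdef
  have hm := Nat.find_spec hex
  rw [← hmdef] at hm
  have hm1 : m ≠ 1 := by
    intro h
    rw [h] at hm
    apply hn
    have := hm.2
    simpa using this
  refine ⟨m.minFac, Nat.minFac_prime hm1, ((m / m.minFac : ℕ) : ℚ) • z, nat_smul_mem hz _, ?_, ?_⟩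
  · intro hc
    have hlt : m / m.minFac < m := Nat.div_lt_self hm.1 (Nat.minFac_prime hm1).one_lt
    have hpos : 0 < m / m.minFac :=
      Nat.div_pos (Nat.minFac_le hm.1) (Nat.minFac_prime hm1).pos
    exact Nat.find_min hex hlt ⟨hpos, hc⟩
  · rw [smul_smul]
    have : ((m.minFac : ℕ) : ℚ) * ((m / m.minFac : ℕ) : ℚ) = (m : ℚ) := by
      rw [← Nat.cast_mul, Nat.mul_div_cancel' (Nat.minFac_dvd m)]
    rw [this]
    exact hm.2

/-- The top degree modulo `q` of a pair. -/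
private theorem exists_top {q : ℕ} (f g : LaurentPolynomial ℤ)
    (h : ¬ ∀ n, (q : ℤ) ∣ f.coeff n ∧ (q : ℤ) ∣ g.coeff n) :
    ∃ d : ℤ, (∀ n, d < n → (q : ℤ) ∣ f.coeff n ∧ (q : ℤ) ∣ g.coeff n) ∧
      ¬ ((q : ℤ) ∣ f.coeff d ∧ (q : ℤ) ∣ g.coeff d) := by
  classical
  set s : Finset ℤ := (f.coeff.support ∪ g.coeff.support).filter
    (fun n => ¬ ((q : ℤ) ∣ f.coeff n ∧ (q : ℤ) ∣ g.coeff n)) with hs
  have hmem : ∀ n, ¬ ((q : ℤ) ∣ f.coeff n ∧ (q : ℤ) ∣ g.coeff n) → n ∈ s := by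
    intro n hn
    rw [hs, Finset.mem_filter]
    refine ⟨?_, hn⟩
    rw [Finset.mem_union]
    by_contra hc
    push Not at hc
    apply hn
    have h1 : f.coeff n = 0 := by simpa using hc.1
    have h2 : g.coeff n = 0 := by simpa using hc.2
    rw [h1, h2]
    exact ⟨dvd_zero _, dvd_zero _⟩
  push Not at h
  obtain ⟨n0, hn0⟩ := h
  have hne : s.Nonempty := ⟨n0, hmem n0 (by rintro ⟨h1, h2⟩; exact hn0 h1 h2)⟩
  refine ⟨s.max' hne, ?_, ?_⟩
  · intro n hn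
    by_contra hc
    exact absurd (s.le_max' n (hmem n hc)) (not_le.2 hn)
  · exact (Finset.mem_filter.1 (s.max'_mem hne)).2

private theorem T_mul_coeff_int (n m : ℤ) (f : LaurentPolynomial ℤ) :
    (T n * f).coeff m = f.coeff (m - n) := by
  show ((AddMonoidAlgebra.single n (1 : ℤ)) * f).coeff m = _
  rw [AddMonoidAlgebra.coeff_single_mul_apply, one_mul]
  congr 1
  ring

theorem s3alg {a : ℕ} (ha : 1 ≤ a) (S : Set (AddSubgroup W)) (hst : ∀ L ∈ S, Stb L)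
    (hI : ∀ L ∈ S, ∀ z ∈ L, Ps z.1 → Ps z.2 → ∃ m n : ℤ, z.1.coeff 0 = m ∧ z.2.coeff 0 = n)
    (hcl : ∀ L ∈ S, ∀ c : ℤ, ∃ L' ∈ S, ∀ z ∈ L,
      ((T (-(a : ℤ)) * z.2, C (c : ℚ) * z.2 - z.1) : W) ∈ L') :
    ∀ L ∈ S, (∃ M : ℕ, 0 < M ∧ ∀ w ∈ R2, (M : ℚ) • w ∈ L) → ∀ z ∈ L, z ∈ R2 := by
  intro L hL hM z hz
  by_contra hzn
  obtain ⟨M, hM0, hML⟩ := hM
  obtain ⟨q, hq, y, hyL, hyn, hyq⟩ := exists_prime_vec hz hzn
  have hq0 : (q : ℚ) ≠ 0 := by exact_mod_cast hq.ne_zero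
  obtain ⟨f0, hf0⟩ := isZ_iff.1 hyq.1
  obtain ⟨g0, hg0⟩ := isZ_iff.1 hyq.2
  -- not both divisible by `q`
  have hnd : ¬ ∀ n, (q : ℤ) ∣ f0.coeff n ∧ (q : ℤ) ∣ g0.coeff n := by
    intro h
    apply hyn
    refine ⟨fun n => ?_, fun n => ?_⟩
    · obtain ⟨k, hk⟩ := (h n).1
      refine ⟨k, ?_⟩
      have h1 : ((q : ℚ) • y).1.coeff n = (q : ℚ) * y.1.coeff n := by simp
      have h2 : ((q : ℚ) • y).1.coeff n = ((q : ℤ) * k : ℤ) := by
        rw [← hf0, toQ_coeff, hk]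
      rw [h1] at h2
      push_cast at h2
      exact mul_left_cancel₀ hq0 h2
    · obtain ⟨k, hk⟩ := (h n).2
      refine ⟨k, ?_⟩
      have h1 : ((q : ℚ) • y).2.coeff n = (q : ℚ) * y.2.coeff n := by simp
      have h2 : ((q : ℚ) • y).2.coeff n = ((q : ℤ) * k : ℤ) := by
        rw [← hg0, toQ_coeff, hk]
      rw [h1] at h2
      push_cast at h2
      exact mul_left_cancel₀ hq0 h2
  obtain ⟨d, hd1, hd2⟩ := exists_top f0 g0 hnd
  -- the first step
  obtain ⟨c, hc⟩ : ∃ c : ℤ, ¬ (q : ℤ) ∣ (C c * g0 - f0).coeff d := by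
    by_cases h : (q : ℤ) ∣ f0.coeff d
    · refine ⟨1, ?_⟩
      intro hc
      apply hd2
      refine ⟨h, ?_⟩
      have h1 : (C (1 : ℤ) * g0 - f0).coeff d = g0.coeff d - f0.coeff d := by simp
      rw [h1] at hc
      have := dvd_add hc h
      simpa using this
    · refine ⟨0, ?_⟩
      intro hc
      apply h
      have h1 : (C (0 : ℤ) * g0 - f0).coeff d = - f0.coeff d := by simp
      rw [h1] at hc
      exact (dvd_neg.1 hc)
  set f : LaurentPolynomial ℤ := T (-(a : ℤ)) * g0 with hfdef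
  set g : LaurentPolynomial ℤ := C c * g0 - f0 with hgdef
  have hCc : ∀ n, (C c * g0).coeff n = c * g0.coeff n := by
    intro n
    show ((AddMonoidAlgebra.single 0 c) * g0).coeff n = _
    rw [AddMonoidAlgebra.coeff_single_mul_apply, neg_zero, zero_add]
  have hg : ∀ n, d < n → (q : ℤ) ∣ g.coeff n := by
    intro n hn
    have h1 : g.coeff n = c * g0.coeff n - f0.coeff n := by
      rw [hgdef]
      rw [← hCc]
      simp
    rw [h1]
    exact dvd_sub (Dvd.dvd.mul_left (hd1 n hn).2 c) (hd1 n hn).1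
  have hf : ∀ n, d - a < n → (q : ℤ) ∣ f.coeff n := by
    intro n hn
    rw [hfdef, T_mul_coeff_int]
    exact (hd1 _ (by linarith)).2
  -- the power of `q` in `M`
  obtain ⟨k, M', hM'q, hMk⟩ := Nat.exists_eq_pow_mul_and_not_dvd hM0.ne' q hq.ne_one
  obtain ⟨J, u, B1, B2, C1, C2, h1, h2, hB1, hB2, hB0⟩ :=
    s3core hq ha (k + 1) (by omega) f g d hg hc hf
  -- all steps
  have key : ∀ J : ℕ, ∃ L' ∈ S, (∀ w ∈ R2, (M : ℚ) • w ∈ L') ∧
      ((q : ℚ)⁻¹ • ((toQ ((stg a)^[J] (f, g)).1, toQ ((stg a)^[J] (f, g)).2) : W)) ∈ L' := by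
    have hR : ∀ L ∈ S, ∀ c : ℤ, (∀ w ∈ R2, (M : ℚ) • w ∈ L) → ∀ L' : AddSubgroup W, (∀ z ∈ L,
        ((T (-(a : ℤ)) * z.2, C (c : ℚ) * z.2 - z.1) : W) ∈ L') →
        ∀ w ∈ R2, (M : ℚ) • w ∈ L' := by
      intro L hL c hLM L' hL' w hw
      have hw' : ((C (c : ℚ) * (T (a : ℤ) * w.1) - w.2, T (a : ℤ) * w.1) : W) ∈ R2 :=
        ⟨((isZ_int c).mul ((isZ_T _).mul hw.1)).sub hw.2, (isZ_T _).mul hw.1⟩
      have := hL' _ (hLM _ hw')
      have he : ((M : ℚ) • w : W) = ((T (-(a : ℤ)) *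
          ((M : ℚ) • ((C (c : ℚ) * (T (a : ℤ) * w.1) - w.2, T (a : ℤ) * w.1) : W)).2,
          C (c : ℚ) * ((M : ℚ) • ((C (c : ℚ) * (T (a : ℤ) * w.1) - w.2,
            T (a : ℤ) * w.1) : W)).2 -
          ((M : ℚ) • ((C (c : ℚ) * (T (a : ℤ) * w.1) - w.2, T (a : ℤ) * w.1) : W)).1) : W) := by
        refine Prod.ext ?_ ?_
        · simp only [Prod.smul_fst, Prod.smul_snd]
          rw [mul_smul_comm, ← mul_assoc, ← T_add, neg_add_cancel, T_zero, one_mul]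
        · simp only [Prod.smul_fst, Prod.smul_snd]
          rw [mul_smul_comm, ← smul_sub]
          congr 1
          ring
      rw [he]
      exact this
    intro J
    induction J with
    | zero =>
      obtain ⟨L', hL', h⟩ := hcl L hL c
      refine ⟨L', hL', hR L hL c hML L' h, ?_⟩
      have h3 := h y hyL
      have hy1 : y.1 = (q : ℚ)⁻¹ • toQ f0 := by
        rw [hf0]
        show y.1 = (q : ℚ)⁻¹ • ((q : ℚ) • y.1)
        rw [smul_smul, inv_mul_cancel₀ hq0, one_smul]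
      have hy2 : y.2 = (q : ℚ)⁻¹ • toQ g0 := by
        rw [hg0]
        show y.2 = (q : ℚ)⁻¹ • ((q : ℚ) • y.2)
        rw [smul_smul, inv_mul_cancel₀ hq0, one_smul]
      have he : ((q : ℚ)⁻¹ • ((toQ ((stg a)^[0] (f, g)).1, toQ ((stg a)^[0] (f, g)).2) : W)) =
          ((T (-(a : ℤ)) * y.2, C (c : ℚ) * y.2 - y.1) : W) := by
        rw [Function.iterate_zero, id]
        refine Prod.ext ?_ ?_
        · show (q : ℚ)⁻¹ • toQ f = T (-(a : ℤ)) * y.2
          rw [hfdef, map_mul, toQ_T, hy2, mul_smul_comm]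
        · show (q : ℚ)⁻¹ • toQ g = C (c : ℚ) * y.2 - y.1
          rw [hgdef, map_sub, map_mul, toQ_C, hy2, hy1, mul_smul_comm, smul_sub]
      rw [he]
      exact h3
    | succ J ih =>
      obtain ⟨L1, hL1, hR1, hm⟩ := ih
      obtain ⟨L', hL', h⟩ := hcl L1 hL1 1
      refine ⟨L', hL', hR L1 hL1 1 hR1 L' h, ?_⟩
      have h3 := h _ hm
      rw [Function.iterate_succ_apply']
      set p := (stg a)^[J] (f, g) with hp
      have he : ((q : ℚ)⁻¹ • ((toQ (stg a p).1, toQ (stg a p).2) : W)) =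
          ((T (-(a : ℤ)) * ((q : ℚ)⁻¹ • ((toQ p.1, toQ p.2) : W)).2,
            C ((1 : ℤ) : ℚ) * ((q : ℚ)⁻¹ • ((toQ p.1, toQ p.2) : W)).2 -
              ((q : ℚ)⁻¹ • ((toQ p.1, toQ p.2) : W)).1) : W) := by
        refine Prod.ext ?_ ?_
        · show (q : ℚ)⁻¹ • toQ (T (-(a : ℤ)) * p.2) = T (-(a : ℤ)) * ((q : ℚ)⁻¹ • toQ p.2)
          rw [map_mul, toQ_T, mul_smul_comm]
        · show (q : ℚ)⁻¹ • toQ (p.2 - p.1) =
            C ((1 : ℤ) : ℚ) * ((q : ℚ)⁻¹ • toQ p.2) - (q : ℚ)⁻¹ • toQ p.1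
          rw [map_sub, smul_sub, Int.cast_one, map_one, one_mul]
      rw [he]
      exact h3
  obtain ⟨L', hL', hR', hmem⟩ := key J
  set p := (stg a)^[J] (f, g) with hp
  have h3 := hst L' hL' (toQ u) (isZ_toQ u) _ hmem
  have h4 := nat_smul_mem h3 M'
  have h5 := hR' (toQ C1, toQ C2) ⟨isZ_toQ C1, isZ_toQ C2⟩
  have h6 := L'.sub_mem h4 h5
  have hqk : ∀ B D E : LaurentPolynomial ℤ, u * E = B + (q : LaurentPolynomial ℤ) ^ (k + 1) * D →
      (M' : ℚ) • (toQ u * ((q : ℚ)⁻¹ • toQ E)) - (M : ℚ) • toQ D =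
        ((M' : ℚ) * (q : ℚ)⁻¹) • toQ B := by
    intro B D E h
    have e1 : toQ u * ((q : ℚ)⁻¹ • toQ E) = (q : ℚ)⁻¹ • (toQ B + ((q : ℚ) ^ (k + 1)) • toQ D) := by
      rw [mul_smul_comm, ← map_mul, h, map_add, map_mul, map_pow, map_natCast]
      congr 2
      rw [smul_eq_C_mul, map_pow, map_natCast]
    rw [e1, smul_add, smul_add, smul_smul, smul_smul, smul_smul, add_sub_assoc, ← sub_smul]
    have e2 : (M' : ℚ) * (q : ℚ)⁻¹ * (q : ℚ) ^ (k + 1) - (M : ℚ) = 0 := by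
      rw [hMk, pow_succ]
      push_cast
      field_simp
      ring
    rw [e2, zero_smul, add_zero]
  have h7 : ((M' : ℚ) • (toQ u • ((q : ℚ)⁻¹ • ((toQ p.1, toQ p.2) : W))) -
      (M : ℚ) • ((toQ C1, toQ C2) : W)) =
      ((((M' : ℚ) * (q : ℚ)⁻¹) • toQ B1, ((M' : ℚ) * (q : ℚ)⁻¹) • toQ B2) : W) := by
    refine Prod.ext ?_ ?_
    · exact hqk B1 C1 p.1 h1
    · exact hqk B2 C2 p.2 h2
  rw [h7] at h6
  obtain ⟨_, n, _, hn⟩ := hI L' hL' _ h6 (fun n hn => by simp [toQ_coeff, hB1 n hn])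
    (fun n hn => by simp [toQ_coeff, hB2 n hn])
  have h8 : (M' : ℚ) * (q : ℚ)⁻¹ * (B2.coeff 0 : ℚ) = n := by
    rw [← hn]
    simp [toQ_coeff]
  have h9 : ((M' : ℤ) * B2.coeff 0 : ℤ) = (q : ℤ) * n := by
    have : ((M' : ℚ) * (B2.coeff 0 : ℚ)) = (q : ℚ) * n := by
      rw [← h8]
      field_simp
    exact_mod_cast this
  have h10 : (q : ℤ) ∣ (M' : ℤ) * B2.coeff 0 := ⟨n, h9⟩
  rcases (Nat.prime_iff_prime_int.1 hq).dvd_or_dvd h10 with h | h
  · exact hM'q (by exact_mod_cast h)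
  · exact hB0 h

end Pool.Agent.TAM
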