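import Mathlib
import Pool.Agent.TAM.S1
import Pool.Agent.TAM.S2
import Pool.Agent.TAM.S3alg
import Pool.Agent.TAM.Chain

/-!
PROJECT TAM, module SD: (S_D), all alive vectors of a plane of index D are related.
PLAN. no_ti: suppose a TI frame exists. For each TI frame F there is i with `CC i (lat F) ≠ ℤ` (chain, Bd.ni: `CC i (lat F) 1` would give `1 • F.1 ∈ R2`). Let `a` be the least number such that some TI frame F has `CC a (lat F) ≠ ℤ` (Nat.find);
`a ≥ 1` by CC_zero and Bd.l0; hmin holds. So `Pm D a F`. Let `S = {lat G | Pm D a G}`. Check the hypotheses of s3alg: Stb: lat_stb. hI: Bd.l1 (mem_L1). hcl: `G = (X,Y) ↦ (T^a (Y + c X), -X)` by s2_tr, s2_flip; if `z ∈ lat G` then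
`(T^(-a) z.2, c z.2 - z.1) ∈ lat (T^a (Y + c X), -X)`: `T^(-a) z.2 • T^a (Y + c X) - (c z.2 - z.1) • X = z.1 X + z.2 Y`. `M R2 ⊆ lat F`: the coefficients of F.1, F.2 have a common denominator M (`M • F.1, M • F.2 ∈ R2`), `w ∈ R2`:
`(M w.1) • F.1 + (M w.2) • F.2 ∈ R2`. So `lat F ⊆ R2`. With `wd F.1 F.2 = T m`: `z = (T(-m) F.2.2, -T(-m) F.1.2)`: `z.1 • F.1 + z.2 • F.2 = (T(-m)(F.2.2 F.1.1 - F.1.2 F.2.1), 0) = (1, 0) ∈ R2`, so `z ∈ lat F ⊆ R2`, F.1.2 is integral; with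
`z = (-T(-m) F.2.1, T(-m) F.1.1)`, giving `(0,1)`: F.1.1 is integral. So `F.1 ∈ R2`, contradiction with Bd.ni.
sd: by contradiction, s1_eq / s1_ne and no_ti.
-/

namespace Pool.Agent.TAM

open LaurentPolynomial

private theorem clearA (f : RQ) : ∃ m : ℕ, 0 < m ∧ IsZ ((m : ℚ) • f) := by
  classical
  refine ⟨∏ n ∈ f.coeff.support, (f.coeff n).den, ?_, ?_⟩
  · exact Finset.prod_pos fun n _ => (f.coeff n).pos
  · intro n
    by_cases hn : n ∈ f.coeff.support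
    · obtain ⟨k, hk⟩ := Finset.dvd_prod_of_mem (fun n => (f.coeff n).den) hn
      refine ⟨k * (f.coeff n).num, ?_⟩
      have h1 : (((∏ n ∈ f.coeff.support, (f.coeff n).den : ℕ) : ℚ) • f).coeff n =
          ((∏ n ∈ f.coeff.support, (f.coeff n).den : ℕ) : ℚ) * f.coeff n := by
        simp
      rw [h1, hk]
      push_cast
      have h2 : ((f.coeff n).den : ℚ) * f.coeff n = (f.coeff n).num := by
        rw [mul_comm]
        exact Rat.mul_den_eq_num _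
      rw [← h2]
      ring
    · refine ⟨0, ?_⟩
      have h0 : f.coeff n = 0 := by
        simpa using hn
      simp [h0]

private theorem clearB (z : W) : ∃ m : ℕ, 0 < m ∧ (m : ℚ) • z ∈ R2 := by
  obtain ⟨m, hm, h1⟩ := clearA z.1
  obtain ⟨k, hk, h2⟩ := clearA z.2
  refine ⟨m * k, Nat.mul_pos hm hk, ?_, ?_⟩
  · have : (((m * k : ℕ) : ℚ) • z).1 = ((k : ℤ) : ℚ) • ((m : ℚ) • z.1) := by
      rw [smul_smul]
      push_cast
      rw [mul_comm]
      rfl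
    rw [this]
    exact h1.int_smul _
  · have : (((m * k : ℕ) : ℚ) • z).2 = ((m : ℤ) : ℚ) • ((k : ℚ) • z.2) := by
      rw [smul_smul]
      push_cast
      rfl
    rw [this]
    exact h2.int_smul _

private theorem clearC (F : W × W) : ∃ M : ℕ, 0 < M ∧ ∀ w ∈ R2, (M : ℚ) • w ∈ lat F := by
  obtain ⟨m, hm, h1⟩ := clearB F.1
  obtain ⟨k, hk, h2⟩ := clearB F.2
  have e1 : ((m * k : ℕ) : ℚ) • F.1 ∈ R2 := by
    have : ((m * k : ℕ) : ℚ) • F.1 = ((k : ℤ) : ℚ) • ((m : ℚ) • F.1) := by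
      rw [smul_smul]
      push_cast
      rw [mul_comm]
    rw [this]
    exact R2_int_smul _ h1
  have e2 : ((m * k : ℕ) : ℚ) • F.2 ∈ R2 := by
    have : ((m * k : ℕ) : ℚ) • F.2 = ((m : ℤ) : ℚ) • ((k : ℚ) • F.2) := by
      rw [smul_smul]
      push_cast
      rfl
    rw [this]
    exact R2_int_smul _ h2
  refine ⟨m * k, Nat.mul_pos hm hk, ?_⟩
  intro w hw
  rw [mem_lat]
  have e : (((m * k : ℕ) : ℚ) • w).1 • F.1 + (((m * k : ℕ) : ℚ) • w).2 • F.2 =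
      w.1 • (((m * k : ℕ) : ℚ) • F.1) + w.2 • (((m * k : ℕ) : ℚ) • F.2) := by
    generalize ((m * k : ℕ) : ℚ) = M
    refine Prod.ext ?_ ?_ <;>
    · simp only [Prod.fst_add, Prod.snd_add, Prod.smul_fst, Prod.smul_snd, smul_eq_mul,
        smul_eq_C_mul]
      ring
  rw [e]
  exact R2.add_mem (R2_smul hw.1 e1) (R2_smul hw.2 e2)

private theorem fst_mem {F : W × W} (hF : IsFr F) (h : ∀ z ∈ lat F, z ∈ R2) : F.1 ∈ R2 := by
  obtain ⟨m, hm⟩ := hF
  have hT : (T (-m) * T m : RQ) = 1 := by rw [← T_add, neg_add_cancel, T_zero]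
  have hT' : (T m * T (-m) : RQ) = 1 := by rw [← T_add, add_neg_cancel, T_zero]
  have hone : T (-m) * (F.1.1 * F.2.2 - F.1.2 * F.2.1) = (1 : RQ) := by
    have : F.1.1 * F.2.2 - F.1.2 * F.2.1 = wd F.1 F.2 := rfl
    rw [this, hm, hT]
  have h1 : ((T (-m) * F.2.2, -(T (-m) * F.1.2)) : W) ∈ lat F := by
    rw [mem_lat]
    have e : (T (-m) * F.2.2) • F.1 + (-(T (-m) * F.1.2)) • F.2 = ((1, 0) : W) := by
      refine Prod.ext ?_ ?_
      · simp only [Prod.fst_add, Prod.smul_fst, smul_eq_mul]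
        rw [← hone]
        ring
      · simp only [Prod.snd_add, Prod.smul_snd, smul_eq_mul]
        ring
    show (T (-m) * F.2.2) • F.1 + (-(T (-m) * F.1.2)) • F.2 ∈ R2
    rw [e]
    exact ⟨isZ_one, isZ_zero⟩
  have h2 : ((-(T (-m) * F.2.1), T (-m) * F.1.1) : W) ∈ lat F := by
    rw [mem_lat]
    have e : (-(T (-m) * F.2.1)) • F.1 + (T (-m) * F.1.1) • F.2 = ((0, 1) : W) := by
      refine Prod.ext ?_ ?_
      · simp only [Prod.fst_add, Prod.smul_fst, smul_eq_mul]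
        ring
      · simp only [Prod.snd_add, Prod.smul_snd, smul_eq_mul]
        rw [← hone]
        ring
    show (-(T (-m) * F.2.1)) • F.1 + (T (-m) * F.1.1) • F.2 ∈ R2
    rw [e]
    exact ⟨isZ_zero, isZ_one⟩
  have h3 : IsZ (-(T (-m) * F.1.2)) := (h _ h1).2
  have h4 : IsZ (T (-m) * F.1.1) := (h _ h2).2
  refine ⟨?_, ?_⟩
  · have := (isZ_T m).mul h4
    rwa [← mul_assoc, hT', one_mul] at this
  · have := (isZ_T m).mul h3.neg
    rwa [neg_neg, ← mul_assoc, hT', one_mul] at this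

theorem no_ti {D : ℕ} {F : W × W} (h : TI D F) : False := by
  classical
  have hex : ∃ a : ℕ, ∃ G, TI D G ∧ ¬ ∀ c : ℚ, CC a (lat G) c ↔ ∃ k : ℤ, c = k := by
    obtain ⟨i, hi⟩ := chain h.1.fr
    refine ⟨i, F, h, ?_⟩
    intro h1
    have h2 := hi 1 ((h1 1).2 ⟨1, by norm_num⟩)
    rw [one_smul] at h2
    exact h.1.ni h2
  set a := Nat.find hex with haa
  obtain ⟨F0, hF0, hFa⟩ := Nat.find_spec hex
  rw [← haa] at hFa
  have hmin : ∀ G, TI D G → ∀ i < a, ∀ c : ℚ, CC i (lat G) c ↔ ∃ k : ℤ, c = k := by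
    intro G hG i hi
    have h1 := Nat.find_min hex (m := i) hi
    by_contra hc
    exact h1 ⟨G, hG, hc⟩
  have ha : 1 ≤ a := by
    rcases Nat.eq_zero_or_pos a with h0 | h0
    · exfalso
      apply hFa
      intro c
      rw [h0, CC_zero]
      exact hF0.1.l0 c
    · exact h0
  have hPm : Pm D a F0 := ⟨hF0, hmin F0 hF0, hFa⟩
  have key := s3alg ha {L | ∃ G, Pm D a G ∧ L = lat G} ?_ ?_ ?_ (lat F0) ⟨F0, hPm, rfl⟩
    (clearC F0)
  · exact hF0.1.ni (fst_mem hF0.1.fr key)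
  · rintro L ⟨G, _, rfl⟩
    exact lat_stb G
  · rintro L ⟨G, hG, rfl⟩ z hz h1 h2
    have h3 : (z.1.coeff 0, z.2.coeff 0) ∈ L1 (lat G) := mem_L1.2 ⟨z, hz, h1, h2, rfl, rfl⟩
    obtain ⟨m, n, hmn⟩ := (hG.1.1.l1 _).1 h3
    exact ⟨m, n, congrArg Prod.fst hmn, congrArg Prod.snd hmn⟩
  · rintro L ⟨G, hG, rfl⟩ c
    have h1 := s2_tr hG c
    have h2 := s2_flip ha hmin h1
    refine ⟨_, ⟨_, h2, rfl⟩, ?_⟩
    intro z hz
    rw [mem_lat] at hz ⊢
    have hT : (T (-(a : ℤ)) * T (a : ℤ) : RQ) = 1 := by rw [← T_add, neg_add_cancel, T_zero]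
    have e : (T (-(a : ℤ)) * z.2) • ((T (a : ℤ) : RQ) • (bas 1 (c : ℚ) 0 1 G).2) +
        (C (c : ℚ) * z.2 - z.1) • (-(bas 1 (c : ℚ) 0 1 G).1) = z.1 • G.1 + z.2 • G.2 := by
      rw [smul_smul]
      have e1 : T (-(a : ℤ)) * z.2 * T (a : ℤ) = z.2 := by
        calc T (-(a : ℤ)) * z.2 * T (a : ℤ) = (T (-(a : ℤ)) * T (a : ℤ)) * z.2 := by ring
          _ = z.2 := by rw [hT, one_mul]
      rw [e1]
      simp only [bas]
      refine Prod.ext ?_ ?_
      · simp only [Prod.fst_add, Prod.smul_fst, Prod.fst_neg, smul_eq_mul, smul_eq_C_mul,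
          map_one, map_zero]
        ring
      · simp only [Prod.snd_add, Prod.smul_snd, Prod.snd_neg, smul_eq_mul, smul_eq_C_mul,
          map_one, map_zero]
        ring
    show (T (-(a : ℤ)) * z.2) • ((T (a : ℤ) : RQ) • (bas 1 (c : ℚ) 0 1 G).2) +
        (C (c : ℚ) * z.2 - z.1) • (-(bas 1 (c : ℚ) 0 1 G).1) ∈ R2
    rw [e]
    exact hz

theorem sd {D : ℕ} {F : W × W} (hF : IsFr F) (hN : NF F = D) {p q : ℚ × ℚ} (hp : p ≠ 0)
    (hq : q ≠ 0) (hpa : Al D (vec F p)) (hqa : Al D (vec F q)) : Sm D (vec F p) (vec F q) := by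
  by_contra hns
  have hG : ∃ G, TI D G := by
    by_cases he : L0 (lat F) = L1 (lat F)
    · exact s1_eq hF hN he hp hq hpa hqa hns
    · exact s1_ne hF hN he hp hq hpa hqa hns
  obtain ⟨G, hG⟩ := hG
  exact no_ti hG

end Pool.Agent.TAM
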