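import Mathlib
import Pool.Agent.TAM.SD
import Pool.Agent.TAM.Base0

/-!
PROJECT TAM, module Push: paths can be pushed below any index D ≥ 2.
PLAN. triv_of_dead: if `vec F p` is not alive (D = NF F, p ≠ 0) the frame `bas p.1 b p.2 d F` is Triv (lemR).
al_exists: otherwise all p ≠ 0 are dead: for all p: `p ∈ L0 (lat F) → vec F p ∈ R2` (p ≠ 0: Triv with c = 1 at the frame of p). L0 has a basis u, v, `dt u v = 1`; `G = bas u.1 v.1 u.2 v.2 F`: G.1, G.2 ∈ R2, IsFr G: unit_frame, NN_R2: NF F = NF G = 1, contradiction to D ≥ 2.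
Representatives: `Rp D F F'` : `IsFr F'`, `NF F' < D` and (NF F < D and Cn D F F') or (NF F = D and there are p, q ≠ 0 with `Sm D (vec F p) (vec F' q)`).
 (R1) if NF F ≤ D, IsFr F then some F' has Rp D F F' (al_exists: Al D (vec F p): frame (vec F p, Y)).
 (R2) Rp D F F', Rp D F F'' → Cn D F' F''. (NF F = D: both p, p' are alive (al_of_sm), sd, sm_trans, cn_of_sm.)
 (R3) one step: G = bas F, G = hm F: Rp D F F' ↔ Rp D G F' (vec_bas; vec (hm F) p = T • vec F p, sm_T). G = shf F with both indices ≤ D: Rp D F F' and Rp D G G' imply Cn D F' G':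
   NF F < D, NF G < D: Cn.shift. NF F < D, NF G = D: the common vector F.1 = G.1: `F` itself is a frame of index < D containing `vec G (1,0)`, so Rp D G F, and R2. NF F = D, NF G < D: the same.
   NF F = NF G = D: if F.1 is alive: `vec F (1,0) = vec G (1,0)`: take a frame H of index < D containing it: Rp D F H and Rp D G H. If F.2 is alive: `vec G (0,1) = T • vec F (0,1)`: the same with sm_T.
   If both are dead: Triv F, Triv (F.2, -F.1), Triv G, Triv (G.2, -G.1) (triv_of_dead; T F.2 is dead too, al_T): let `x = a • F.1` primitive in L0 F (a > 0): `(c,0) ∈ L0 F ↔ c ∈ ℤ a`, `(0,c) ∈ L1 F ↔ c ∈ ℤ b`; `NF G = NF F * a * b` so `a b = 1`;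
   `a • F.1 ∈ R2`, `b • F.2 ∈ R2` (Triv), the frame `(a F.1, a⁻¹ F.2) = (a F.1, b F.2) = bas a 0 0 a⁻¹ F` is integral: unit_frame, NF F = 1, contradiction.
push: prove by induction on Cn (D+1) F G: for IsFr F: `NF F ≤ D ↔ NF G ≤ D`, IsFr G (both directions), and if NF F ≤ D: for all F', G' with Rp D F F', Rp D G G': Cn D F' G'. At the ends NF F < D: Rp D F F.
-/

namespace Pool.Agent.TAM

open LaurentPolynomial

private theorem vec10 (F : W × W) : vec F (1, 0) = F.1 := by simp [vec]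

private theorem vec01 (F : W × W) : vec F (0, 1) = F.2 := by simp [vec]

private theorem ne10 : ((1, 0) : ℚ × ℚ) ≠ 0 := by
  intro h
  exact one_ne_zero (congrArg Prod.fst h)

private theorem ne01 : ((0, 1) : ℚ × ℚ) ≠ 0 := by
  intro h
  exact one_ne_zero (congrArg Prod.snd h)

theorem triv_of_dead {D : ℕ} {F : W × W} (hF : IsFr F) (hN : NF F = D) {p : ℚ × ℚ} (hp : p ≠ 0)
    (hd : ¬ Al D (vec F p)) {c : ℚ} (hc : c • p ∈ L0 (lat F) ∨ c • p ∈ L1 (lat F)) :
    c • vec F p ∈ R2 := by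
  obtain ⟨b, d, h, e, hfr⟩ := frame_of_vec hF hp
  by_contra hcon
  have hnt : ¬ Triv (bas p.1 b p.2 d F) := by
    intro ht
    apply hcon
    rw [← e]
    apply ht
    have e0 : ((p.1 * (c, (0 : ℚ)).1 + b * (c, (0 : ℚ)).2, p.2 * (c, (0 : ℚ)).1 +
        d * (c, (0 : ℚ)).2) : ℚ × ℚ) = c • p := by
      refine Prod.ext ?_ ?_ <;> simp [mul_comm]
    rw [mem_L0_bas h, mem_L1_bas h, e0]
    exact hc
  obtain ⟨y', hy1, hy2, _⟩ := lemR (x := (bas p.1 b p.2 d F).1) (y := (bas p.1 b p.2 d F).2)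
    hfr hnt
  apply hd
  rw [← e]
  refine ⟨y', hy1, lt_of_lt_of_eq hy2 ?_⟩
  show NF (bas p.1 b p.2 d F) = D
  rw [NF_bas h, hN]

theorem al_exists {D : ℕ} (hD : 2 ≤ D) {F : W × W} (hF : IsFr F) (hN : NF F = D) :
    ∃ p : ℚ × ℚ, p ≠ 0 ∧ Al D (vec F p) := by
  by_contra hall
  push Not at hall
  obtain ⟨u, hu, v, hv, huv, _⟩ := (gd_frame hF).u0
  have hu0 : u ≠ 0 := by
    rintro rfl
    simp [dt] at huv
  have hv0 : v ≠ 0 := by
    rintro rfl
    simp [dt] at huv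
  have h1 : vec F u ∈ R2 := by
    have := triv_of_dead hF hN hu0 (hall u hu0) (c := 1) (Or.inl (by rwa [one_smul]))
    rwa [one_smul] at this
  have h2 : vec F v ∈ R2 := by
    have := triv_of_dead hF hN hv0 (hall v hv0) (c := 1) (Or.inl (by rwa [one_smul]))
    rwa [one_smul] at this
  have hdet : u.1 * v.2 - v.1 * u.2 = 1 := by
    rw [← huv, dt]; ring
  have hN1 : NF (bas u.1 v.1 u.2 v.2 F) = 1 := by
    rw [NF, unit_frame (isFr_bas hdet hF) h1 h2, NN_R2]
  rw [NF_bas hdet, hN] at hN1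
  omega

/-- If both directions of a shift between frames of index `D` are dead then `D = 1`. -/
theorem both_dead {D : ℕ} {F : W × W} (hF : IsFr F) (hN : NF F = D) (hN' : NF (shf F) = D)
    (h1 : ¬ Al D F.1) (h2 : ¬ Al D F.2) : D = 1 := by
  obtain ⟨a, ha, hS0⟩ := uni_line (gd_frame hF).u0 ne10
  obtain ⟨b, hb, hS1⟩ := uni_line (gd_frame hF).u1 ne01
  have e0 : ∀ c : ℚ, c • ((1, 0) : ℚ × ℚ) = (c, 0) := fun c => by
    refine Prod.ext ?_ ?_ <;> simp
  have e1 : ∀ c : ℚ, c • ((0, 1) : ℚ × ℚ) = (0, c) := fun c => by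
    refine Prod.ext ?_ ?_ <;> simp
  have hA : a • F.1 ∈ R2 := by
    have := triv_of_dead hF hN ne10 (by rwa [vec10]) (c := a)
      (Or.inl ((hS0 a).2 ⟨1, by simp⟩))
    rwa [vec10] at this
  have hB : b • F.2 ∈ R2 := by
    have := triv_of_dead hF hN ne01 (by rwa [vec01]) (c := b)
      (Or.inr ((hS1 b).2 ⟨1, by simp⟩))
    rwa [vec01] at this
  have hS0' : ∀ c : ℚ, (c, 0) ∈ L0 (lat F) ↔ ∃ k : ℤ, c = k * a := fun c => by
    rw [← e0]; exact hS0 c
  have hS1' : ∀ c : ℚ, (0, c) ∈ L1 (lat F) ↔ ∃ k : ℤ, c = k * b := fun c => by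
    rw [← e1]; exact hS1 c
  have hall := (shf_all hF ha hb hS0' hS1').1
  have hpos := NF_pos hF
  rw [hN', hN, mul_assoc] at hall
  rw [hN] at hpos
  have hDq : (D : ℚ) ≠ 0 := by
    have : D ≠ 0 := by omega
    exact_mod_cast this
  have hab : a * b = 1 := by
    have := mul_left_cancel₀ hDq ((mul_one (D : ℚ)).trans hall)
    exact this.symm
  have hdet : a * b - 0 * 0 = 1 := by rw [hab]; ring
  have g1 : (bas a 0 0 b F).1 ∈ R2 := by simpa [bas] using hA
  have g2 : (bas a 0 0 b F).2 ∈ R2 := by simpa [bas] using hB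
  have hN1 : NF (bas a 0 0 b F) = 1 := by
    rw [NF, unit_frame (isFr_bas hdet hF) g1 g2, NN_R2]
  rw [NF_bas hdet, hN] at hN1
  exact hN1

/-- `F'` is a frame of index `< D` representing the class of `F`. -/
private def Rp (D : ℕ) (F F' : W × W) : Prop :=
  IsFr F' ∧ NF F' < D ∧ ((NF F < D ∧ Cn D F F') ∨
    (NF F = D ∧ ∃ p q : ℚ × ℚ, p ≠ 0 ∧ q ≠ 0 ∧ Sm D (vec F p) (vec F' q)))

private theorem rp_exists {D : ℕ} (hD : 2 ≤ D) {F : W × W} (hF : IsFr F) (hN : NF F ≤ D) :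
    ∃ F', Rp D F F' := by
  rcases lt_or_eq_of_le hN with h | h
  · exact ⟨F, hF, h, Or.inl ⟨h, Cn.refl F⟩⟩
  · obtain ⟨p, hp, hA⟩ := al_exists hD hF h
    have hA' := hA
    obtain ⟨Y, hY1, hY2⟩ := hA
    refine ⟨(vec F p, Y), hY1, hY2, Or.inr ⟨h, p, (1, 0), hp, ne10, ?_⟩⟩
    rw [vec10]
    exact sm_self hA'

private theorem rp_unique {D : ℕ} {F F' F'' : W × W} (hF : IsFr F) (h : Rp D F F')
    (h' : Rp D F F'') : Cn D F' F'' := by
  obtain ⟨f1, n1, h⟩ := h
  obtain ⟨f2, n2, h'⟩ := h'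
  rcases h with ⟨hn, hc⟩ | ⟨hn, p, q, hp, hq, hs⟩
  · rcases h' with ⟨_, hc'⟩ | ⟨hn', _⟩
    · exact hc.symm.trans hc'
    · omega
  · rcases h' with ⟨hn', _⟩ | ⟨_, p', q', hp', hq', hs'⟩
    · omega
    · have h1 := sd hF hn hp hp' (al_of_sm hs).1 (al_of_sm hs').1
      have h2 := sm_trans (sm_symm hs) (sm_trans h1 hs')
      exact cn_of_sm f1 f2 n1 n2 hq hq' h2

private theorem rp_bas {D : ℕ} {F F' : W × W} {a b c d : ℚ} (hd : a * d - b * c = 1)
    (h : Rp D F F') : Rp D (bas a b c d F) F' := by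
  obtain ⟨f1, n1, h⟩ := h
  refine ⟨f1, n1, ?_⟩
  rw [NF_bas hd]
  rcases h with ⟨hn, hc⟩ | ⟨hn, p, q, hp, hq, hs⟩
  · exact Or.inl ⟨hn, (Cn.base F a b c d hd).symm.trans hc⟩
  · refine Or.inr ⟨hn, (d * p.1 - b * p.2, a * p.2 - c * p.1), q, ?_, hq, ?_⟩
    · intro h0
      apply hp
      have e1 : d * p.1 - b * p.2 = 0 := congrArg Prod.fst h0
      have e2 : a * p.2 - c * p.1 = 0 := congrArg Prod.snd h0
      refine Prod.ext ?_ ?_
      · show p.1 = 0
        linear_combination (-p.1) * hd + a * e1 + b * e2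
      · show p.2 = 0
        linear_combination (-p.2) * hd + c * e1 + d * e2
    · rw [vec_bas]
      have e : ((a * (d * p.1 - b * p.2) + b * (a * p.2 - c * p.1),
          c * (d * p.1 - b * p.2) + d * (a * p.2 - c * p.1)) : ℚ × ℚ) = p := by
        refine Prod.ext ?_ ?_
        · show a * (d * p.1 - b * p.2) + b * (a * p.2 - c * p.1) = p.1
          linear_combination p.1 * hd
        · show c * (d * p.1 - b * p.2) + d * (a * p.2 - c * p.1) = p.2
          linear_combination p.2 * hd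
      simp only [e]
      exact hs

private theorem vec_hm (F : W × W) (p : ℚ × ℚ) : vec (hm F) p = (T 1 : RQ) • vec F p := by
  simp only [vec, hm, smul_add]
  rw [smul_comm p.1, smul_comm p.2]

private theorem rp_hm {D : ℕ} {F F' : W × W} (h : Rp D F F') : Rp D (hm F) F' := by
  obtain ⟨f1, n1, h⟩ := h
  refine ⟨f1, n1, ?_⟩
  rw [NF_hm]
  rcases h with ⟨hn, hc⟩ | ⟨hn, p, q, hp, hq, hs⟩
  · exact Or.inl ⟨hn, (Cn.hom F).symm.trans hc⟩
  · refine Or.inr ⟨hn, p, q, hp, hq, ?_⟩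
    rw [vec_hm]
    exact sm_trans (sm_symm (sm_T (al_of_sm hs).1 1)) hs

private theorem rp_shf {D : ℕ} (hD : 2 ≤ D) {F F' G' : W × W} (hF : IsFr F) (h1 : NF F ≤ D)
    (h2 : NF (shf F) ≤ D) (h : Rp D F F') (h' : Rp D (shf F) G') : Cn D F' G' := by
  have hG := isFr_shf hF
  have eG : (shf F).1 = F.1 := rfl
  rcases lt_or_eq_of_le h1 with l1 | l1
  · have hFF : Rp D F F := ⟨hF, l1, Or.inl ⟨l1, Cn.refl F⟩⟩
    rcases lt_or_eq_of_le h2 with l2 | l2
    · have hGG : Rp D (shf F) (shf F) := ⟨hG, l2, Or.inl ⟨l2, Cn.refl _⟩⟩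
      exact ((rp_unique hF h hFF).trans (Cn.shift F l1 l2)).trans (rp_unique hG hGG h')
    · have hGF : Rp D (shf F) F := by
        refine ⟨hF, l1, Or.inr ⟨l2, (1, 0), (1, 0), ne10, ne10, ?_⟩⟩
        rw [vec10, vec10, eG]
        have := al_vec hF l1 ne10
        rw [vec10] at this
        exact sm_self this
      exact (rp_unique hF h hFF).trans (rp_unique hG hGF h')
  · rcases lt_or_eq_of_le h2 with l2 | l2
    · have hGG : Rp D (shf F) (shf F) := ⟨hG, l2, Or.inl ⟨l2, Cn.refl _⟩⟩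
      have hFG : Rp D F (shf F) := by
        refine ⟨hG, l2, Or.inr ⟨l1, (1, 0), (1, 0), ne10, ne10, ?_⟩⟩
        rw [vec10, vec10, eG]
        have := al_vec hG l2 ne10
        rw [vec10, eG] at this
        exact sm_self this
      exact (rp_unique hF h hFG).trans (rp_unique hG hGG h')
    · by_cases a1 : Al D F.1
      · have a1' := a1
        obtain ⟨Y, hY1, hY2⟩ := a1
        have r1 : Rp D F (F.1, Y) := by
          refine ⟨hY1, hY2, Or.inr ⟨l1, (1, 0), (1, 0), ne10, ne10, ?_⟩⟩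
          rw [vec10, vec10]
          exact sm_self a1'
        have r2 : Rp D (shf F) (F.1, Y) := by
          refine ⟨hY1, hY2, Or.inr ⟨l2, (1, 0), (1, 0), ne10, ne10, ?_⟩⟩
          rw [vec10, vec10, eG]
          exact sm_self a1'
        exact (rp_unique hF h r1).trans (rp_unique hG r2 h')
      · by_cases a2 : Al D F.2
        · have a2' := a2
          obtain ⟨Y, hY1, hY2⟩ := a2
          have r1 : Rp D F (F.2, Y) := by
            refine ⟨hY1, hY2, Or.inr ⟨l1, (0, 1), (1, 0), ne01, ne10, ?_⟩⟩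
            rw [vec10, vec01]
            exact sm_self a2'
          have r2 : Rp D (shf F) (F.2, Y) := by
            refine ⟨hY1, hY2, Or.inr ⟨l2, (0, 1), (1, 0), ne01, ne10, ?_⟩⟩
            rw [vec10, vec01]
            exact sm_symm (sm_T a2' 1)
          exact (rp_unique hF h r1).trans (rp_unique hG r2 h')
        · have := both_dead hF l1 l2 a1 a2
          omega

private theorem isFr_bas_iff'' {a b c d : ℚ} (h : a * d - b * c = 1) {F : W × W} :
    IsFr (bas a b c d F) ↔ IsFr F := by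
  constructor
  · intro hF
    have := isFr_bas (a := d) (b := -b) (c := -c) (d := a) (by linarith) hF
    rw [bas_bas] at this
    have e1 : a * d + b * (-c) = 1 := by linarith
    have e2 : a * (-b) + b * a = 0 := by ring
    have e3 : c * d + d * (-c) = 0 := by ring
    have e4 : c * (-b) + d * a = 1 := by linarith
    rwa [e1, e2, e3, e4, bas_one] at this
  · exact isFr_bas h

theorem push {D : ℕ} (hD : 2 ≤ D) {F G : W × W} (hF : IsFr F) (hc : Cn (D + 1) F G)
    (h1 : NF F < D) (h2 : NF G < D) : Cn D F G := by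
  have key : ∀ {F G : W × W}, Cn (D + 1) F G → (IsFr F ↔ IsFr G) ∧ (IsFr F →
      (NF F ≤ D ↔ NF G ≤ D) ∧
      (NF F ≤ D → ∀ F' G', Rp D F F' → Rp D G G' → Cn D F' G')) := by
    intro F G hc
    induction hc with
    | refl F =>
      exact ⟨Iff.rfl, fun hF => ⟨Iff.rfl, fun _ F' G' h h' => rp_unique hF h h'⟩⟩
    | symm _ ih =>
      refine ⟨ih.1.symm, fun hF => ⟨(ih.2 (ih.1.2 hF)).1.symm, fun hN F' G' h h' => ?_⟩⟩
      exact ((ih.2 (ih.1.2 hF)).2 ((ih.2 (ih.1.2 hF)).1.2 hN) G' F' h' h).symm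
    | trans _ _ ih1 ih2 =>
      refine ⟨ih1.1.trans ih2.1, fun hF => ?_⟩
      have hG := ih1.1.1 hF
      refine ⟨(ih1.2 hF).1.trans (ih2.2 hG).1, fun hN F' H' h h' => ?_⟩
      have hNG := (ih1.2 hF).1.1 hN
      obtain ⟨G', hG'⟩ := rp_exists hD hG hNG
      exact ((ih1.2 hF).2 hN F' G' h hG').trans ((ih2.2 hG).2 hNG G' H' hG' h')
    | base F a b c d h =>
      refine ⟨(isFr_bas_iff'' h).symm, fun hF => ⟨by rw [NF_bas h], fun hN F' G' r r' => ?_⟩⟩
      exact rp_unique (isFr_bas h hF) (rp_bas h r) r'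
    | hom F =>
      refine ⟨⟨isFr_hm, isFr_of_hm⟩, fun hF => ⟨by rw [NF_hm], fun hN F' G' r r' => ?_⟩⟩
      exact rp_unique (isFr_hm hF) (rp_hm r) r'
    | shift F h h' =>
      refine ⟨⟨isFr_shf, isFr_of_shf⟩, fun hF => ⟨⟨fun _ => by omega, fun _ => by omega⟩,
        fun hN F' G' r r' => ?_⟩⟩
      exact rp_shf hD hF (by omega) (by omega) r r'
  obtain ⟨hfr, hk⟩ := key hc
  have hG := hfr.1 hF
  exact (hk hF).2 (by omega) F G ⟨hF, h1, Or.inl ⟨h1, Cn.refl F⟩⟩ ⟨hG, h2, Or.inl ⟨h2, Cn.refl G⟩⟩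

end Pool.Agent.TAM
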