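import Mathlib
import Pool.Agent.TAM.Push
import Pool.Agent.TAM.ZM
import Pool.Agent.TAM.FG2

/-!
PROJECT TAM, module Main: the end of the proof.
PLAN. `ZF F`: F = bas a b c d G with ZM G, a d - b c = 1.
zf_shf: `F = (X, Y)` with ZF F and NF (shf F) = 1 implies ZF (shf F). G: ZM, `lat G = R2` (unit_frame), `L0 = L1 = ℤ²`. X = vec G (a,c), Y = vec G (b,d). Let `p0 = α⁻¹ (a,c)`, `q0 = β⁻¹ (b,d)` be primitive integral vectors (uni_primitive_multiple in ℤ²: `s • (a,c)`, s > 0).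
 With `nu = dt p0 q0`: `dt (a,c) (b,d) = 1` so `nu = s s'`, > 0. In F: `(k,0) ∈ L0 (lat F) ↔ k • (a,c) ∈ ℤ² ↔ k ∈ ℤ s`, `(0,k) ∈ L1 (lat F) ↔ k ∈ ℤ s'`; shf_all: `1 = NF (shf F) = NF F * s * s' = nu`, NF F = 1. So `[p0 q0] ∈ SL_2(ℤ)` and `G' = bas [p0 q0] G` is ZM (zm_SL2Z), `F = bas s⁻¹ 0 0 s G'`,
 `shf F = bas s⁻¹ 0 0 s (shf G')`, zm_shf.
zf_unshf: ZF (shf F), NF F = 1 → ZF F: `(X, T Y)` swap: `(TY, -X)`, shf: `(TY, -TX) = hm (Y, -X)`; NF of it = NF F = 1; so zf_shf, then zm_hm for ZF (ZF (hm F) ↔ ZF F: bas and hm commute), swap back.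
path: Cn 2 F G with IsFr F → (ZF F ↔ ZF G) (induction; also carry IsFr F ↔ IsFr G); in the shift step NF < 2 and NF_pos give NF = 1.
push_down: Cn D F G, NF F = NF G = 1, IsFr F → Cn 2 F G: induction on D: D ≤ 2: Cn_mono; D + 1 with D ≥ 2: push.
main: g: `col g` is an integral frame, NF = 1; conn0 and Cn_mono: Cn D e12 (col g); push_down; path; zm_final.
-/

namespace Pool.Agent.TAM

open LaurentPolynomial Matrix

/-- Rational base changes of the frames in `ZM`. -/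
def ZF (F : W × W) : Prop :=
  ∃ G, ZM G ∧ ∃ a b c d : ℚ, a * d - b * c = 1 ∧ F = bas a b c d G

private theorem bas_inv' {a b c d : ℚ} (h : a * d - b * c = 1) (F : W × W) :
    bas d (-b) (-c) a (bas a b c d F) = F := by
  rw [bas_bas]
  have e1 : a * d + b * (-c) = 1 := by linarith
  have e2 : a * (-b) + b * a = 0 := by ring
  have e3 : c * d + d * (-c) = 0 := by ring
  have e4 : c * (-b) + d * a = 1 := by linarith
  rw [e1, e2, e3, e4, bas_one]

private theorem isFr_bas_iff' {a b c d : ℚ} (h : a * d - b * c = 1) {F : W × W} :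
    IsFr (bas a b c d F) ↔ IsFr F := by
  constructor
  · intro hF
    have := isFr_bas (a := d) (b := -b) (c := -c) (d := a) (by linarith) hF
    rwa [bas_inv' h] at this
  · exact isFr_bas h

private theorem zf_bas {F : W × W} (hF : ZF F) {a b c d : ℚ} (h : a * d - b * c = 1) :
    ZF (bas a b c d F) := by
  obtain ⟨G, hG, a', b', c', d', h', rfl⟩ := hF
  refine ⟨G, hG, _, _, _, _, ?_, bas_bas _ _ _ _ _ _ _ _ _⟩
  have : (a' * a + b' * c) * (c' * b + d' * d) - (a' * b + b' * d) * (c' * a + d' * c) =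
      (a' * d' - b' * c') * (a * d - b * c) := by ring
  rw [this, h, h', one_mul]

private theorem zf_bas_iff {F : W × W} {a b c d : ℚ} (h : a * d - b * c = 1) :
    ZF (bas a b c d F) ↔ ZF F := by
  constructor
  · intro hF
    have := zf_bas hF (a := d) (b := -b) (c := -c) (d := a) (by linarith)
    rwa [bas_inv' h] at this
  · intro hF
    exact zf_bas hF h

private theorem hm_bas (a b c d : ℚ) (F : W × W) : hm (bas a b c d F) = bas a b c d (hm F) := by
  simp only [hm, bas]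
  refine Prod.ext ?_ ?_ <;>
  · refine Prod.ext ?_ ?_ <;>
    · simp only [Prod.fst_add, Prod.snd_add, Prod.smul_fst, Prod.smul_snd, smul_eq_C_mul,
        smul_eq_mul]
      ring

private theorem zf_hm {F : W × W} : ZF (hm F) ↔ ZF F := by
  constructor
  · rintro ⟨G, hG, a, b, c, d, h, hF⟩
    have hG' : hm ((T (-1) : RQ) • G.1, (T (-1) : RQ) • G.2) = G := by
      simp only [hm]
      rw [T_smul_T_neg_smul, T_smul_T_neg_smul]
    refine ⟨((T (-1) : RQ) • G.1, (T (-1) : RQ) • G.2), zm_hm.1 (by rwa [hG']), a, b, c, d, h, ?_⟩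
    have h1 : hm F = hm (bas a b c d ((T (-1) : RQ) • G.1, (T (-1) : RQ) • G.2)) := by
      rw [hm_bas, hG', hF]
    have e1 := congrArg (fun F : W × W => (T (-1) : RQ) • F.1) h1
    have e2 := congrArg (fun F : W × W => (T (-1) : RQ) • F.2) h1
    simp only [hm] at e1 e2
    rw [T_neg_smul_T_smul, T_neg_smul_T_smul] at e1 e2
    exact Prod.ext e1 e2
  · rintro ⟨G, hG, a, b, c, d, h, rfl⟩
    exact ⟨hm G, zm_hm.2 hG, a, b, c, d, h, hm_bas _ _ _ _ _⟩

private theorem shf_diag (s t : ℚ) (F : W × W) :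
    shf (bas s 0 0 t F) = bas s 0 0 t (shf F) := by
  simp only [shf, bas]
  refine Prod.ext ?_ ?_
  · simp
  · refine Prod.ext ?_ ?_ <;>
    · simp only [Prod.fst_add, Prod.snd_add, Prod.smul_fst, Prod.smul_snd, smul_eq_C_mul,
        smul_eq_mul, map_zero]
      ring

private theorem prim_iff {G : AddSubgroup (ℚ × ℚ)} {v : ℚ × ℚ} {s : ℚ} (hs : 0 < s)
    (hv : s • v ∈ G) (hp : ∀ c : ℚ, c • (s • v) ∈ G → ∃ k : ℤ, c = k) (c : ℚ) :
    c • v ∈ G ↔ ∃ k : ℤ, c = k * s := by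
  constructor
  · intro hc
    have e : c • v = (c * s⁻¹) • (s • v) := by
      rw [smul_smul, mul_assoc, inv_mul_cancel₀ hs.ne', mul_one]
    rw [e] at hc
    obtain ⟨k, hk⟩ := hp _ hc
    refine ⟨k, ?_⟩
    rw [← hk, mul_assoc, inv_mul_cancel₀ hs.ne', mul_one]
  · rintro ⟨k, rfl⟩
    have e : ((k : ℚ) * s) • v = k • (s • v) := by
      rw [← smul_smul]
      exact Int.cast_smul_eq_zsmul ℚ k (s • v)
    rw [e]
    exact G.zsmul_mem hv k

theorem zf_shf {F : W × W} (h : ZF F) (hN : NF (shf F) = 1) : ZF (shf F) := by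
  obtain ⟨G, hG, a, b, c, d, hd, rfl⟩ := h
  obtain ⟨hGf, hG1, hG2⟩ := zm_fr hG
  have hl : lat G = R2 := unit_frame hGf hG1 hG2
  have hNG : NF (bas a b c d G) = 1 := by
    rw [NF_bas hd, NF, hl, NN_R2]
  have hac : ((a, c) : ℚ × ℚ) ≠ 0 := by
    intro h0
    have ha : a = 0 := congrArg Prod.fst h0
    have hc : c = 0 := congrArg Prod.snd h0
    rw [ha, hc] at hd
    simp at hd
  have hbd : ((b, d) : ℚ × ℚ) ≠ 0 := by
    intro h0
    have hb : b = 0 := congrArg Prod.fst h0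
    have hd0 : d = 0 := congrArg Prod.snd h0
    rw [hb, hd0] at hd
    simp at hd
  obtain ⟨s, hs, hs1, hs2⟩ := uni_primitive_multiple gd_R2.u0 hac
  obtain ⟨t, ht, ht1, ht2⟩ := uni_primitive_multiple gd_R2.u1 hbd
  have hS0 : ∀ k : ℚ, (k, 0) ∈ L0 (lat (bas a b c d G)) ↔ ∃ j : ℤ, k = j * s := by
    intro k
    rw [mem_L0_bas hd, hl, ← prim_iff hs hs1 hs2 k]
    have : ((a * (k, (0 : ℚ)).1 + b * (k, (0 : ℚ)).2, c * (k, (0 : ℚ)).1 + d * (k, (0 : ℚ)).2) :
        ℚ × ℚ) = k • (a, c) := by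
      refine Prod.ext ?_ ?_ <;> simp [mul_comm]
    rw [this]
  have hS1 : ∀ k : ℚ, (0, k) ∈ L1 (lat (bas a b c d G)) ↔ ∃ j : ℤ, k = j * t := by
    intro k
    rw [mem_L1_bas hd, hl, ← prim_iff ht ht1 ht2 k]
    have : ((a * ((0 : ℚ), k).1 + b * ((0 : ℚ), k).2, c * ((0 : ℚ), k).1 + d * ((0 : ℚ), k).2) :
        ℚ × ℚ) = k • (b, d) := by
      refine Prod.ext ?_ ?_ <;> simp [mul_comm]
    rw [this]
  have hall := (shf_all (isFr_bas hd hGf) hs ht hS0 hS1).1
  rw [hN, hNG] at hall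
  have hst : s * t = 1 := by
    have : (1 : ℚ) = 1 * s * t := by exact_mod_cast hall
    linarith
  obtain ⟨m1, n1, h1⟩ := (mem_L0_R2 _).1 hs1
  obtain ⟨m2, n2, h2⟩ := (mem_L1_R2 _).1 ht1
  have hm1 : s * a = m1 := congrArg Prod.fst h1
  have hn1 : s * c = n1 := congrArg Prod.snd h1
  have hm2 : t * b = m2 := congrArg Prod.fst h2
  have hn2 : t * d = n2 := congrArg Prod.snd h2
  have hdet : m1 * n2 - m2 * n1 = 1 := by
    have : (m1 : ℚ) * n2 - m2 * n1 = 1 := by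
      rw [← hm1, ← hn1, ← hm2, ← hn2]
      have : s * a * (t * d) - t * b * (s * c) = (s * t) * (a * d - b * c) := by ring
      rw [this, hst, hd, one_mul]
    exact_mod_cast this
  have hG' := zm_SL2Z hG m1 m2 n1 n2 hdet
  refine ⟨shf (bas m1 m2 n1 n2 G), zm_shf.2 hG', s⁻¹, 0, 0, s, ?_, ?_⟩
  · rw [inv_mul_cancel₀ hs.ne']; ring
  · rw [← shf_diag, bas_bas]
    have e1 : (m1 : ℚ) * s⁻¹ + m2 * 0 = a := by
      rw [← hm1]; field_simp; ring
    have e2 : (m1 : ℚ) * 0 + m2 * s = b := by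
      rw [← hm2]
      have : s * a * 0 + t * b * s = (s * t) * b := by ring
      linear_combination b * hst
    have e3 : (n1 : ℚ) * s⁻¹ + n2 * 0 = c := by
      rw [← hn1]; field_simp; ring
    have e4 : (n1 : ℚ) * 0 + n2 * s = d := by
      rw [← hn2]
      linear_combination d * hst
    rw [e1, e2, e3, e4]

theorem zf_unshf {F : W × W} (h : ZF (shf F)) (hN : NF F = 1) : ZF F := by
  have hsw : (0 : ℚ) * 0 - (-1) * 1 = 1 := by norm_num
  have h1 : ZF (bas 0 (-1) 1 0 (shf F)) := zf_bas h hsw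
  have e : shf (bas 0 (-1) 1 0 (shf F)) = hm (bas 0 (-1) 1 0 F) := by
    simp only [shf, hm, bas]
    refine Prod.ext ?_ ?_
    · simp
    · simp
  have h2 : NF (shf (bas 0 (-1) 1 0 (shf F))) = 1 := by
    rw [e, NF_hm, NF_bas hsw, hN]
  have h3 := zf_shf h1 h2
  rw [e, zf_hm, zf_bas_iff hsw] at h3
  exact h3

theorem zf_path {F G : W × W} (hF : IsFr F) (hc : Cn 2 F G) : ZF F ↔ ZF G := by
  have key : ∀ {F G : W × W}, Cn 2 F G → (IsFr F ↔ IsFr G) ∧ (IsFr F → (ZF F ↔ ZF G)) := by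
    intro F G hc
    induction hc with
    | refl F => exact ⟨Iff.rfl, fun _ => Iff.rfl⟩
    | symm _ ih => exact ⟨ih.1.symm, fun h => (ih.2 (ih.1.2 h)).symm⟩
    | trans _ _ ih1 ih2 =>
      exact ⟨ih1.1.trans ih2.1, fun h => (ih1.2 h).trans (ih2.2 (ih1.1.1 h))⟩
    | base F a b c d h => exact ⟨(isFr_bas_iff' h).symm, fun _ => (zf_bas_iff h).symm⟩
    | hom F => exact ⟨⟨isFr_hm, isFr_of_hm⟩, fun _ => zf_hm.symm⟩
    | shift F h h' =>
      refine ⟨⟨isFr_shf, isFr_of_shf⟩, fun hF => ?_⟩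
      have p1 := NF_pos hF
      have p2 := NF_pos (isFr_shf hF)
      have q1 : NF F = 1 := by omega
      have q2 : NF (shf F) = 1 := by omega
      exact ⟨fun hz => zf_shf hz q2, fun hz => zf_unshf hz q1⟩
  exact (key hc).2 hF

theorem push_down {D : ℕ} {F G : W × W} (hF : IsFr F) (hc : Cn D F G) (h1 : NF F = 1)
    (h2 : NF G = 1) : Cn 2 F G := by
  induction D with
  | zero => exact Cn_mono (by omega) hc
  | succ D ih =>
    by_cases hD : 2 ≤ D
    · exact ih (push hD hF hc (by omega) (by omega))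
    · exact Cn_mono (by omega) hc

private theorem isFr_col (g : SpecialLinearGroup (Fin 2) (LaurentPolynomial ℤ)) :
    IsFr (col g) ∧ (col g).1 ∈ R2 ∧ (col g).2 ∈ R2 := by
  refine ⟨⟨0, ?_⟩, ⟨isZ_toQ _, isZ_toQ _⟩, ⟨isZ_toQ _, isZ_toQ _⟩⟩
  have hdet := g.2
  rw [Matrix.det_fin_two] at hdet
  have := congrArg toQ hdet
  rw [map_sub, map_mul, map_mul, map_one] at this
  rw [T_zero, ← this]
  show toQ (g 0 0) * toQ (g 1 1) - toQ (g 1 0) * toQ (g 0 1) =
    toQ (g 0 0) * toQ (g 1 1) - toQ (g 0 1) * toQ (g 1 0)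
  ring

theorem main_e2 : E2 (LaurentPolynomial ℤ) = ⊤ := by
  rw [Subgroup.eq_top_iff']
  intro g
  obtain ⟨hf, h1, h2⟩ := isFr_col g
  have hN : NF (col g) = 1 := by
    rw [NF, unit_frame hf h1 h2, NN_R2]
  obtain ⟨he, he1, he2⟩ := zm_fr zm_one
  have hNe : NF e12 = 1 := by
    rw [NF, unit_frame he he1 he2, NN_R2]
  obtain ⟨D, hD⟩ := conn0 hf
  have hc := push_down he hD hNe hN
  have hz : ZF e12 := ⟨e12, zm_one, 1, 0, 0, 1, by norm_num, (bas_one _).symm⟩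
  obtain ⟨G, hG, a, b, c, d, hd, hgG⟩ := (zf_path he hc).1 hz
  exact zm_final hG hd hgG

theorem main_fg : Group.FG (SpecialLinearGroup (Fin 2) (LaurentPolynomial ℤ)) := by
  have h := e2_fg
  rw [main_e2] at h
  exact Group.fg_def.2 h

end Pool.Agent.TAM
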