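import Mathlib
import Pool.Agent.TAM.Main

/-!
PROJECT TAM, module Four: `SL_2(ℤ[T;T⁻¹])` is generated by four elementary matrices.
-/

namespace Pool.Agent.TAM

open LaurentPolynomial Matrix

section

variable {A : Type*} [CommRing A]

private def up (r : A) : SpecialLinearGroup (Fin 2) A :=
  ⟨!![1, r; 0, 1], by simp [Matrix.det_fin_two]⟩

private def lo (r : A) : SpecialLinearGroup (Fin 2) A :=
  ⟨!![1, 0; r, 1], by simp [Matrix.det_fin_two]⟩

private theorem up_add (r s : A) : up (r + s) = up r * up s := by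
  apply Subtype.ext
  show !![1, r + s; 0, 1] = !![1, r; 0, 1] * !![1, s; 0, 1]
  ext i j
  fin_cases i <;> fin_cases j <;> simp [Matrix.mul_apply, Fin.sum_univ_two, add_comm]

private theorem up_zero : up (0 : A) = 1 := by
  apply Subtype.ext
  show !![1, (0 : A); 0, 1] = 1
  ext i j
  fin_cases i <;> fin_cases j <;> simp

private theorem up_neg (r : A) : up (-r) = (up r)⁻¹ := by
  rw [eq_inv_iff_mul_eq_one, ← up_add, neg_add_cancel, up_zero]

private theorem lo_neg (r : A) : lo (-r) = (lo r)⁻¹ := by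
  rw [eq_inv_iff_mul_eq_one]
  apply Subtype.ext
  show !![1, 0; -r, 1] * !![1, 0; r, 1] = 1
  ext i j
  fin_cases i <;> fin_cases j <;> simp [Matrix.mul_apply, Fin.sum_univ_two]

private theorem conj_w (r : A) :
    (up 1 * lo (-1) * up 1) * up r * (up 1 * lo (-1) * up 1)⁻¹ = lo (-r) := by
  rw [mul_inv_eq_iff_eq_mul]
  apply Subtype.ext
  show !![1, (1 : A); 0, 1] * !![1, 0; -1, 1] * !![1, 1; 0, 1] * !![1, r; 0, 1] =
    !![1, 0; -r, 1] * (!![1, 1; 0, 1] * !![1, 0; -1, 1] * !![1, 1; 0, 1])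
  ext i j
  fin_cases i <;> fin_cases j <;> simp [Matrix.mul_apply, Fin.sum_univ_two]

private theorem diag_eq (u v : A) (h : u * v = 1) (r : A) :
    ((up u * lo (-v) * up u) * (up 1 * lo (-1) * up 1)⁻¹) * up r =
      up (u * u * r) * ((up u * lo (-v) * up u) * (up 1 * lo (-1) * up 1)⁻¹) := by
  have hd : (up u * lo (-v) * up u) * (up 1 * lo (-1) * up 1)⁻¹ =
      ⟨!![u, 0; 0, v], by simp [Matrix.det_fin_two, h]⟩ := by
    rw [mul_inv_eq_iff_eq_mul]
    apply Subtype.ext
    show !![1, u; 0, 1] * !![1, 0; -v, 1] * !![1, u; 0, 1] =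
      !![u, 0; 0, v] * (!![1, 1; 0, 1] * !![1, 0; -1, 1] * !![1, 1; 0, 1])
    ext i j
    fin_cases i <;> fin_cases j <;>
      simp [Matrix.mul_apply, Fin.sum_univ_two, h]
    linear_combination (-1 : A) * h
  rw [hd]
  apply Subtype.ext
  show !![u, 0; 0, v] * !![1, r; 0, 1] = !![1, u * u * r; 0, 1] * !![u, 0; 0, v]
  ext i j
  fin_cases i <;> fin_cases j <;> simp [Matrix.mul_apply, Fin.sum_univ_two]
  linear_combination (-(u * r)) * h

end

/-- The subgroup generated by four elementary matrices is everything. -/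
theorem closure_four :
    Subgroup.closure {g : SpecialLinearGroup (Fin 2) (LaurentPolynomial ℤ) |
      (g : Matrix (Fin 2) (Fin 2) (LaurentPolynomial ℤ)) = !![1, 1; 0, 1] ∨
      (g : Matrix (Fin 2) (Fin 2) (LaurentPolynomial ℤ)) = !![1, T 1; 0, 1] ∨
      (g : Matrix (Fin 2) (Fin 2) (LaurentPolynomial ℤ)) = !![1, 0; 1, 1] ∨
      (g : Matrix (Fin 2) (Fin 2) (LaurentPolynomial ℤ)) = !![1, 0; T (-1), 1]} = ⊤ := by
  classical
  rw [eq_top_iff, ← main_e2]
  set H := Subgroup.closure {g : SpecialLinearGroup (Fin 2) (LaurentPolynomial ℤ) |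
      (g : Matrix (Fin 2) (Fin 2) (LaurentPolynomial ℤ)) = !![1, 1; 0, 1] ∨
      (g : Matrix (Fin 2) (Fin 2) (LaurentPolynomial ℤ)) = !![1, T 1; 0, 1] ∨
      (g : Matrix (Fin 2) (Fin 2) (LaurentPolynomial ℤ)) = !![1, 0; 1, 1] ∨
      (g : Matrix (Fin 2) (Fin 2) (LaurentPolynomial ℤ)) = !![1, 0; T (-1), 1]} with hH
  have m1 : up 1 ∈ H := Subgroup.subset_closure (Or.inl rfl)
  have m2 : up (T 1) ∈ H := Subgroup.subset_closure (Or.inr (Or.inl rfl))
  have m3 : lo (-1) ∈ H := by
    rw [lo_neg]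
    exact H.inv_mem (Subgroup.subset_closure (Or.inr (Or.inr (Or.inl rfl))))
  have m4 : lo (-(T (-1))) ∈ H := by
    rw [lo_neg]
    exact H.inv_mem (Subgroup.subset_closure (Or.inr (Or.inr (Or.inr rfl))))
  have hw : up 1 * lo (-1) * up 1 ∈ H := H.mul_mem (H.mul_mem m1 m3) m1
  have hh : (up (T 1) * lo (-(T (-1))) * up (T 1)) * (up 1 * lo (-1) * up 1)⁻¹ ∈ H :=
    H.mul_mem (H.mul_mem (H.mul_mem m2 m4) m2) (H.inv_mem hw)
  have hT : (T 1 * T (-1) : LaurentPolynomial ℤ) = 1 := by
    rw [← T_add, add_neg_cancel, T_zero]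
  have stepup : ∀ r : LaurentPolynomial ℤ, up r ∈ H → up (T 1 * T 1 * r) ∈ H := by
    intro r hr
    have e := diag_eq (T 1) (T (-1)) hT r
    have : up (T 1 * T 1 * r) =
        ((up (T 1) * lo (-(T (-1))) * up (T 1)) * (up 1 * lo (-1) * up 1)⁻¹) * up r *
        ((up (T 1) * lo (-(T (-1))) * up (T 1)) * (up 1 * lo (-1) * up 1)⁻¹)⁻¹ := by
      rw [e, mul_inv_cancel_right]
    rw [this]
    exact H.mul_mem (H.mul_mem hh hr) (H.inv_mem hh)
  have stepdown : ∀ r : LaurentPolynomial ℤ, up (T 1 * T 1 * r) ∈ H → up r ∈ H := by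
    intro r hr
    have e := diag_eq (T 1) (T (-1)) hT r
    have : up r =
        ((up (T 1) * lo (-(T (-1))) * up (T 1)) * (up 1 * lo (-1) * up 1)⁻¹)⁻¹ *
        (up (T 1 * T 1 * r) *
        ((up (T 1) * lo (-(T (-1))) * up (T 1)) * (up 1 * lo (-1) * up 1)⁻¹)) := by
      rw [← e, inv_mul_cancel_left]
    rw [this]
    exact H.mul_mem (H.inv_mem hh) (H.mul_mem hr hh)
  have hpow : ∀ n : ℤ, up (T n) ∈ H ∧ up (T (n + 1)) ∈ H := by
    have hs : ∀ n : ℤ, (T 1 * T 1 * T n : LaurentPolynomial ℤ) = T (n + 2) := by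
      intro n
      rw [← T_add, ← T_add]
      congr 1
      ring
    intro n
    induction n using Int.induction_on with
    | zero =>
      refine ⟨?_, ?_⟩
      · rw [T_zero]; exact m1
      · rw [zero_add]; exact m2
    | succ k ih =>
      refine ⟨ih.2, ?_⟩
      have := stepup _ ih.1
      rw [hs] at this
      convert this using 3
      ring
    | pred k ih =>
      refine ⟨?_, ?_⟩
      · apply stepdown
        rw [hs]
        convert ih.2 using 3
        ring
      · convert ih.1 using 3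
        ring
  have hall : ∀ r : LaurentPolynomial ℤ, up r ∈ H := by
    intro r
    induction r using LaurentPolynomial.induction_on' with
    | add p q hp hq =>
      rw [up_add]
      exact H.mul_mem hp hq
    | C_mul_T n a =>
      have hz : ∀ k : ℤ, up ((k : LaurentPolynomial ℤ) * T n) ∈ H := by
        intro k
        induction k using Int.induction_on with
        | zero => rw [Int.cast_zero, zero_mul, up_zero]; exact H.one_mem
        | succ j ih =>
          have : (((j : ℤ) + 1 : ℤ) : LaurentPolynomial ℤ) * T n =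
              ((j : ℤ) : LaurentPolynomial ℤ) * T n + T n := by
            push_cast; ring
          rw [this, up_add]
          exact H.mul_mem ih (hpow n).1
        | pred j ih =>
          have : ((-(j : ℤ) - 1 : ℤ) : LaurentPolynomial ℤ) * T n =
              ((-(j : ℤ) : ℤ) : LaurentPolynomial ℤ) * T n + -(T n) := by
            push_cast; ring
          rw [this, up_add, up_neg]
          exact H.mul_mem ih (H.inv_mem (hpow n).1)
      have := hz a
      have e : (C a : LaurentPolynomial ℤ) = (a : LaurentPolynomial ℤ) := by simp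
      rw [e]
      exact this
  rw [E2, Subgroup.closure_le]
  rintro g ⟨r, hr | hr⟩
  · have : g = up r := Subtype.ext hr
    rw [this]
    exact hall r
  · have : g = lo r := Subtype.ext hr
    rw [this]
    have e := conj_w (-r)
    rw [neg_neg] at e
    show lo r ∈ H
    rw [← e]
    exact H.mul_mem (H.mul_mem hw (hall (-r))) (H.inv_mem hw)

end Pool.Agent.TAM
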